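import Mathlib

set_option autoImplicit false

/-!
# Project LT (MP_271752_gt): definitions used in the final statement
-/

open scoped BigOperators Topology InnerProductSpace

namespace Pool.Agent.LT

/-! ### groups -/

/-- A finitely additive probability measure defined on all subsets of `N`. -/
structure FAM (N : Type) where
  /-- the value on a subset -/
  val : Set N → ℝ
  nonneg : ∀ A, 0 ≤ val A
  univ : val Set.univ = 1
  union : ∀ A B, Disjoint A B → val (A ∪ B) = val A + val B

/-- `N` is amenable: there is a finitely additive probability measure on the set of all subsets of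
`N` which is invariant under left translations. -/
def IsAmenable (N : Type) [Group N] : Prop :=
  ∃ μ : FAM N, ∀ (g : N) (A : Set N), μ.val ((fun x => g * x) '' A) = μ.val A

/-- Sofic groups: for every finite subset `F` and every `e > 0` there is a map `σ` to the group of
permutations of a nonempty finite set which is multiplicative on `F` and acts freely on `F`, up to
an `e`-fraction of the points. -/
def IsSofic (G : Type) [Group G] : Prop :=
  ∀ (F : Finset G) (e : ℝ), 0 < e → ∃ (n : ℕ) (σ : G → Equiv.Perm (Fin n)), 0 < n ∧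
    (∀ g ∈ F, ∀ h ∈ F,
      ((Finset.univ.filter fun v => σ (g * h) v ≠ σ g (σ h v)).card : ℝ) ≤ e * n) ∧
    ∀ g ∈ F, g ≠ 1 → ((Finset.univ.filter fun v => σ g v = v).card : ℝ) ≤ e * n

/-- A resolution `0 → C_d → ... → C_0 → ℤ → 0` of the trivial module by finitely generated free
left `ℤG`-modules with bases: `C_p = (ℤG)^(n p)` is the module of row vectors, the differential
`C_{p+1} → C_p` is multiplication with the matrix `D p` from the right, and the augmentation
`C_0 → ℤ` is the homomorphism to the trivial module which maps the `j`-th basis element to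
`aug j`. -/
structure FinRes (G : Type) [Group G] where
  /-- the length -/
  d : ℕ
  /-- the ranks -/
  n : ℕ → ℕ
  n_zero : ∀ p, d < p → n p = 0
  /-- the differentials -/
  D : ∀ p, Matrix (Fin (n (p + 1))) (Fin (n p)) (MonoidAlgebra ℤ G)
  /-- the augmentation -/
  aug : Fin (n 0) → ℤ
  aug_surj : ∃ x : Fin (n 0) → ℤ, ∑ j, x j * aug j = 1
  exact_zero : ∀ x : Fin (n 0) → MonoidAlgebra ℤ G,
    ∑ j, ((x j).coeff.sum fun _ c => c) * aug j = 0 ↔ ∃ y, x = Matrix.vecMul y (D 0)
  exact_succ : ∀ p (x : Fin (n (p + 1)) → MonoidAlgebra ℤ G),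
    Matrix.vecMul x (D p) = 0 ↔ ∃ y, x = Matrix.vecMul y (D (p + 1))

/-! ### operators -/

section

variable {G : Type} [Group G] {m n : ℕ}

/-- the Hilbert space `ℓ²(G)^n` -/
abbrev Hil (G : Type) (n : ℕ) : Type := lp (fun _ : G × Fin n => ℂ) 2

open Classical in
/-- the orthonormal basis -/
noncomputable def bv (x : G × Fin n) : Hil G n := lp.single 2 x (1 : ℂ)

/-- `T` is the bounded operator `x ↦ x A` -/
def IsRop (A : Matrix (Fin m) (Fin n) (MonoidAlgebra ℤ G)) (T : Hil G m →L[ℂ] Hil G n) : Prop :=
  ∀ (g : G) (j : Fin m), T (bv (g, j)) = ∑ i, (A j i).coeff.sum fun h c => (c : ℂ) • bv (g * h, i)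

/-- the von Neumann trace of a `G`-equivariant operator on `ℓ²(G)^n` -/
noncomputable def trG (T : Hil G n →L[ℂ] Hil G n) : ℝ :=
  ∑ j, (inner ℂ (bv ((1 : G), j)) (T (bv (1, j)))).re

/-- `μ` is the spectral measure of the positive `G`-equivariant operator `T` with respect to the
von Neumann trace: the measure on the real line with compact support in `[0,∞)` and with the
moments `tr (T^k)` (a measure with compact support is determined by its moments). So
`μ [0,x]` is the spectral density function of `T`, the trace of the spectral projection. -/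
def IsSpec (T : Hil G n →L[ℂ] Hil G n) (μ : MeasureTheory.Measure ℝ) : Prop :=
  MeasureTheory.IsFiniteMeasure μ ∧ (∃ c : ℝ, μ (Set.Icc 0 c)ᶜ = 0) ∧
    ∀ k : ℕ, ∫ s, s ^ k ∂μ = trG (T ^ k)

/-- The positive `G`-equivariant operator `T` is of determinant class (its Fuglede-Kadison
determinant is positive), and `x` is the logarithm of its Fuglede-Kadison determinant:
`∫_{0+}^∞ log s dμ = x` for the spectral measure `μ`. -/
def HasLogDet (T : Hil G n →L[ℂ] Hil G n) (x : ℝ) : Prop :=
  ∃ μ, IsSpec T μ ∧ MeasureTheory.IntegrableOn Real.log (Set.Ioi 0) μ ∧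
    ∫ s in Set.Ioi 0, Real.log s ∂μ = x

/-- the Laplacians of the complex `c` -/
noncomputable def lap {n : ℕ → ℕ} (c : ∀ p, Hil G (n (p + 1)) →L[ℂ] Hil G (n p)) :
    ∀ p, Hil G (n p) →L[ℂ] Hil G (n p)
  | 0 => c 0 ∘L (ContinuousLinearMap.adjoint (c 0))
  | p + 1 => c (p + 1) ∘L (ContinuousLinearMap.adjoint (c (p + 1))) +
      (ContinuousLinearMap.adjoint (c p)) ∘L c p

/-- the squares of the absolute values of the differentials of the complex `c` -/
noncomputable def absSq {n : ℕ → ℕ} (c : ∀ p, Hil G (n (p + 1)) →L[ℂ] Hil G (n p)) (p : ℕ) :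
    Hil G (n (p + 1)) →L[ℂ] Hil G (n (p + 1)) :=
  (ContinuousLinearMap.adjoint (c p)) ∘L c p

end

/-- the final statement -/
def LTStatement (G : Type) [Group G] (C : FinRes G) : Prop :=
  ∃ c : ∀ p, Hil G (C.n (p + 1)) →L[ℂ] Hil G (C.n p),
    (∀ p, IsRop (C.D p) (c p)) ∧
    (∀ p, Function.Injective (lap c p)) ∧
    (∀ p, ∃ x, HasLogDet (absSq c p) x) ∧
    ∃ l : ℕ → ℝ, (∀ p, HasLogDet (lap c p) (l p)) ∧
      ∑ p ∈ Finset.range (C.d + 1), (-1 : ℝ) ^ p * p * l p = 0

end Pool.Agent.LT
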