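import Mathlib

set_option autoImplicit false

/-!
# Project LT: internal definitions (chains, complexes, models)

Row vector convention everywhere: `x ↦ x ᵥ* A`.
Chains are finitely supported functions on `G × Fin n`; the pair `(g,j)` is the basis element
`g e_j`. A family `a : Fin m → (G × Fin n →₀ ℤ)` is an `m × n` matrix over the group ring.
-/

open scoped BigOperators Topology

namespace Pool.Agent.LT

section chains

variable {G : Type} [Group G]

/-- left translation of a chain by `g` -/
noncomputable def shift {n : ℕ} (g : G) (a : G × Fin n →₀ ℤ) : G × Fin n →₀ ℤ :=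
  a.mapDomain fun y => (g * y.1, y.2)

/-- right multiplication with the group ring matrix `a`: the `ℤG`-linear map
`g e_j ↦ g a_j` -/
noncomputable def bdL {m n : ℕ} (a : Fin m → (G × Fin n →₀ ℤ)) :
    (G × Fin m →₀ ℤ) →ₗ[ℤ] (G × Fin n →₀ ℤ) :=
  Finsupp.linearCombination ℤ fun x : G × Fin m => shift x.1 (a x.2)

/-- product of group ring matrices -/
noncomputable def mulG {m n l : ℕ} (a : Fin m → (G × Fin n →₀ ℤ)) (b : Fin n → (G × Fin l →₀ ℤ)) :
    Fin m → (G × Fin l →₀ ℤ) := fun j => bdL b (a j)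

/-- unit matrix -/
noncomputable def oneG (G : Type) [Group G] (n : ℕ) : Fin n → (G × Fin n →₀ ℤ) :=
  fun j => Finsupp.single (1, j) 1

/-- powers of a group ring matrix -/
noncomputable def powG {n : ℕ} (a : Fin n → (G × Fin n →₀ ℤ)) : ℕ → Fin n → (G × Fin n →₀ ℤ)
  | 0 => oneG G n
  | k + 1 => mulG (powG a k) a

/-- the adjoint of a group ring matrix -/
noncomputable def starG {m n : ℕ} (a : Fin m → (G × Fin n →₀ ℤ)) :
    Fin n → (G × Fin m →₀ ℤ) :=
  fun i => ∑ j, (a j).sum fun y c => if y.2 = i then Finsupp.single (y.1⁻¹, j) c else 0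

/-- the trace of a group ring matrix -/
noncomputable def trZ {n : ℕ} (a : Fin n → (G × Fin n →₀ ℤ)) : ℤ := ∑ j, a j (1, j)

/-- The complexes used in the proof. Position `p + 1` is `C_p`, position `0` is zero. -/
structure Cpl (G : Type) [Group G] where
  /-- the modules at the positions `> d` are zero -/
  d : ℕ
  /-- the ranks -/
  nn : ℕ → ℕ
  nn_zero : nn 0 = 0
  nn_top : ∀ p, d < p → nn p = 0
  /-- the differential from position `p + 1` to position `p` -/
  D : ∀ p, Fin (nn (p + 1)) → (G × Fin (nn p) →₀ ℤ)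
  sq : ∀ p j, bdL (D p) (D (p + 1) j) = 0
  /-- chains in `C_0` all of whose components have zero augmentation are boundaries -/
  ex1 : ∀ x : G × Fin (nn 1) →₀ ℤ,
    (∀ j, (x.sum fun y c => if y.2 = j then c else 0) = 0) → ∃ y, bdL (D 1) y = x
  ex : ∀ p (x : G × Fin (nn (p + 2)) →₀ ℤ), bdL (D (p + 1)) x = 0 → ∃ y, bdL (D (p + 2)) y = x

namespace Cpl

variable (C : Cpl G)

open Classical in
/-- a finite set containing `1` and the supports of all differentials -/
noncomputable def S : Finset G :=
  insert 1 ((Finset.range (C.d + 1)).biUnion fun p =>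
    Finset.univ.biUnion fun j => (C.D p j).support.image fun y => y.1)

/-- the fillable chains at position `q + 1` -/
def cyc : ∀ q, (G × Fin (C.nn (q + 1)) →₀ ℤ) → Prop
  | 0, x => ∀ j, (x.sum fun y c => if y.2 = j then c else 0) = 0
  | q + 1, x => bdL (C.D (q + 1)) x = 0

end Cpl

end chains

/-- A model: a finite set with `ν` elements and for every group element a permutation of it. -/
structure Mod (G : Type) [Group G] (ν : ℕ) where
  /-- the permutations, `act v g = v.g` -/
  act : Fin ν → G → Fin ν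
  act_one : ∀ v, act v 1 = v
  inj : ∀ g, Function.Injective fun v => act v g

section models

variable {G : Type} [Group G] {ν : ℕ}

open Classical in
/-- the `F`-good vertices -/
noncomputable def Mod.good (M : Mod G ν) (F : Finset G) : Finset (Fin ν) :=
  Finset.univ.filter fun v =>
    (∀ g ∈ F, ∀ h ∈ F, M.act (M.act v g) h = M.act v (g * h)) ∧
    ∀ g ∈ F, ∀ h ∈ F, M.act v g = M.act v h → g = h

/-- the number of vertices which are not `F`-good -/
noncomputable def Mod.bad (M : Mod G ν) (F : Finset G) : ℕ := ((M.good F)ᶜ).card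

/-- push forward of a finitely supported function along the orbit map of `v` -/
noncomputable def push {n : ℕ} (M : Mod G ν) (v : Fin ν)
    (a : G × Fin n →₀ ℤ) : Fin ν × Fin n → ℤ :=
  ⇑(a.mapDomain fun y => (M.act v y.1, y.2))

/-- pull back of a function along the orbit map of `v`, restricted to `W` -/
noncomputable def pull {n : ℕ} (M : Mod G ν) (W : Finset G) (v : Fin ν)
    (x : Fin ν × Fin n → ℤ) : G × Fin n →₀ ℤ :=
  ∑ y ∈ W ×ˢ (Finset.univ : Finset (Fin n)), Finsupp.single y (x (M.act v y.1, y.2))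

/-- the vertices where the differential from position `q + 1` to position `q` is not trimmed -/
noncomputable def Gd (C : Cpl G) (M : Mod G ν) : ℕ → Finset (Fin ν)
  | 0 => Finset.univ
  | q + 1 => (M.good C.S).filter fun v => ∀ g ∈ C.S, M.act v g ∈ Gd C M q

/-- the finite level differential from position `q + 1` to position `q` -/
noncomputable def dM (C : Cpl G) (M : Mod G ν) (q : ℕ) :
    Matrix (Fin ν × Fin (C.nn (q + 1))) (Fin ν × Fin (C.nn q)) ℤ :=
  Matrix.of fun x => if x.1 ∈ Gd C M q then push M x.1 (C.D q x.2) else 0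

/-- real version of an integer matrix -/
def toR {m n : Type} (A : Matrix m n ℤ) : Matrix m n ℝ := A.map fun c => (c : ℝ)

/-- real version of an integer vector -/
def toV {m : Type} (x : m → ℤ) : m → ℝ := fun i => (x i : ℝ)

/-- the finite level differential, real -/
noncomputable def dR (C : Cpl G) (M : Mod G ν) (q : ℕ) :
    Matrix (Fin ν × Fin (C.nn (q + 1))) (Fin ν × Fin (C.nn q)) ℝ := toR (dM C M q)

/-- the rank of the finite level differential -/
noncomputable def rk (C : Cpl G) (M : Mod G ν) (q : ℕ) : ℕ := (dR C M q).rank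

end models

/-! ### sub-lattices -/

section sublattices

variable {G : Type} [Group G] {ν : ℕ}

/-- integer vectors supported in `A` and orthogonal to all `phi a` -/
def InL {n : ℕ} {ι : Type} (A : Finset (Fin ν)) (phi : ι → Fin ν × Fin n → ℤ)
    (x : Fin ν × Fin n → ℤ) : Prop :=
  (∀ y, y.1 ∉ A → x y = 0) ∧ ∀ a, ∑ y, phi a y * x y = 0

/-- The data produced for a model at position `q + 1` (see lt_proof.md, section 2). -/
structure QD (C : Cpl G) (M : Mod G ν) (q : ℕ) (B F T : Finset G) (K θ : ℝ) where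
  /-- root of the class -/
  r : Fin ν → Fin ν
  r_r : ∀ v, r (r v) = r v
  r_mem : ∀ v, ∃ b ∈ B, M.act (r v) b = v
  /-- the good part -/
  A : Finset (Fin ν)
  A_r : ∀ v, r v ∈ A ↔ v ∈ A
  A_card : ((Aᶜ).card : ℝ) ≤ K * M.bad F
  /-- the index set of the short equations -/
  ι : Type
  inst : Fintype ι
  /-- the equations -/
  phi : ι → Fin ν × Fin (C.nn (q + 1)) → ℤ
  /-- the root of the class containing the support -/
  cl : ι → Fin ν
  phi_supp : ∀ a x, phi a x ≠ 0 → r x.1 = cl a
  phi_ne : ∀ a, phi a ≠ 0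
  phi_le : ∀ a, ∑ x, |(phi a x : ℝ)| ≤ K
  cl_card : ∀ v, (Nat.card {a : ι // cl a = v} : ℝ) ≤ K
  cost : ∑ a, (1 + Real.log (∑ x, |(phi a x : ℝ)|)) ≤ θ * ν + K * M.bad F
  /-- the homotopy -/
  h : Matrix (Fin ν × Fin (C.nn (q + 1))) (Fin ν × Fin (C.nn (q + 2))) ℝ
  h_int : ∀ x, InL A phi x → ∃ y : Fin ν × Fin (C.nn (q + 2)) → ℤ,
    Matrix.vecMul (toV x) h = toV y ∧
    (Matrix.vecMul x (dM C M q) = 0 → Matrix.vecMul y (dM C M (q + 1)) = x)
  h_le : ∀ x y, |h x y| ≤ K
  h_loc : ∀ x y, h x y ≠ 0 → ∃ t ∈ T, y.1 = M.act x.1 t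

/-- the statement `Q_q` (position `q + 1`) -/
def QS (C : Cpl G) (N : Subgroup G) (q : ℕ) : Prop :=
  ∀ θ : ℝ, 0 < θ → ∃ (B F T : Finset G) (K : ℝ), (B : Set G) ⊆ (N : Set G) ∧ 0 ≤ K ∧
    ∀ (ν : ℕ) (M : Mod G ν), Nonempty (QD C M q B F T K θ)

end sublattices

/-! ### linear algebra -/

section linalg

/-- the volume of the parallelepiped spanned by the rows -/
noncomputable def vol {m n : Type} [Fintype m] [DecidableEq m] [Fintype n] (A : Matrix m n ℝ) : ℝ :=
  Real.sqrt (A * A.transpose).det

/-- `log det (A Aᵀ + δ²)` -/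
noncomputable def ld {m n : Type} [Fintype m] [DecidableEq m] [Fintype n] (A : Matrix m n ℝ)
    (δ : ℝ) : ℝ :=
  Real.log (A * A.transpose + (δ ^ 2) • (1 : Matrix m m ℝ)).det

/-- the row space -/
def rs {m n : Type} (A : Matrix m n ℝ) : Submodule ℝ (n → ℝ) := Submodule.span ℝ (Set.range A.row)

/-- linearly independent rows -/
def LI {m n : Type} (A : Matrix m n ℝ) : Prop := LinearIndependent ℝ A.row

/-- the map `x ↦ x A` has norm at most `b` -/
def NB {m n : Type} [Fintype m] [Fintype n] (A : Matrix m n ℝ) (b : ℝ) : Prop :=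
  ∀ x : m → ℝ, Matrix.vecMul x A ⬝ᵥ Matrix.vecMul x A ≤ b ^ 2 * (x ⬝ᵥ x)

/-- the projection onto the orthogonal complement of the row space (if the rows of `A` are
linearly independent) -/
noncomputable def prj {m n : Type} [Fintype m] [DecidableEq m] [Fintype n] [DecidableEq n]
    (A : Matrix m n ℝ) : Matrix n n ℝ :=
  1 - A.transpose * (A * A.transpose)⁻¹ * A

/-- orthonormal rows -/
def ON {m n : Type} [DecidableEq m] [Fintype n] (A : Matrix m n ℝ) : Prop :=
  A * A.transpose = 1

end linalg

end Pool.Agent.LT
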