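import Mathlib
import Pool.Agent.LT.Base

set_option autoImplicit false

/-!
# Project LT, module LAVol: elementary facts on volumes (Gram determinants)
-/

open scoped BigOperators

namespace Pool.Agent.LT

variable {m n k : Type} [Fintype m] [DecidableEq m] [Fintype n] [Fintype k] [DecidableEq k]

lemma li_iff_vecMul_injective {m n : Type} [Fintype m] (A : Matrix m n ℝ) :
    LI A ↔ Function.Injective fun x : m → ℝ => Matrix.vecMul x A := by
  unfold LI
  rw [Matrix.vecMul_injective_iff]

lemma gram_posSemidef (A : Matrix m n ℝ) : (A * A.transpose).PosSemidef := by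
  have h := Matrix.posSemidef_self_mul_conjTranspose A
  rwa [Matrix.conjTranspose_eq_transpose_of_trivial] at h

lemma gram_posDef (A : Matrix m n ℝ) (h : LI A) : (A * A.transpose).PosDef := by
  have h := Matrix.PosDef.mul_conjTranspose_self A ((li_iff_vecMul_injective A).1 h)
  rwa [Matrix.conjTranspose_eq_transpose_of_trivial] at h

lemma vol_nonneg (A : Matrix m n ℝ) : 0 ≤ vol A := Real.sqrt_nonneg _

lemma vol_sq (A : Matrix m n ℝ) : vol A ^ 2 = (A * A.transpose).det :=
  Real.sq_sqrt (gram_posSemidef A).det_nonneg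

lemma vol_pos (A : Matrix m n ℝ) (h : LI A) : 0 < vol A :=
  Real.sqrt_pos.2 (gram_posDef A h).det_pos

lemma li_of_vol_pos (A : Matrix m n ℝ) (h : 0 < vol A) : LI A := by
  rw [li_iff_vecMul_injective]
  have h1 : (A * A.transpose).det ≠ 0 := (Real.sqrt_pos.1 h).ne'
  have h2 : IsUnit (A * A.transpose) := (Matrix.isUnit_iff_isUnit_det _).2 (Ne.isUnit h1)
  have h3 := Matrix.vecMul_injective_iff_isUnit.2 h2
  intro x y hxy
  apply h3
  simp only at hxy ⊢
  rw [← Matrix.vecMul_vecMul, ← Matrix.vecMul_vecMul, hxy]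

lemma toR_mul {l : Type} {m n : Type} [Fintype n] (A : Matrix m n ℤ) (B : Matrix n l ℤ) :
    toR (A * B) = toR A * toR B := by
  ext i j
  simp [toR, Matrix.mul_apply]

lemma toR_transpose {m n : Type} (A : Matrix m n ℤ) : toR A.transpose = (toR A).transpose := by
  ext i j
  simp [toR]

lemma toV_vecMul {m n : Type} [Fintype m] (x : m → ℤ) (A : Matrix m n ℤ) :
    toV (Matrix.vecMul x A) = Matrix.vecMul (toV x) (toR A) := by
  ext j
  simp [toR, toV, Matrix.vecMul, dotProduct]

lemma toV_injective {m : Type} : Function.Injective (toV : (m → ℤ) → m → ℝ) := by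
  intro x y h
  ext i
  have := congrFun h i
  simpa [toV] using this

lemma one_le_vol_int (A : Matrix m n ℤ) (h : LI (toR A)) : 1 ≤ vol (toR A) := by
  unfold vol
  have h1 := (gram_posDef _ h).det_pos
  rw [← toR_transpose, ← toR_mul] at h1 ⊢
  have h2 : (toR (A * A.transpose)).det = (((A * A.transpose).det : ℤ) : ℝ) := by
    have := (Int.castRingHom ℝ).map_det (A * A.transpose)
    simpa [toR] using this.symm
  rw [h2] at h1 ⊢
  have h3 : 0 < (A * A.transpose).det := by exact_mod_cast h1
  rw [Real.one_le_sqrt]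
  exact_mod_cast h3

lemma vol_mul (P : Matrix m m ℝ) (A : Matrix m n ℝ) : vol (P * A) = |P.det| * vol A := by
  unfold vol
  have h1 : (P * A * (P * A).transpose).det = P.det ^ 2 * (A * A.transpose).det := by
    rw [Matrix.transpose_mul, Matrix.mul_assoc, ← Matrix.mul_assoc A, Matrix.det_mul,
      Matrix.det_mul, Matrix.det_transpose]
    ring
  rw [h1, Real.sqrt_mul (sq_nonneg _), Real.sqrt_sq_eq_abs]

lemma vol_submatrix {m' n' : Type} [Fintype m'] [DecidableEq m'] [Fintype n'] (A : Matrix m n ℝ)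
    (e : m' ≃ m) (f : n' ≃ n) : vol (A.submatrix e f) = vol A := by
  unfold vol
  congr 1
  rw [Matrix.transpose_submatrix, Matrix.submatrix_mul_equiv, Matrix.det_submatrix_equiv_self]

lemma vol_square [DecidableEq n] (A : Matrix m n ℝ) (e : m ≃ n) :
    vol A = |(A.submatrix id e).det| := by
  have h1 : vol A = vol (A.submatrix id e) := (vol_submatrix A (Equiv.refl m) e).symm
  rw [h1]
  unfold vol
  rw [Matrix.det_mul, Matrix.det_transpose, ← sq, Real.sqrt_sq_eq_abs]

lemma vol_of_on (A : Matrix m n ℝ) (h : ON A) : vol A = 1 := by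
  unfold vol
  rw [h]
  simp

lemma li_of_on (A : Matrix m n ℝ) (h : ON A) : LI A :=
  li_of_vol_pos A (by rw [vol_of_on A h]; exact one_pos)

lemma vol_of_isEmpty [IsEmpty m] (A : Matrix m n ℝ) : vol A = 1 := by
  unfold vol
  simp

/-- linear independence of rows is preserved by an invertible change of rows -/
lemma li_mul (P : Matrix m m ℝ) (hP : P.det ≠ 0) (A : Matrix m n ℝ) (h : LI A) : LI (P * A) := by
  apply li_of_vol_pos
  rw [vol_mul]
  exact mul_pos (abs_pos.2 hP) (vol_pos A h)

/-- the row space consists of the vectors `c ᵥ* A` -/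
lemma mem_rs (A : Matrix m n ℝ) (x : n → ℝ) : x ∈ rs A ↔ ∃ c : m → ℝ, Matrix.vecMul c A = x := by
  unfold rs
  rw [← _root_.range_vecMulLinear]
  rfl

lemma rs_mul (P : Matrix m m ℝ) (hP : P.det ≠ 0) (A : Matrix m n ℝ) : rs (P * A) = rs A := by
  ext x
  rw [mem_rs, mem_rs]
  constructor
  · rintro ⟨c, rfl⟩
    exact ⟨Matrix.vecMul c P, by rw [Matrix.vecMul_vecMul]⟩
  · rintro ⟨c, rfl⟩
    refine ⟨Matrix.vecMul c P⁻¹, ?_⟩
    rw [Matrix.vecMul_vecMul, ← Matrix.mul_assoc,
      Matrix.nonsing_inv_mul _ (Ne.isUnit hP), Matrix.one_mul]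

lemma finrank_rs (A : Matrix m n ℝ) : Module.finrank ℝ (rs A) = A.rank := by
  rw [Matrix.rank_eq_finrank_span_row]
  rfl

lemma rank_of_li (A : Matrix m n ℝ) (h : LI A) : A.rank = Fintype.card m := by
  exact LinearIndependent.rank_matrix h

end Pool.Agent.LT
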