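import Mathlib
import Pool.Agent.LT.Base
import Pool.Agent.LT.LAVol

set_option autoImplicit false

/-!
# Project LT, module FinLap: determinants of finite level Laplacians; integrality

PLAN `logdet_lap`. `P := A Aᵀ`, `Q := Bᵀ B` (square of size `m`), `t := δ² > 0`. `P Q = A (B A)ᵀ B = 0`
(because `B * A = 0`), so `(P + t)(Q + t) = P Q + t P + t Q + t² = t (P + Q + t)` and
`det (P + t) det (Q + t) = t^(card m) det (P + Q + t)`. Sylvester:
`det (Bᵀ B + t) t^(card l) = det (B Bᵀ + t) t^(card m)` (`Matrix.det_one_add_mul_comm` after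
factoring out `t`). All determinants are positive (`PosDef`). Take logarithms:
`log det (P+Q+t) = log det (P+t) + log det (Q+t) - card m log t` and
`log det (Q+t) = log det (B Bᵀ + t) + (card m - card l) log t`.
PLAN `ld_mono`, `ld_nonneg`. Let `λ_i ≥ 0` be the eigenvalues of `A Aᵀ` (`A` integer). `rank A` =
`rank (A Aᵀ)` (`Matrix.rank_self_mul_transpose`) = number of nonzero eigenvalues
(`Matrix.IsHermitian.rank_eq_card_non_zero_eigs`). So
`1/2 ld (toR A) δ - (card m - rank) log δ = ∑_{λ_i ≠ 0} 1/2 log (λ_i + δ²)`, which is monotone in `δ`,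
and at least `1/2 log ∏_{λ_i ≠ 0} λ_i ≥ 0`: the product of the nonzero eigenvalues is, up to
sign, the coefficient of `x^(card m - rank)` of the characteristic polynomial of the integer matrix
`A Aᵀ` (`charpoly = ∏ (x - λ_i) = x^(card m - rank) ∏_{λ_i ≠ 0} (x - λ_i)`), so it is a nonzero
integer in absolute value, and it is positive.
-/

open scoped BigOperators

namespace Pool.Agent.LT

variable {m n l : Type} [Fintype m] [DecidableEq m] [Fintype n] [DecidableEq n] [Fintype l]
  [DecidableEq l]

theorem isHermitian_gram (A : Matrix m n ℝ) : (A * A.transpose).IsHermitian :=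
  (gram_posSemidef A).isHermitian

theorem eig_nonneg (A : Matrix m n ℝ) (i : m) : 0 ≤ (isHermitian_gram A).eigenvalues i :=
  (gram_posSemidef A).eigenvalues_nonneg i

/-- `det (A Aᵀ + t) = ∏ (λ_i + t)` -/
theorem det_gram_add (A : Matrix m n ℝ) (t : ℝ) :
    (A * A.transpose + t • (1 : Matrix m m ℝ)).det =
      ∏ i, ((isHermitian_gram A).eigenvalues i + t) := by
  have h1 := Matrix.eval_charpoly (A * A.transpose) (-t)
  rw [(isHermitian_gram A).charpoly_eq, Polynomial.eval_prod] at h1
  have h2 : (Matrix.scalar m (-t) - A * A.transpose) =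
      (-1 : ℝ) • (A * A.transpose + t • (1 : Matrix m m ℝ)) := by
    ext i j
    simp only [Matrix.sub_apply, Matrix.scalar_apply, Matrix.smul_apply, Matrix.add_apply,
      Matrix.diagonal_apply, Matrix.one_apply, smul_eq_mul]
    split_ifs <;> ring
  rw [h2, Matrix.det_smul] at h1
  have h3 : (∏ i, Polynomial.eval (-t) (Polynomial.X -
      Polynomial.C (((isHermitian_gram A).eigenvalues i : ℝ) : ℝ))) =
      (-1 : ℝ) ^ Fintype.card m * ∏ i, ((isHermitian_gram A).eigenvalues i + t) := by
    rw [← Finset.card_univ, ← Finset.prod_const, ← Finset.prod_mul_distrib]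
    refine Finset.prod_congr rfl fun i _ => ?_
    rw [Polynomial.eval_sub, Polynomial.eval_X, Polynomial.eval_C]
    ring
  have h4 : (-1 : ℝ) ^ Fintype.card m ≠ 0 := pow_ne_zero _ (by norm_num)
  have h5 : (-1 : ℝ) ^ Fintype.card m * (A * A.transpose + t • (1 : Matrix m m ℝ)).det =
      (-1 : ℝ) ^ Fintype.card m * ∏ i, ((isHermitian_gram A).eigenvalues i + t) := by
    rw [← h3]; exact h1.symm
  exact mul_left_cancel₀ h4 h5

theorem det_gram_add_pos (A : Matrix m n ℝ) (t : ℝ) (ht : 0 < t) :
    0 < (A * A.transpose + t • (1 : Matrix m m ℝ)).det := by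
  rw [det_gram_add]
  exact Finset.prod_pos fun i _ => add_pos_of_nonneg_of_pos (eig_nonneg A i) ht

theorem logdet_lap (A : Matrix m n ℝ) (B : Matrix l m ℝ) (hBA : B * A = 0) (δ : ℝ) (hδ : 0 < δ) :
    Real.log (A * A.transpose + B.transpose * B + (δ ^ 2) • (1 : Matrix m m ℝ)).det =
      ld A δ + ld B δ - 2 * Fintype.card l * Real.log δ := by
  have ht : (0 : ℝ) < δ ^ 2 := by positivity
  have hlog : Real.log (δ ^ 2) = 2 * Real.log δ := by
    rw [Real.log_pow]; push_cast; ring
  unfold ld
  generalize ht' : δ ^ 2 = t at ht hlog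
  have hPQ : A * A.transpose * (B.transpose * B) = 0 := by
    have h1 : A * A.transpose * (B.transpose * B) = A * (B * A).transpose * B := by
      rw [Matrix.transpose_mul]
      simp only [Matrix.mul_assoc]
    rw [h1, hBA]
    simp
  have hprod : (A * A.transpose + t • (1 : Matrix m m ℝ)) *
      (B.transpose * B + t • (1 : Matrix m m ℝ)) =
      t • (A * A.transpose + B.transpose * B + t • (1 : Matrix m m ℝ)) := by
    rw [add_mul, mul_add, hPQ, zero_add, mul_add]
    simp only [Matrix.smul_mul, Matrix.mul_smul, Matrix.one_mul, Matrix.mul_one, smul_add]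
    abel
  have hdet := congrArg Matrix.det hprod
  rw [Matrix.det_mul, Matrix.det_smul] at hdet
  have hs1 : B.transpose * B + t • (1 : Matrix m m ℝ) =
      t • (1 + (t⁻¹ • B.transpose) * B) := by
    rw [smul_add, Matrix.smul_mul, smul_smul, mul_inv_cancel₀ ht.ne', one_smul, add_comm]
  have hs2 : B * B.transpose + t • (1 : Matrix l l ℝ) =
      t • (1 + B * (t⁻¹ • B.transpose)) := by
    rw [smul_add, Matrix.mul_smul, smul_smul, mul_inv_cancel₀ ht.ne', one_smul, add_comm]
  have hpos := det_gram_add_pos B t ht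
  rw [hs1, Matrix.det_smul, Matrix.det_one_add_mul_comm] at hdet
  rw [hs2, Matrix.det_smul] at hpos ⊢
  generalize (1 + B * (t⁻¹ • B.transpose)).det = d at hdet hpos ⊢
  have hd : 0 < d := by
    have h1 : 0 < t ^ Fintype.card l := pow_pos ht _
    exact (mul_pos_iff_of_pos_left h1).mp hpos
  have htm : (0 : ℝ) < t ^ Fintype.card m := pow_pos ht _
  have hfin : (A * A.transpose + B.transpose * B + t • (1 : Matrix m m ℝ)).det =
      (A * A.transpose + t • (1 : Matrix m m ℝ)).det * d := by
    apply mul_left_cancel₀ htm.ne'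
    rw [← hdet]; ring
  rw [hfin, Real.log_mul (det_gram_add_pos A t ht).ne' hd.ne',
    Real.log_mul (pow_pos ht _).ne' hd.ne', Real.log_pow, hlog]
  ring

/-- the formula `1/2 ld A δ - (card m - rank A) log δ = 1/2 ∑_{λ_i ≠ 0} log (λ_i + δ²)` -/
theorem ld_formula (A : Matrix m n ℝ) (δ : ℝ) (hδ : 0 < δ) :
    1 / 2 * ld A δ - ((Fintype.card m : ℝ) - A.rank) * Real.log δ =
      1 / 2 * ∑ i ∈ Finset.univ.filter (fun i => (isHermitian_gram A).eigenvalues i ≠ 0),
        Real.log ((isHermitian_gram A).eigenvalues i + δ ^ 2) := by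
  have ht : (0 : ℝ) < δ ^ 2 := by positivity
  have hlog : Real.log (δ ^ 2) = 2 * Real.log δ := by
    rw [Real.log_pow]; push_cast; ring
  have hr : A.rank = (Finset.univ.filter
      (fun i => (isHermitian_gram A).eigenvalues i ≠ 0)).card := by
    rw [← Matrix.rank_self_mul_transpose A, (isHermitian_gram A).rank_eq_card_non_zero_eigs,
      Fintype.card_subtype]
  have hcard : (Fintype.card m : ℝ) - A.rank = ((Finset.univ.filter
      (fun i => ¬ (isHermitian_gram A).eigenvalues i ≠ 0)).card : ℝ) := by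
    have h1 := Finset.card_filter_add_card_filter_not (s := (Finset.univ : Finset m))
      (fun i => (isHermitian_gram A).eigenvalues i ≠ 0)
    rw [Finset.card_univ] at h1
    rw [hr, ← h1]; push_cast; ring
  rw [hcard, ld, det_gram_add, Real.log_prod (fun i _ =>
    (add_pos_of_nonneg_of_pos (eig_nonneg A i) ht).ne'),
    ← Finset.sum_filter_add_sum_filter_not Finset.univ
      (fun i => (isHermitian_gram A).eigenvalues i ≠ 0)]
  have h2 : ∑ i ∈ Finset.univ.filter (fun i => ¬ (isHermitian_gram A).eigenvalues i ≠ 0),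
      Real.log ((isHermitian_gram A).eigenvalues i + δ ^ 2) = ((Finset.univ.filter
      (fun i => ¬ (isHermitian_gram A).eigenvalues i ≠ 0)).card : ℝ) * (2 * Real.log δ) := by
    rw [← hlog, ← nsmul_eq_mul, ← Finset.sum_const]
    refine Finset.sum_congr rfl fun i hi => ?_
    rw [Finset.mem_filter, not_not] at hi
    rw [hi.2, zero_add]
  rw [h2]
  ring

/-- the product of the nonzero eigenvalues of an integer Gram matrix is at least one -/
theorem one_le_prod_eig (A : Matrix m n ℤ) :
    1 ≤ ∏ i ∈ Finset.univ.filter (fun i => (isHermitian_gram (toR A)).eigenvalues i ≠ 0),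
      (isHermitian_gram (toR A)).eigenvalues i := by
  set lam := (isHermitian_gram (toR A)).eigenvalues with hlam
  set S := Finset.univ.filter (fun i => lam i ≠ 0) with hS
  set S' := Finset.univ.filter (fun i => ¬ lam i ≠ 0) with hS'
  have hpos : 0 < ∏ i ∈ S, lam i := by
    refine Finset.prod_pos fun i hi => ?_
    rw [hS, Finset.mem_filter] at hi
    exact lt_of_le_of_ne (eig_nonneg (toR A) i) (Ne.symm hi.2)
  have hch : (toR A * (toR A).transpose).charpoly = ((A * A.transpose).charpoly).map
      (Int.castRingHom ℝ) := by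
    rw [← Matrix.charpoly_map]
    congr 1
    rw [← toR_transpose, ← toR_mul]
    rfl
  have hch2 : (toR A * (toR A).transpose).charpoly =
      Polynomial.X ^ S'.card * ∏ i ∈ S, (Polynomial.X - Polynomial.C (lam i)) := by
    rw [(isHermitian_gram (toR A)).charpoly_eq, ← Finset.prod_filter_mul_prod_filter_not
      Finset.univ (fun i => lam i ≠ 0), mul_comm]
    congr 1
    rw [← Finset.prod_const]
    refine Finset.prod_congr rfl fun i hi => ?_
    rw [hS', Finset.mem_filter, not_not] at hi
    change Polynomial.X - Polynomial.C (lam i) = _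
    rw [hi.2, Polynomial.C_0, sub_zero]
  have hc : ((((A * A.transpose).charpoly).coeff S'.card : ℤ) : ℝ) = ∏ i ∈ S, (-(lam i)) := by
    have h1 := congrArg (fun p => Polynomial.coeff p S'.card) (hch.symm.trans hch2)
    simp only [Polynomial.coeff_map] at h1
    have h2 := Polynomial.coeff_X_pow_mul (∏ i ∈ S, (Polynomial.X - Polynomial.C (lam i)))
      S'.card 0
    rw [zero_add] at h2
    rw [h2, Polynomial.coeff_zero_eq_eval_zero, Polynomial.eval_prod] at h1
    rw [← eq_intCast (Int.castRingHom ℝ), h1]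
    refine Finset.prod_congr rfl fun i _ => ?_
    rw [Polynomial.eval_sub, Polynomial.eval_X, Polynomial.eval_C, zero_sub]
  have habs : |((((A * A.transpose).charpoly).coeff S'.card : ℤ) : ℝ)| = ∏ i ∈ S, lam i := by
    rw [hc, Finset.abs_prod]
    refine Finset.prod_congr rfl fun i _ => ?_
    rw [abs_neg, abs_of_nonneg (eig_nonneg (toR A) i)]
  rw [← habs] at hpos ⊢
  rw [← Int.cast_abs] at hpos ⊢
  have h3 : 0 < |((A * A.transpose).charpoly).coeff S'.card| := by exact_mod_cast hpos
  exact_mod_cast h3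

theorem ld_nonneg (A : Matrix m n ℤ) (δ : ℝ) (hδ : 0 < δ) :
    0 ≤ 1 / 2 * ld (toR A) δ - ((Fintype.card m : ℝ) - (toR A).rank) * Real.log δ := by
  rw [ld_formula (toR A) δ hδ]
  refine mul_nonneg (by norm_num) ?_
  have hpos : ∀ i ∈ Finset.univ.filter
      (fun i => (isHermitian_gram (toR A)).eigenvalues i ≠ 0),
      0 < (isHermitian_gram (toR A)).eigenvalues i := by
    intro i hi
    rw [Finset.mem_filter] at hi
    exact lt_of_le_of_ne (eig_nonneg (toR A) i) (Ne.symm hi.2)
  have h1 : 0 ≤ Real.log (∏ i ∈ Finset.univ.filter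
      (fun i => (isHermitian_gram (toR A)).eigenvalues i ≠ 0),
      (isHermitian_gram (toR A)).eigenvalues i) := Real.log_nonneg (one_le_prod_eig A)
  rw [Real.log_prod (fun i hi => (hpos i hi).ne')] at h1
  refine le_trans h1 (Finset.sum_le_sum fun i hi => ?_)
  refine Real.log_le_log (hpos i hi) ?_
  have : 0 ≤ δ ^ 2 := by positivity
  linarith

theorem ld_mono (A : Matrix m n ℤ) (δ δ' : ℝ) (hδ : 0 < δ) (h : δ ≤ δ') :
    1 / 2 * ld (toR A) δ - ((Fintype.card m : ℝ) - (toR A).rank) * Real.log δ ≤
      1 / 2 * ld (toR A) δ' - ((Fintype.card m : ℝ) - (toR A).rank) * Real.log δ' := by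
  rw [ld_formula (toR A) δ hδ, ld_formula (toR A) δ' (lt_of_lt_of_le hδ h)]
  refine mul_le_mul_of_nonneg_left (Finset.sum_le_sum fun i _ => ?_) (by norm_num)
  have h0 := eig_nonneg (toR A) i
  have h1 : 0 < δ ^ 2 := by positivity
  have h2 : δ ^ 2 ≤ δ' ^ 2 := pow_le_pow_left₀ hδ.le h 2
  exact Real.log_le_log (by linarith) (by linarith)

end Pool.Agent.LT
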