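import Mathlib
import Pool.Agent.LT.Base
import Pool.Agent.LT.LAVol

set_option autoImplicit false

/-!
# Project LT, module LAExt: extension of a linearly independent family by rows of a matrix

PLAN. `exists_ext`: the set `Set.range A.row` is linearly independent; extend it inside
`Set.range A.row ∪ Set.range B.row` (`exists_linearIndependent_extension`) to a linearly
independent set spanning `rs A ⊔ rs B`, and choose for every new vector an index in `k`. Or: take
a subset `s` of `k` of maximal cardinality such that `fromRows A (B restricted to s)` has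
linearly independent rows; if some row `B i` is not in the span then adding `i` contradicts
maximality (`LinearIndependent` of `Fin.cons`/`Option.elim`/`Sum.elim`).
`exists_ext_on`: apply Gram-Schmidt / `exists_orthonormalBasis` in the orthogonal complement
of the row space: if `A` has linearly independent rows, there is a matrix `Z` with orthonormal rows,
`A * Zᵀ = 0` and `card m + k = card n`. (Work in `EuclideanSpace ℝ n`, where
`stdOrthonormalBasis` of `(span rows)ᗮ` gives `Z`; `finrank` of the orthogonal complement.)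
`exists_on_basis`: an orthonormal basis (rows) of the span `W`.
`exists_onb_pair`: `W = rs s`, `K = rs s ⊓ ker (· ᵥ* d)`. Take an orthonormal basis `Y` of `K` and
an orthonormal basis `X` of the orthogonal complement of `K` in `W`. Then `fromRows Y X` is an
orthonormal basis of `W`, so `(fromRows Y X) = P * s` after reindexing of the rows by
`e : Fin k ⊕ Fin l ≃ ι` (equal cardinalities), `P` square; `vol (fromRows Y X) = 1 = |det P| vol s`.
`X * d` has linearly independent rows: if `c ᵥ* X ᵥ* d = 0` then `c ᵥ* X ∈ K ∩ Kᗮ = 0`.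
-/

open scoped BigOperators

namespace Pool.Agent.LT

variable {m n k : Type} [Fintype m] [DecidableEq m] [Fintype n] [DecidableEq n] [Fintype k]
  [DecidableEq k]

theorem exists_ext (A : Matrix m n ℝ) (hA : LI A) (B : Matrix k n ℝ) :
    ∃ s : Finset k, LI (Matrix.fromRows A (B.submatrix (Subtype.val : s → k) id)) ∧
      rs (Matrix.fromRows A (B.submatrix (Subtype.val : s → k) id)) = rs A ⊔ rs B ∧
      Fintype.card m + s.card = Module.finrank ℝ ↥(rs A ⊔ rs B) := by
  classical
  let v : m ⊕ k → (n → ℝ) := Sum.elim A.row B.row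
  have h0 : LinearIndepOn ℝ v (Set.range (Sum.inl : m → m ⊕ k)) := by
    have h1 : LinearIndependent ℝ (v ∘ (Sum.inl : m → m ⊕ k)) := hA
    exact (linearIndepOn_range_iff Sum.inl_injective v).mpr h1
  obtain ⟨b, -, hb1, hb2, hb3⟩ := exists_linearIndepOn_extension h0 (Set.subset_univ _)
  let s : Finset k := Finset.univ.filter fun i => Sum.inr i ∈ b
  have hs : ∀ i : k, i ∈ s ↔ Sum.inr i ∈ b := fun i => by simp [s]
  let g : m ⊕ s → b := fun i => ⟨Sum.map id Subtype.val i, by
    rcases i with i | i
    · exact hb1 ⟨i, rfl⟩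
    · exact (hs _).1 i.2⟩
  have hg : Function.Injective g := by
    intro i j hij
    have h1 : Sum.map (id : m → m) (Subtype.val : s → k) i = Sum.map id Subtype.val j :=
      congrArg Subtype.val hij
    exact (Function.injective_id.sumMap Subtype.val_injective) h1
  have hgs : Function.Surjective g := by
    rintro ⟨i | i, hi⟩
    · exact ⟨Sum.inl i, rfl⟩
    · exact ⟨Sum.inr ⟨i, (hs i).2 hi⟩, rfl⟩
  have hrow : (Matrix.fromRows A (B.submatrix (Subtype.val : s → k) id)).row =
      (fun x : b => v x) ∘ g := by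
    funext i
    rcases i with i | i <;> rfl
  have hLI : LI (Matrix.fromRows A (B.submatrix (Subtype.val : s → k) id)) := by
    unfold LI
    rw [hrow]
    exact LinearIndependent.comp hb3 g hg
  have hrs : rs (Matrix.fromRows A (B.submatrix (Subtype.val : s → k) id)) = rs A ⊔ rs B := by
    have e1 : rs (Matrix.fromRows A (B.submatrix (Subtype.val : s → k) id)) =
        Submodule.span ℝ (v '' b) := by
      unfold rs
      rw [hrow, Set.range_comp, hgs.range_eq, Set.image_univ]
      congr 1
      ext x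
      simp
    have e2 : rs A ⊔ rs B = Submodule.span ℝ (v '' Set.univ) := by
      unfold rs
      rw [← Submodule.span_union, Set.image_univ, Set.Sum.elim_range]
    rw [e1, e2]
    refine le_antisymm (Submodule.span_mono (Set.image_mono (Set.subset_univ _))) ?_
    exact Submodule.span_le.mpr hb2
  refine ⟨s, hLI, hrs, ?_⟩
  rw [← hrs]
  unfold rs
  have h5 := finrank_span_eq_card hLI
  rw [h5, Fintype.card_sum, Fintype.card_coe]

/-- the identification with the euclidean space -/
noncomputable def toE (n : Type) : (n → ℝ) ≃ₗ[ℝ] EuclideanSpace ℝ n :=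
  (WithLp.linearEquiv 2 ℝ (n → ℝ)).symm

lemma inner_toE (x y : n → ℝ) : inner ℝ (toE n x) (toE n y) = x ⬝ᵥ y := by
  change y ⬝ᵥ star x = x ⬝ᵥ y
  rw [star_trivial, dotProduct_comm]

lemma on_of_orthonormal {l : Type} [Fintype l] [DecidableEq l] (Z : Matrix l n ℝ)
    (h : Orthonormal ℝ fun i => toE n (Z.row i)) : ON Z := by
  unfold ON
  ext i j
  have h1 := (orthonormal_iff_ite.mp h) i j
  rw [inner_toE] at h1
  rw [Matrix.mul_apply, Matrix.one_apply, ← h1]
  rfl

/-- a matrix whose rows are an orthonormal basis of a subspace -/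
theorem exists_on_space (U : Submodule ℝ (EuclideanSpace ℝ n)) (l : ℕ)
    (hl : l = Module.finrank ℝ U) :
    ∃ Z : Matrix (Fin l) n ℝ, ON Z ∧ rs Z = U.comap (toE n).toLinearMap := by
  subst hl
  let b := stdOrthonormalBasis ℝ U
  let Z : Matrix (Fin (Module.finrank ℝ U)) n ℝ :=
    Matrix.of fun i => (toE n).symm (b i : EuclideanSpace ℝ n)
  have hZ : ∀ i, toE n (Z.row i) = (b i : EuclideanSpace ℝ n) := fun i =>
    (toE n).apply_symm_apply _
  refine ⟨Z, on_of_orthonormal Z ?_, ?_⟩
  · have h1 : (fun i => toE n (Z.row i)) = (U.subtypeₗᵢ : U → EuclideanSpace ℝ n) ∘ b := by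
      funext i
      exact hZ i
    rw [h1]
    exact b.orthonormal.comp_linearIsometry U.subtypeₗᵢ
  · have h2 : Submodule.span ℝ (Set.range b) = ⊤ := by
      have := b.toBasis.span_eq
      rwa [b.coe_toBasis] at this
    have h3 : (rs Z).map (toE n).toLinearMap = U := by
      unfold rs
      rw [Submodule.map_span, ← Set.range_comp]
      have h4 : (⇑(toE n).toLinearMap ∘ Z.row) = (U.subtype : U → EuclideanSpace ℝ n) ∘ b := by
        funext i
        exact hZ i
      rw [h4, Set.range_comp, ← Submodule.map_span, h2, Submodule.map_top, Submodule.range_subtype]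
    have h5 : (U.comap (toE n).toLinearMap) = ((rs Z).map (toE n).toLinearMap).comap
        (toE n).toLinearMap := by rw [h3]
    rw [h5]
    exact (Submodule.comap_map_eq_of_injective (toE n).injective (rs Z)).symm

theorem exists_ext_on (A : Matrix m n ℝ) (hA : LI A) :
    ∃ (l : ℕ) (Z : Matrix (Fin l) n ℝ), ON Z ∧ A * Z.transpose = 0 ∧
      Fintype.card m + l = Fintype.card n := by
  let W : Submodule ℝ (EuclideanSpace ℝ n) := (rs A).map (toE n).toLinearMap
  obtain ⟨Z, hZ1, hZ2⟩ := exists_on_space Wᗮ _ rfl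
  refine ⟨_, Z, hZ1, ?_, ?_⟩
  · ext i j
    have h1 : Z.row j ∈ rs Z := Submodule.subset_span ⟨j, rfl⟩
    rw [hZ2, Submodule.mem_comap] at h1
    have h2 : toE n (A.row i) ∈ W := ⟨A.row i, Submodule.subset_span ⟨i, rfl⟩, rfl⟩
    have h3 := (Submodule.mem_orthogonal W _).mp h1 _ h2
    have h4 : inner ℝ (toE n (A.row i)) (toE n (Z.row j)) = 0 := h3
    rw [inner_toE] at h4
    rw [Matrix.mul_apply, Matrix.zero_apply, ← h4]
    rfl
  · have h1 := Submodule.finrank_add_finrank_orthogonal W
    have h2 : Module.finrank ℝ W = Fintype.card m := by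
      rw [LinearEquiv.finrank_map_eq (toE n)]
      unfold rs
      exact finrank_span_eq_card hA
    rw [h2, finrank_euclideanSpace] at h1
    exact h1

theorem exists_on_basis (W : Submodule ℝ (n → ℝ)) :
    ∃ Y : Matrix (Fin (Module.finrank ℝ W)) n ℝ, ON Y ∧ rs Y = W := by
  obtain ⟨Z, hZ1, hZ2⟩ := exists_on_space (W.map (toE n).toLinearMap) (Module.finrank ℝ W)
    (LinearEquiv.finrank_map_eq (toE n) W).symm
  exact ⟨Z, hZ1, hZ2.trans (Submodule.comap_map_eq_of_injective (toE n).injective W)⟩

/-- orthonormal bases of `K ≤ W` and of the orthogonal complement of `K` in `W` -/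
theorem exists_on_pair (K W : Submodule ℝ (n → ℝ)) (hKW : K ≤ W) :
    ∃ (k l : ℕ) (Y : Matrix (Fin k) n ℝ) (X : Matrix (Fin l) n ℝ),
      k = Module.finrank ℝ K ∧ k + l = Module.finrank ℝ W ∧ ON Y ∧ ON X ∧ rs Y = K ∧
      rs X ≤ W ∧ ∀ x ∈ K, ∀ y ∈ rs X, x ⬝ᵥ y = 0 := by
  obtain ⟨Y, hY1, hY2⟩ := exists_on_basis K
  let K' : Submodule ℝ (EuclideanSpace ℝ n) := K.map (toE n).toLinearMap
  let W' : Submodule ℝ (EuclideanSpace ℝ n) := W.map (toE n).toLinearMap
  have hKW' : K' ≤ W' := Submodule.map_mono hKW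
  obtain ⟨X, hX1, hX2⟩ := exists_on_space (K'ᗮ ⊓ W') _ rfl
  refine ⟨_, _, Y, X, rfl, ?_, hY1, hX1, hY2, ?_, ?_⟩
  · have h1 := Submodule.finrank_add_inf_finrank_orthogonal hKW'
    have h2 : Module.finrank ℝ K' = Module.finrank ℝ K := LinearEquiv.finrank_map_eq (toE n) K
    have h3 : Module.finrank ℝ W' = Module.finrank ℝ W := LinearEquiv.finrank_map_eq (toE n) W
    rw [h2, h3] at h1
    exact h1
  · intro x hx
    rw [hX2, Submodule.mem_comap] at hx
    obtain ⟨w, hw, hwx⟩ := hx.2
    have : w = x := (toE n).injective hwx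
    exact this ▸ hw
  · intro x hx y hy
    rw [hX2, Submodule.mem_comap] at hy
    have h3 := (Submodule.mem_orthogonal K' _).mp hy.1 (toE n x) ⟨x, hx, rfl⟩
    have h4 : inner ℝ (toE n x) (toE n y) = 0 := h3
    rwa [inner_toE] at h4

theorem exists_onb_pair {ι α : Type} [Fintype ι] [DecidableEq ι] [Fintype α] (s : Matrix ι n ℝ)
    (hs : LI s) (d : Matrix n α ℝ) :
    ∃ (k l : ℕ) (Y : Matrix (Fin k) n ℝ) (X : Matrix (Fin l) n ℝ) (e : Fin k ⊕ Fin l ≃ ι)
      (P : Matrix ι ι ℝ),
      k = Module.finrank ℝ ↥(rs s ⊓ LinearMap.ker d.vecMulLinear) ∧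
      rs Y = rs s ⊓ LinearMap.ker d.vecMulLinear ∧ ON Y ∧ ON X ∧ Y * d = 0 ∧ LI (X * d) ∧
      rs X ≤ rs s ∧ (Matrix.fromRows Y X).submatrix e.symm id = P * s ∧ |P.det| * vol s = 1 := by
  classical
  obtain ⟨k, l, Y, X, hk, hkl, hY, hX, hYr, hXr, horth⟩ :=
    exists_on_pair (rs s ⊓ LinearMap.ker d.vecMulLinear) (rs s) inf_le_left
  have hcard : Fintype.card (Fin k ⊕ Fin l) = Fintype.card ι := by
    rw [Fintype.card_sum, Fintype.card_fin, Fintype.card_fin, hkl]
    unfold rs
    exact finrank_span_eq_card hs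
  let e : Fin k ⊕ Fin l ≃ ι := Fintype.equivOfCardEq hcard
  have hYrow : ∀ i, Y.row i ∈ rs s ⊓ LinearMap.ker d.vecMulLinear := fun i => by
    rw [← hYr]; exact Submodule.subset_span ⟨i, rfl⟩
  have hXrow : ∀ i, X.row i ∈ rs s := fun i => hXr (Submodule.subset_span ⟨i, rfl⟩)
  have hrow : ∀ i : ι, ((Matrix.fromRows Y X).submatrix e.symm id).row i ∈ rs s := by
    intro i
    have : ((Matrix.fromRows Y X).submatrix e.symm id).row i =
      Matrix.fromRows Y X (e.symm i) := rfl
    rw [this]
    rcases e.symm i with j | j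
    · exact (hYrow j).1
    · exact hXrow j
  choose c hc using fun i => (mem_rs s _).mp (hrow i)
  let P : Matrix ι ι ℝ := Matrix.of c
  have hP : (Matrix.fromRows Y X).submatrix e.symm id = P * s := by
    ext i j
    rw [Matrix.mul_apply]
    have := congrFun (hc i) j
    simp only [Matrix.vecMul, dotProduct] at this
    exact this.symm
  have hYX : Y * X.transpose = 0 := by
    ext i j
    rw [Matrix.mul_apply, Matrix.zero_apply]
    exact horth _ (hYrow i) _ (Submodule.subset_span ⟨j, rfl⟩)
  have hXY : X * Y.transpose = 0 := by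
    have := congrArg Matrix.transpose hYX
    rwa [Matrix.transpose_mul, Matrix.transpose_transpose, Matrix.transpose_zero] at this
  have hON : ON (Matrix.fromRows Y X) := by
    unfold ON at hY hX ⊢
    rw [Matrix.transpose_fromRows, Matrix.fromRows_mul_fromCols, hY, hX, hYX, hXY,
      Matrix.fromBlocks_one]
  refine ⟨k, l, Y, X, e, P, hk, hYr, hY, hX, ?_, ?_, hXr, hP, ?_⟩
  · ext i j
    have h1 : d.vecMulLinear (Y.row i) = 0 := (hYrow i).2
    exact congrFun h1 j
  · have h1 : Function.Injective X.vecMul := Matrix.vecMul_injective_iff.mpr (li_of_on X hX)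
    refine Matrix.vecMul_injective_iff.mp ?_
    intro a b hab
    have h2 : Matrix.vecMul (a - b) (X * d) = 0 := by
      rw [Matrix.sub_vecMul]; exact sub_eq_zero.mpr hab
    rw [← Matrix.vecMul_vecMul] at h2
    have h3 : Matrix.vecMul (a - b) X ∈ rs X := (mem_rs X _).mpr ⟨_, rfl⟩
    have h4 := horth _ ⟨hXr h3, h2⟩ _ h3
    have h5 : Matrix.vecMul (a - b) X = 0 := dotProduct_self_eq_zero.mp h4
    rw [Matrix.sub_vecMul] at h5
    exact h1 (sub_eq_zero.mp h5)
  · rw [← vol_mul, ← hP]
    have h1 := vol_submatrix (Matrix.fromRows Y X) e.symm (Equiv.refl n)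
    rw [vol_of_on _ hON] at h1
    exact h1

end Pool.Agent.LT
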