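import Mathlib
import Pool.Agent.LT.Base
import Pool.Agent.LT.LAVol
import Pool.Agent.LT.LAExt

set_option autoImplicit false

/-!
# Project LT, module LADet: determinant inequalities (L3)

PLAN. `det_le_pow`: eigenvalues in `[0,c]` (`Matrix.IsHermitian.det_eq_prod_eigenvalues`,
`Matrix.PosSemidef.eigenvalues_nonneg`; the eigenvalues are `≤ c` because `c • 1 - P` is positive
semidefinite: evaluate at the eigenvector). `pow_le_det`: the same with the lower bound.
`det_mono_add`: `P`, `Q` positive semidefinite: `det P ≤ det (P + Q)`; if `det P = 0` clear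
(`det ≥ 0`); otherwise `P` is positive definite, `P + Q = P^(1/2) (1 + R) P^(1/2)` with `R ≥ 0`; or
only the case `Q = t • 1` is needed (eigenvalues `λ_i + t`): `det_le_det_add_smul`.
`det_two_sided`: take `Z` from `exists_ext_on Y hY` and `W := fromRows Y Z`, square after
reindexing (`m ⊕ Fin l ≃ n`). `det (W B Wᵀ) = det (W Wᵀ) det B` and
`W Wᵀ = fromBlocks (Y Yᵀ) 0 0 1`, so `det (W B Wᵀ) = det (Y Yᵀ) det B`. On the other hand
`W B Wᵀ = fromBlocks (Y B Yᵀ) (Y B Zᵀ) (Z B Yᵀ) (Z B Zᵀ)`, `Y B Yᵀ` is positive definite, so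
`det = det (Y B Yᵀ) * det S` with the Schur complement
`S = Z B Zᵀ - Z B Yᵀ (Y B Yᵀ)⁻¹ Y B Zᵀ`. `S ≤ Z B Zᵀ ≤ c Z Zᵀ = c`. And for a vector `x`,
`x S xᵀ = v B vᵀ` with `v := x Z - (x Z B Yᵀ (Y B Yᵀ)⁻¹) Y`, so `x S xᵀ ≥ a |v|² ≥ a |x|²` because
`|v|² = |x Z|² + |...|² ≥ |x|²` (`Z Yᵀ = 0`, `Z Zᵀ = 1`). Hence `a^l ≤ det S ≤ c^l` by
`pow_le_det`, `det_le_pow`; `l = card n - card m`.
-/

open scoped BigOperators

namespace Pool.Agent.LT

variable {m n : Type} [Fintype m] [DecidableEq m] [Fintype n] [DecidableEq n]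

private lemma isHerm_of (P : Matrix m m ℝ) (c : ℝ)
    (hP : (c • (1 : Matrix m m ℝ) - P).PosSemidef) : P.IsHermitian := by
  have h := hP.1
  have e : P = c • (1 : Matrix m m ℝ) - (c • (1 : Matrix m m ℝ) - P) := by abel
  rw [e]
  refine Matrix.IsHermitian.sub ?_ h
  rw [Matrix.IsHermitian, Matrix.conjTranspose_smul, Matrix.conjTranspose_one]
  simp

private lemma isHerm_of' (P : Matrix m m ℝ) (c : ℝ)
    (hP : (P - c • (1 : Matrix m m ℝ)).PosSemidef) : P.IsHermitian := by
  have h := hP.1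
  have e : P = (P - c • (1 : Matrix m m ℝ)) + c • (1 : Matrix m m ℝ) := by abel
  rw [e]
  refine Matrix.IsHermitian.add h ?_
  rw [Matrix.IsHermitian, Matrix.conjTranspose_smul, Matrix.conjTranspose_one]
  simp

private lemma eigvec_self (P : Matrix m m ℝ) (h : P.IsHermitian) (i : m) :
    (h.eigenvectorBasis i).ofLp ⬝ᵥ (h.eigenvectorBasis i).ofLp = 1 := by
  have h1 : ‖h.eigenvectorBasis i‖ = 1 := h.eigenvectorBasis.norm_eq_one i
  have h2 : ‖h.eigenvectorBasis i‖ ^ 2 = 1 := by rw [h1]; norm_num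
  rw [EuclideanSpace.norm_sq_eq] at h2
  rw [← h2]
  simp only [dotProduct, Real.norm_eq_abs, sq_abs]
  refine Finset.sum_congr rfl fun j _ => ?_
  rw [sq]

private lemma eig_le (P : Matrix m m ℝ) (c : ℝ) (h : P.IsHermitian)
    (hc : (c • (1 : Matrix m m ℝ) - P).PosSemidef) (i : m) : h.eigenvalues i ≤ c := by
  have h1 := hc.dotProduct_mulVec_nonneg (h.eigenvectorBasis i).ofLp
  rw [Matrix.sub_mulVec, h.mulVec_eigenvectorBasis, Matrix.smul_mulVec, Matrix.one_mulVec,
    ← sub_smul, dotProduct_smul, star_trivial, eigvec_self] at h1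
  simp at h1
  exact h1

private lemma le_eig (P : Matrix m m ℝ) (c : ℝ) (h : P.IsHermitian)
    (hc : (P - c • (1 : Matrix m m ℝ)).PosSemidef) (i : m) : c ≤ h.eigenvalues i := by
  have h1 := hc.dotProduct_mulVec_nonneg (h.eigenvectorBasis i).ofLp
  rw [Matrix.sub_mulVec, h.mulVec_eigenvectorBasis, Matrix.smul_mulVec, Matrix.one_mulVec,
    ← sub_smul, dotProduct_smul, star_trivial, eigvec_self] at h1
  simp at h1
  exact h1

theorem det_le_pow (P : Matrix m m ℝ) (c : ℝ) (hP : P.PosSemidef)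
    (hc : (c • (1 : Matrix m m ℝ) - P).PosSemidef) : P.det ≤ c ^ Fintype.card m := by
  rw [hP.1.det_eq_prod_eigenvalues]
  calc ∏ i, ((hP.1.eigenvalues i : ℝ) : ℝ) ≤ ∏ _i : m, c :=
        Finset.prod_le_prod (fun i _ => hP.eigenvalues_nonneg i) (fun i _ => eig_le P c hP.1 hc i)
    _ = c ^ Fintype.card m := by rw [Finset.prod_const, Finset.card_univ]

theorem pow_le_det (P : Matrix m m ℝ) (a : ℝ) (ha : 0 ≤ a)
    (hP : (P - a • (1 : Matrix m m ℝ)).PosSemidef) : a ^ Fintype.card m ≤ P.det := by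
  have h := isHerm_of' P a hP
  rw [h.det_eq_prod_eigenvalues]
  calc a ^ Fintype.card m = ∏ _i : m, a := by rw [Finset.prod_const, Finset.card_univ]
    _ ≤ ∏ i, ((h.eigenvalues i : ℝ) : ℝ) :=
        Finset.prod_le_prod (fun i _ => ha) (fun i _ => le_eig P a h hP i)

theorem det_le_det_add_smul (P : Matrix m m ℝ) (t : ℝ) (ht : 0 ≤ t) (hP : P.PosSemidef) :
    P.det ≤ (P + t • (1 : Matrix m m ℝ)).det := by
  have e1 := Matrix.eval_charpoly P (-t)
  rw [hP.1.charpoly_eq, Polynomial.eval_prod] at e1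
  have e2 : (Matrix.scalar m) (-t) - P = -(P + t • (1 : Matrix m m ℝ)) := by
    rw [Matrix.scalar_apply, ← Matrix.smul_one_eq_diagonal, neg_smul]
    abel
  rw [e2, Matrix.det_neg] at e1
  have e3 : ∏ i, Polynomial.eval (-t) (Polynomial.X - Polynomial.C ((hP.1.eigenvalues i : ℝ) : ℝ)) =
      (-1) ^ Fintype.card m * ∏ i, (hP.1.eigenvalues i + t) := by
    rw [← Finset.card_univ, ← Finset.prod_const, ← Finset.prod_mul_distrib]
    refine Finset.prod_congr rfl fun i _ => ?_
    simp
    ring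
  have e4 : (P + t • (1 : Matrix m m ℝ)).det = ∏ i, (hP.1.eigenvalues i + t) := by
    have h5 : ((-1 : ℝ)) ^ Fintype.card m ≠ 0 := pow_ne_zero _ (by norm_num)
    apply mul_left_cancel₀ h5
    rw [← e3]
    exact e1.symm
  rw [e4, hP.1.det_eq_prod_eigenvalues]
  refine Finset.prod_le_prod (fun i _ => hP.eigenvalues_nonneg i) (fun i _ => ?_)
  have : ((hP.1.eigenvalues i : ℝ) : ℝ) ≤ hP.1.eigenvalues i + t := by linarith
  exact this

private lemma psd_conj {p q : Type} [Fintype p] [DecidableEq p] [Fintype q] [DecidableEq q]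
    (M : Matrix q q ℝ) (hM : M.PosSemidef) (V : Matrix p q ℝ) :
    (V * M * V.transpose).PosSemidef := by
  have h := hM.mul_mul_conjTranspose_same V
  rwa [Matrix.conjTranspose_eq_transpose_of_trivial] at h

theorem det_two_sided (B : Matrix n n ℝ) (Y : Matrix m n ℝ) (hY : LI Y) (a c : ℝ) (ha : 0 < a)
    (hlo : (B - a • (1 : Matrix n n ℝ)).PosSemidef)
    (hhi : (c • (1 : Matrix n n ℝ) - B).PosSemidef) :
    (Y * B * Y.transpose).det * a ^ (Fintype.card n - Fintype.card m) ≤
        (Y * Y.transpose).det * B.det ∧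
      (Y * Y.transpose).det * B.det ≤
        (Y * B * Y.transpose).det * c ^ (Fintype.card n - Fintype.card m) := by
  obtain ⟨l, Z, hZ, hYZ, hl⟩ := exists_ext_on Y hY
  have hZ' : Z * Z.transpose = 1 := hZ
  have hZY : Z * Y.transpose = 0 := by
    have := congrArg Matrix.transpose hYZ
    rwa [Matrix.transpose_mul, Matrix.transpose_transpose, Matrix.transpose_zero] at this
  have hcard : Fintype.card n - Fintype.card m = l := by omega
  have hBh : B.IsHermitian := isHerm_of' B a hlo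
  have hBt : B.transpose = B := by
    have := hBh.eq
    rwa [Matrix.conjTranspose_eq_transpose_of_trivial] at this
  -- M1
  obtain ⟨M1, hM1⟩ : ∃ M1 : Matrix m m ℝ, M1 = Y * B * Y.transpose := ⟨_, rfl⟩
  have hM1t : M1.transpose = M1 := by
    rw [hM1, Matrix.transpose_mul, Matrix.transpose_mul, Matrix.transpose_transpose, hBt,
      Matrix.mul_assoc]
  have hM1pd : M1.PosDef := by
    have e : M1 = Y * (B - a • (1 : Matrix n n ℝ)) * Y.transpose + a • (Y * Y.transpose) := by
      rw [hM1, Matrix.mul_sub, Matrix.sub_mul, Matrix.mul_smul, Matrix.smul_mul, Matrix.mul_one]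
      abel
    rw [e]
    exact Matrix.PosDef.posSemidef_add (psd_conj _ hlo Y) ((gram_posDef Y hY).smul ha)
  have hdet : IsUnit M1.det := (hM1pd.det_pos).ne'.isUnit
  have hinv1 : M1 * M1⁻¹ = 1 := Matrix.mul_nonsing_inv _ hdet
  have hinv2 : M1⁻¹ * M1 = 1 := Matrix.nonsing_inv_mul _ hdet
  have hinvt : (M1⁻¹).transpose = M1⁻¹ := by rw [Matrix.transpose_nonsing_inv, hM1t]
  obtain ⟨K, hK⟩ : ∃ K : Matrix (Fin l) m ℝ, K = Z * B * Y.transpose * M1⁻¹ := ⟨_, rfl⟩
  have hKM : K * M1 = Z * B * Y.transpose := by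
    rw [hK, Matrix.mul_assoc, hinv2, Matrix.mul_one]
  have hKt : K.transpose = M1⁻¹ * (Y * B * Z.transpose) := by
    rw [hK, Matrix.transpose_mul, Matrix.transpose_mul, Matrix.transpose_mul,
      Matrix.transpose_transpose, hinvt, hBt, Matrix.mul_assoc Y]
  obtain ⟨S, hS⟩ : ∃ S : Matrix (Fin l) (Fin l) ℝ,
    S = Z * B * Z.transpose - K * (Y * B * Z.transpose) := ⟨_, rfl⟩
  -- first identity
  have hV : (Z - K * Y) * B * (Z - K * Y).transpose = S := by
    have e1 : K * (Y * B * Y.transpose) * K.transpose = Z * B * Y.transpose * K.transpose := by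
      rw [← hM1, hKM]
    rw [Matrix.transpose_sub, Matrix.transpose_mul, Matrix.sub_mul, Matrix.sub_mul, Matrix.mul_sub,
      Matrix.mul_sub, hS]
    have e2 : K * Y * B * (Y.transpose * K.transpose) =
        K * (Y * B * Y.transpose) * K.transpose := by
      simp only [Matrix.mul_assoc]
    rw [e2, e1]
    simp only [Matrix.mul_assoc]
    abel
  have hVV : (Z - K * Y) * (Z - K * Y).transpose = 1 + (K * Y) * (K * Y).transpose := by
    rw [Matrix.transpose_sub, Matrix.transpose_mul, Matrix.sub_mul, Matrix.mul_sub,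
      Matrix.mul_sub, hZ']
    have e1 : Z * (Y.transpose * K.transpose) = 0 := by
      rw [← Matrix.mul_assoc, hZY, Matrix.zero_mul]
    have e2 : K * Y * Z.transpose = 0 := by
      rw [Matrix.mul_assoc, hYZ, Matrix.mul_zero]
    rw [e1, e2]
    abel
  have hSlo : (S - a • (1 : Matrix (Fin l) (Fin l) ℝ)).PosSemidef := by
    have e : S - a • (1 : Matrix (Fin l) (Fin l) ℝ) =
        (Z - K * Y) * (B - a • (1 : Matrix n n ℝ)) * (Z - K * Y).transpose +
          a • ((K * Y) * (K * Y).transpose) := by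
      rw [Matrix.mul_sub, Matrix.sub_mul _ _ (Z - K * Y).transpose, hV, Matrix.mul_smul,
        Matrix.smul_mul, Matrix.mul_one, hVV, smul_add]
      abel
    rw [e]
    exact (psd_conj _ hlo _).add ((gram_posSemidef _).smul ha.le)
  have hShi : (c • (1 : Matrix (Fin l) (Fin l) ℝ) - S).PosSemidef := by
    have e : c • (1 : Matrix (Fin l) (Fin l) ℝ) - S =
        Z * (c • (1 : Matrix n n ℝ) - B) * Z.transpose +
          (Z * B * Y.transpose) * M1⁻¹ * (Z * B * Y.transpose).transpose := by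
      rw [Matrix.mul_sub, Matrix.sub_mul, Matrix.mul_smul, Matrix.smul_mul, Matrix.mul_one, hZ',
        ← hK, hS, Matrix.transpose_mul, Matrix.transpose_mul, Matrix.transpose_transpose, hBt,
        Matrix.mul_assoc Y]
      abel
    rw [e]
    exact (psd_conj _ hhi _).add (psd_conj _ hM1pd.inv.posSemidef _)
  have hSpsd : S.PosSemidef := by
    have e : S = (S - a • (1 : Matrix (Fin l) (Fin l) ℝ)) + a • (1 : Matrix (Fin l) (Fin l) ℝ) := by
      abel
    rw [e]
    exact hSlo.add (Matrix.PosSemidef.one.smul ha.le)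
  -- determinants
  have hcard2 : Fintype.card (m ⊕ Fin l) = Fintype.card n := by
    rw [Fintype.card_sum, Fintype.card_fin]; exact hl
  obtain ⟨e⟩ : Nonempty (m ⊕ Fin l ≃ n) := ⟨Fintype.equivOfCardEq hcard2⟩
  obtain ⟨W, hW⟩ : ∃ W : Matrix n n ℝ, W = (Matrix.fromRows Y Z).submatrix e.symm id := ⟨_, rfl⟩
  have hconj : ∀ M : Matrix n n ℝ, (W * M * W.transpose).det =
      (Matrix.fromRows Y Z * M * (Matrix.fromRows Y Z).transpose).det := by
    intro M
    have e1 : W * M * W.transpose =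
        (Matrix.fromRows Y Z * M * (Matrix.fromRows Y Z).transpose).submatrix e.symm e.symm := by
      rw [hW]
      rfl
    rw [e1, Matrix.det_submatrix_equiv_self]
  have hWW : (W * W.transpose).det = (Y * Y.transpose).det := by
    have h1 := hconj 1
    rw [Matrix.mul_one, Matrix.mul_one, Matrix.transpose_fromRows, Matrix.fromRows_mul_fromCols,
      hYZ, hZY, hZ', Matrix.det_fromBlocks_zero₂₁, Matrix.det_one, mul_one] at h1
    exact h1
  have hWB : (W * B * W.transpose).det = (Y * Y.transpose).det * B.det := by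
    rw [← hWW, Matrix.det_mul, Matrix.det_mul, Matrix.det_mul, Matrix.det_transpose]
    ring
  have hWB2 : (W * B * W.transpose).det = M1.det * S.det := by
    rw [hconj, Matrix.transpose_fromRows, Matrix.fromRows_mul, Matrix.fromRows_mul_fromCols,
      ← hM1]
    letI : Invertible M1 := Matrix.invertibleOfIsUnitDet M1 hdet
    rw [Matrix.det_fromBlocks₁₁, Matrix.invOf_eq_nonsing_inv, ← hK, ← hS]
  have hkey : (Y * Y.transpose).det * B.det = M1.det * S.det := by rw [← hWB, hWB2]
  rw [hkey, ← hM1, hcard]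
  have h1 := pow_le_det S a ha.le hSlo
  have h2 := det_le_pow S c hSpsd hShi
  rw [Fintype.card_fin] at h1 h2
  exact ⟨mul_le_mul_of_nonneg_left h1 hM1pd.det_pos.le,
    mul_le_mul_of_nonneg_left h2 hM1pd.det_pos.le⟩

end Pool.Agent.LT
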