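import Mathlib
import Pool.Agent.LT.Base
import Pool.Agent.LT.LAVol

set_option autoImplicit false

/-!
# Project LT, module LAProj: projections and volumes of block families

PLAN. `A` has linearly independent rows, so `A * Aᵀ` is invertible (`gram_posDef`, `det_pos`), and
`prj A = 1 - Aᵀ (A Aᵀ)⁻¹ A` is symmetric, idempotent, `A * prj A = 0`. `x = x ᵥ* prj A + c ᵥ* A`
with `c = x ᵥ* (Aᵀ (A Aᵀ)⁻¹)`, an orthogonal decomposition, so `|x ᵥ* prj A|² ≤ |x|²`.
`vol_fromRows`: the Gram matrix of `fromRows A B` is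
`fromBlocks (A Aᵀ) (A Bᵀ) (B Aᵀ) (B Bᵀ)`; by `Matrix.det_fromBlocks₁₁`
its determinant is `det (A Aᵀ) * det (B Bᵀ - B Aᵀ (A Aᵀ)⁻¹ A Bᵀ)` and the last matrix is
`(B prj A) (B prj A)ᵀ`. Then `Real.sqrt_mul`.
`vol_le_prod`: induction on the number of rows with `vol_fromRows` (one row at a time), or
Hadamard's inequality for positive semidefinite matrices. If the rows are dependent the volume is
`0`. `vol_prj_le` and `vol_prj_le_prod` follow: the rows of `B * prj A` are not longer than
those of `B`.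
`prod_le_pow`: product over rows of numbers `≤ b`.
-/

open scoped BigOperators

namespace Pool.Agent.LT

variable {m n k : Type} [Fintype m] [DecidableEq m] [Fintype n] [DecidableEq n] [Fintype k]
  [DecidableEq k]

private lemma gram_unit (A : Matrix m n ℝ) (h : LI A) : IsUnit (A * A.transpose).det :=
  ((gram_posDef A h).det_pos).ne'.isUnit

private lemma gram_symm (A : Matrix m n ℝ) : (A * A.transpose).transpose = A * A.transpose := by
  rw [Matrix.transpose_mul, Matrix.transpose_transpose]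

lemma prj_transpose (A : Matrix m n ℝ) : (prj A).transpose = prj A := by
  unfold prj
  rw [Matrix.transpose_sub, Matrix.transpose_one, Matrix.transpose_mul, Matrix.transpose_mul,
    Matrix.transpose_transpose, Matrix.transpose_nonsing_inv, gram_symm, Matrix.mul_assoc]

lemma mul_prj (A : Matrix m n ℝ) (h : LI A) : A * prj A = 0 := by
  unfold prj
  rw [Matrix.mul_sub, Matrix.mul_one, ← Matrix.mul_assoc, ← Matrix.mul_assoc,
    Matrix.mul_nonsing_inv _ (gram_unit A h), Matrix.one_mul, sub_self]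

lemma prj_mul_self (A : Matrix m n ℝ) (h : LI A) : prj A * prj A = prj A := by
  have e : prj A * prj A =
      prj A - A.transpose * (A * A.transpose)⁻¹ * (A * prj A) := by
    conv_lhs =>
      lhs
      unfold prj
    rw [Matrix.sub_mul, Matrix.one_mul, Matrix.mul_assoc _ A]
  rw [e, mul_prj A h, Matrix.mul_zero, sub_zero]

/-- `prj A` is the identity on the orthogonal complement of the rows -/
lemma vecMul_prj_of_orth (A : Matrix m n ℝ) (x : n → ℝ) (hx : Matrix.mulVec A x = 0) :
    Matrix.vecMul x (prj A) = x := by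
  unfold prj
  rw [Matrix.vecMul_sub, Matrix.vecMul_one, ← Matrix.vecMul_vecMul, ← Matrix.vecMul_vecMul,
    Matrix.vecMul_transpose, hx, Matrix.zero_vecMul, Matrix.zero_vecMul, sub_zero]

lemma sub_vecMul_prj_mem (A : Matrix m n ℝ) (x : n → ℝ) :
    x - Matrix.vecMul x (prj A) ∈ rs A := by
  rw [mem_rs]
  refine ⟨Matrix.vecMul x (A.transpose * (A * A.transpose)⁻¹), ?_⟩
  unfold prj
  rw [Matrix.vecMul_sub, Matrix.vecMul_one, Matrix.vecMul_vecMul]
  abel

lemma prj_norm_le (A : Matrix m n ℝ) (h : LI A) : NB (prj A) 1 := by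
  intro x
  have h1 : Matrix.vecMul x (prj A) ⬝ᵥ Matrix.vecMul x (prj A) = x ⬝ᵥ Matrix.vecMul x (prj A) := by
    have e : Matrix.vecMul x (prj A) = Matrix.mulVec (prj A) x := by
      conv_rhs => rw [← prj_transpose A]
      rw [Matrix.mulVec_transpose]
    rw [← Matrix.dotProduct_mulVec]
    conv_lhs => rw [e]
    rw [Matrix.mulVec_mulVec, prj_mul_self A h, e]
  have h2 : 0 ≤ (x - Matrix.vecMul x (prj A)) ⬝ᵥ (x - Matrix.vecMul x (prj A)) := by
    simp only [dotProduct]
    exact Finset.sum_nonneg fun i _ => mul_self_nonneg _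
  rw [sub_dotProduct, dotProduct_sub, dotProduct_sub,
    dotProduct_comm (Matrix.vecMul x (prj A)) x] at h2
  rw [one_pow, one_mul]
  linarith

theorem vol_fromRows (A : Matrix m n ℝ) (B : Matrix k n ℝ) (h : LI A) :
    vol (Matrix.fromRows A B) = vol A * vol (B * prj A) := by
  unfold vol
  rw [← Real.sqrt_mul (gram_posSemidef A).det_nonneg]
  congr 1
  rw [Matrix.transpose_fromRows, Matrix.fromRows_mul_fromCols]
  letI : Invertible (A * A.transpose) := Matrix.invertibleOfIsUnitDet _ (gram_unit A h)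
  rw [Matrix.det_fromBlocks₁₁, Matrix.invOf_eq_nonsing_inv]
  congr 2
  rw [Matrix.transpose_mul, prj_transpose, Matrix.mul_assoc B (prj A), ← Matrix.mul_assoc (prj A),
    prj_mul_self A h]
  unfold prj
  rw [Matrix.sub_mul, Matrix.mul_sub, Matrix.one_mul]
  simp only [Matrix.mul_assoc]

private lemma vol_row (B : Matrix (Fin 1) n ℝ) : vol B = Real.sqrt (B 0 ⬝ᵥ B 0) := by
  unfold vol
  rw [Matrix.det_fin_one]
  rfl

private lemma vol_le_prod_fin (l : ℕ) : ∀ B : Matrix (Fin l) n ℝ,
    vol B ≤ ∏ i, Real.sqrt (B i ⬝ᵥ B i) := by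
  induction l with
  | zero =>
    intro B
    rw [vol_of_isEmpty]
    simp
  | succ l ih =>
    intro B
    by_cases hB : LI B
    · have h1 : vol (B.submatrix (finSumFinEquiv : Fin l ⊕ Fin 1 ≃ Fin (l + 1)) (Equiv.refl n)) =
          vol B := vol_submatrix B _ _
      have h2 : B.submatrix (finSumFinEquiv : Fin l ⊕ Fin 1 ≃ Fin (l + 1)) (Equiv.refl n) =
          Matrix.fromRows (B.submatrix (fun i : Fin l => Fin.castSucc i) id)
            (B.submatrix (fun _ : Fin 1 => Fin.last l) id) := by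
        ext i j
        rcases i with i | i
        · rfl
        · have : i = 0 := Subsingleton.elim _ _
          subst this
          rfl
      have hA : LI (B.submatrix (fun i : Fin l => Fin.castSucc i) id) :=
        LinearIndependent.comp hB (fun i : Fin l => Fin.castSucc i) (Fin.castSucc_injective l)
      rw [← h1, h2, vol_fromRows _ _ hA, Fin.prod_univ_castSucc]
      refine mul_le_mul (ih _) ?_ (vol_nonneg _) (Finset.prod_nonneg fun i _ => Real.sqrt_nonneg _)
      rw [vol_row]
      apply Real.sqrt_le_sqrt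
      have h3 := prj_norm_le _ hA (B (Fin.last l))
      rw [one_pow, one_mul] at h3
      exact h3
    · have h0 : vol B = 0 := by
        by_contra hne
        exact hB (li_of_vol_pos B (lt_of_le_of_ne (vol_nonneg B) (Ne.symm hne)))
      rw [h0]
      exact Finset.prod_nonneg fun i _ => Real.sqrt_nonneg _

theorem vol_le_prod (B : Matrix k n ℝ) : vol B ≤ ∏ i, Real.sqrt (B i ⬝ᵥ B i) := by
  have e := Fintype.equivFin k
  have h1 : vol (B.submatrix e.symm (Equiv.refl n)) = vol B := vol_submatrix B _ _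
  rw [← h1, ← Equiv.prod_comp e.symm]
  exact vol_le_prod_fin _ _

theorem vol_prj_le_pow (A : Matrix m n ℝ) (h : LI A) (B : Matrix k n ℝ) (b : ℝ) (hb : 0 ≤ b)
    (hB : ∀ i, B i ⬝ᵥ B i ≤ b ^ 2) : vol (B * prj A) ≤ b ^ Fintype.card k := by
  refine (vol_le_prod _).trans ?_
  calc ∏ i, Real.sqrt ((B * prj A) i ⬝ᵥ (B * prj A) i) ≤ ∏ _i : k, b := by
        refine Finset.prod_le_prod (fun i _ => Real.sqrt_nonneg _) (fun i _ => ?_)
        apply Real.sqrt_le_iff.mpr
        refine ⟨hb, ?_⟩
        have h3 := prj_norm_le A h (B i)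
        rw [one_pow, one_mul] at h3
        exact h3.trans (hB i)
    _ = b ^ Fintype.card k := by rw [Finset.prod_const, Finset.card_univ]

/-- orthogonal rows -/
theorem vol_fromRows_of_orth (A : Matrix m n ℝ) (B : Matrix k n ℝ) (h : A * B.transpose = 0) :
    vol (Matrix.fromRows A B) = vol A * vol B := by
  unfold vol
  rw [← Real.sqrt_mul (gram_posSemidef A).det_nonneg]
  congr 1
  have h' : B * A.transpose = 0 := by
    have := congrArg Matrix.transpose h
    rwa [Matrix.transpose_mul, Matrix.transpose_transpose, Matrix.transpose_zero] at this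
  rw [Matrix.transpose_fromRows, Matrix.fromRows_mul_fromCols, h, h', Matrix.det_fromBlocks_zero₂₁]

/-- the family `(0 | P), (D | X)` with `P` square and invertible -/
theorem vol_block {α γ p r : Type} [Fintype α] [DecidableEq α] [Fintype γ] [DecidableEq γ]
    [Fintype p] [DecidableEq p] [Fintype r] [DecidableEq r] (P : Matrix p γ ℝ) (hP : LI P)
    (hcard : Fintype.card p = Fintype.card γ) (D : Matrix r α ℝ) (X : Matrix r γ ℝ) :
    vol (Matrix.fromBlocks 0 P D X) = vol P * vol D := by
  obtain ⟨Q, hQ⟩ : ∃ Q : Matrix γ p ℝ, Q = P.transpose * (P * P.transpose)⁻¹ := ⟨_, rfl⟩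
  have h1 : P * Q = 1 := by
    rw [hQ, ← Matrix.mul_assoc, Matrix.mul_nonsing_inv _ (gram_unit P hP)]
  have h2 : Q * P = 1 := (Matrix.mul_eq_one_comm_of_card_eq p γ ℝ hcard).1 h1
  obtain ⟨T, hT⟩ : ∃ T : Matrix (p ⊕ r) (p ⊕ r) ℝ, T = Matrix.fromBlocks 1 0 (-(X * Q)) 1 :=
    ⟨_, rfl⟩
  have hdet : T.det = 1 := by
    rw [hT, Matrix.det_fromBlocks_zero₁₂, Matrix.det_one, Matrix.det_one, mul_one]
  have h3 : T * Matrix.fromBlocks 0 P D X = Matrix.fromBlocks 0 P D 0 := by
    rw [hT, Matrix.fromBlocks_multiply]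
    congr 1
    · simp
    · simp
    · simp
    · rw [Matrix.neg_mul, Matrix.mul_assoc, h2, Matrix.mul_one, Matrix.one_mul]
      simp
  have h4 : vol (Matrix.fromBlocks 0 P D X) = vol (Matrix.fromBlocks 0 P D (0 : Matrix r γ ℝ)) := by
    rw [← h3, vol_mul, hdet, abs_one, one_mul]
  rw [h4]
  unfold vol
  rw [← Real.sqrt_mul (gram_posSemidef P).det_nonneg, Matrix.fromBlocks_transpose,
    Matrix.fromBlocks_multiply]
  congr 1
  simp

end Pool.Agent.LT
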