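import Mathlib
import Pool.Agent.LT.Base

set_option autoImplicit false

/-!
# Project LT, module ModB: elementary facts on models

PLAN. All statements are elementary.
`card_act_mem`: `v ↦ M.act v g` is an injective self-map of `Fin ν`, hence a bijection.
`card_exists_not_mem`: union bound over `g ∈ W`, with `card_act_mem` for the complement.
`card_Gd`: induction on `q`, `K_0 = 0`, `K_{q+1} = 1 + |S| K_q`:
the complement of `Gd (q+1)` is contained in `(good S)ᶜ ∪ {v : ∃ g ∈ S, v.g ∉ Gd q}`.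
`mem_S`: if `p ≤ d` by definition; if `p > d` then `nn p = 0`, so `y.2 : Fin 0`.
-/

open scoped BigOperators

namespace Pool.Agent.LT

variable {G : Type} [Group G] {ν : ℕ}

lemma Mod.good_mono (M : Mod G ν) {F F' : Finset G} (h : F ⊆ F') : M.good F' ⊆ M.good F := by
  classical
  intro v hv
  unfold Mod.good at hv ⊢
  rw [Finset.mem_filter] at hv ⊢
  exact ⟨hv.1, fun g hg k hk => hv.2.1 g (h hg) k (h hk), fun g hg k hk => hv.2.2 g (h hg) k (h hk)⟩

lemma Mod.bad_mono (M : Mod G ν) {F F' : Finset G} (h : F ⊆ F') : M.bad F ≤ M.bad F' :=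
  Finset.card_le_card (Finset.compl_subset_compl.2 (M.good_mono h))

lemma Mod.act_act (M : Mod G ν) {F : Finset G} {v : Fin ν} {g h : G} (hv : v ∈ M.good F)
    (hg : g ∈ F) (hh : h ∈ F) : M.act (M.act v g) h = M.act v (g * h) := by
  classical
  unfold Mod.good at hv
  exact (Finset.mem_filter.1 hv).2.1 g hg h hh

lemma Mod.act_inj (M : Mod G ν) {F : Finset G} {v : Fin ν} {g h : G} (hv : v ∈ M.good F)
    (hg : g ∈ F) (hh : h ∈ F) (e : M.act v g = M.act v h) : g = h := by
  classical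
  unfold Mod.good at hv
  exact (Finset.mem_filter.1 hv).2.2 g hg h hh e

lemma Mod.act_inv (M : Mod G ν) {F : Finset G} {v : Fin ν} {g : G} (hv : v ∈ M.good F)
    (hg : g ∈ F) (hg' : g⁻¹ ∈ F) : M.act (M.act v g) g⁻¹ = v := by
  rw [M.act_act hv hg hg', mul_inv_cancel, M.act_one]

lemma Mod.card_act_mem (M : Mod G ν) (X : Finset (Fin ν)) (g : G) :
    (Finset.univ.filter fun v => M.act v g ∈ X).card = X.card := by
  classical
  have hbij : Function.Bijective fun v => M.act v g := Finite.injective_iff_bijective.1 (M.inj g)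
  refine Finset.card_bij (fun v _ => M.act v g) ?_ ?_ ?_
  · intro v hv
    exact (Finset.mem_filter.1 hv).2
  · intro v _ w _ h
    exact hbij.1 h
  · intro x hx
    obtain ⟨v, hv⟩ := hbij.2 x
    refine ⟨v, Finset.mem_filter.2 ⟨Finset.mem_univ _, ?_⟩, hv⟩
    have hv' : M.act v g = x := hv
    rw [hv']
    exact hx

open Classical in
lemma Mod.card_exists_not_mem (M : Mod G ν) (X : Finset (Fin ν)) (W : Finset G) :
    (Finset.univ.filter fun v => ∃ g ∈ W, M.act v g ∉ X).card ≤ W.card * (Xᶜ).card := by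
  have h1 : (Finset.univ.filter fun v => ∃ g ∈ W, M.act v g ∉ X) ⊆
      W.biUnion fun g => Finset.univ.filter fun v => M.act v g ∈ Xᶜ := by
    intro v hv
    obtain ⟨g, hg, hgX⟩ := (Finset.mem_filter.1 hv).2
    rw [Finset.mem_biUnion]
    exact ⟨g, hg, Finset.mem_filter.2 ⟨Finset.mem_univ _, Finset.mem_compl.2 hgX⟩⟩
  refine (Finset.card_le_card h1).trans ?_
  refine Finset.card_biUnion_le_card_mul _ _ _ ?_
  intro g _
  exact (M.card_act_mem _ g).le

lemma Cpl.one_mem_S (C : Cpl G) : (1 : G) ∈ C.S := by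
  classical
  unfold Cpl.S
  exact Finset.mem_insert_self _ _

lemma Cpl.mem_S (C : Cpl G) (p : ℕ) (j : Fin (C.nn (p + 1))) (y : G × Fin (C.nn p))
    (hy : y ∈ (C.D p j).support) : y.1 ∈ C.S := by
  classical
  rcases le_or_gt p C.d with h | h
  · unfold Cpl.S
    refine Finset.mem_insert_of_mem (Finset.mem_biUnion.2 ⟨p, Finset.mem_range.2 (by omega), ?_⟩)
    exact Finset.mem_biUnion.2 ⟨j, Finset.mem_univ _, Finset.mem_image_of_mem _ hy⟩
  · have h1 := C.nn_top p h
    have h2 := y.2.2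
    omega

lemma Gd_succ_subset_good (C : Cpl G) (M : Mod G ν) (q : ℕ) : Gd C M (q + 1) ⊆ M.good C.S := by
  unfold Gd
  exact Finset.filter_subset _ _

lemma act_mem_Gd (C : Cpl G) (M : Mod G ν) (q : ℕ) (v : Fin ν) (hv : v ∈ Gd C M (q + 1)) (g : G)
    (hg : g ∈ C.S) : M.act v g ∈ Gd C M q := by
  unfold Gd at hv
  exact (Finset.mem_filter.1 hv).2 g hg

lemma card_Gd (C : Cpl G) (q : ℕ) :
    ∃ K : ℕ, ∀ (ν : ℕ) (M : Mod G ν), ((Gd C M q)ᶜ).card ≤ K * M.bad C.S := by
  classical
  induction q with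
  | zero =>
    refine ⟨0, fun ν M => ?_⟩
    simp [Gd]
  | succ q ih =>
    obtain ⟨K, hK⟩ := ih
    refine ⟨1 + C.S.card * K, fun ν M => ?_⟩
    have h1 : (Gd C M (q + 1))ᶜ ⊆ (M.good C.S)ᶜ ∪
        Finset.univ.filter fun v => ∃ g ∈ C.S, M.act v g ∉ Gd C M q := by
      intro v hv
      rw [Finset.mem_compl] at hv
      rw [Finset.mem_union, Finset.mem_compl]
      by_contra hc
      rw [not_or, not_not] at hc
      apply hv
      unfold Gd
      refine Finset.mem_filter.2 ⟨hc.1, fun g hg => ?_⟩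
      by_contra hg'
      exact hc.2 (Finset.mem_filter.2 ⟨Finset.mem_univ _, g, hg, hg'⟩)
    calc ((Gd C M (q + 1))ᶜ).card ≤ _ := Finset.card_le_card h1
      _ ≤ _ := Finset.card_union_le _ _
      _ ≤ M.bad C.S + C.S.card * (K * M.bad C.S) := by
          refine Nat.add_le_add le_rfl ?_
          exact (M.card_exists_not_mem (Gd C M q) C.S).trans
            (Nat.mul_le_mul_left _ (hK ν M))
      _ = (1 + C.S.card * K) * M.bad C.S := by ring

end Pool.Agent.LT
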