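import Mathlib
import Pool.Agent.LT.Defs
import Pool.Agent.LT.Base

set_option autoImplicit false

/-!
# Project LT, module OpAlg: algebra of the operators `x ↦ x a` on `ℓ²(G)^n`

`IsRopF a T`: `T (g e_j) = g a_j`.

PLAN.
* `bv_orthonormal`: `lp.single`, inner product of `lp` (`lp.inner_single_left`,
  `lp.single_apply`); `inner (bv x) f = f x` (`inner_bv`). `bv` spans a dense subspace: if
  `inner (bv x) f = 0` for all `x` then `f = 0` (`lp.ext`). So two continuous linear maps which agree on all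
  `bv x` are equal (`clm_ext`: `T - S` vanishes on the closed span which is everything; or use
  adjoints: `⟪T† y, bv x⟫ = ⟪S† y, bv x⟫` for all `x, y`).
* `ropF_comp`: on `bv (g,j)`: `S (T (bv (g,j))) = ∑ a_j(y) S (bv (g y.1, y.2)) =
  ∑ a_j(y) b_{y.2}(z) bv (g y.1 z.1, z.2)` and `bdL b (a j) = ∑ a_j(y) • shift y.1 (b y.2)`
  (`Finsupp.linearCombination`, `Finsupp.sum_mapDomain_index`, `Finsupp.sum_sum_index`, ...). A
  convenient way: the map `ev g : (G × Fin n →₀ ℤ) →+ Hil G n`, `a ↦ a.sum fun y c => (c:ℂ) • bv (g*y.1,y.2)`,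
  is additive, `ev g (shift h a) = ev (g*h) a`, `IsRopF a T ↔ T (bv (g,j)) = ev g (a j)`, and
  `S (ev g a) = ev g (bdL b a)`.
* `ropF_adjoint`: `⟪T† (bv (h,i)), bv (g,j)⟫ = ⟪bv (h,i), T (bv (g,j))⟫ = a_j (g⁻¹ h, i)` (real), and
  `starG a i` has the value `a_j (k⁻¹, i)` at `(k, j)`; with `k = h⁻¹ g`. So
  `T† (bv (h,i))` and `ev h (starG a i)` have the same coordinates.
* `ropF_one`, `ropF_add`, `ropF_pow` (induction, `powG`; `T ^ (k+1) = T * T ^ k` and
  `mulG (powG a k) a`: `T ∘ T^k`), `trG_ropF`: `⟪bv (1,j), ev 1 (a j)⟫ = a j (1,j)`.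
-/

open scoped BigOperators InnerProductSpace

namespace Pool.Agent.LT

variable {G : Type} [Group G] {m n l : ℕ}

/-- `T` is the bounded operator `x ↦ x a` -/
def IsRopF (a : Fin m → (G × Fin n →₀ ℤ)) (T : Hil G m →L[ℂ] Hil G n) : Prop :=
  ∀ (g : G) (j : Fin m), T (bv (g, j)) = (a j).sum fun y c => (c : ℂ) • bv (g * y.1, y.2)

lemma inner_bv (x : G × Fin n) (f : Hil G n) : inner ℂ (bv x) f = f x := by
  classical
  unfold bv
  have h := lp.inner_single_left (𝕜 := ℂ) (G := fun _ : G × Fin n => ℂ) x (1 : ℂ) f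
  convert! h using 1
  simp

private lemma bv_self (x : G × Fin n) : (bv x : Hil G n) x = 1 := by
  classical
  unfold bv
  exact lp.single_apply_self (E := fun _ : G × Fin n => ℂ) 2 x (1 : ℂ)

private lemma bv_ne {x y : G × Fin n} (h : y ≠ x) : (bv x : Hil G n) y = 0 := by
  classical
  unfold bv
  exact lp.single_apply_ne (E := fun _ : G × Fin n => ℂ) 2 x (1 : ℂ) h

lemma bv_apply (x y : G × Fin n) [DecidableEq (G × Fin n)] :
    (bv x : Hil G n) y = if y = x then 1 else 0 := by
  by_cases h : y = x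
  · subst h
    rw [if_pos rfl]
    exact bv_self y
  · rw [if_neg h]
    exact bv_ne h

lemma norm_bv (x : G × Fin n) : ‖(bv x : Hil G n)‖ = 1 := by
  classical
  unfold bv
  have h := lp.norm_single (E := fun _ : G × Fin n => ℂ) (p := 2) (by norm_num) x (1 : ℂ)
  rw [h]
  simp

lemma clm_ext (T S : Hil G m →L[ℂ] Hil G n) (h : ∀ x, T (bv x) = S (bv x)) : T = S := by
  classical
  apply lp.ext_continuousLinearMap (E := fun _ : G × Fin m => ℂ) (p := 2) (by norm_num)
  intro i
  apply ContinuousLinearMap.ext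
  intro c
  show T (lp.single 2 i c) = S (lp.single 2 i c)
  have hc : (lp.single 2 i c : Hil G m) = c • (bv i : Hil G m) := by
    have h1 := lp.single_smul (E := fun _ : G × Fin m => ℂ) (𝕜 := ℂ) 2 i c (1 : ℂ)
    rw [smul_eq_mul, mul_one] at h1
    rw [h1]
    congr 1
  rw [hc, map_smul, map_smul, h]

/-- the vector `∑ a(y) g y` -/
private noncomputable def evL (g : G) : (G × Fin n →₀ ℤ) →ₗ[ℤ] Hil G n :=
  Finsupp.linearCombination ℤ fun y : G × Fin n => (bv (g * y.1, y.2) : Hil G n)

private lemma evL_eq (g : G) (a : G × Fin n →₀ ℤ) :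
    (a.sum fun y c => (c : ℂ) • (bv (g * y.1, y.2) : Hil G n)) = evL g a := by
  unfold evL
  rw [Finsupp.linearCombination_apply]
  refine Finsupp.sum_congr fun y _ => ?_
  exact Int.cast_smul_eq_zsmul ℂ _ _

private lemma isRopF_iff {a : Fin m → (G × Fin n →₀ ℤ)} {T : Hil G m →L[ℂ] Hil G n} :
    IsRopF a T ↔ ∀ (g : G) (j : Fin m), T (bv (g, j)) = evL g (a j) := by
  unfold IsRopF
  simp only [evL_eq]

private lemma evL_shift (g h : G) (a : G × Fin n →₀ ℤ) : evL g (shift h a) = evL (g * h) a := by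
  unfold evL shift
  rw [Finsupp.linearCombination_mapDomain]
  congr 2
  funext y
  simp [mul_assoc]

private lemma evL_single (g : G) (y : G × Fin n) (c : ℤ) :
    evL g (Finsupp.single y c) = c • (bv (g * y.1, y.2) : Hil G n) := by
  unfold evL
  rw [Finsupp.linearCombination_single]

private lemma evL_apply (g : G) (a : G × Fin n →₀ ℤ) (h : G) (i : Fin n) :
    (evL g a : Hil G n) (h, i) = (a (g⁻¹ * h, i) : ℂ) := by
  classical
  induction a using Finsupp.induction_linear with
  | zero =>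
    rw [map_zero]
    simp
  | add a b ha hb =>
    rw [map_add, lp.coeFn_add, Pi.add_apply, ha, hb, Finsupp.add_apply]
    push_cast
    rfl
  | single y c =>
    rw [evL_single, ← Int.cast_smul_eq_zsmul ℂ, lp.coeFn_smul, Pi.smul_apply, bv_apply,
      Finsupp.single_apply]
    by_cases hy : y = (g⁻¹ * h, i)
    · subst hy
      simp
    · rw [if_neg hy, if_neg]
      · simp
      · intro h'
        apply hy
        rw [Prod.ext_iff] at h'
        simp only at h'
        rw [Prod.ext_iff]
        simp only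
        exact ⟨by rw [h'.1]; group, h'.2.symm⟩

private lemma comp_evL (b : Fin n → (G × Fin l →₀ ℤ)) (S : Hil G n →L[ℂ] Hil G l)
    (hS : IsRopF b S) (g : G) (a : G × Fin n →₀ ℤ) : S (evL g a) = evL g (bdL b a) := by
  rw [isRopF_iff] at hS
  induction a using Finsupp.induction_linear with
  | zero => simp
  | add a b ha hb => rw [map_add, map_add, map_add, map_add, ha, hb]
  | single y c =>
    rw [evL_single, map_zsmul, hS]
    unfold bdL
    rw [Finsupp.linearCombination_single, map_zsmul, evL_shift]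

theorem ropF_one : IsRopF (oneG G n) (ContinuousLinearMap.id ℂ (Hil G n)) := by
  rw [isRopF_iff]
  intro g j
  unfold oneG
  rw [evL_single]
  simp

theorem ropF_add (a b : Fin m → (G × Fin n →₀ ℤ)) (T S : Hil G m →L[ℂ] Hil G n)
    (hT : IsRopF a T) (hS : IsRopF b S) : IsRopF (fun j => a j + b j) (T + S) := by
  rw [isRopF_iff] at *
  intro g j
  show T (bv (g, j)) + S (bv (g, j)) = _
  rw [hT, hS, map_add]

theorem ropF_comp (a : Fin m → (G × Fin n →₀ ℤ)) (b : Fin n → (G × Fin l →₀ ℤ))
    (T : Hil G m →L[ℂ] Hil G n) (S : Hil G n →L[ℂ] Hil G l) (hT : IsRopF a T)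
    (hS : IsRopF b S) : IsRopF (mulG a b) (S ∘L T) := by
  have hT' := isRopF_iff.1 hT
  rw [isRopF_iff]
  intro g j
  show S (T (bv (g, j))) = _
  rw [hT', comp_evL b S hS]
  rfl

private lemma starG_apply (a : Fin m → (G × Fin n →₀ ℤ)) (i : Fin n) (k : G) (j : Fin m) :
    starG a i (k, j) = a j (k⁻¹, i) := by
  classical
  unfold starG
  rw [Finsupp.finsetSum_apply]
  have h1 : ∀ j' : Fin m,
      ((a j').sum fun y c => if y.2 = i then (Finsupp.single (y.1⁻¹, j') c : G × Fin m →₀ ℤ)
        else 0) (k, j) = if j' = j then a j' (k⁻¹, i) else 0 := by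
    intro j'
    rw [Finsupp.sum_apply, Finsupp.sum]
    have h2 : ∀ y ∈ (a j').support, (if y.2 = i then (Finsupp.single (y.1⁻¹, j') (a j' y) :
        G × Fin m →₀ ℤ) else 0) (k, j) = if y = (k⁻¹, i) then (if j' = j then a j' y else 0) else 0 := by
      intro y _
      by_cases e1 : y.2 = i
      · rw [if_pos e1, Finsupp.single_apply]
        by_cases e2 : y = (k⁻¹, i)
        · rw [if_pos e2]
          subst e2
          simp
        · rw [if_neg e2, if_neg]
          intro h'
          rw [Prod.ext_iff] at h'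
          simp only at h'
          apply e2
          rw [Prod.ext_iff]
          exact ⟨by rw [← h'.1]; simp, e1⟩
      · rw [if_neg e1, if_neg]
        · rfl
        · intro h'
          apply e1
          rw [h']
    rw [Finset.sum_congr rfl h2, Finset.sum_ite_eq']
    by_cases e3 : (k⁻¹, i) ∈ (a j').support
    · rw [if_pos e3]
    · rw [if_neg e3]
      rw [Finsupp.notMem_support_iff] at e3
      simp [e3]
  rw [Finset.sum_congr rfl fun j' _ => h1 j', Finset.sum_ite_eq']
  simp

theorem ropF_adjoint (a : Fin m → (G × Fin n →₀ ℤ)) (T : Hil G m →L[ℂ] Hil G n)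
    (hT : IsRopF a T) : IsRopF (starG a) (ContinuousLinearMap.adjoint T) := by
  rw [isRopF_iff] at *
  intro h i
  apply lp.ext
  funext x
  obtain ⟨g, j⟩ := x
  rw [evL_apply, starG_apply, ← inner_bv, ContinuousLinearMap.adjoint_inner_right, hT,
    ← inner_conj_symm, inner_bv, evL_apply]
  simp

theorem ropF_pow (a : Fin n → (G × Fin n →₀ ℤ)) (T : Hil G n →L[ℂ] Hil G n)
    (hT : IsRopF a T) (k : ℕ) : IsRopF (powG a k) (T ^ k) := by
  induction k with
  | zero =>
    rw [pow_zero]
    exact ropF_one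
  | succ k ih =>
    rw [pow_succ']
    exact ropF_comp _ _ _ _ ih hT

theorem trG_ropF (a : Fin n → (G × Fin n →₀ ℤ)) (T : Hil G n →L[ℂ] Hil G n)
    (hT : IsRopF a T) : trG T = (trZ a : ℝ) := by
  rw [isRopF_iff] at hT
  unfold trG trZ
  push_cast
  refine Finset.sum_congr rfl fun j _ => ?_
  rw [inner_bv, hT, evL_apply]
  simp

end Pool.Agent.LT
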