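import Mathlib
import Pool.Agent.LT.Defs
import Pool.Agent.LT.Base
import Pool.Agent.LT.OpAlg

set_option autoImplicit false

/-!
# Project LT, module Bridge: from `FinRes` (matrices over `MonoidAlgebra ℤ G`) to `Cpl`

PLAN. `toF x = ∑ i, (x i).coeff.mapDomain (fun g => (g,i))`, the value at `(g,i)` is
`(x i).coeff g` (`toF_apply`); it is additive and bijective (`toF_bij`; inverse: `i ↦ ofCoeff` of
`Finsupp.comapDomain` along `g ↦ (g,i)`).
`bdL_toF`: `bdL (fun j => toF (A j)) (toF x) = toF (x ᵥ* A)`: both sides are additive in `x`, check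
on `x = Pi.single j (MonoidAlgebra.single g c)`: `toF x = single (g,j) c`,
`bdL .. = c • shift g (toF (A j))` and `(x ᵥ* A) i = single g c * A j i`, whose coefficient at `h` is
`c * (A j i).coeff (g⁻¹ h)` (`MonoidAlgebra.single_mul_apply`).
`sq`: `toF` of the row `j` of `D (p+1) * D p`, which is zero by exactness
(`exact_succ p` for `x := D (p+1) j = Pi.single j 1 ᵥ* D (p+1)`; for `p + 1 = 1`,
position `0`: `bdL (0) = ..` lands in `Fin 0`-indexed chains, trivial).
`ex1`: `x = toF x'`, all augmentations of components are zero, so `∑ (..) * aug j = 0`, by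
`exact_zero` `x' = y ᵥ* D 0`. `ex p`: `exact_succ p`.
`isRop_iff`: `(toF (A j)).sum f = ∑ i, (A j i).coeff.sum fun g c => f (g,i) c`
(`Finsupp.sum_finset_sum_index`, `Finsupp.sum_mapDomain_index`).
-/

open scoped BigOperators

namespace Pool.Agent.LT

variable {G : Type} [Group G] {m n : ℕ}

/-- row vectors over the group ring as chains -/
noncomputable def toF (x : Fin n → MonoidAlgebra ℤ G) : G × Fin n →₀ ℤ :=
  ∑ i, (x i).coeff.mapDomain fun g => (g, i)

lemma toF_apply (x : Fin n → MonoidAlgebra ℤ G) (g : G) (i : Fin n) :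
    toF x (g, i) = (x i).coeff g := by
  classical
  unfold toF
  rw [Finsupp.finsetSum_apply, Finset.sum_eq_single i]
  · exact Finsupp.mapDomain_apply (fun a b h => (Prod.ext_iff.1 h).1) _ g
  · intro j _ hj
    refine Finsupp.mapDomain_of_notMem_range _ _ ?_
    rintro ⟨a, ha⟩
    exact hj (Prod.ext_iff.1 ha).2
  · intro h
    exact absurd (Finset.mem_univ i) h

lemma toF_add (x y : Fin n → MonoidAlgebra ℤ G) : toF (x + y) = toF x + toF y := by
  ext ⟨g, i⟩
  rw [Finsupp.add_apply, toF_apply, toF_apply, toF_apply]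
  rfl

lemma toF_zero : toF (0 : Fin n → MonoidAlgebra ℤ G) = 0 := by
  ext ⟨g, i⟩
  rw [toF_apply]
  rfl

lemma toF_bij : Function.Bijective (toF : (Fin n → MonoidAlgebra ℤ G) → (G × Fin n →₀ ℤ)) := by
  constructor
  · intro x y h
    funext i
    apply MonoidAlgebra.coeff_injective
    ext g
    rw [← toF_apply, ← toF_apply, h]
  · intro y
    refine ⟨fun i => MonoidAlgebra.ofCoeff (y.comapDomain (fun g => (g, i))
      (fun a _ b _ h => (Prod.ext_iff.1 h).1)), ?_⟩
    ext ⟨g, i⟩
    rw [toF_apply]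
    rfl

/-- sums over `toF` -/
lemma toF_sum {M : Type} [AddCommMonoid M] (x : Fin n → MonoidAlgebra ℤ G)
    (f : G × Fin n → ℤ → M) (h0 : ∀ a, f a 0 = 0) (h1 : ∀ a b c, f a (b + c) = f a b + f a c) :
    (toF x).sum f = ∑ i, (x i).coeff.sum fun g c => f (g, i) c := by
  classical
  unfold toF
  rw [← Finsupp.sum_finsetSum_index h0 h1]
  refine Finset.sum_congr rfl fun i _ => ?_
  rw [Finsupp.sum_mapDomain_index h0 h1]

lemma toF_single (j : Fin m) (g : G) (c : ℤ) :
    toF (Pi.single j (MonoidAlgebra.single g c)) = Finsupp.single (g, j) c := by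
  classical
  ext ⟨h, i⟩
  rw [toF_apply]
  by_cases hij : i = j
  · subst hij
    rw [Pi.single_eq_same, MonoidAlgebra.coeff_single, Finsupp.single_apply, Finsupp.single_apply]
    simp
  · rw [Pi.single_eq_of_ne hij, Finsupp.single_apply, if_neg]
    · rfl
    · intro h
      exact hij (Prod.ext_iff.1 h).2.symm

lemma shift_apply {n : ℕ} (g : G) (a : G × Fin n →₀ ℤ) (h : G) (i : Fin n) :
    shift g a (h, i) = a (g⁻¹ * h, i) := by
  have e : ((h, i) : G × Fin n) = (fun y : G × Fin n => (g * y.1, y.2)) (g⁻¹ * h, i) := by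
    simp
  unfold shift
  conv_lhs => rw [e]
  refine Finsupp.mapDomain_apply ?_ _ _
  rintro ⟨a, b⟩ ⟨a', b'⟩ h
  simp only [Prod.mk.injEq, mul_right_inj] at h
  exact Prod.ext h.1 h.2

lemma bdL_toF (A : Matrix (Fin m) (Fin n) (MonoidAlgebra ℤ G)) (x : Fin m → MonoidAlgebra ℤ G) :
    bdL (fun j => toF (A j)) (toF x) = toF (Matrix.vecMul x A) := by
  classical
  have hadd : ∀ x y : Fin m → MonoidAlgebra ℤ G,
      bdL (fun j => toF (A j)) (toF x) = toF (Matrix.vecMul x A) →
      bdL (fun j => toF (A j)) (toF y) = toF (Matrix.vecMul y A) →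
      bdL (fun j => toF (A j)) (toF (x + y)) = toF (Matrix.vecMul (x + y) A) := by
    intro x y hx hy
    rw [toF_add, map_add, Matrix.add_vecMul, toF_add, hx, hy]
  have hzero : bdL (fun j => toF (A j)) (toF 0) = toF (Matrix.vecMul 0 A) := by
    rw [Matrix.zero_vecMul, toF_zero, toF_zero, map_zero]
  have hsingle : ∀ (j : Fin m) (g : G) (c : ℤ),
      bdL (fun j => toF (A j)) (toF (Pi.single j (MonoidAlgebra.single g c))) =
        toF (Matrix.vecMul (Pi.single j (MonoidAlgebra.single g c)) A) := by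
    intro j g c
    rw [toF_single]
    unfold bdL
    rw [Finsupp.linearCombination_single]
    ext ⟨h, i⟩
    rw [Finsupp.smul_apply, shift_apply, toF_apply, toF_apply, Matrix.single_vecMul]
    change c • (A j i).coeff (g⁻¹ * h) = (MonoidAlgebra.single g c * A j i).coeff h
    rw [MonoidAlgebra.coeff_single_mul_apply, smul_eq_mul]
  have hone : ∀ (j : Fin m) (a : MonoidAlgebra ℤ G),
      bdL (fun j => toF (A j)) (toF (Pi.single j a)) = toF (Matrix.vecMul (Pi.single j a) A) := by
    intro j a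
    induction a using MonoidAlgebra.induction_linear with
    | zero => rw [Pi.single_zero]; exact hzero
    | add a b ha hb => rw [Pi.single_add]; exact hadd _ _ ha hb
    | single g c => exact hsingle j g c
  have hx : x = ∑ j, Pi.single j (x j) := (Finset.univ_sum_single x).symm
  rw [hx]
  exact Finset.sum_induction (fun j => Pi.single j (x j))
    (fun x => bdL (fun j => toF (A j)) (toF x) = toF (Matrix.vecMul x A)) hadd hzero
    (fun j _ => hone j (x j))

/-- ranks, shifted by one -/
def nnOf (C : FinRes G) : ℕ → ℕ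
  | 0 => 0
  | p + 1 => C.n p

/-- differentials, shifted by one -/
noncomputable def DOf (C : FinRes G) :
    ∀ p, Fin (nnOf C (p + 1)) → (G × Fin (nnOf C p) →₀ ℤ)
  | 0 => fun _ => 0
  | p + 1 => fun j => toF (C.D p j)

lemma nnOf_top (C : FinRes G) (p : ℕ) (hp : C.d + 1 < p) : nnOf C p = 0 := by
  cases p with
  | zero => rfl
  | succ p => exact C.n_zero p (by omega)

lemma DOf_sq (C : FinRes G) (p : ℕ) (j : Fin (nnOf C (p + 2))) :
    bdL (DOf C p) (DOf C (p + 1) j) = 0 := by
  classical
  cases p with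
  | zero =>
    ext ⟨g, i⟩
    exact i.elim0
  | succ p =>
    refine (bdL_toF (C.D p) (C.D (p + 1) j)).trans ?_
    have h : Matrix.vecMul (C.D (p + 1) j) (C.D p) = 0 := by
      rw [C.exact_succ p]
      exact ⟨Pi.single j 1, (Matrix.single_one_vecMul j (C.D (p + 1))).symm⟩
    rw [h, toF_zero]
    rfl

lemma DOf_ex1 (C : FinRes G) (x : G × Fin (nnOf C 1) →₀ ℤ)
    (hx : ∀ j, (x.sum fun y c => if y.2 = j then c else 0) = 0) : ∃ y, bdL (DOf C 1) y = x := by
  classical
  obtain ⟨x', rfl⟩ := (toF_bij (G := G) (n := C.n 0)).2 x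
  have h0 : ∀ j, ((x' j).coeff.sum fun _ c => c) = 0 := by
    intro j
    have h1 := hx j
    have h2 : (toF x').sum (fun y c => if y.2 = j then c else 0) =
        ∑ i, (x' i).coeff.sum fun _ c => if i = j then c else 0 := by
      refine toF_sum x' (fun y c => if y.2 = j then c else 0) ?_ ?_
      · intro a
        split_ifs <;> rfl
      · intro a b c
        split_ifs
        · rfl
        · rfl
    replace h1 : ∑ i, ((x' i).coeff.sum fun _ c => if i = j then c else 0) = 0 :=
      h2.symm.trans h1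
    rw [Finset.sum_eq_single j] at h1
    · simpa using h1
    · intro i _ hij
      simp [hij]
    · intro h
      exact absurd (Finset.mem_univ j) h
  obtain ⟨y, hy⟩ := (C.exact_zero x').1 (by simp [h0])
  refine ⟨toF y, ?_⟩
  refine (bdL_toF (C.D 0) y).trans ?_
  rw [← hy]

lemma DOf_ex (C : FinRes G) (p : ℕ) (x : G × Fin (nnOf C (p + 2)) →₀ ℤ)
    (hx : bdL (DOf C (p + 1)) x = 0) : ∃ y, bdL (DOf C (p + 2)) y = x := by
  obtain ⟨x', rfl⟩ := (toF_bij (G := G) (n := C.n (p + 1))).2 x
  have h1 : toF (Matrix.vecMul x' (C.D p)) = 0 := (bdL_toF (C.D p) x').symm.trans hx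
  have h2 : Matrix.vecMul x' (C.D p) = 0 := toF_bij.1 (h1.trans toF_zero.symm)
  obtain ⟨y, hy⟩ := (C.exact_succ p x').1 h2
  refine ⟨toF y, ?_⟩
  refine (bdL_toF (C.D (p + 1)) y).trans ?_
  rw [← hy]

/-- the internal complex of a resolution -/
noncomputable def toCpl (C : FinRes G) : Cpl G where
  d := C.d + 1
  nn := nnOf C
  nn_zero := rfl
  nn_top := nnOf_top C
  D := DOf C
  sq := DOf_sq C
  ex1 := DOf_ex1 C
  ex := DOf_ex C

theorem isRop_iff (A : Matrix (Fin m) (Fin n) (MonoidAlgebra ℤ G))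
    (T : Hil G m →L[ℂ] Hil G n) : IsRop A T ↔ IsRopF (fun j => toF (A j)) T := by
  unfold IsRop IsRopF
  refine forall_congr' fun g => forall_congr' fun j => ?_
  rw [toF_sum (A j) (fun y c => (c : ℂ) • (bv (g * y.1, y.2) : Hil G n))]
  · intro a
    simp
  · intro a b c
    rw [Int.cast_add, add_smul]

end Pool.Agent.LT
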