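import Mathlib
import Pool.Agent.Helper77.PB.Radical
import Pool.Agent.LT.Defs

set_option autoImplicit false

/-!
# Project LT: amenability and Foelner sets
-/

open scoped BigOperators Topology

namespace Pool.Agent.LT

open Classical in
/-- Foelner condition for a subgroup -/
def FN {G : Type} [Group G] (N : Subgroup G) : Prop :=
  ∀ K : Finset G, (K : Set G) ⊆ (N : Set G) → ∀ e : ℝ, 0 < e → ∃ W : Finset G, W.Nonempty ∧
    (W : Set G) ⊆ (N : Set G) ∧ ∀ k ∈ K, ((W.filter fun w => k * w ∉ W).card : ℝ) ≤ e * W.card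

lemma IsAmenable.dens {N : Type} [Group N] (h : IsAmenable N) :
    Pool.Agent.Helper77.Dens.Amenable N := by
  obtain ⟨μ, hμ⟩ := h
  exact ⟨⟨μ.val, μ.nonneg, μ.univ, μ.union⟩, hμ⟩

theorem fn_of_isAmenable {G : Type} [Group G] (N : Subgroup G) (h : IsAmenable N) : FN N := by
  intro K hK e he
  obtain ⟨W, h1, h2, h3⟩ :=
    Pool.Agent.Helper77.PB.folnerIn_of_amenable N h.dens K hK e he
  refine ⟨W, h1, h2, fun k hk => ?_⟩
  have := h3 k hk
  unfold Pool.Agent.Helper77.PB.bd at this
  convert this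

end Pool.Agent.LT
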