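import Mathlib

set_option autoImplicit false

/-!
# Project LT, module FillAbs: a real linear filling map which is integral on an integer lattice

PLAN. `Z` is a submodule of the free module `m → ℤ` of finite rank, so it has a finite basis
`z : Fin r → Z` (`Submodule.basisOfPid` / `Module.Free` + `Module.Finite`,
`Module.Free.chooseBasis`). The `z i`, viewed in `m → ℝ`, are linearly independent over `ℝ`:
integer vectors which are linearly independent over `ℤ` are so over `ℚ` (clear denominators;
`LinearIndependent.iff_fractionRing`) and hence over `ℝ` (`LinearIndependent` is preserved by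
field extension: e.g. some maximal minor is nonzero, or `LinearIndependent.map'`/base change
`Matrix.rank`, or: the Gram determinant is a nonzero integer). Hence there is a real linear map
`Φ : (m → ℝ) →ₗ[ℝ] (Fin r → ℝ)` with `Φ (z i) = e_i` (a linearly independent family extends to a
basis, `LinearIndependent.extend`, or `LinearMap.exists_leftInverse_of_injective`).
Choose `y i` with `del (y i) = jj (z i)`. Put `T := ⋃ (y i).support`,
`f x k := ∑ i, Φ (Pi.single x 1) i * y i k`. For `z = ∑ c_i z_i` in `Z` (`c_i` integers)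
`∑ x, z x * f x k = ∑ i, Φ(z) i * y i k = ∑ c_i y_i k`, so `y := ∑ c_i • y_i` works.
`L` is the maximum of the finitely many `|f x k|`, `k ∈ T`.
-/

open scoped BigOperators

namespace Pool.Agent.LT

theorem exists_fill_abs {m κ κ' : Type} [Fintype m] [DecidableEq m] (Z : Submodule ℤ (m → ℤ))
    (del : (κ →₀ ℤ) →ₗ[ℤ] (κ' →₀ ℤ)) (jj : (m → ℤ) →ₗ[ℤ] (κ' →₀ ℤ))
    (hfill : ∀ z ∈ Z, ∃ y, del y = jj z) :
    ∃ (T : Finset κ) (f : m → κ → ℝ) (L : ℝ), 0 ≤ L ∧ (∀ x k, f x k ≠ 0 → k ∈ T) ∧
      (∀ x k, |f x k| ≤ L) ∧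
      ∀ z ∈ Z, ∃ y : κ →₀ ℤ, (∀ k, (y k : ℝ) = ∑ x, (z x : ℝ) * f x k) ∧ del y = jj z := by
  classical
  obtain ⟨r, b⟩ := Submodule.basisOfPid (Pi.basisFun ℤ m) Z
  choose y hy using fun i : Fin r => hfill (b i : m → ℤ) (b i).2
  -- the rational vectors
  set cst : (m → ℤ) →ₗ[ℤ] (m → ℚ) := ((Int.castAddHom ℚ).toIntLinearMap).compLeft m with hcst
  have hcst_apply : ∀ (v : m → ℤ) (x : m), cst v x = (v x : ℚ) := fun v x => rfl
  have hinj : Function.Injective cst := by
    intro v w h
    funext x
    have := congrFun h x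
    rw [hcst_apply, hcst_apply] at this
    exact_mod_cast this
  have hli : LinearIndependent ℤ (fun i => cst (b i : m → ℤ)) := by
    have h1 : LinearIndependent ℤ (fun i => (b i : m → ℤ)) :=
      b.linearIndependent.map' Z.subtype (Submodule.ker_subtype Z)
    exact h1.map' cst (LinearMap.ker_eq_bot.2 hinj)
  have hliQ : LinearIndependent ℚ (fun i => cst (b i : m → ℤ)) :=
    (LinearIndependent.iff_fractionRing ℤ ℚ).1 hli
  obtain ⟨g, hg⟩ := LinearMap.exists_leftInverse_of_injective
    (Finsupp.linearCombination ℚ (fun i => cst (b i : m → ℤ))) (linearIndependent_iff_ker.1 hliQ)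
  have hgi : ∀ i, g (cst (b i : m → ℤ)) = Finsupp.single i 1 := by
    intro i
    have h1 := LinearMap.congr_fun hg (Finsupp.single i 1)
    rw [LinearMap.comp_apply, Finsupp.linearCombination_single, one_smul, LinearMap.id_apply] at h1
    exact h1
  have hgz : ∀ z : Z, ∀ i, g (cst (z : m → ℤ)) i = (b.repr z i : ℚ) := by
    intro z i
    have h1 : (z : m → ℤ) = ∑ j, b.repr z j • (b j : m → ℤ) := by
      have h2 := congrArg (fun w : Z => (w : m → ℤ)) (b.sum_repr z)
      simp only [Submodule.coe_sum, Submodule.coe_smul] at h2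
      exact h2.symm
    rw [h1, map_sum, map_sum, Finsupp.finsetSum_apply]
    have h3 : ∀ j, g (cst (b.repr z j • (b j : m → ℤ))) i =
        if j = i then (b.repr z j : ℚ) else 0 := by
      intro j
      have h4 : cst (b.repr z j • (b j : m → ℤ)) = (b.repr z j : ℚ) • cst (b j : m → ℤ) := by
        rw [map_zsmul]
        exact (Int.cast_smul_eq_zsmul ℚ _ _).symm
      rw [h4, map_smul, hgi, Finsupp.smul_apply, Finsupp.single_apply, smul_eq_mul]
      split_ifs
      · rw [mul_one]
      · rw [mul_zero]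
    rw [Finset.sum_congr rfl (fun j _ => h3 j)]
    simp
  set f : m → κ → ℝ := fun x k => ∑ i, ((g (Pi.single x 1) i : ℚ) : ℝ) * (y i k : ℝ) with hf
  set T : Finset κ := Finset.univ.biUnion (fun i => (y i).support) with hT
  have hfT : ∀ x k, f x k ≠ 0 → k ∈ T := by
    intro x k hk
    by_contra hkT
    apply hk
    rw [hf]
    refine Finset.sum_eq_zero (fun i _ => ?_)
    have h1 : y i k = 0 := by
      by_contra h2
      exact hkT (Finset.mem_biUnion.2 ⟨i, Finset.mem_univ i, Finsupp.mem_support_iff.2 h2⟩)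
    rw [h1, Int.cast_zero, mul_zero]
  refine ⟨T, f, ∑ x, ∑ k ∈ T, |f x k|, ?_, hfT, ?_, ?_⟩
  · exact Finset.sum_nonneg (fun x _ => Finset.sum_nonneg (fun k _ => abs_nonneg _))
  · intro x k
    by_cases hk : f x k = 0
    · rw [hk, abs_zero]
      exact Finset.sum_nonneg (fun x _ => Finset.sum_nonneg (fun k _ => abs_nonneg _))
    · have h1 : |f x k| ≤ ∑ k ∈ T, |f x k| :=
        Finset.single_le_sum (f := fun k => |f x k|) (fun k _ => abs_nonneg _) (hfT x k hk)
      refine h1.trans ?_
      exact Finset.single_le_sum (f := fun x => ∑ k ∈ T, |f x k|)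
        (fun x _ => Finset.sum_nonneg (fun k _ => abs_nonneg _)) (Finset.mem_univ x)
  · intro z hz
    refine ⟨∑ i, b.repr ⟨z, hz⟩ i • y i, ?_, ?_⟩
    · intro k
      have h1 : ∀ i, ∑ x, (z x : ℝ) * ((g (Pi.single x 1) i : ℚ) : ℝ) = (b.repr ⟨z, hz⟩ i : ℝ) := by
        intro i
        have h2 : ∑ x, (z x : ℚ) * g (Pi.single x 1) i = (b.repr ⟨z, hz⟩ i : ℚ) := by
          rw [← hgz ⟨z, hz⟩ i]
          have h3 : cst z = ∑ x, (z x : ℚ) • (Pi.single x 1 : m → ℚ) := by
            funext x'
            rw [Finset.sum_apply, hcst_apply]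
            simp [Pi.single_apply]
          show _ = g (cst z) i
          rw [h3, map_sum, Finsupp.finsetSum_apply]
          refine Finset.sum_congr rfl (fun x _ => ?_)
          rw [map_smul, Finsupp.smul_apply, smul_eq_mul]
        exact_mod_cast congrArg (fun q : ℚ => (q : ℝ)) h2
      have h4 : ((∑ i, b.repr ⟨z, hz⟩ i • y i : κ →₀ ℤ) k : ℝ) =
          ∑ i, (b.repr ⟨z, hz⟩ i : ℝ) * (y i k : ℝ) := by
        rw [Finsupp.finsetSum_apply]
        push_cast
        refine Finset.sum_congr rfl (fun i _ => ?_)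
        rw [Pi.smul_apply, smul_eq_mul]
        push_cast
        ring
      rw [h4, hf]
      simp only [Finset.mul_sum]
      rw [Finset.sum_comm]
      refine Finset.sum_congr rfl (fun i _ => ?_)
      rw [← h1 i, Finset.sum_mul]
      refine Finset.sum_congr rfl (fun x _ => ?_)
      ring
    · rw [map_sum]
      have h1 : z = ∑ j, b.repr ⟨z, hz⟩ j • (b j : m → ℤ) := by
        have h2 := congrArg (fun w : Z => (w : m → ℤ)) (b.sum_repr ⟨z, hz⟩)
        simp only [Submodule.coe_sum, Submodule.coe_smul] at h2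
        exact h2.symm
      conv_rhs => rw [h1]
      rw [map_sum]
      refine Finset.sum_congr rfl (fun i _ => ?_)
      rw [map_zsmul, map_zsmul, hy]

end Pool.Agent.LT
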