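import Mathlib
import Pool.Agent.LT.Base
import Pool.Agent.LT.FillAbs

set_option autoImplicit false

/-!
# Project LT, module FillC: fillings of cycles supported in a finite set

PLAN. Apply `exists_fill_abs` with `m := {x : G × Fin (C.nn (q+1)) // x ∈ W ×ˢ univ}` (a Fintype),
`κ := G × Fin (C.nn (q+2))`, `κ' := G × Fin (C.nn (q+1))`, `del := bdL (C.D (q+1))`,
`jj z := ∑ x : m, Finsupp.single x.1 (z x)` (extension by zero, a linear map) and
`Z := {z : C.cyc q (jj z)}` (a submodule because `C.cyc q` is given by linear equations; prove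
first that `C.cyc q` is closed under addition, zero and integer multiples, cases on `q`).
`hfill`: `C.ex1` for `q = 0`, `C.ex` for `q + 1` (definition of `Cpl.cyc`).
The set `T` of the statement is the image of the one of `exists_fill_abs` under `Prod.fst`, and
`f x k := ` the function of `exists_fill_abs` if `x.1 ∈ W`, `0` otherwise.
A chain `z` with support in `W` is `jj` of its restriction.
-/

open scoped BigOperators

namespace Pool.Agent.LT

private theorem exists_cyc_submodule {G : Type} [Group G] (C : Cpl G) (q : ℕ) :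
    ∃ S : Submodule ℤ (G × Fin (C.nn (q + 1)) →₀ ℤ), ∀ x, x ∈ S ↔ C.cyc q x := by
  cases q with
  | zero =>
    refine ⟨⨅ j, LinearMap.ker (Finsupp.linearCombination ℤ
      (fun y : G × Fin (C.nn 1) => if y.2 = j then (1 : ℤ) else 0)), fun x => ?_⟩
    rw [Submodule.mem_iInf]
    unfold Cpl.cyc
    refine forall_congr' fun j => ?_
    rw [LinearMap.mem_ker, Finsupp.linearCombination_apply]
    have h1 : (x.sum fun y c => c • (if y.2 = j then (1 : ℤ) else 0)) =
        x.sum fun y c => if y.2 = j then c else 0 := by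
      refine Finsupp.sum_congr fun y _ => ?_
      by_cases h : y.2 = j
      · simp [h]
      · simp [h]
    rw [h1]
  | succ q =>
    refine ⟨LinearMap.ker (bdL (C.D (q + 1))), fun x => ?_⟩
    rw [LinearMap.mem_ker]
    rfl

private theorem exists_fill_cyc {G : Type} [Group G] (C : Cpl G) (q : ℕ)
    (x : G × Fin (C.nn (q + 1)) →₀ ℤ) (hx : C.cyc q x) : ∃ y, bdL (C.D (q + 1)) y = x := by
  cases q with
  | zero => exact C.ex1 x hx
  | succ q => exact C.ex q x hx

theorem exists_fill {G : Type} [Group G] (C : Cpl G) (q : ℕ) (W : Finset G) :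
    ∃ (T : Finset G) (f : G × Fin (C.nn (q + 1)) → G × Fin (C.nn (q + 2)) → ℝ) (L : ℝ), 0 ≤ L ∧
      (∀ x y, f x y ≠ 0 → x.1 ∈ W ∧ y.1 ∈ T) ∧ (∀ x y, |f x y| ≤ L) ∧
      ∀ z : G × Fin (C.nn (q + 1)) →₀ ℤ, (∀ x ∈ z.support, x.1 ∈ W) → C.cyc q z →
        ∃ y : G × Fin (C.nn (q + 2)) →₀ ℤ, (∀ x ∈ y.support, x.1 ∈ T) ∧
          (∀ k, (y k : ℝ) = z.sum fun x c => (c : ℝ) * f x k) ∧ bdL (C.D (q + 1)) y = z := by
  classical
  obtain ⟨S, hS⟩ := exists_cyc_submodule C q
  let m : Type := {x : G × Fin (C.nn (q + 1)) //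
    x ∈ W ×ˢ (Finset.univ : Finset (Fin (C.nn (q + 1))))}
  let jj : (m → ℤ) →ₗ[ℤ] (G × Fin (C.nn (q + 1)) →₀ ℤ) :=
    ∑ x : m, (Finsupp.lsingle x.1) ∘ₗ (LinearMap.proj x)
  have hjj : ∀ z : m → ℤ, jj z = ∑ x : m, Finsupp.single x.1 (z x) := by
    intro z
    simp only [jj, LinearMap.sum_apply, LinearMap.comp_apply, LinearMap.proj_apply,
      Finsupp.lsingle_apply]
  obtain ⟨T0, f0, L, hL, hT0, hfL, hf0⟩ := exists_fill_abs (S.comap jj) (bdL (C.D (q + 1))) jj
    (fun z hz => exists_fill_cyc C q _ ((hS _).1 hz))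
  refine ⟨T0.image Prod.fst, fun x k => if h : x ∈ W ×ˢ (Finset.univ : Finset (Fin (C.nn (q + 1))))
    then f0 ⟨x, h⟩ k else 0, L, hL, ?_, ?_, ?_⟩
  · intro x y hxy
    by_cases h : x ∈ W ×ˢ (Finset.univ : Finset (Fin (C.nn (q + 1))))
    · simp only [dif_pos h] at hxy
      exact ⟨(Finset.mem_product.1 h).1, Finset.mem_image_of_mem _ (hT0 _ _ hxy)⟩
    · simp only [dif_neg h] at hxy
      exact absurd rfl hxy
  · intro x y
    by_cases h : x ∈ W ×ˢ (Finset.univ : Finset (Fin (C.nn (q + 1))))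
    · simp only [dif_pos h]
      exact hfL _ _
    · simp only [dif_neg h, abs_zero]
      exact hL
  · intro z hz hcyc
    have hz0 : ∀ x, x ∉ W ×ˢ (Finset.univ : Finset (Fin (C.nn (q + 1)))) → z x = 0 := by
      intro x hx
      by_contra hne
      exact hx (Finset.mem_product.2 ⟨hz x (Finsupp.mem_support_iff.2 hne), Finset.mem_univ _⟩)
    have hjz : jj (fun x : m => z x.1) = z := by
      rw [hjj]
      ext y
      rw [Finsupp.finsetSum_apply]
      by_cases h : y ∈ W ×ˢ (Finset.univ : Finset (Fin (C.nn (q + 1))))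
      · rw [Finset.sum_eq_single (⟨y, h⟩ : m)]
        · simp
        · intro x _ hx
          rw [Finsupp.single_apply, if_neg]
          intro h'
          exact hx (Subtype.ext h')
        · intro h'
          exact absurd (Finset.mem_univ _) h'
      · rw [hz0 y h]
        refine Finset.sum_eq_zero fun x _ => ?_
        rw [Finsupp.single_apply, if_neg]
        intro h'
        exact h (h' ▸ x.2)
    have hmem : (fun x : m => z x.1) ∈ S.comap jj := by
      rw [Submodule.mem_comap, hjz]
      exact (hS z).2 hcyc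
    obtain ⟨y, hy, hdel⟩ := hf0 _ hmem
    have hsum : ∀ k, (z.sum fun x c => (c : ℝ) *
        (if h : x ∈ W ×ˢ (Finset.univ : Finset (Fin (C.nn (q + 1)))) then f0 ⟨x, h⟩ k else 0)) =
        ∑ x : m, (z x.1 : ℝ) * f0 x k := by
      intro k
      rw [Finsupp.sum]
      have h1 : ∑ x ∈ z.support, ((z x : ℤ) : ℝ) *
          (if h : x ∈ W ×ˢ (Finset.univ : Finset (Fin (C.nn (q + 1)))) then f0 ⟨x, h⟩ k else 0) =
          ∑ x ∈ W ×ˢ (Finset.univ : Finset (Fin (C.nn (q + 1)))), ((z x : ℤ) : ℝ) *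
          (if h : x ∈ W ×ˢ (Finset.univ : Finset (Fin (C.nn (q + 1)))) then f0 ⟨x, h⟩ k
            else 0) := by
        refine Finset.sum_subset ?_ ?_
        · intro x hx
          exact Finset.mem_product.2 ⟨hz x hx, Finset.mem_univ _⟩
        · intro x _ hx
          rw [Finsupp.notMem_support_iff.1 hx]
          simp
      rw [h1, ← Finset.sum_coe_sort]
      refine Finset.sum_congr rfl fun x _ => ?_
      rw [dif_pos x.2]
    refine ⟨y, ?_, ?_, ?_⟩
    · intro k hk
      by_contra hkT
      have h1 : (y k : ℝ) = 0 := by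
        rw [hy k]
        refine Finset.sum_eq_zero fun x _ => ?_
        have h2 : f0 x k = 0 := by
          by_contra h3
          exact hkT (Finset.mem_image_of_mem _ (hT0 _ _ h3))
        rw [h2, MulZeroClass.mul_zero]
      exact (Finsupp.mem_support_iff.1 hk) (by exact_mod_cast h1)
    · intro k
      rw [hy k]
      exact (hsum k).symm
    · rw [hdel, hjz]

end Pool.Agent.LT
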