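import Mathlib
import Pool.Agent.LT.Base
import Pool.Agent.LT.ModB

set_option autoImplicit false

/-!
# Project LT, module Push: push forward and pull back of chains, `d ∘ d = 0` at the finite level

PLAN.
* `push` is `Finsupp.mapDomain`, so it is additive (`Finsupp.mapDomain_add`, `mapDomain_single`,
  `mapDomain_smul`, `Finsupp.mapDomain_finset_sum`). `bdL` is `Finsupp.linearCombination`.
* `push_apply_ne`: `Finsupp.mapDomain_support`.
* `push_good`: on a good vertex the orbit map `y ↦ (M.act v y.1, y.2)` is injective on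
  `F ×ˢ univ`; write `mapDomain f a x = ∑ y ∈ a.support, if f y = x then a y else 0`
  (`Finsupp.mapDomain`, `Finsupp.sum_apply`, `Finsupp.single_apply`).
* `push_shift`: both sides are `mapDomain` of `a` (`Finsupp.mapDomain_comp`) along maps which agree
  on the support (`Finsupp.mapDomain_congr`): `M.act (M.act v g) h = M.act v (g * h)`.
* `push_bdL`: write `a = ∑ y ∈ a.support, single y (a y)`; by linearity
  `push M v a ᵥ* dM = ∑ y ∈ a.support, a y • (row (M.act v y.1, y.2) of dM)`, the row is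
  `push M (M.act v y.1) (C.D q y.2)` because `M.act v y.1 ∈ Gd C M q`, and this is
  `push M v (shift y.1 (C.D q y.2))` by `push_shift` (with `C.mem_S`).
* `dM_sq`: the row `(v,j)` of the product is `push M v (C.D (q+1) j) ᵥ* dM C M q` if
  `v ∈ Gd C M (q+1)` and `0` otherwise; apply `push_bdL` with `F = C.S` and `C.sq`.
* `pull_push`, `push_pull`: direct.
-/

open scoped BigOperators

namespace Pool.Agent.LT

variable {G : Type} [Group G] {ν n : ℕ}

lemma push_zero (M : Mod G ν) (v : Fin ν) : push M v (0 : G × Fin n →₀ ℤ) = 0 := by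
  unfold push
  rw [Finsupp.mapDomain_zero, Finsupp.coe_zero]

lemma push_add (M : Mod G ν) (v : Fin ν) (a b : G × Fin n →₀ ℤ) :
    push M v (a + b) = push M v a + push M v b := by
  unfold push
  rw [Finsupp.mapDomain_add, Finsupp.coe_add]

lemma push_smul (M : Mod G ν) (v : Fin ν) (c : ℤ) (a : G × Fin n →₀ ℤ) :
    push M v (c • a) = c • push M v a := by
  unfold push
  rw [Finsupp.mapDomain_smul, Finsupp.coe_smul]

lemma push_sum {ι : Type} (M : Mod G ν) (v : Fin ν) (s : Finset ι) (a : ι → (G × Fin n →₀ ℤ)) :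
    push M v (∑ i ∈ s, a i) = ∑ i ∈ s, push M v (a i) := by
  classical
  induction s using Finset.induction_on with
  | empty => rw [Finset.sum_empty, Finset.sum_empty, push_zero]
  | insert i s hi ih => rw [Finset.sum_insert hi, Finset.sum_insert hi, push_add, ih]

lemma push_single (M : Mod G ν) (v : Fin ν) (g : G) (i : Fin n) (c : ℤ) :
    push M v (Finsupp.single (g, i) c) = Pi.single (M.act v g, i) c := by
  unfold push
  rw [Finsupp.mapDomain_single, Finsupp.single_eq_pi_single]

lemma push_apply_ne (M : Mod G ν) (v : Fin ν) (a : G × Fin n →₀ ℤ) (x : Fin ν × Fin n)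
    (h : push M v a x ≠ 0) : ∃ y ∈ a.support, (M.act v y.1, y.2) = x := by
  classical
  unfold push at h
  have h1 := Finsupp.mapDomain_support (Finsupp.mem_support_iff.2 h)
  rw [Finset.mem_image] at h1
  exact h1

/-- the values of a push forward at a good vertex -/
lemma push_good (M : Mod G ν) (F : Finset G) (v : Fin ν) (hv : v ∈ M.good F)
    (a : G × Fin n →₀ ℤ) (ha : ∀ y ∈ a.support, y.1 ∈ F) (g : G) (hg : g ∈ F) (i : Fin n) :
    push M v a (M.act v g, i) = a (g, i) := by
  unfold push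
  have hinj : Set.InjOn (fun y : G × Fin n => (M.act v y.1, y.2)) {y | y.1 ∈ F} := by
    intro y hy z hz hyz
    simp only [Prod.mk.injEq] at hyz
    exact Prod.ext (M.act_inj hv hy hz hyz.1) hyz.2
  have hsub : (a.support : Set (G × Fin n)) ⊆ {y : G × Fin n | y.1 ∈ F} := by
    intro y hy
    exact ha y (by simpa using hy)
  exact Finsupp.mapDomain_apply' {y : G × Fin n | y.1 ∈ F} a hsub hinj
    (show (g, i) ∈ {y : G × Fin n | y.1 ∈ F} from hg)

/-- push forward is injective at good vertices -/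
lemma push_eq_zero (M : Mod G ν) (F : Finset G) (v : Fin ν) (hv : v ∈ M.good F)
    (a : G × Fin n →₀ ℤ) (ha : ∀ y ∈ a.support, y.1 ∈ F) (h : push M v a = 0) : a = 0 := by
  ext y
  rw [Finsupp.coe_zero, Pi.zero_apply]
  by_contra hne
  have hy : y.1 ∈ F := ha y (Finsupp.mem_support_iff.2 hne)
  have h1 := push_good M F v hv a ha y.1 hy y.2
  rw [h] at h1
  exact hne h1.symm

lemma push_shift (M : Mod G ν) (F : Finset G) (v : Fin ν) (hv : v ∈ M.good F) (g : G)
    (hg : g ∈ F) (a : G × Fin n →₀ ℤ) (ha : ∀ y ∈ a.support, y.1 ∈ F) :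
    push M v (shift g a) = push M (M.act v g) a := by
  unfold push shift
  rw [← Finsupp.mapDomain_comp]
  congr 1
  refine Finsupp.mapDomain_congr fun y hy => ?_
  change (M.act v (g * y.1), y.2) = (M.act (M.act v g) y.1, y.2)
  rw [M.act_act hv hg (ha y hy)]

lemma shift_support (g : G) (a : G × Fin n →₀ ℤ) (y : G × Fin n) (hy : y ∈ (shift g a).support) :
    ∃ z ∈ a.support, y = (g * z.1, z.2) := by
  classical
  unfold shift at hy
  have h1 := Finsupp.mapDomain_support hy
  rw [Finset.mem_image] at h1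
  obtain ⟨z, hz, e⟩ := h1
  exact ⟨z, hz, e.symm⟩

lemma bdL_single {m : ℕ} (a : Fin m → (G × Fin n →₀ ℤ)) (x : G × Fin m) (c : ℤ) :
    bdL a (Finsupp.single x c) = c • shift x.1 (a x.2) := by
  unfold bdL
  rw [Finsupp.linearCombination_single]

lemma bdL_eq_sum {m : ℕ} (a : Fin m → (G × Fin n →₀ ℤ)) (b : G × Fin m →₀ ℤ) :
    bdL a b = ∑ x ∈ b.support, b x • shift x.1 (a x.2) := by
  unfold bdL
  rw [Finsupp.linearCombination_apply, Finsupp.sum]

lemma bdL_support {m : ℕ} (a : Fin m → (G × Fin n →₀ ℤ)) (b : G × Fin m →₀ ℤ) (y : G × Fin n)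
    (hy : y ∈ (bdL a b).support) :
    ∃ x ∈ b.support, ∃ z ∈ (a x.2).support, y = (x.1 * z.1, z.2) := by
  rw [Finsupp.mem_support_iff, bdL_eq_sum, Finsupp.finsetSum_apply] at hy
  obtain ⟨x, hx, h1⟩ := Finset.exists_ne_zero_of_sum_ne_zero hy
  rw [Finsupp.smul_apply] at h1
  have h2 : shift x.1 (a x.2) y ≠ 0 := fun h => h1 (by rw [h, smul_zero])
  obtain ⟨z, hz, e⟩ := shift_support x.1 (a x.2) y (Finsupp.mem_support_iff.2 h2)
  exact ⟨x, hx, z, hz, e⟩

/-- the differential commutes with push forward (formula (1) of the paper proof) -/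
theorem push_bdL (C : Cpl G) (M : Mod G ν) (q : ℕ) (F : Finset G) (hF : C.S ⊆ F) (v : Fin ν)
    (hv : v ∈ M.good F) (a : G × Fin (C.nn (q + 1)) →₀ ℤ) (ha : ∀ y ∈ a.support, y.1 ∈ F)
    (hGd : ∀ y ∈ a.support, M.act v y.1 ∈ Gd C M q) :
    Matrix.vecMul (push M v a) (dM C M q) = push M v (bdL (C.D q) a) := by
  have e1 : push M v a = ∑ y ∈ a.support, a y • Pi.single (M.act v y.1, y.2) (1 : ℤ) := by
    conv_lhs => rw [← Finsupp.sum_single a, Finsupp.sum, push_sum]
    refine Finset.sum_congr rfl fun y _ => ?_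
    rw [show y = (y.1, y.2) from rfl, push_single]
    funext z
    rw [Pi.smul_apply, Pi.single_apply, Pi.single_apply]
    split_ifs <;> simp
  rw [e1, bdL_eq_sum, push_sum, Matrix.sum_vecMul]
  refine Finset.sum_congr rfl fun y hy => ?_
  rw [Matrix.smul_vecMul, Matrix.single_one_vecMul, push_smul,
    push_shift M F v hv y.1 (ha y hy) _ fun z hz => hF (C.mem_S q y.2 z hz)]
  congr 1
  change (if M.act v y.1 ∈ Gd C M q then push M (M.act v y.1) (C.D q y.2) else 0) = _
  rw [if_pos (hGd y hy)]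

theorem dM_sq (C : Cpl G) (M : Mod G ν) (q : ℕ) : dM C M (q + 1) * dM C M q = 0 := by
  refine funext fun x => ?_
  change (dM C M (q + 1) * dM C M q) x = 0
  rw [Matrix.mul_apply_eq_vecMul]
  have e : dM C M (q + 1) x =
      if x.1 ∈ Gd C M (q + 1) then push M x.1 (C.D (q + 1) x.2) else 0 := rfl
  rw [e]
  split_ifs with h
  · rw [push_bdL C M q C.S (Finset.Subset.refl _) x.1 (Gd_succ_subset_good C M q h) _
      (fun y hy => C.mem_S (q + 1) x.2 y hy)
      (fun y hy => act_mem_Gd C M q x.1 h y.1 (C.mem_S (q + 1) x.2 y hy)), C.sq, push_zero]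
  · exact Matrix.zero_vecMul _

lemma pull_apply (M : Mod G ν) (W : Finset G) (v : Fin ν) (x : Fin ν × Fin n → ℤ) (g : G)
    (hg : g ∈ W) (i : Fin n) : pull M W v x (g, i) = x (M.act v g, i) := by
  classical
  unfold pull
  rw [Finsupp.finsetSum_apply, Finset.sum_eq_single (g, i)]
  · rw [Finsupp.single_eq_same]
  · intro y _ hy
    rw [Finsupp.single_eq_of_ne (Ne.symm hy)]
  · intro h
    exact absurd (Finset.mem_product.2 ⟨hg, Finset.mem_univ _⟩) h

lemma pull_support (M : Mod G ν) (W : Finset G) (v : Fin ν) (x : Fin ν × Fin n → ℤ)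
    (y : G × Fin n) (hy : y ∈ (pull M W v x).support) : y.1 ∈ W := by
  classical
  by_contra hW
  rw [Finsupp.mem_support_iff] at hy
  apply hy
  unfold pull
  rw [Finsupp.finsetSum_apply]
  refine Finset.sum_eq_zero fun z hz => ?_
  refine Finsupp.single_eq_of_ne ?_
  rintro rfl
  exact hW (Finset.mem_product.1 hz).1

/-- a function supported in `v.W` is the push forward of its pull back -/
lemma push_pull (M : Mod G ν) (F W : Finset G) (hW : W ⊆ F) (v : Fin ν) (hv : v ∈ M.good F)
    (x : Fin ν × Fin n → ℤ) (hx : ∀ y, x y ≠ 0 → ∃ g ∈ W, M.act v g = y.1) :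
    push M v (pull M W v x) = x := by
  funext z
  by_cases hz : x z = 0
  · rw [hz]
    by_contra hne
    obtain ⟨y, hy, e⟩ := push_apply_ne M v _ z hne
    have h1 : y.1 ∈ W := pull_support M W v x y hy
    have h2 := pull_apply M W v x y.1 h1 y.2
    rw [e, hz] at h2
    exact (Finsupp.mem_support_iff.1 hy) h2
  · obtain ⟨g, hg, e⟩ := hx z hz
    have hz' : z = (M.act v g, z.2) := Prod.ext e.symm rfl
    have h1 := push_good M F v hv (pull M W v x) (fun y hy => hW (pull_support M W v x y hy)) g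
      (hW hg) z.2
    rw [pull_apply M W v x g hg, ← hz'] at h1
    exact h1

end Pool.Agent.LT
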