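import Mathlib
import Pool.Agent.LT.Base
import Pool.Agent.LT.ModB
import Pool.Agent.LT.Push
import Pool.Agent.LT.FillC

set_option autoImplicit false

/-!
# Project LT, module HB: construction of the homotopy from local fillings

PLAN. Take `T0 f L0` from `exists_fill C q W`. `T1 := T0`, `T := ` image of `(b,t) ↦ b⁻¹ * t`
(`b ∈ B`, `t ∈ T0`), `F := ` a finite set containing `C.S, B, B⁻¹, W, T0` and
`L := L0` (or `L0 * |W| * ...`, see below). For a vertex `w` let `Phi w` be the real matrix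
`Phi w x y := ∑ g ∈ W, ∑ t ∈ T0, if M.act w g = x.1 ∧ M.act w t = y.1 then f (g,x.2) (t,y.2) else 0`.
For `w ∈ M.good F` at most one pair `(g,t)` contributes, so `|Phi w x y| ≤ L0`.
Define `h x := if x.1 ∈ A then (U x) ᵥ* Phi (r x.1) else 0` (row `x`, `Matrix.of`).
* Bound: `|h x y| ≤ ∑ z, |U x z| |Phi z y| ≤ K * L0`.
* Locality: `h x y ≠ 0` gives `x.1 ∈ A` and `t ∈ T0` with `M.act (r x.1) t = y.1`; with
  `M.act (r x.1) b = x.1`, `b ∈ B`, we get `r x.1 = M.act x.1 b⁻¹` (`Mod.act_inv`, `r x.1 ∈ A` is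
  good) and `y.1 = M.act x.1 (b⁻¹ * t)` (`Mod.act_act`).
* Integrality: for `x` as in the statement, `toV x ᵥ* h = ∑_c (toV (res c x) ᵥ* U) ᵥ* Phi c`, sum over
  the roots `c ∈ A` (`r c = c`), because row `y` of `h` is `(U y) ᵥ* Phi c` if `r y.1 = c ∈ A`.
  For each root `toV (res c x) ᵥ* U = toV z_c`; `z_c` is supported in `c.W` (by `hUloc`), so
  `z_c = push M c (pull M W c z_c)` (`push_pull`). The filling `y_c` of `pull M W c z_c`
  (`exists_fill`) satisfies `toV z_c ᵥ* Phi c = toV (push M c y_c)` (compare the values at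
  `(M.act c t, i)`, `t ∈ T0`, by `push_good`; both sides vanish at the other points) and
  `push M c y_c ᵥ* dM (q+1) = push M c (bdL (C.D (q+1)) y_c) = push M c (pull M W c z_c) = z_c`
  (`push_bdL`). So `y := ∑_c push M c y_c` works, since
  `∑_c toV z_c = ∑_c toV (res c x) ᵥ* U = toV x ᵥ* U`.
-/

open scoped BigOperators

namespace Pool.Agent.LT

/-- restriction of a vector to a class -/
def res {ν n : ℕ} (r : Fin ν → Fin ν) (c : Fin ν) (x : Fin ν × Fin n → ℤ) : Fin ν × Fin n → ℤ :=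
  fun y => if r y.1 = c then x y else 0

section hb

variable {G : Type} [Group G]

private lemma hb_vm_sum {m n ι α : Type} [Fintype m] [Semiring α] (s : Finset ι)
    (a : ι → m → α) (A : Matrix m n α) :
    Matrix.vecMul (∑ i ∈ s, a i) A = ∑ i ∈ s, Matrix.vecMul (a i) A := by
  ext j
  simp only [Matrix.vecMul, dotProduct, Finset.sum_apply, Finset.sum_mul]
  rw [Finset.sum_comm]

private lemma hb_toV_sum {m ι : Type} (s : Finset ι) (a : ι → m → ℤ) :
    toV (∑ i ∈ s, a i) = ∑ i ∈ s, toV (a i) := by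
  ext j
  simp [toV, Finset.sum_apply]

/-- the local filling matrix -/
private noncomputable def hbPhi {ν m n : ℕ} (M : Mod G ν) (W T0 : Finset G)
    (f : G × Fin m → G × Fin n → ℝ) (w : Fin ν) : Matrix (Fin ν × Fin m) (Fin ν × Fin n) ℝ :=
  Matrix.of fun x y => ∑ g ∈ W, ∑ t ∈ T0,
    if M.act w g = x.1 ∧ M.act w t = y.1 then f (g, x.2) (t, y.2) else 0

private lemma hbPhi_ne {ν m n : ℕ} {M : Mod G ν} {W T0 : Finset G}
    {f : G × Fin m → G × Fin n → ℝ} {w : Fin ν} {x : Fin ν × Fin m} {y : Fin ν × Fin n}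
    (h : hbPhi M W T0 f w x y ≠ 0) : ∃ t ∈ T0, M.act w t = y.1 := by
  obtain ⟨g, _, h1⟩ := Finset.exists_ne_zero_of_sum_ne_zero h
  obtain ⟨t, ht, h2⟩ := Finset.exists_ne_zero_of_sum_ne_zero h1
  by_cases h3 : M.act w g = x.1 ∧ M.act w t = y.1
  · exact ⟨t, ht, h3.2⟩
  · rw [if_neg h3] at h2
    exact absurd rfl h2

private lemma hbPhi_le {ν m n : ℕ} {M : Mod G ν} {W T0 F : Finset G} (hW : W ⊆ F) (hT : T0 ⊆ F)
    {f : G × Fin m → G × Fin n → ℝ} {L0 : ℝ} (hL : 0 ≤ L0) (hf : ∀ x y, |f x y| ≤ L0)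
    {w : Fin ν} (hw : w ∈ M.good F) (x : Fin ν × Fin m) (y : Fin ν × Fin n) :
    |hbPhi M W T0 f w x y| ≤ L0 := by
  classical
  change |∑ g ∈ W, ∑ t ∈ T0,
    if M.act w g = x.1 ∧ M.act w t = y.1 then f (g, x.2) (t, y.2) else 0| ≤ L0
  by_cases h : ∃ g ∈ W, ∃ t ∈ T0, M.act w g = x.1 ∧ M.act w t = y.1
  · obtain ⟨g, hg, t, ht, h1, h2⟩ := h
    rw [Finset.sum_eq_single_of_mem g hg, Finset.sum_eq_single_of_mem t ht, if_pos ⟨h1, h2⟩]
    · exact hf _ _
    · intro t' ht' hne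
      rw [if_neg]
      rintro ⟨_, h3⟩
      exact hne (M.act_inj hw (hT ht') (hT ht) (h3.trans h2.symm))
    · intro g' hg' hne
      refine Finset.sum_eq_zero fun t' _ => ?_
      rw [if_neg]
      rintro ⟨h3, _⟩
      exact hne (M.act_inj hw (hW hg') (hW hg) (h3.trans h1.symm))
  · rw [Finset.sum_eq_zero, abs_zero]
    · exact hL
    · intro g hg
      refine Finset.sum_eq_zero fun t ht => ?_
      rw [if_neg]
      intro h3
      exact h ⟨g, hg, t, ht, h3⟩

private lemma hb_push {ν n : ℕ} (M : Mod G ν) (v : Fin ν) (T0 : Finset G)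
    (a : G × Fin n →₀ ℤ) (ha : ∀ y ∈ a.support, y.1 ∈ T0) (x : Fin ν × Fin n) :
    push M v a x = ∑ t ∈ T0, if M.act v t = x.1 then a (t, x.2) else 0 := by
  classical
  have h1 : a = ∑ y ∈ T0 ×ˢ (Finset.univ : Finset (Fin n)), Finsupp.single y (a y) := by
    have hsub : a.support ⊆ T0 ×ˢ (Finset.univ : Finset (Fin n)) := fun y hy =>
      Finset.mem_product.2 ⟨ha y hy, Finset.mem_univ _⟩
    conv_lhs => rw [← Finsupp.sum_single a]
    exact Finsupp.sum_of_support_subset a hsub _ fun i _ => Finsupp.single_zero i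
  conv_lhs => rw [h1]
  rw [push_sum, Finset.sum_apply, Finset.sum_product]
  refine Finset.sum_congr rfl fun t _ => ?_
  have h2 : ∀ j : Fin n, push M v (Finsupp.single (t, j) (a (t, j))) x =
      if x.2 = j then (if M.act v t = x.1 then a (t, j) else 0) else 0 := by
    intro j
    rw [push_single, Pi.single_apply]
    by_cases h3 : x.2 = j
    · rw [if_pos h3]
      by_cases h4 : M.act v t = x.1
      · rw [if_pos h4, if_pos (Prod.ext h4.symm h3)]
      · rw [if_neg h4, if_neg]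
        intro h5
        exact h4 (congrArg Prod.fst h5).symm
    · rw [if_neg h3, if_neg]
      intro h5
      exact h3 (congrArg Prod.snd h5)
  rw [Finset.sum_congr rfl fun j _ => h2 j, Finset.sum_ite_eq Finset.univ x.2,
    if_pos (Finset.mem_univ _)]

private lemma hb_vecMul {ν m n : ℕ} (M : Mod G ν) (W T0 : Finset G)
    (f : G × Fin m → G × Fin n → ℝ) (c : Fin ν) (z : Fin ν × Fin m → ℤ)
    (yc : G × Fin n →₀ ℤ) (hy : ∀ x ∈ yc.support, x.1 ∈ T0)
    (hv : ∀ k, (yc k : ℝ) = (pull M W c z).sum fun x c => (c : ℝ) * f x k) :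
    Matrix.vecMul (toV z) (hbPhi M W T0 f c) = toV (push M c yc) := by
  classical
  ext x
  have h1 : ∀ t : G, (yc (t, x.2) : ℝ) =
      ∑ g ∈ W, ∑ j : Fin m, (z (M.act c g, j) : ℝ) * f (g, j) (t, x.2) := by
    intro t
    have hsub : (pull M W c z).support ⊆ W ×ˢ (Finset.univ : Finset (Fin m)) := fun y hy =>
      Finset.mem_product.2 ⟨pull_support M W c z y hy, Finset.mem_univ _⟩
    rw [hv, Finsupp.sum_of_support_subset _ hsub _ (fun i _ => by simp), Finset.sum_product]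
    refine Finset.sum_congr rfl fun g hg => Finset.sum_congr rfl fun j _ => ?_
    rw [pull_apply M W c z g hg j]
  have h2 : toV (push M c yc) x = ∑ t ∈ T0, if M.act c t = x.1 then
      ∑ g ∈ W, ∑ j : Fin m, (z (M.act c g, j) : ℝ) * f (g, j) (t, x.2) else 0 := by
    change ((push M c yc x : ℤ) : ℝ) = _
    rw [hb_push M c T0 yc hy x, Int.cast_sum]
    refine Finset.sum_congr rfl fun t _ => ?_
    split_ifs
    · exact h1 t
    · exact Int.cast_zero
  rw [h2]
  change ∑ x' : Fin ν × Fin m, (z x' : ℝ) * (∑ g ∈ W, ∑ t ∈ T0,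
    if M.act c g = x'.1 ∧ M.act c t = x.1 then f (g, x'.2) (t, x.2) else 0) = _
  simp only [Finset.mul_sum]
  rw [Finset.sum_comm]
  rw [Finset.sum_congr rfl fun g _ => Finset.sum_comm]
  rw [Finset.sum_comm]
  refine Finset.sum_congr rfl fun t _ => ?_
  by_cases h3 : M.act c t = x.1
  · rw [if_pos h3]
    refine Finset.sum_congr rfl fun g _ => ?_
    rw [Fintype.sum_prod_type_right]
    refine Finset.sum_congr rfl fun j _ => ?_
    rw [Finset.sum_eq_single_of_mem (M.act c g) (Finset.mem_univ _)]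
    · rw [if_pos ⟨rfl, h3⟩]
    · intro v _ hne
      rw [if_neg, mul_zero]
      rintro ⟨h4, _⟩
      exact hne h4.symm
  · rw [if_neg h3]
    refine Finset.sum_eq_zero fun g _ => Finset.sum_eq_zero fun x' _ => ?_
    rw [if_neg, mul_zero]
    rintro ⟨_, h4⟩
    exact h3 h4

end hb

theorem exists_h {G : Type} [Group G] (C : Cpl G) (q : ℕ) (B W : Finset G) :
    ∃ (F T T1 : Finset G) (L : ℝ), 0 ≤ L ∧ C.S ⊆ F ∧ B ⊆ F ∧ W ⊆ F ∧
      ∀ (ν : ℕ) (M : Mod G ν) (r : Fin ν → Fin ν) (A : Finset (Fin ν)) (K : ℝ)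
        (U : Matrix (Fin ν × Fin (C.nn (q + 1))) (Fin ν × Fin (C.nn (q + 1))) ℝ),
        (∀ v, r (r v) = r v) → (∀ v, ∃ b ∈ B, M.act (r v) b = v) → (∀ v, r v ∈ A ↔ v ∈ A) →
        (∀ v ∈ A, v ∈ M.good F) → (∀ v ∈ A, ∀ t ∈ T1, M.act v t ∈ Gd C M (q + 1)) →
        0 ≤ K → (∀ x, ∑ y, |U x y| ≤ K) →
        (∀ x y, x.1 ∈ A → U x y ≠ 0 → ∃ g ∈ W, M.act (r x.1) g = y.1) →
        ∃ h : Matrix (Fin ν × Fin (C.nn (q + 1))) (Fin ν × Fin (C.nn (q + 2))) ℝ,
          (∀ x y, |h x y| ≤ K * L) ∧ (∀ x y, h x y ≠ 0 → ∃ t ∈ T, y.1 = M.act x.1 t) ∧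
          ∀ x : Fin ν × Fin (C.nn (q + 1)) → ℤ, (∀ y, y.1 ∉ A → x y = 0) →
            (∀ c ∈ A, r c = c → ∃ z : Fin ν × Fin (C.nn (q + 1)) → ℤ,
              Matrix.vecMul (toV (res r c x)) U = toV z ∧ C.cyc q (pull M W c z)) →
            ∃ y : Fin ν × Fin (C.nn (q + 2)) → ℤ, Matrix.vecMul (toV x) h = toV y ∧
              toV (Matrix.vecMul y (dM C M (q + 1))) = Matrix.vecMul (toV x) U := by
  classical
  obtain ⟨T0, f, L0, hL0, hf1, hf2, hf3⟩ := exists_fill C q W
  obtain ⟨F, hF⟩ : ∃ F, F = C.S ∪ B ∪ B.image (fun b => b⁻¹) ∪ W ∪ T0 := ⟨_, rfl⟩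
  have hSF : C.S ⊆ F := by
    intro g hg; rw [hF]; simp only [Finset.mem_union]; tauto
  have hBF : B ⊆ F := by
    intro g hg; rw [hF]; simp only [Finset.mem_union]; tauto
  have hWF : W ⊆ F := by
    intro g hg; rw [hF]; simp only [Finset.mem_union]; tauto
  have hTF : T0 ⊆ F := by
    intro g hg; rw [hF]; simp only [Finset.mem_union]; tauto
  have hBF' : ∀ b ∈ B, b⁻¹ ∈ F := by
    intro b hb
    rw [hF]
    simp only [Finset.mem_union]
    exact Or.inl (Or.inl (Or.inr (Finset.mem_image_of_mem _ hb)))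
  refine ⟨F, (B ×ˢ T0).image fun p => p.1⁻¹ * p.2, T0, L0, hL0, hSF, hBF, hWF, ?_⟩
  intro ν M r A K U hr1 hr2 hr3 hA1 hA2 hK hU hUloc
  let h : Matrix (Fin ν × Fin (C.nn (q + 1))) (Fin ν × Fin (C.nn (q + 2))) ℝ :=
    Matrix.of fun x => if x.1 ∈ A then Matrix.vecMul (U x) (hbPhi M W T0 f (r x.1)) else 0
  have hh : ∀ x, x.1 ∈ A → h x = Matrix.vecMul (U x) (hbPhi M W T0 f (r x.1)) := fun x hx => by
    change (if x.1 ∈ A then _ else _) = _
    rw [if_pos hx]
  have hh' : ∀ x, x.1 ∉ A → h x = 0 := fun x hx => by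
    change (if x.1 ∈ A then _ else _) = _
    rw [if_neg hx]
  refine ⟨h, ?_, ?_, ?_⟩
  · intro x y
    by_cases hx : x.1 ∈ A
    · rw [hh x hx]
      change |∑ z, U x z * hbPhi M W T0 f (r x.1) z y| ≤ K * L0
      refine (Finset.abs_sum_le_sum_abs _ _).trans ?_
      have h1 : ∑ z, |U x z * hbPhi M W T0 f (r x.1) z y| ≤ ∑ z, |U x z| * L0 := by
        refine Finset.sum_le_sum fun z _ => ?_
        rw [abs_mul]
        exact mul_le_mul_of_nonneg_left
          (hbPhi_le hWF hTF hL0 hf2 (hA1 _ ((hr3 x.1).2 hx)) z y) (abs_nonneg _)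
      refine h1.trans ?_
      rw [← Finset.sum_mul]
      exact mul_le_mul_of_nonneg_right (hU x) hL0
    · rw [hh' x hx]
      change |(0 : ℝ)| ≤ K * L0
      rw [abs_zero]
      exact mul_nonneg hK hL0
  · intro x y hne
    by_cases hx : x.1 ∈ A
    · rw [hh x hx] at hne
      obtain ⟨z, _, hz⟩ := Finset.exists_ne_zero_of_sum_ne_zero hne
      obtain ⟨t, ht, h1⟩ := hbPhi_ne (right_ne_zero_of_mul hz)
      obtain ⟨b, hb, h2⟩ := hr2 x.1
      have hrA := (hr3 x.1).2 hx
      have h3 := M.act_inv (hA1 _ hrA) (hBF hb) (hBF' b hb)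
      rw [h2] at h3
      refine ⟨b⁻¹ * t, Finset.mem_image.2 ⟨(b, t), Finset.mem_product.2 ⟨hb, ht⟩, rfl⟩, ?_⟩
      rw [← M.act_act (hA1 _ hx) (hBF' b hb) (hTF ht), h3, h1]
    · rw [hh' x hx] at hne
      exact absurd rfl hne
  · intro x hxA hz
    have hz' : ∀ c : Fin ν, ∃ z : Fin ν × Fin (C.nn (q + 1)) → ℤ, c ∈ A → r c = c →
        Matrix.vecMul (toV (res r c x)) U = toV z ∧ C.cyc q (pull M W c z) := by
      intro c
      by_cases hc : c ∈ A ∧ r c = c
      · obtain ⟨z, hz1⟩ := hz c hc.1 hc.2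
        exact ⟨z, fun _ _ => hz1⟩
      · exact ⟨0, fun h1 h2 => absurd ⟨h1, h2⟩ hc⟩
    choose z hz1 using hz'
    -- the filling at a root
    have hY : ∀ c : Fin ν, ∃ Y : Fin ν × Fin (C.nn (q + 2)) → ℤ, c ∈ A → r c = c →
        Matrix.vecMul (toV (z c)) (hbPhi M W T0 f c) = toV Y ∧
        Matrix.vecMul Y (dM C M (q + 1)) = z c := by
      intro c
      by_cases hc : c ∈ A ∧ r c = c
      · obtain ⟨hcA, hrc⟩ := hc
        obtain ⟨e1, e2⟩ := hz1 c hcA hrc
        have hsupp : ∀ y, z c y ≠ 0 → ∃ g ∈ W, M.act c g = y.1 := by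
          intro y hy
          have h1 : toV (z c) y ≠ 0 := by
            change ((z c y : ℤ) : ℝ) ≠ 0
            exact_mod_cast hy
          rw [← e1] at h1
          obtain ⟨v, _, hv⟩ := Finset.exists_ne_zero_of_sum_ne_zero h1
          have hv1 : toV (res r c x) v ≠ 0 := left_ne_zero_of_mul hv
          have hv2 : U v y ≠ 0 := right_ne_zero_of_mul hv
          have hv3 : res r c x v ≠ 0 := fun h => hv1 (by
            change ((res r c x v : ℤ) : ℝ) = 0
            rw [h, Int.cast_zero])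
          unfold res at hv3
          by_cases h2 : r v.1 = c
          · rw [if_pos h2] at hv3
            have h3 : v.1 ∈ A := by
              by_contra h4
              exact hv3 (hxA v h4)
            obtain ⟨g, hg, h4⟩ := hUloc v y h3 hv2
            rw [h2] at h4
            exact ⟨g, hg, h4⟩
          · rw [if_neg h2] at hv3
            exact absurd rfl hv3
        have hpp := push_pull M F W hWF c (hA1 c hcA) (z c) hsupp
        obtain ⟨yc, k1, k2, k3⟩ := hf3 (pull M W c (z c)) (pull_support M W c (z c)) e2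
        refine ⟨push M c yc, fun _ _ => ⟨hb_vecMul M W T0 f c (z c) yc k1 k2, ?_⟩⟩
        rw [push_bdL C M (q + 1) F hSF c (hA1 c hcA) yc (fun y hy => hTF (k1 y hy))
          (fun y hy => hA2 c hcA y.1 (k1 y hy)), k3, hpp]
      · exact ⟨0, fun h1 h2 => absurd ⟨h1, h2⟩ hc⟩
    choose Y hY1 using hY
    set Rt : Finset (Fin ν) := A.filter fun c => r c = c with hRt
    have hxs : toV x = ∑ c ∈ Rt, toV (res r c x) := by
      rw [← hb_toV_sum]
      congr 1
      ext v
      rw [Finset.sum_apply]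
      unfold res
      by_cases hv : v.1 ∈ A
      · have hmem : r v.1 ∈ Rt := Finset.mem_filter.2 ⟨(hr3 v.1).2 hv, hr1 v.1⟩
        rw [Finset.sum_eq_single_of_mem (r v.1) hmem, if_pos rfl]
        intro c _ hne
        rw [if_neg (Ne.symm hne)]
      · rw [hxA v hv]
        simp
    have hrow : ∀ c ∈ Rt, Matrix.vecMul (toV (res r c x)) h = toV (Y c) := by
      intro c hc
      obtain ⟨hcA, hrc⟩ := Finset.mem_filter.1 hc
      rw [← (hY1 c hcA hrc).1, ← (hz1 c hcA hrc).1, Matrix.vecMul_vecMul]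
      ext y
      refine Finset.sum_congr rfl fun v _ => ?_
      by_cases hv : res r c x v = 0
      · have : toV (res r c x) v = 0 := by
          change ((res r c x v : ℤ) : ℝ) = 0
          rw [hv, Int.cast_zero]
        rw [this, zero_mul, zero_mul]
      · have hv' := hv
        unfold res at hv'
        by_cases h2 : r v.1 = c
        · rw [if_pos h2] at hv'
          have h3 : v.1 ∈ A := by
            by_contra h4
            exact hv' (hxA v h4)
          have h4 := congrFun (hh v h3) y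
          rw [h2] at h4
          change toV (res r c x) v * h v y = toV (res r c x) v * (U * hbPhi M W T0 f c) v y
          rw [h4]
          rfl
        · rw [if_neg h2] at hv'
          exact absurd rfl hv'
    refine ⟨∑ c ∈ Rt, Y c, ?_, ?_⟩
    · rw [hxs, hb_vm_sum, hb_toV_sum]
      exact Finset.sum_congr rfl hrow
    · rw [hb_vm_sum, hb_toV_sum, hxs, hb_vm_sum]
      refine Finset.sum_congr rfl fun c hc => ?_
      obtain ⟨hcA, hrc⟩ := Finset.mem_filter.1 hc
      rw [(hY1 c hcA hrc).2, (hz1 c hcA hrc).1]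

end Pool.Agent.LT
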