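import Mathlib

set_option autoImplicit false

/-!
# Project LT, module Choice: random order argument

PLAN. Let `V` be finite with `n` elements. For a bijection `σ : V ≃ Fin n` and a nonempty `X` let
`m_σ X` be the element of `X` with the smallest value of `σ` (for instance
`σ.symm ((X.map σ.toEmbedding).min' _)`, `m_σ ∅` arbitrary; if `V` is empty everything is trivial,
`ι` is empty then because `A i` is nonempty).
(1) For a fixed nonempty `X` and `x ∈ X` the number of `σ` with `m_σ X = x` is `n! / |X|`: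
it is the same for all `x ∈ X` (compose `σ` with the transposition `Equiv.swap x x'`, which maps
`X` to itself), and every `σ` has exactly one `x = m_σ X`.
(2) If `m_σ A ≠ m_σ B` then `m_σ (A ∪ B) ∈ symmDiff A B` (if the minimum `x` of the union is in
`A ∩ B` it is the minimum of both). So the number of `σ` with `m_σ A ≠ m_σ B` is at most
`|symmDiff A B| / |A ∪ B| * n!`.
(3) Sum over `i`: `∑_σ #{i : m_σ (A i) ≠ m_σ (B i)} ≤ n! * ∑_i |symmDiff|/|union|`, so some `σ`
is at least as good as the average (`Finset.exists_le_of_sum_le` or by contradiction with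
`Finset.sum_lt_sum_of_nonempty`). Take `m := m_σ`.
-/

open scoped BigOperators

namespace Pool.Agent.LT

private def IsMn {V : Type} (e : V → ℕ) (σ : Equiv.Perm V) (X : Finset V) (x : V) : Prop :=
  x ∈ X ∧ ∀ y ∈ X, e (σ x) ≤ e (σ y)

private theorem isMn_unique {V : Type} {e : V → ℕ} (he : Function.Injective e)
    {σ : Equiv.Perm V} {X : Finset V} {x y : V} (hx : IsMn e σ X x) (hy : IsMn e σ X y) :
    x = y :=
  σ.injective (he (le_antisymm (hx.2 y hy.1) (hy.2 x hx.1)))

private theorem isMn_swap {V : Type} [DecidableEq V] (e : V → ℕ) (σ : Equiv.Perm V)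
    (X : Finset V) {x x' : V} (hx : x ∈ X) (hx' : x' ∈ X) (h : IsMn e σ X x) :
    IsMn e (σ * Equiv.swap x x') X x' := by
  refine ⟨hx', fun y hy => ?_⟩
  rw [Equiv.Perm.mul_apply, Equiv.swap_apply_right, Equiv.Perm.mul_apply]
  apply h.2
  by_cases h1 : y = x
  · rw [h1, Equiv.swap_apply_left]
    exact hx'
  by_cases h2 : y = x'
  · rw [h2, Equiv.swap_apply_right]
    exact hx
  rwa [Equiv.swap_apply_of_ne_of_ne h1 h2]

open Classical in
private theorem count_mn {V : Type} [Fintype V] [DecidableEq V] {e : V → ℕ}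
    (he : Function.Injective e) (X : Finset V) {x : V} (hx : x ∈ X) :
    (Finset.univ.filter fun σ : Equiv.Perm V => IsMn e σ X x).card * X.card =
      Fintype.card (Equiv.Perm V) := by
  have hex : ∀ σ : Equiv.Perm V, ∃ z, IsMn e σ X z := by
    intro σ
    obtain ⟨z, hz, h⟩ := Finset.exists_min_image X (fun y => e (σ y)) ⟨x, hx⟩
    exact ⟨z, hz, h⟩
  choose f hf using hex
  have h1 := Finset.card_eq_sum_card_fiberwise (s := (Finset.univ : Finset (Equiv.Perm V)))
    (t := X) (f := f) (fun σ _ => (hf σ).1)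
  have h2 : ∀ z ∈ X, (Finset.univ.filter fun σ : Equiv.Perm V => f σ = z).card =
      (Finset.univ.filter fun σ : Equiv.Perm V => IsMn e σ X x).card := by
    intro z hz
    apply Finset.card_bij (fun σ _ => σ * Equiv.swap z x)
    · intro σ hσ
      rw [Finset.mem_filter] at hσ ⊢
      refine ⟨Finset.mem_univ _, isMn_swap e σ X hz hx ?_⟩
      rw [← hσ.2]
      exact hf σ
    · intro σ _ τ _ h
      exact mul_right_cancel h
    · intro σ hσ
      rw [Finset.mem_filter] at hσ
      refine ⟨σ * Equiv.swap x z, ?_, ?_⟩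
      · rw [Finset.mem_filter]
        exact ⟨Finset.mem_univ _, isMn_unique he (hf _) (isMn_swap e σ X hx hz hσ.2)⟩
      · rw [mul_assoc, Equiv.swap_comm x z, Equiv.swap_mul_self, mul_one]
  rw [Finset.card_univ] at h1
  rw [h1, Finset.sum_congr rfl h2, Finset.sum_const, smul_eq_mul, mul_comm]

/-- (`[Nonempty V]` is needed: for empty `V` there is no function `Finset V → V`.) -/
theorem choice_fn {V ι : Type} [Fintype V] [DecidableEq V] [Nonempty V] [Fintype ι]
    (A B : ι → Finset V)
    (hA : ∀ i, (A i).Nonempty) (hB : ∀ i, (B i).Nonempty) :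
    ∃ m : Finset V → V, (∀ X : Finset V, X.Nonempty → m X ∈ X) ∧
      ((Finset.univ.filter fun i => m (A i) ≠ m (B i)).card : ℝ) ≤
        ∑ i, ((symmDiff (A i) (B i)).card : ℝ) / ((A i ∪ B i).card : ℝ) := by
  classical
  obtain ⟨e, he⟩ : ∃ e : V → ℕ, Function.Injective e :=
    ⟨fun v => (Fintype.equivFin V v : ℕ), fun a b h =>
      (Fintype.equivFin V).injective (Fin.ext h)⟩
  have hex : ∀ (σ : Equiv.Perm V) (X : Finset V), ∃ z : V, X.Nonempty → IsMn e σ X z := by
    intro σ X
    by_cases hX : X.Nonempty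
    · obtain ⟨z, hz, h⟩ := Finset.exists_min_image X (fun y => e (σ y)) hX
      exact ⟨z, fun _ => ⟨hz, h⟩⟩
    · exact ⟨Classical.arbitrary V, fun h => absurd h hX⟩
  choose m hm using hex
  have hpair : ∀ i : ι,
      ((Finset.univ.filter fun σ : Equiv.Perm V => m σ (A i) ≠ m σ (B i)).card : ℝ) ≤
        ((symmDiff (A i) (B i)).card : ℝ) / ((A i ∪ B i).card : ℝ) *
          (Fintype.card (Equiv.Perm V) : ℝ) := by
    intro i
    have hU : (A i ∪ B i).Nonempty := (hA i).mono Finset.subset_union_left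
    have hUpos : (0 : ℝ) < ((A i ∪ B i).card : ℝ) := by
      exact_mod_cast Finset.card_pos.2 hU
    have hsub : (Finset.univ.filter fun σ : Equiv.Perm V => m σ (A i) ≠ m σ (B i)) ⊆
        (symmDiff (A i) (B i)).biUnion
          (fun x => Finset.univ.filter fun σ : Equiv.Perm V => IsMn e σ (A i ∪ B i) x) := by
      intro σ hσ
      rw [Finset.mem_filter] at hσ
      rw [Finset.mem_biUnion]
      have h1 := hm σ (A i ∪ B i) hU
      refine ⟨m σ (A i ∪ B i), ?_, ?_⟩
      · rw [Finset.mem_symmDiff]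
        by_contra hcon
        have h2 : m σ (A i ∪ B i) ∈ A i ∧ m σ (A i ∪ B i) ∈ B i := by
          have h3 := Finset.mem_union.1 h1.1
          by_cases h4 : m σ (A i ∪ B i) ∈ A i
          · by_cases h5 : m σ (A i ∪ B i) ∈ B i
            · exact ⟨h4, h5⟩
            · exact absurd (Or.inl ⟨h4, h5⟩) hcon
          · exact absurd (Or.inr ⟨h3.resolve_left h4, h4⟩) hcon
        have h6 : IsMn e σ (A i) (m σ (A i ∪ B i)) :=
          ⟨h2.1, fun y hy => h1.2 y (Finset.mem_union_left _ hy)⟩
        have h7 : IsMn e σ (B i) (m σ (A i ∪ B i)) :=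
          ⟨h2.2, fun y hy => h1.2 y (Finset.mem_union_right _ hy)⟩
        apply hσ.2
        rw [isMn_unique he (hm σ (A i) (hA i)) h6, isMn_unique he (hm σ (B i) (hB i)) h7]
      · rw [Finset.mem_filter]
        exact ⟨Finset.mem_univ _, h1⟩
    have hcard : ∀ x ∈ symmDiff (A i) (B i),
        ((Finset.univ.filter fun σ : Equiv.Perm V => IsMn e σ (A i ∪ B i) x).card : ℝ) =
          (Fintype.card (Equiv.Perm V) : ℝ) / ((A i ∪ B i).card : ℝ) := by
      intro x hx
      have hxU : x ∈ A i ∪ B i := by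
        rw [Finset.mem_symmDiff] at hx
        rcases hx with h | h
        · exact Finset.mem_union_left _ h.1
        · exact Finset.mem_union_right _ h.1
      rw [eq_div_iff hUpos.ne']
      exact_mod_cast count_mn he (A i ∪ B i) hxU
    calc ((Finset.univ.filter fun σ : Equiv.Perm V => m σ (A i) ≠ m σ (B i)).card : ℝ)
        ≤ (((symmDiff (A i) (B i)).biUnion
          (fun x => Finset.univ.filter fun σ : Equiv.Perm V =>
            IsMn e σ (A i ∪ B i) x)).card : ℝ) := by
          exact_mod_cast Finset.card_le_card hsub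
      _ ≤ ∑ x ∈ symmDiff (A i) (B i),
          ((Finset.univ.filter fun σ : Equiv.Perm V => IsMn e σ (A i ∪ B i) x).card : ℝ) := by
          exact_mod_cast Finset.card_biUnion_le
      _ = ∑ x ∈ symmDiff (A i) (B i),
          (Fintype.card (Equiv.Perm V) : ℝ) / ((A i ∪ B i).card : ℝ) :=
          Finset.sum_congr rfl hcard
      _ = _ := by
          rw [Finset.sum_const, nsmul_eq_mul]
          ring
  have hswap : ∑ σ : Equiv.Perm V,
      ((Finset.univ.filter fun i => m σ (A i) ≠ m σ (B i)).card : ℝ) =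
      ∑ i : ι, ((Finset.univ.filter fun σ : Equiv.Perm V => m σ (A i) ≠ m σ (B i)).card : ℝ) := by
    have h1 : ∀ σ : Equiv.Perm V,
        ((Finset.univ.filter fun i => m σ (A i) ≠ m σ (B i)).card : ℝ) =
        ∑ i : ι, (if m σ (A i) ≠ m σ (B i) then (1 : ℝ) else 0) := by
      intro σ
      rw [Finset.sum_boole]
    have h2 : ∀ i : ι,
        ((Finset.univ.filter fun σ : Equiv.Perm V => m σ (A i) ≠ m σ (B i)).card : ℝ) =
        ∑ σ : Equiv.Perm V, (if m σ (A i) ≠ m σ (B i) then (1 : ℝ) else 0) := by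
      intro i
      rw [Finset.sum_boole]
    rw [Finset.sum_congr rfl fun σ _ => h1 σ, Finset.sum_congr rfl fun i _ => h2 i]
    exact Finset.sum_comm
  have hle : ∑ σ : Equiv.Perm V,
      ((Finset.univ.filter fun i => m σ (A i) ≠ m σ (B i)).card : ℝ) ≤
      ∑ _σ : Equiv.Perm V,
        ∑ i, ((symmDiff (A i) (B i)).card : ℝ) / ((A i ∪ B i).card : ℝ) := by
    rw [hswap, Finset.sum_const, nsmul_eq_mul, Finset.card_univ, Finset.mul_sum]
    refine Finset.sum_le_sum fun i _ => ?_
    rw [mul_comm]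
    exact hpair i
  obtain ⟨σ, -, hσ⟩ := Finset.exists_le_of_sum_le ⟨1, Finset.mem_univ _⟩ hle
  exact ⟨m σ, fun X hX => (hm σ X hX).1, hσ⟩

end Pool.Agent.LT
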