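import Mathlib
import Pool.Agent.LT.Base
import Pool.Agent.LT.ModB
import Pool.Agent.LT.Amen
import Pool.Agent.LT.Choice

set_option autoImplicit false

/-!
# Project LT, module Part: Lemma P (partitions of models in the direction of `N`)

PLAN (lt_proof.md, section 1). Given `K ⊆ N` finite and `e > 0`. Take `W ⊆ N` nonempty with
`#{w ∈ W : k w ∉ W} ≤ (e / (2 (|K|+1))) |W|` for `k ∈ K` (`FN`). Put
`B := W * W⁻¹` (image₂ of `w w'⁻¹`), `F := ` any finite set containing `1`, `W`, `W⁻¹`, `K`, `B`,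
`K * W`. `c := |K| + 1` (real).
For a model `M` let `gd := {v : v ∈ M.good F}`, and for a vertex `v` let
`A_v := W.image (M.act v)` (nonempty). Apply `choice_fn` with `ι := ` the type of pairs `(v,k)`
with `k ∈ K`, `v ∈ M.good F`, `M.act v k ∈ M.good F` (subtype of `Fin ν × K`) and
`A (v,k) := A_v`, `B (v,k) := A_{v.k}`. This gives `m`; put `c0 v := m (A_v) ∈ A_v`.
`A_{v.k} = (k W).image (M.act v)` (because `(v.k).w = v.(k w)`), `M.act v` is injective on `F`, so
`|A_v ∆ A_{v.k}| ≤ |W ∆ kW| = 2 #{w : k w ∉ W} ≤ e/(|K|+1) |W|`, `|A_v ∪ A_{v.k}| ≥ |A_v| = |W|`.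
So the number of pairs with `c0 (v.k) ≠ c0 v` is at most `ν |K| e/(|K|+1) ≤ e ν`.
Classes: `v ~ v'` iff `v = v'`, or both are good and `c0 v = c0 v'` (an equivalence relation);
`r v := ` a chosen representative of the class (e.g. `Quotient.out`, or the smallest element of
the class). Then `r (r v) = r v`. If `v ~ v'`, both good, then `c0 v = v.f = v'.f'` with
`f, f' ∈ W`, and `v' = (v'.f').f'⁻¹ = (v.f).f'⁻¹ = v.(f f'⁻¹)`. So `∃ b ∈ B, M.act (r v) b = v`
(`b = 1 ∈ B` if `r v = v`, `M.act_one`).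
Crossing: if `r (v.k) ≠ r v` for some `k ∈ K` then `v` is not good, or `v.k` is not good, or
both are good and `c0 (v.k) ≠ c0 v`. The numbers are `≤ bad F`, `≤ |K| bad F`
(`Mod.card_exists_not_mem`), `≤ e ν`.
-/

open scoped BigOperators

namespace Pool.Agent.LT

open Classical in
/-- the elementary estimate for one pair -/
theorem part_aux {G : Type} [Group G] (W F : Finset G) (hW : W.Nonempty) (k : G) (hWF : W ⊆ F)
    (hkF : k ∈ F) (d : ℝ)
    (hd : ((W.filter fun w => k * w ∉ W).card : ℝ) ≤ d * W.card) {ν : ℕ} (M : Mod G ν) (v : Fin ν)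
    (hv : v ∈ M.good F) :
    ((symmDiff (W.image (M.act v)) (W.image (M.act (M.act v k)))).card : ℝ) /
      (((W.image (M.act v)) ∪ (W.image (M.act (M.act v k)))).card : ℝ) ≤ 2 * d := by
  have hWpos : (0 : ℝ) < W.card := by exact_mod_cast hW.card_pos
  have h1 : W.image (M.act (M.act v k)) = (W.image (fun w => k * w)).image (M.act v) := by
    rw [Finset.image_image]
    refine Finset.image_congr fun w hw => ?_
    exact M.act_act hv hkF (hWF hw)
  have h2 : (W.image (M.act v)).card = W.card := by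
    apply Finset.card_image_of_injOn
    intro a ha b hb hab
    exact M.act_inj hv (hWF ha) (hWF hb) hab
  set W2 := W.image (fun w => k * w) with hW2
  have h3 : symmDiff (W.image (M.act v)) (W2.image (M.act v)) ⊆ (symmDiff W W2).image (M.act v) := by
    intro x hx
    rw [Finset.mem_symmDiff] at hx
    rcases hx with ⟨hx1, hx2⟩ | ⟨hx1, hx2⟩
    · obtain ⟨w, hw, rfl⟩ := Finset.mem_image.1 hx1
      refine Finset.mem_image.2 ⟨w, Finset.mem_symmDiff.2 (Or.inl ⟨hw, fun h => ?_⟩), rfl⟩
      exact hx2 (Finset.mem_image_of_mem _ h)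
    · obtain ⟨w, hw, rfl⟩ := Finset.mem_image.1 hx1
      refine Finset.mem_image.2 ⟨w, Finset.mem_symmDiff.2 (Or.inr ⟨hw, fun h => ?_⟩), rfl⟩
      exact hx2 (Finset.mem_image_of_mem _ h)
  have h4 : W2.card = W.card := Finset.card_image_of_injective _ (mul_right_injective k)
  have h5 : (W2 \ W).card ≤ (W.filter fun w => k * w ∉ W).card := by
    have : W2 \ W ⊆ (W.filter fun w => k * w ∉ W).image (fun w => k * w) := by
      intro x hx
      obtain ⟨hx1, hx2⟩ := Finset.mem_sdiff.1 hx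
      obtain ⟨w, hw, rfl⟩ := Finset.mem_image.1 hx1
      exact Finset.mem_image.2 ⟨w, Finset.mem_filter.2 ⟨hw, hx2⟩, rfl⟩
    exact (Finset.card_le_card this).trans Finset.card_image_le
  have h6 : (W \ W2).card = (W2 \ W).card := by
    have e1 := Finset.card_sdiff_add_card_inter W W2
    have e2 := Finset.card_sdiff_add_card_inter W2 W
    rw [Finset.inter_comm] at e2
    omega
  have h7 : (symmDiff W W2).card ≤ (W \ W2).card + (W2 \ W).card := by
    have : symmDiff W W2 = (W \ W2) ∪ (W2 \ W) := rfl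
    rw [this]
    exact Finset.card_union_le _ _
  have h8 : ((symmDiff (W.image (M.act v)) (W2.image (M.act v))).card : ℝ) ≤ 2 * d * W.card := by
    have a1 : (symmDiff (W.image (M.act v)) (W2.image (M.act v))).card ≤
        2 * (W.filter fun w => k * w ∉ W).card := by
      have := (Finset.card_le_card h3).trans Finset.card_image_le
      omega
    have a2 : ((symmDiff (W.image (M.act v)) (W2.image (M.act v))).card : ℝ) ≤
        2 * ((W.filter fun w => k * w ∉ W).card : ℝ) := by exact_mod_cast a1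
    linarith
  rw [h1]
  have h9 : (W.card : ℝ) ≤ ((W.image (M.act v)) ∪ (W2.image (M.act v))).card := by
    rw [← h2]
    exact_mod_cast Finset.card_le_card Finset.subset_union_left
  have h10 : (0 : ℝ) < ((W.image (M.act v)) ∪ (W2.image (M.act v))).card := hWpos.trans_le h9
  have h11 : (0 : ℝ) ≤ d := by
    by_contra hc
    rw [not_le] at hc
    have : d * W.card < 0 := mul_neg_of_neg_of_pos hc hWpos
    have h12 : (0 : ℝ) ≤ ((W.filter fun w => k * w ∉ W).card : ℝ) := Nat.cast_nonneg _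
    linarith
  rw [div_le_iff₀ h10]
  refine h8.trans ?_
  exact mul_le_mul_of_nonneg_left h9 (by positivity)

open Classical in
theorem exists_part {G : Type} [Group G] (N : Subgroup G) (hN : FN N) (K : Finset G)
    (hK : (K : Set G) ⊆ (N : Set G)) (e : ℝ) (he : 0 < e) :
    ∃ (B F : Finset G) (c : ℝ), (B : Set G) ⊆ (N : Set G) ∧ 1 ∈ B ∧ 0 ≤ c ∧
      ∀ (ν : ℕ) (M : Mod G ν), ∃ r : Fin ν → Fin ν, (∀ v, r (r v) = r v) ∧
        (∀ v, ∃ b ∈ B, M.act (r v) b = v) ∧
        ((Finset.univ.filter fun v => ∃ k ∈ K, r (M.act v k) ≠ r v).card : ℝ) ≤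
          e * ν + c * M.bad F := by
  have hK1 : (0 : ℝ) < (K.card : ℝ) + 1 := by positivity
  set d : ℝ := e / (2 * ((K.card : ℝ) + 1)) with hd
  have hd0 : 0 < d := by positivity
  obtain ⟨W, hWne, hWN, hW⟩ := hN K hK d hd0
  obtain ⟨w0, hw0⟩ := hWne
  set B : Finset G := Finset.image₂ (fun w w' => w * w'⁻¹) W W with hB
  set F : Finset G := insert 1 (W ∪ W.image (fun w => w⁻¹) ∪ K ∪ B) with hF
  have hWF : W ⊆ F := fun w hw => by simp [hF, hw]
  have hWiF : ∀ w ∈ W, w⁻¹ ∈ F := fun w hw => by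
    rw [hF]
    apply Finset.mem_insert_of_mem
    apply Finset.mem_union_left
    apply Finset.mem_union_left
    apply Finset.mem_union_right
    exact Finset.mem_image_of_mem _ hw
  have hKF : K ⊆ F := fun w hw => by
    rw [hF]
    apply Finset.mem_insert_of_mem
    apply Finset.mem_union_left
    apply Finset.mem_union_right
    exact hw
  refine ⟨B, F, (K.card : ℝ) + 1, ?_, ?_, hK1.le, fun ν M => ?_⟩
  · intro x hx
    obtain ⟨w, hw, w', hw', rfl⟩ := Finset.mem_image₂.1 (Finset.mem_coe.1 hx)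
    exact N.mul_mem (hWN hw) (N.inv_mem (hWN hw'))
  · exact Finset.mem_image₂.2 ⟨w0, hw0, w0, hw0, mul_inv_cancel w0⟩
  rcases Nat.eq_zero_or_pos ν with hν | hν
  · subst hν
    refine ⟨id, fun v => rfl, fun v => v.elim0, ?_⟩
    have h1 : (Finset.univ.filter fun v : Fin 0 => ∃ k ∈ K, id (M.act v k) ≠ id v).card = 0 := by
      rw [Finset.card_eq_zero, Finset.filter_eq_empty_iff]
      exact fun v => v.elim0
    rw [h1]
    simp
  have : Nonempty (Fin ν) := ⟨⟨0, hν⟩⟩
  let ι : Type := {p : Fin ν × K // p.1 ∈ M.good F ∧ M.act p.1 (p.2 : G) ∈ M.good F}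
  have : Fintype ι := inferInstance
  obtain ⟨m, hm1, hm2⟩ := choice_fn (V := Fin ν) (ι := ι) (fun i => W.image (M.act i.1.1))
    (fun i => W.image (M.act (M.act i.1.1 (i.1.2 : G))))
    (fun i => ⟨_, Finset.mem_image_of_mem _ hw0⟩) (fun i => ⟨_, Finset.mem_image_of_mem _ hw0⟩)
  have hsum : ∑ i : ι, ((symmDiff (W.image (M.act i.1.1))
      (W.image (M.act (M.act i.1.1 (i.1.2 : G))))).card : ℝ) /
      (((W.image (M.act i.1.1)) ∪ (W.image (M.act (M.act i.1.1 (i.1.2 : G))))).card : ℝ) ≤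
      e * ν := by
    have h1 : ∀ i : ι, ((symmDiff (W.image (M.act i.1.1))
      (W.image (M.act (M.act i.1.1 (i.1.2 : G))))).card : ℝ) /
      (((W.image (M.act i.1.1)) ∪ (W.image (M.act (M.act i.1.1 (i.1.2 : G))))).card : ℝ) ≤
      2 * d := fun i => part_aux W F ⟨w0, hw0⟩ i.1.2 hWF (hKF i.1.2.2) d (hW _ i.1.2.2) M i.1.1 i.2.1
    refine (Finset.sum_le_sum fun i _ => h1 i).trans ?_
    rw [Finset.sum_const, nsmul_eq_mul]
    have h2 : (Finset.univ : Finset ι).card ≤ ν * K.card := by
      rw [Finset.card_univ]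
      have := Fintype.card_subtype_le (fun p : Fin ν × K => p.1 ∈ M.good F ∧ M.act p.1 (p.2 : G) ∈ M.good F)
      rw [Fintype.card_prod, Fintype.card_fin, Fintype.card_coe] at this
      exact this
    have h3 : ((Finset.univ : Finset ι).card : ℝ) ≤ ν * K.card := by exact_mod_cast h2
    have h4 : 2 * d * ((K.card : ℝ) + 1) = e := by
      rw [hd]
      field_simp
    calc ((Finset.univ : Finset ι).card : ℝ) * (2 * d) ≤ (ν * K.card) * (2 * d) :=
          mul_le_mul_of_nonneg_right h3 (by positivity)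
      _ = ν * (2 * d * K.card) := by ring
      _ ≤ ν * (2 * d * ((K.card : ℝ) + 1)) := by
          apply mul_le_mul_of_nonneg_left _ (Nat.cast_nonneg _)
          apply mul_le_mul_of_nonneg_left _ (by positivity)
          linarith
      _ = e * ν := by rw [h4]; ring
  let c0 : Fin ν → Fin ν := fun v => m (W.image (M.act v))
  have hc0 : ∀ v, ∃ f ∈ W, M.act v f = c0 v := fun v =>
    Finset.mem_image.1 (hm1 _ ⟨_, Finset.mem_image_of_mem _ hw0⟩)
  let g : Fin ν → Fin ν := fun x => if h : ∃ v', v' ∈ M.good F ∧ c0 v' = x then h.choose else x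
  have hg : ∀ v, v ∈ M.good F → g (c0 v) ∈ M.good F ∧ c0 (g (c0 v)) = c0 v := by
    intro v hv
    have hex : ∃ v', v' ∈ M.good F ∧ c0 v' = c0 v := ⟨v, hv, rfl⟩
    have : g (c0 v) = hex.choose := dif_pos hex
    rw [this]
    exact hex.choose_spec
  let r : Fin ν → Fin ν := fun v => if v ∈ M.good F then g (c0 v) else v
  have hr1 : ∀ v, v ∈ M.good F → r v = g (c0 v) := fun v hv => if_pos hv
  have hr2 : ∀ v, v ∉ M.good F → r v = v := fun v hv => if_neg hv
  refine ⟨r, fun v => ?_, fun v => ?_, ?_⟩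
  · by_cases hv : v ∈ M.good F
    · obtain ⟨h1, h2⟩ := hg v hv
      rw [hr1 v hv, hr1 _ h1, h2]
    · rw [hr2 v hv, hr2 v hv]
  · by_cases hv : v ∈ M.good F
    · obtain ⟨h1, h2⟩ := hg v hv
      rw [hr1 v hv]
      obtain ⟨f, hf, hf1⟩ := hc0 (g (c0 v))
      obtain ⟨f', hf', hf1'⟩ := hc0 v
      refine ⟨f * f'⁻¹, Finset.mem_image₂.2 ⟨f, hf, f', hf', rfl⟩, ?_⟩
      rw [← M.act_act h1 (hWF hf) (hWiF f' hf'), hf1, h2, ← hf1']
      exact M.act_inv hv (hWF hf') (hWiF f' hf')
    · rw [hr2 v hv]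
      exact ⟨1, Finset.mem_image₂.2 ⟨w0, hw0, w0, hw0, mul_inv_cancel w0⟩, M.act_one v⟩
  · set Z : Finset ι := Finset.univ.filter fun i : ι =>
      m (W.image (M.act i.1.1)) ≠ m (W.image (M.act (M.act i.1.1 (i.1.2 : G)))) with hZ
    have hsub : (Finset.univ.filter fun v => ∃ k ∈ K, r (M.act v k) ≠ r v) ⊆
        ((M.good F)ᶜ ∪ (Finset.univ.filter fun v => ∃ k ∈ K, M.act v k ∉ M.good F)) ∪
          Z.image (fun i => i.1.1) := by
      intro v hv
      obtain ⟨k, hk, hkv⟩ := (Finset.mem_filter.1 hv).2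
      by_cases h1 : v ∈ M.good F
      · by_cases h2 : M.act v k ∈ M.good F
        · apply Finset.mem_union_right
          refine Finset.mem_image.2 ⟨⟨(v, ⟨k, hk⟩), h1, h2⟩, ?_, rfl⟩
          rw [hZ, Finset.mem_filter]
          refine ⟨Finset.mem_univ _, fun h3 => hkv ?_⟩
          rw [hr1 v h1, hr1 _ h2]
          exact congrArg g h3.symm
        · apply Finset.mem_union_left
          apply Finset.mem_union_right
          exact Finset.mem_filter.2 ⟨Finset.mem_univ _, k, hk, h2⟩
      · apply Finset.mem_union_left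
        apply Finset.mem_union_left
        exact Finset.mem_compl.2 h1
    have hcard : (Finset.univ.filter fun v => ∃ k ∈ K, r (M.act v k) ≠ r v).card ≤
        (M.bad F + K.card * M.bad F) + Z.card := by
      refine (Finset.card_le_card hsub).trans ?_
      refine (Finset.card_union_le _ _).trans ?_
      refine Nat.add_le_add ?_ Finset.card_image_le
      refine (Finset.card_union_le _ _).trans ?_
      exact Nat.add_le_add le_rfl (M.card_exists_not_mem (M.good F) K)
    have hcard' : ((Finset.univ.filter fun v => ∃ k ∈ K, r (M.act v k) ≠ r v).card : ℝ) ≤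
        (M.bad F + K.card * M.bad F) + Z.card := by exact_mod_cast hcard
    have hZc : (Z.card : ℝ) ≤ e * ν := hm2.trans hsum
    calc ((Finset.univ.filter fun v => ∃ k ∈ K, r (M.act v k) ≠ r v).card : ℝ) ≤
        (M.bad F + K.card * M.bad F) + Z.card := hcard'
      _ ≤ (M.bad F + K.card * M.bad F) + e * ν := by linarith
      _ = e * ν + ((K.card : ℝ) + 1) * M.bad F := by ring

end Pool.Agent.LT
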