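import Mathlib
import Pool.Agent.LT.Base
import Pool.Agent.LT.ModB

set_option autoImplicit false

/-!
# Project LT, module PartB: three counting facts about partitions

PLAN.
`card_A`: if `v` is in the set, choose `u ∉ ok` with `r u = r v`; then `v = M.act (r v) b =
M.act (r u) b` with `b ∈ B`. So the set is contained in the image of `okᶜ × B` under
`(u,b) ↦ M.act (r u) b`.
`base_cost`: for a root `w` with class size `x ≥ 1` we have
`1 + log x = ∑_{v in the class} (1 + log x)/x`; the classes partition `Fin ν`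
(`Finset.sum_fiberwise_of_maps_to` or similar), so the left side is
`∑_v (1 + log x_v)/x_v`, `x_v = #{u : r u = r v}`. If `v ∉ Z` then `x_v ≥ m ≥ 3` and
`(1 + log x)/x ≤ (1 + log m)/m` (the function `(1+log x)/x` is antitone for `x ≥ 1`:
`log x - log m ≤ (x - m)/m`, so `1 + log x ≤ 1 + log m + (x-m)/m ≤ (1 + log m) x/m`). If
`v ∈ Z` use `(1+log x)/x ≤ 1` (`Real.log_le_sub_one_of_pos`).
`same_class`: `M.act v g = M.act w' b1`, `M.act u g = M.act w' b2` with `w' = r' (M.act v g)` and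
`b1, b2 ∈ B'`. As `v` is good, `M.act (M.act v (g * b1⁻¹)) b1 = M.act v g = M.act w' b1`, so
`w' = M.act v (g * b1⁻¹)` by `M.inj b1`; `M.act u g = M.act w' b2 = M.act v (g * b1⁻¹ * b2)` and
`M.act (M.act v (g * b1⁻¹ * b2 * g⁻¹)) g = M.act v (g * b1⁻¹ * b2) = M.act u g`, so
`u = M.act v (g * b1⁻¹ * b2 * g⁻¹)` by `M.inj g`.
-/

open scoped BigOperators

namespace Pool.Agent.LT

variable {G : Type} [Group G] {ν : ℕ}

open Classical in
theorem card_A (M : Mod G ν) (r : Fin ν → Fin ν) (B : Finset G)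
    (hB : ∀ v, ∃ b ∈ B, M.act (r v) b = v) (ok : Finset (Fin ν)) :
    (Finset.univ.filter fun v => ¬ ∀ u, r u = r v → u ∈ ok).card ≤ B.card * (okᶜ).card := by
  have h1 : (Finset.univ.filter fun v => ¬ ∀ u, r u = r v → u ∈ ok) ⊆
      (B ×ˢ okᶜ).image fun y => M.act (r y.2) y.1 := by
    intro v hv
    have h2 := (Finset.mem_filter.1 hv).2
    rw [not_forall] at h2
    obtain ⟨u, hu⟩ := h2
    rw [Classical.not_imp] at hu
    obtain ⟨b, hb, hbv⟩ := hB v
    refine Finset.mem_image.2 ⟨(b, u), Finset.mem_product.2 ⟨hb, Finset.mem_compl.2 hu.2⟩, ?_⟩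
    simp only
    rw [hu.1, hbv]
  refine (Finset.card_le_card h1).trans (Finset.card_image_le.trans ?_)
  rw [Finset.card_product]

theorem log_div_le {x y : ℝ} (hy : 1 ≤ y) (hxy : y ≤ x) :
    (1 + Real.log x) / x ≤ (1 + Real.log y) / y := by
  have hy0 : 0 < y := lt_of_lt_of_le one_pos hy
  have hx0 : 0 < x := lt_of_lt_of_le hy0 hxy
  have h1 : Real.log x - Real.log y ≤ x / y - 1 := by
    rw [← Real.log_div hx0.ne' hy0.ne']
    exact Real.log_le_sub_one_of_pos (div_pos hx0 hy0)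
  have h2 : 0 ≤ Real.log y := Real.log_nonneg hy
  rw [div_le_div_iff₀ hx0 hy0]
  have h3 : 1 ≤ x / y := by rwa [one_le_div hy0]
  have h4 : 1 + Real.log x ≤ (1 + Real.log y) * (x / y) := by nlinarith
  calc (1 + Real.log x) * y ≤ (1 + Real.log y) * (x / y) * y :=
        mul_le_mul_of_nonneg_right h4 hy0.le
    _ = (1 + Real.log y) * x := by field_simp

theorem base_cost (r : Fin ν → Fin ν) (hr : ∀ v, r (r v) = r v) (m : ℕ) (hm : 1 ≤ m)
    (Z : Finset (Fin ν)) (hZ : ∀ v, v ∉ Z → m ≤ (Finset.univ.filter fun u => r u = r v).card) :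
    ∑ w ∈ Finset.univ.filter (fun w => r w = w),
      (1 + Real.log ((Finset.univ.filter fun u => r u = w).card : ℝ)) ≤
      (1 + Real.log m) / m * ν + Z.card := by
  have hm1 : (1 : ℝ) ≤ m := by exact_mod_cast hm
  have key : ∀ w ∈ Finset.univ.filter (fun w => r w = w),
      (1 + Real.log ((Finset.univ.filter fun u => r u = w).card : ℝ)) =
      ∑ u ∈ Finset.univ.filter (fun u => r u = w),
        (1 + Real.log ((Finset.univ.filter fun u' => r u' = r u).card : ℝ)) /
          ((Finset.univ.filter fun u' => r u' = r u).card : ℝ) := by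
    intro w hw
    have hw' := (Finset.mem_filter.1 hw).2
    have hpos : 0 < (Finset.univ.filter fun u => r u = w).card :=
      Finset.card_pos.2 ⟨w, Finset.mem_filter.2 ⟨Finset.mem_univ _, hw'⟩⟩
    have hpos' : ((Finset.univ.filter fun u => r u = w).card : ℝ) ≠ 0 := by
      exact_mod_cast hpos.ne'
    have hs : ∑ u ∈ Finset.univ.filter (fun u => r u = w),
        (1 + Real.log ((Finset.univ.filter fun u' => r u' = r u).card : ℝ)) /
          ((Finset.univ.filter fun u' => r u' = r u).card : ℝ) =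
        ∑ u ∈ Finset.univ.filter (fun u => r u = w),
        (1 + Real.log ((Finset.univ.filter fun u' => r u' = w).card : ℝ)) /
          ((Finset.univ.filter fun u' => r u' = w).card : ℝ) := by
      refine Finset.sum_congr rfl fun u hu => ?_
      rw [(Finset.mem_filter.1 hu).2]
    rw [hs, Finset.sum_const, nsmul_eq_mul]
    field_simp
  rw [Finset.sum_congr rfl key]
  have h2 := Finset.sum_fiberwise_of_maps_to (s := (Finset.univ : Finset (Fin ν)))
    (t := Finset.univ.filter (fun w => r w = w)) (g := r)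
    (fun v _ => Finset.mem_filter.2 ⟨Finset.mem_univ _, hr v⟩)
    (fun u => (1 + Real.log ((Finset.univ.filter fun u' => r u' = r u).card : ℝ)) /
          ((Finset.univ.filter fun u' => r u' = r u).card : ℝ))
  rw [h2]
  have h3 : ∀ u ∈ (Finset.univ : Finset (Fin ν)),
      (1 + Real.log ((Finset.univ.filter fun u' => r u' = r u).card : ℝ)) /
          ((Finset.univ.filter fun u' => r u' = r u).card : ℝ) ≤
      (1 + Real.log m) / m + if u ∈ Z then (1 : ℝ) else 0 := by
    intro u _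
    have hc : 1 ≤ (Finset.univ.filter fun u' => r u' = r u).card :=
      Finset.card_pos.2 ⟨u, Finset.mem_filter.2 ⟨Finset.mem_univ _, rfl⟩⟩
    have hc1 : (1 : ℝ) ≤ (Finset.univ.filter fun u' => r u' = r u).card := by exact_mod_cast hc
    by_cases hu : u ∈ Z
    · rw [if_pos hu]
      have h4 := log_div_le le_rfl hc1
      rw [Real.log_one] at h4
      have h5 : 0 ≤ (1 + Real.log m) / m :=
        div_nonneg (add_nonneg zero_le_one (Real.log_nonneg hm1)) (by linarith)
      linarith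
    · rw [if_neg hu, add_zero]
      refine log_div_le hm1 ?_
      exact_mod_cast hZ u hu
  refine (Finset.sum_le_sum h3).trans ?_
  rw [Finset.sum_add_distrib, Finset.sum_const, Finset.card_univ, Fintype.card_fin,
    nsmul_eq_mul, Finset.sum_ite_mem, Finset.univ_inter, Finset.sum_const, nsmul_eq_mul, mul_one,
    mul_comm]

theorem same_class (M : Mod G ν) (S B' F : Finset G) (r' : Fin ν → Fin ν)
    (hB' : ∀ v, ∃ b ∈ B', M.act (r' v) b = v) (v : Fin ν) (hv : v ∈ M.good F) (g : G)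
    (hg : g ∈ S) (hF : ∀ g ∈ S, ∀ b1 ∈ B', ∀ b2 ∈ B', g ∈ F ∧ b1 ∈ F ∧ g * b1⁻¹ ∈ F ∧
      g * b1⁻¹ * b2 * g⁻¹ ∈ F)
    (u : Fin ν) (hu : r' (M.act u g) = r' (M.act v g)) :
    ∃ b1 ∈ B', ∃ b2 ∈ B', u = M.act v (g * b1⁻¹ * b2 * g⁻¹) := by
  obtain ⟨b1, hb1, e1⟩ := hB' (M.act v g)
  obtain ⟨b2, hb2, e2⟩ := hB' (M.act u g)
  refine ⟨b1, hb1, b2, hb2, ?_⟩
  obtain ⟨f1, f2, f3, f4⟩ := hF g hg b1 hb1 b2 hb2
  obtain ⟨-, f2', -, -⟩ := hF g hg b2 hb2 b2 hb2
  rw [hu] at e2
  have h1 : M.act (M.act v (g * b1⁻¹)) b1 = M.act v g := by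
    rw [M.act_act hv f3 f2, inv_mul_cancel_right]
  have h2 : r' (M.act v g) = M.act v (g * b1⁻¹) := by
    apply M.inj b1
    simp only
    rw [e1, h1]
  have h3 : M.act u g = M.act v (g * b1⁻¹ * b2) := by
    rw [← e2, h2, M.act_act hv f3 f2']
  have h4 : M.act (M.act v (g * b1⁻¹ * b2 * g⁻¹)) g = M.act v (g * b1⁻¹ * b2) := by
    rw [M.act_act hv f4 f1, inv_mul_cancel_right]
  apply M.inj g
  simp only
  rw [h3, h4]

end Pool.Agent.LT
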