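import Mathlib
import Pool.Agent.LT.Base
import Pool.Agent.LT.ModB
import Pool.Agent.LT.Push
import Pool.Agent.LT.Part
import Pool.Agent.LT.PartB
import Pool.Agent.LT.HB

set_option autoImplicit false

/-!
# Project LT, module QBase: the statement `Q_0` (position 1 = `C_0`)

PLAN (lt_proof.md, section 2, Q_0). Let `n := C.nn 1`. Given `θ > 0` choose `m ≥ 1` with
`(1 + log m)/m ≤ θ/(2 n + 2)` (`Real.isLittleO_log_id_atTop` or `log x ≤ 2 sqrt x`), a finite
`K0 ⊆ N` with `m` elements (`N` infinite, `Infinite.exists_subset_card_eq` and map to `G`), and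
apply `exists_part N hN K0 _ (θ/(2 n + 2))`: `B F0 c`. Apply `exists_h C 0 B B`: `F1 T T1 L`.
`F := F0 ∪ F1 ∪ K0 ∪ T1 ∪ C.S`, `K :=` a large constant (see below).
For a model `M` take `r` from `exists_part`;
`ok := {u ∈ M.good F : ∀ t ∈ T1, M.act u t ∈ Gd C M 1}`, `A := {v : ∀ u, r u = r v → u ∈ ok}`
(`A_r` because `r (r v) = r v`); `card_A`, `card_Gd` and `Mod.card_exists_not_mem` give
`A_card` with `K ≥ |B| (1 + |T1| K1)` (`M.bad C.S ≤ M.bad F`).
`ι := {w // r w = w} × Fin n`, `phi (w,j) x := if r x.1 = w ∧ x.2 = j then 1 else 0`,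
`cl (w,j) := w`; `∑ x, |phi (w,j) x| = #class(w) ≤ |B|` (class(w) is contained in `w.B`);
`phi (w,j) (w,j) = 1`; `cl_card` with `n`.
`cost`: `= n * ∑_{roots w} (1 + log #class(w))`; `base_cost` with
`Z := (M.good F)ᶜ ∪ {v : ∃ k ∈ K0, r (M.act v k) ≠ r v}`: for `v ∉ Z` the `m` vertices
`M.act v k`, `k ∈ K0`, are distinct (`v` good) and in the class of `v`. So the cost is at most
`n ((1+log m)/m ν + bad F + θ/(2n+2) ν + c bad F0) ≤ θ ν + n (1 + c) bad F`.
`h`: `exists_h` with `U := 1` and `K := 1`: `∑ y, |1 x y| = 1`; locality by `hB`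
(`1 x y ≠ 0` means `x = y`). For `x` with `InL A phi x` and a root `c ∈ A` take
`z := res r c x`; `C.cyc 0 (pull M B c z)` says that for all `j` the sum of
`z (M.act c g, j)` over `g ∈ B` is zero: `g ↦ M.act c g` is injective on `B` (`c` is good), its
image contains the class of `c`, so the sum is `∑_{v : r v = c} x (v,j) = ∑ y, phi (c,j) y * x y = 0`.
The conclusion of `exists_h`: `toV (y ᵥ* dM C M 1) = toV x ᵥ* 1 = toV x`, so
`y ᵥ* dM C M 1 = x`.
-/

open scoped BigOperators

namespace Pool.Agent.LT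

private theorem exists_m (e : ℝ) (he : 0 < e) :
    ∃ m : ℕ, 1 ≤ m ∧ (1 + Real.log m) / m ≤ e := by
  obtain ⟨k, hk⟩ := exists_nat_gt (2 / e)
  have hk0 : (0 : ℝ) < k := lt_trans (by positivity) hk
  have hk1 : 1 ≤ k := by
    have h1 : 0 < k := by exact_mod_cast hk0
    omega
  refine ⟨k ^ 2, Nat.one_le_pow _ _ hk1, ?_⟩
  have hlog : Real.log k ≤ k - 1 := Real.log_le_sub_one_of_pos hk0
  have h1 : 2 < e * k := by rwa [div_lt_iff₀' he] at hk
  push_cast
  rw [Real.log_pow, div_le_iff₀ (by positivity)]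
  push_cast
  nlinarith

private theorem phi_sum {ν n : ℕ} (r : Fin ν → Fin ν) (w : Fin ν) (j : Fin n)
    (x : Fin ν × Fin n → ℤ) :
    ∑ y : Fin ν × Fin n, (if r y.1 = w ∧ y.2 = j then (1 : ℤ) else 0) * x y =
      ∑ v, if r v = w then x (v, j) else 0 := by
  rw [Fintype.sum_prod_type]
  refine Finset.sum_congr rfl fun v _ => ?_
  rw [Finset.sum_eq_single j]
  · by_cases h : r v = w
    · rw [if_pos ⟨h, rfl⟩, if_pos h, one_mul]
    · rw [if_neg (fun h' => h h'.1), if_neg h, zero_mul]
  · intro i _ hi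
    rw [if_neg (fun h' => hi h'.2), zero_mul]
  · intro h
    exact absurd (Finset.mem_univ _) h

private theorem phi_abs {ν n : ℕ} (r : Fin ν → Fin ν) (w : Fin ν) (j : Fin n) :
    ∑ y : Fin ν × Fin n, |(((if r y.1 = w ∧ y.2 = j then (1 : ℤ) else 0 : ℤ)) : ℝ)| =
      ((Finset.univ.filter fun u => r u = w).card : ℝ) := by
  rw [Fintype.sum_prod_type, Finset.card_filter, Nat.cast_sum]
  refine Finset.sum_congr rfl fun v _ => ?_
  rw [Finset.sum_eq_single j]
  · by_cases h : r v = w
    · rw [if_pos ⟨h, rfl⟩, if_pos h]; simp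
    · rw [if_neg (fun h' => h h'.1), if_neg h]; simp
  · intro i _ hi
    rw [if_neg (fun h' => hi h'.2)]; simp
  · intro h
    exact absurd (Finset.mem_univ _) h

private theorem card_class_le {G : Type} [Group G] {ν : ℕ} (M : Mod G ν) (r : Fin ν → Fin ν)
    (B : Finset G) (hB : ∀ v, ∃ b ∈ B, M.act (r v) b = v) (w : Fin ν) :
    (Finset.univ.filter fun u => r u = w).card ≤ B.card := by
  classical
  calc (Finset.univ.filter fun u => r u = w).card ≤ (B.image (M.act w)).card := by
        apply Finset.card_le_card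
        intro v hv
        rw [Finset.mem_filter] at hv
        obtain ⟨b, hb, h⟩ := hB v
        rw [hv.2] at h
        exact Finset.mem_image.mpr ⟨b, hb, h⟩
    _ ≤ _ := Finset.card_image_le

private theorem sum_pull {G : Type} [Group G] {ν n : ℕ} (M : Mod G ν) (W : Finset G) (v : Fin ν)
    (x : Fin ν × Fin n → ℤ) (j : Fin n) :
    ((pull M W v x).sum fun y c => if y.2 = j then c else 0) = ∑ g ∈ W, x (M.act v g, j) := by
  classical
  unfold pull
  rw [← Finsupp.sum_finsetSum_index]
  · have h1 : ∀ y : G × Fin n, ((Finsupp.single y (x (M.act v y.1, y.2)) : G × Fin n →₀ ℤ).sum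
        fun y c => if y.2 = j then c else 0) = if y.2 = j then x (M.act v y.1, y.2) else 0 := by
      intro y
      rw [Finsupp.sum_single_index]
      split_ifs <;> rfl
    rw [Finset.sum_congr rfl fun y _ => h1 y, Finset.sum_product]
    refine Finset.sum_congr rfl fun g _ => ?_
    rw [Finset.sum_ite_eq' Finset.univ j]
    simp
  · intro a
    split_ifs <;> rfl
  · intro a b c
    split_ifs
    · rfl
    · rfl

private theorem cyc_zero {G : Type} [Group G] (C : Cpl G) {ν : ℕ} (M : Mod G ν)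
    (r : Fin ν → Fin ν) (B F : Finset G) (hB : ∀ v, ∃ b ∈ B, M.act (r v) b = v) (hBF : B ⊆ F)
    (x : Fin ν × Fin (C.nn (0 + 1)) → ℤ) (c : Fin ν) (hc : c ∈ M.good F)
    (hx : ∀ j, ∑ v, (if r v = c then x (v, j) else 0) = 0) :
    C.cyc 0 (pull M B c (res r c x)) := by
  classical
  intro j
  rw [sum_pull, ← hx j]
  have hinj : Set.InjOn (M.act c) (B : Set G) := by
    intro g hg g' hg' e
    exact M.act_inj hc (hBF hg) (hBF hg') e
  have h1 : ∑ g ∈ B, res r c x (M.act c g, j) = ∑ v ∈ B.image (M.act c), res r c x (v, j) :=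
    (Finset.sum_image (f := fun v => res r c x (v, j)) hinj).symm
  rw [h1]
  refine Finset.sum_subset (Finset.subset_univ _) ?_
  intro v _ hv
  change (if r v = c then x (v, j) else 0) = 0
  rw [if_neg]
  intro h
  apply hv
  obtain ⟨b, hb, hbv⟩ := hB v
  rw [h] at hbv
  exact Finset.mem_image.mpr ⟨b, hb, hbv⟩

open Classical in
private theorem cost_bound {G : Type} [Group G] {ν : ℕ} (M : Mod G ν) (r : Fin ν → Fin ν)
    (hr : ∀ v, r (r v) = r v) (K0 F : Finset G) (hKF : K0 ⊆ F) (hm : 1 ≤ K0.card) (e b : ℝ)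
    (he : (1 + Real.log K0.card) / K0.card ≤ e)
    (hcross : ((Finset.univ.filter fun v => ∃ k ∈ K0, r (M.act v k) ≠ r v).card : ℝ) ≤
      e * ν + b) :
    ∑ w ∈ Finset.univ.filter (fun w => r w = w),
      (1 + Real.log ((Finset.univ.filter fun u => r u = w).card : ℝ)) ≤
      2 * e * ν + (b + M.bad F) := by
  have h := base_cost r hr K0.card hm
    ((M.good F)ᶜ ∪ Finset.univ.filter fun v => ∃ k ∈ K0, r (M.act v k) ≠ r v) (by
      intro v hv
      rw [Finset.mem_union, not_or, Finset.mem_compl, not_not, Finset.mem_filter] at hv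
      obtain ⟨h1, h2⟩ := hv
      have h3 : ∀ k ∈ K0, r (M.act v k) = r v := by
        intro k hk
        by_contra hne
        exact h2 ⟨Finset.mem_univ _, k, hk, hne⟩
      have hinj : Set.InjOn (M.act v) (K0 : Set G) := by
        intro g hg g' hg' e
        exact M.act_inj h1 (hKF hg) (hKF hg') e
      rw [← Finset.card_image_of_injOn hinj]
      apply Finset.card_le_card
      intro u hu
      obtain ⟨k, hk, rfl⟩ := Finset.mem_image.mp hu
      exact Finset.mem_filter.mpr ⟨Finset.mem_univ _, h3 k hk⟩)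
  refine h.trans ?_
  have h4 : ((((M.good F)ᶜ ∪ Finset.univ.filter fun v => ∃ k ∈ K0, r (M.act v k) ≠ r v).card : ℕ)
      : ℝ) ≤ M.bad F + (e * ν + b) := by
    refine le_trans (Nat.cast_le.mpr (Finset.card_union_le _ _)) ?_
    rw [Nat.cast_add]
    exact add_le_add le_rfl hcross
  have h5 : (1 + Real.log K0.card) / K0.card * (ν : ℝ) ≤ e * ν :=
    mul_le_mul_of_nonneg_right he (Nat.cast_nonneg ν)
  linarith

theorem qs_zero {G : Type} [Group G] (C : Cpl G) (N : Subgroup G) (hN : FN N)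
    (hinf : (N : Set G).Infinite) : QS C N 0 := by
  classical
  intro θ hθ
  have hn : (0 : ℝ) ≤ (C.nn (0 + 1) : ℝ) := Nat.cast_nonneg _
  have he : 0 < θ / (2 * (C.nn (0 + 1) : ℝ) + 2) := by positivity
  obtain ⟨m, hm, hme⟩ := exists_m _ he
  obtain ⟨K0, hK0N, hK0m⟩ := hinf.exists_subset_card_eq m
  obtain ⟨B, F0, c, hBN, hB1, hc0, hpart⟩ := exists_part N hN K0 hK0N _ he
  obtain ⟨F1, T, T1, L, hL, hSF1, hBF1, _, hh⟩ := exists_h C 0 B B
  obtain ⟨K1, hK1⟩ := card_Gd C 1
  set F : Finset G := F0 ∪ F1 ∪ K0 ∪ T1 ∪ C.S with hF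
  have hF0F : F0 ⊆ F := by
    intro g hg
    simp only [hF, Finset.mem_union]
    tauto
  have hF1F : F1 ⊆ F := by
    intro g hg
    simp only [hF, Finset.mem_union]
    tauto
  have hK0F : K0 ⊆ F := by
    intro g hg
    simp only [hF, Finset.mem_union]
    tauto
  have hSF : C.S ⊆ F := by
    intro g hg
    simp only [hF, Finset.mem_union]
    tauto
  set n : ℕ := C.nn (0 + 1) with hnn
  set e : ℝ := θ / (2 * (n : ℝ) + 2) with hee
  have hb1 : (1 : ℝ) ≤ (B.card : ℝ) := by
    have : 1 ≤ B.card := Finset.card_pos.mpr ⟨1, hB1⟩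
    exact_mod_cast this
  have ha1 : (0 : ℝ) ≤ (T1.card : ℝ) * K1 := by positivity
  have hBK : (B.card : ℝ) ≤ B.card * (1 + T1.card * K1) := by
    nlinarith
  have hB0 : (0 : ℝ) ≤ B.card * (1 + T1.card * K1) := le_trans (by positivity) hBK
  have hn1 : (0 : ℝ) ≤ n * (1 + c) := by positivity
  set K : ℝ := B.card * (1 + T1.card * K1) + n * (1 + c) + n + L with hK
  refine ⟨B, F, T, K, hBN, by rw [hK]; positivity, ?_⟩
  intro ν M
  obtain ⟨r, hr, hrB, hcross⟩ := hpart ν M
  set ok : Finset (Fin ν) := Finset.univ.filter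
    (fun u => u ∈ M.good F ∧ ∀ t ∈ T1, M.act u t ∈ Gd C M (0 + 1)) with hok
  set A : Finset (Fin ν) := Finset.univ.filter (fun v => ∀ u, r u = r v → u ∈ ok) with hA
  have hAok : ∀ v ∈ A, v ∈ ok := by
    intro v hv
    rw [hA, Finset.mem_filter] at hv
    exact hv.2 v rfl
  have hAr : ∀ v, r v ∈ A ↔ v ∈ A := by
    intro v
    rw [hA, Finset.mem_filter, Finset.mem_filter, hr v]
    simp
  have hbadnn : (0 : ℝ) ≤ (M.bad F : ℝ) := Nat.cast_nonneg _
  have hbad0 : (M.bad F0 : ℝ) ≤ M.bad F := by exact_mod_cast M.bad_mono hF0F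
  have hbadS : (M.bad C.S : ℝ) ≤ M.bad F := by exact_mod_cast M.bad_mono hSF
  have hokc : (((okᶜ).card : ℕ) : ℝ) ≤ (1 + T1.card * K1) * M.bad F := by
    have h1 : okᶜ ⊆ (M.good F)ᶜ ∪
        Finset.univ.filter (fun v => ∃ t ∈ T1, M.act v t ∉ Gd C M (0 + 1)) := by
      intro v hv
      rw [Finset.mem_compl, hok, Finset.mem_filter] at hv
      rw [Finset.mem_union, Finset.mem_compl, Finset.mem_filter]
      by_contra hcon
      rw [not_or, not_not] at hcon
      apply hv
      refine ⟨Finset.mem_univ _, hcon.1, ?_⟩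
      intro t ht
      by_contra h2
      exact hcon.2 ⟨Finset.mem_univ _, t, ht, h2⟩
    have h2 := (Finset.card_le_card h1).trans (Finset.card_union_le _ _)
    have h3 : (Finset.univ.filter (fun v => ∃ t ∈ T1, M.act v t ∉ Gd C M (0 + 1))).card ≤
        T1.card * (K1 * M.bad C.S) :=
      (M.card_exists_not_mem (Gd C M (0 + 1)) T1).trans (Nat.mul_le_mul_left _ (hK1 ν M))
    have h4 : (okᶜ).card ≤ M.bad F + T1.card * (K1 * M.bad C.S) := h2.trans (Nat.add_le_add_left h3 _)
    have h5 : (((okᶜ).card : ℕ) : ℝ) ≤ M.bad F + T1.card * (K1 * M.bad C.S) := by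
      exact_mod_cast h4
    have h6 : (T1.card : ℝ) * K1 * M.bad C.S ≤ T1.card * K1 * M.bad F :=
      mul_le_mul_of_nonneg_left hbadS ha1
    nlinarith
  have hAc : ((Aᶜ).card : ℝ) ≤ K * M.bad F := by
    have h1 : Aᶜ = Finset.univ.filter (fun v => ¬ ∀ u, r u = r v → u ∈ ok) := by
      ext v
      rw [hA, Finset.mem_compl, Finset.mem_filter, Finset.mem_filter]
      simp
    have h2 : (Aᶜ).card ≤ B.card * (okᶜ).card := by
      rw [h1]
      convert card_A M r B hrB ok
    have h3 : ((Aᶜ).card : ℝ) ≤ B.card * ((1 + T1.card * K1) * M.bad F) := by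
      refine le_trans (by exact_mod_cast h2) (mul_le_mul_of_nonneg_left hokc (Nat.cast_nonneg _))
    rw [hK]
    nlinarith
  obtain ⟨h, hhb, hhl, hhi⟩ := hh ν M r A 1 1 hr hrB hAr
    (fun v hv => by
      have h1 := hAok v hv
      rw [hok, Finset.mem_filter] at h1
      exact M.good_mono hF1F h1.2.1)
    (fun v hv => by
      have h1 := hAok v hv
      rw [hok, Finset.mem_filter] at h1
      exact h1.2.2)
    zero_le_one
    (fun x => by
      rw [Finset.sum_eq_single x]
      · rw [Matrix.one_apply_eq, abs_one]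
      · intro y _ hy
        rw [Matrix.one_apply_ne (Ne.symm hy), abs_zero]
      · intro h1
        exact absurd (Finset.mem_univ _) h1)
    (fun x y _ hxy => by
      have h1 : x = y := by
        by_contra hne
        exact hxy (Matrix.one_apply_ne hne)
      rw [← h1]
      exact hrB x.1)
  refine ⟨{
    r := r
    r_r := hr
    r_mem := hrB
    A := A
    A_r := hAr
    A_card := hAc
    ι := {w : Fin ν // r w = w} × Fin n
    inst := inferInstance
    phi := fun a x => if r x.1 = a.1.1 ∧ x.2 = a.2 then 1 else 0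
    cl := fun a => a.1.1
    phi_supp := ?_
    phi_ne := ?_
    phi_le := ?_
    cl_card := ?_
    cost := ?_
    h := h
    h_int := ?_
    h_le := ?_
    h_loc := hhl }⟩
  · intro a x hx
    by_contra hne
    exact hx (if_neg (fun h1 => hne h1.1))
  · intro a h0
    have h1 := congrFun h0 (a.1.1, a.2)
    change (if r a.1.1 = a.1.1 ∧ a.2 = a.2 then (1 : ℤ) else 0) = 0 at h1
    rw [if_pos ⟨a.1.2, rfl⟩] at h1
    exact one_ne_zero h1
  · intro a
    rw [phi_abs r a.1.1 a.2]
    have h1 : ((Finset.univ.filter fun u => r u = a.1.1).card : ℝ) ≤ B.card := by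
      exact_mod_cast card_class_le M r B hrB a.1.1
    rw [hK]
    linarith
  · intro v
    have h1 : Nat.card {a : {w : Fin ν // r w = w} × Fin n // a.1.1 = v} ≤ n := by
      have h2 : Function.Injective
          (fun a : {a : {w : Fin ν // r w = w} × Fin n // a.1.1 = v} => a.1.2) := by
        rintro ⟨⟨⟨w, hw⟩, j⟩, hv⟩ ⟨⟨⟨w', hw'⟩, j'⟩, hv'⟩ h3
        simp only at h3 hv hv'
        subst h3
        subst hv
        subst hv'
        rfl
      have h3 := Nat.card_le_card_of_injective _ h2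
      rwa [Nat.card_fin] at h3
    have h2 : ((Nat.card {a : {w : Fin ν // r w = w} × Fin n // a.1.1 = v} : ℕ) : ℝ) ≤ n := by
      exact_mod_cast h1
    refine h2.trans ?_
    rw [hK]
    linarith
  · have h1 : ∑ a : {w : Fin ν // r w = w} × Fin n, (1 + Real.log (∑ x : Fin ν × Fin n,
        |(((if r x.1 = a.1.1 ∧ x.2 = a.2 then (1 : ℤ) else 0 : ℤ)) : ℝ)|)) =
        n * ∑ w ∈ Finset.univ.filter (fun w => r w = w),
          (1 + Real.log ((Finset.univ.filter fun u => r u = w).card : ℝ)) := by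
      rw [Fintype.sum_prod_type, Finset.mul_sum,
        Finset.sum_subtype (Finset.univ.filter fun w => r w = w) (p := fun w => r w = w)
          (by simp)]
      refine Finset.sum_congr rfl fun w _ => ?_
      have h2 : ∀ j : Fin n, (1 + Real.log (∑ x : Fin ν × Fin n,
          |(((if r x.1 = w.1 ∧ x.2 = j then (1 : ℤ) else 0 : ℤ)) : ℝ)|)) =
          1 + Real.log ((Finset.univ.filter fun u => r u = w.1).card : ℝ) := by
        intro j
        rw [phi_abs]
      rw [Finset.sum_congr rfl fun j _ => h2 j, Finset.sum_const, Finset.card_univ,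
        Fintype.card_fin, nsmul_eq_mul]
    refine le_trans (le_of_eq h1) ?_
    have h2 := cost_bound M r hr K0 F hK0F (by rw [hK0m]; exact hm) e (c * M.bad F0)
      (by rw [hK0m]; exact hme) (by convert hcross)
    have h3 := mul_le_mul_of_nonneg_left h2 hn
    have h4 : (n : ℝ) * (2 * e * ν) ≤ θ * ν := by
      have h5 : (n : ℝ) * (2 * e) ≤ θ := by
        rw [hee]
        have h6 : (n : ℝ) * (2 * (θ / (2 * (n : ℝ) + 2))) = θ * ((2 * n) / (2 * n + 2)) := by
          field_simp
        rw [h6]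
        have h7 : (2 * (n : ℝ)) / (2 * n + 2) ≤ 1 := by
          rw [div_le_one (by positivity)]
          linarith
        nlinarith
      calc (n : ℝ) * (2 * e * ν) = (n * (2 * e)) * ν := by ring
        _ ≤ θ * ν := mul_le_mul_of_nonneg_right h5 (Nat.cast_nonneg _)
    have h5 : c * (M.bad F0 : ℝ) ≤ c * M.bad F := mul_le_mul_of_nonneg_left hbad0 hc0
    have h6 : (n : ℝ) * (c * M.bad F0 + M.bad F) ≤ n * (1 + c) * M.bad F := by
      nlinarith
    have h7 : (n : ℝ) * (1 + c) * M.bad F ≤ K * M.bad F := by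
      apply mul_le_mul_of_nonneg_right _ hbadnn
      rw [hK]
      linarith
    linarith
  · intro x hx
    obtain ⟨y, hy1, hy2⟩ := hhi x hx.1 (by
      intro w hwA hw
      refine ⟨res r w x, ?_, ?_⟩
      · rw [Matrix.vecMul_one]
      · have hg := hAok w hwA
        rw [hok, Finset.mem_filter] at hg
        refine cyc_zero C M r B F hrB (hBF1.trans hF1F) x w hg.2.1 ?_
        intro j
        rw [← phi_sum r w j x]
        exact hx.2 (⟨w, hw⟩, j))
    refine ⟨y, hy1, fun _ => ?_⟩
    rw [Matrix.vecMul_one] at hy2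
    funext z
    have h1 := congrFun hy2 z
    unfold toV at h1
    exact_mod_cast h1
  · intro x y
    refine (hhb x y).trans ?_
    rw [one_mul, hK]
    linarith

end Pool.Agent.LT
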