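import Mathlib
import Pool.Agent.LT.Base
import Pool.Agent.LT.ModB
import Pool.Agent.LT.Push

set_option autoImplicit false

/-!
# Project LT, module NormB: norm bounds (Schur test)

PLAN. `schur`: `(∑_x u_x A_xy)^2 ≤ (∑_x |A_xy|) (∑_x u_x^2 |A_xy|)` (Cauchy-Schwarz,
`Finset.sum_mul_sq_le_sq_mul_sq` or `inner_mul_le_norm_mul_norm` with `|A_xy|^(1/2)`), sum over `y`,
and use the column bound and then the row bound: `NB A b`. `Matrix.vecMul`, `dotProduct` unfold to
sums.
`exists_b`: the row `(v,j)` of `dM` is `0` or `push M v (C.D q j)`, its `ℓ¹` norm is at most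
`∑_y |C.D q j y|` (`push` does not increase the `ℓ¹` norm). The column sum at `(w,i)`:
`∑_{(v,j)} |dM (v,j) (w,i)| ≤ ∑_j ∑_{y ∈ supp (C.D q j)} |C.D q j y| #{v : M.act v y.1 = w}` and
`#{v : M.act v g = w} ≤ 1` because `M.act · g` is injective. Take for `b0` the sum over all
`q ≤ d`, `j`, `y` of `|C.D q j y|` plus `1`; for `q > d` there are no rows (`nn_top`).
`NB` for the transpose: the same with rows and columns exchanged. `ℓ²`-norm of a row `≤ ℓ¹`-norm.
`NB_local`: the rows have at most `|T| n'` nonzero entries, each `≤ K`; the columns at most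
`|T| n` (for given `y` and `t` there is at most one `v` with `M.act v t = y.1`). The Schur test
gives the bound `K |T| (n + n')`.
-/

open scoped BigOperators

namespace Pool.Agent.LT

theorem schur {m n : Type} [Fintype m] [Fintype n] (A : Matrix m n ℝ)
    (b : ℝ) (hr : ∀ x, ∑ y, |A x y| ≤ b) (hc : ∀ y, ∑ x, |A x y| ≤ b) : NB A b := by
  intro u
  by_cases hm : Nonempty m
  swap
  · have : IsEmpty m := not_nonempty_iff.1 hm
    simp [Matrix.vecMul, dotProduct]
  obtain ⟨x0⟩ := hm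
  have hb : 0 ≤ b := (Finset.sum_nonneg fun y _ => abs_nonneg _).trans (hr x0)
  have h1 : ∀ y, (Matrix.vecMul u A y) ^ 2 ≤ b * ∑ x, u x ^ 2 * |A x y| := by
    intro y
    have e1 : Matrix.vecMul u A y = ∑ x, u x * A x y := rfl
    have e2 : |∑ x, u x * A x y| ≤ ∑ x, Real.sqrt |A x y| * (|u x| * Real.sqrt |A x y|) := by
      refine (Finset.abs_sum_le_sum_abs _ _).trans (le_of_eq ?_)
      refine Finset.sum_congr rfl fun x _ => ?_
      rw [abs_mul]
      have := Real.mul_self_sqrt (abs_nonneg (A x y))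
      calc |u x| * |A x y| = |u x| * (Real.sqrt |A x y| * Real.sqrt |A x y|) := by rw [this]
        _ = _ := by ring
    have e3 := Finset.sum_mul_sq_le_sq_mul_sq Finset.univ (fun x => Real.sqrt |A x y|)
      (fun x => |u x| * Real.sqrt |A x y|)
    have e4 : ∑ x, (Real.sqrt |A x y|) ^ 2 = ∑ x, |A x y| :=
      Finset.sum_congr rfl fun x _ => Real.sq_sqrt (abs_nonneg _)
    have e5 : ∑ x, (|u x| * Real.sqrt |A x y|) ^ 2 = ∑ x, u x ^ 2 * |A x y| := by
      refine Finset.sum_congr rfl fun x _ => ?_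
      rw [mul_pow, Real.sq_sqrt (abs_nonneg _), sq_abs]
    rw [e4, e5] at e3
    have e6 : 0 ≤ ∑ x, u x ^ 2 * |A x y| :=
      Finset.sum_nonneg fun x _ => mul_nonneg (sq_nonneg _) (abs_nonneg _)
    rw [e1, ← sq_abs]
    calc |∑ x, u x * A x y| ^ 2
        ≤ (∑ x, Real.sqrt |A x y| * (|u x| * Real.sqrt |A x y|)) ^ 2 :=
          pow_le_pow_left₀ (abs_nonneg _) e2 2
      _ ≤ (∑ x, |A x y|) * ∑ x, u x ^ 2 * |A x y| := e3
      _ ≤ b * ∑ x, u x ^ 2 * |A x y| := mul_le_mul_of_nonneg_right (hc y) e6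
  have h2 : Matrix.vecMul u A ⬝ᵥ Matrix.vecMul u A = ∑ y, (Matrix.vecMul u A y) ^ 2 :=
    Finset.sum_congr rfl fun y _ => (sq _).symm
  have h3 : u ⬝ᵥ u = ∑ x, u x ^ 2 := Finset.sum_congr rfl fun x _ => (sq _).symm
  rw [h2, h3]
  calc ∑ y, (Matrix.vecMul u A y) ^ 2 ≤ ∑ y, b * ∑ x, u x ^ 2 * |A x y| :=
        Finset.sum_le_sum fun y _ => h1 y
    _ = b * ∑ x, u x ^ 2 * ∑ y, |A x y| := by
        rw [← Finset.mul_sum, Finset.sum_comm]
        congr 1
        exact Finset.sum_congr rfl fun x _ => (Finset.mul_sum _ _ _).symm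
    _ ≤ b * ∑ x, u x ^ 2 * b := by
        refine mul_le_mul_of_nonneg_left (Finset.sum_le_sum fun x _ => ?_) hb
        exact mul_le_mul_of_nonneg_left (hr x) (sq_nonneg _)
    _ = b ^ 2 * ∑ x, u x ^ 2 := by
        rw [← Finset.sum_mul]
        ring

private lemma nb_col {G : Type} [Group G] {ν : ℕ} (M : Mod G ν) (t : G) (w : Fin ν) (K : ℝ)
    (hK : 0 ≤ K) : ∑ v : Fin ν, (if M.act v t = w then K else 0) ≤ K := by
  rw [← Finset.sum_filter, Finset.sum_const, nsmul_eq_mul]
  have h : (Finset.univ.filter fun v => M.act v t = w).card ≤ 1 := by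
    rw [Finset.card_le_one]
    intro a ha b hb
    rw [Finset.mem_filter] at ha hb
    exact M.inj t (ha.2.trans hb.2.symm)
  have h' : ((Finset.univ.filter fun v => M.act v t = w).card : ℝ) ≤ 1 := by exact_mod_cast h
  nlinarith

private lemma nb_push {G : Type} [Group G] {ν n : ℕ} (M : Mod G ν) (v : Fin ν)
    (a : G × Fin n →₀ ℤ) (y : Fin ν × Fin n) :
    push M v a y = ∑ z ∈ a.support, if (M.act v z.1, z.2) = y then a z else 0 := by
  unfold push Finsupp.mapDomain
  rw [Finsupp.sum_apply, Finsupp.sum]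
  refine Finset.sum_congr rfl fun z _ => ?_
  rw [Finsupp.single_apply]

/-- the `ℓ¹` norm of the matrix `C.D q` -/
private noncomputable def nbs {G : Type} [Group G] (C : Cpl G) (q : ℕ) : ℝ :=
  ∑ j, ∑ z ∈ (C.D q j).support, |((C.D q j z : ℤ) : ℝ)|

private lemma nb_abs {G : Type} [Group G] (C : Cpl G) {ν : ℕ} (M : Mod G ν) (q : ℕ)
    (x : Fin ν × Fin (C.nn (q + 1))) (y : Fin ν × Fin (C.nn q)) :
    |dR C M q x y| ≤ ∑ z ∈ (C.D q x.2).support,
      if (M.act x.1 z.1, z.2) = y then |((C.D q x.2 z : ℤ) : ℝ)| else 0 := by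
  have h0 : 0 ≤ ∑ z ∈ (C.D q x.2).support,
      if (M.act x.1 z.1, z.2) = y then |((C.D q x.2 z : ℤ) : ℝ)| else 0 := by
    refine Finset.sum_nonneg fun z _ => ?_
    split_ifs
    · exact abs_nonneg _
    · exact le_rfl
  have h1 : dR C M q x y = ((dM C M q x y : ℤ) : ℝ) := rfl
  have h2 : dM C M q x y = (if x.1 ∈ Gd C M q then push M x.1 (C.D q x.2) else 0) y := rfl
  rw [h1, h2]
  by_cases h : x.1 ∈ Gd C M q
  · rw [if_pos h, nb_push, Int.cast_sum]
    refine (Finset.abs_sum_le_sum_abs _ _).trans (Finset.sum_le_sum fun z _ => ?_)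
    by_cases hz : (M.act x.1 z.1, z.2) = y
    · rw [if_pos hz, if_pos hz]
    · rw [if_neg hz, if_neg hz]
      simp
  · rw [if_neg h, Pi.zero_apply, Int.cast_zero, abs_zero]
    exact h0

private lemma nb_row {G : Type} [Group G] (C : Cpl G) {ν : ℕ} (M : Mod G ν) (q : ℕ)
    (x : Fin ν × Fin (C.nn (q + 1))) : ∑ y, |dR C M q x y| ≤ nbs C q := by
  calc ∑ y, |dR C M q x y| ≤ ∑ y, ∑ z ∈ (C.D q x.2).support,
        (if (M.act x.1 z.1, z.2) = y then |((C.D q x.2 z : ℤ) : ℝ)| else 0) :=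
        Finset.sum_le_sum fun y _ => nb_abs C M q x y
    _ = ∑ z ∈ (C.D q x.2).support, |((C.D q x.2 z : ℤ) : ℝ)| := by
        rw [Finset.sum_comm]
        refine Finset.sum_congr rfl fun z _ => ?_
        rw [Finset.sum_ite_eq Finset.univ (M.act x.1 z.1, z.2), if_pos (Finset.mem_univ _)]
    _ ≤ nbs C q := by
        unfold nbs
        exact Finset.single_le_sum
          (f := fun j => ∑ z ∈ (C.D q j).support, |((C.D q j z : ℤ) : ℝ)|)
          (fun j _ => Finset.sum_nonneg fun z _ => abs_nonneg _) (Finset.mem_univ x.2)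

private lemma nb_column {G : Type} [Group G] (C : Cpl G) {ν : ℕ} (M : Mod G ν) (q : ℕ)
    (y : Fin ν × Fin (C.nn q)) : ∑ x, |dR C M q x y| ≤ nbs C q := by
  calc ∑ x, |dR C M q x y| ≤ ∑ x : Fin ν × Fin (C.nn (q + 1)), ∑ z ∈ (C.D q x.2).support,
        (if M.act x.1 z.1 = y.1 then |((C.D q x.2 z : ℤ) : ℝ)| else 0) := by
        refine Finset.sum_le_sum fun x _ => (nb_abs C M q x y).trans
          (Finset.sum_le_sum fun z _ => ?_)
        by_cases hz : (M.act x.1 z.1, z.2) = y
        · rw [if_pos hz, if_pos (congrArg Prod.fst hz)]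
        · rw [if_neg hz]
          split_ifs
          · exact abs_nonneg _
          · exact le_rfl
    _ = ∑ j, ∑ z ∈ (C.D q j).support, ∑ v : Fin ν,
        (if M.act v z.1 = y.1 then |((C.D q j z : ℤ) : ℝ)| else 0) := by
        rw [Fintype.sum_prod_type_right]
        refine Finset.sum_congr rfl fun j _ => ?_
        rw [Finset.sum_comm]
    _ ≤ nbs C q := by
        unfold nbs
        exact Finset.sum_le_sum fun j _ => Finset.sum_le_sum fun z _ =>
          nb_col M z.1 y.1 _ (abs_nonneg _)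

theorem exists_b {G : Type} [Group G] (C : Cpl G) :
    ∃ b : ℝ, 1 ≤ b ∧ ∀ (ν : ℕ) (M : Mod G ν) (q : ℕ),
      NB (dR C M q) b ∧ NB (dR C M q).transpose b ∧
      (∀ x, ∑ y, |dR C M q x y| ≤ b) ∧ (∀ y, ∑ x, |dR C M q x y| ≤ b) ∧
      ∀ x, ∑ y, (dR C M q x y) ^ 2 ≤ b ^ 2 := by
  have hn0 : ∀ q, 0 ≤ nbs C q := fun q =>
    Finset.sum_nonneg fun j _ => Finset.sum_nonneg fun z _ => abs_nonneg _
  set b : ℝ := 1 + ∑ q ∈ Finset.range (C.d + 1), nbs C q with hb
  have hle : ∀ q, nbs C q ≤ b := by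
    intro q
    have hs : 0 ≤ ∑ q ∈ Finset.range (C.d + 1), nbs C q := Finset.sum_nonneg fun q _ => hn0 q
    by_cases hq : q < C.d + 1
    · have := Finset.single_le_sum (f := nbs C) (fun q _ => hn0 q) (Finset.mem_range.2 hq)
      linarith
    · have h0 : C.nn (q + 1) = 0 := C.nn_top (q + 1) (by omega)
      have h1 : nbs C q = 0 := by
        unfold nbs
        refine Finset.sum_eq_zero fun j _ => ?_
        have hj := j.2
        omega
      rw [h1]
      linarith
  have hb1 : 1 ≤ b := by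
    have hs : 0 ≤ ∑ q ∈ Finset.range (C.d + 1), nbs C q := Finset.sum_nonneg fun q _ => hn0 q
    linarith
  refine ⟨b, hb1, fun ν M q => ?_⟩
  have hr : ∀ x, ∑ y, |dR C M q x y| ≤ b := fun x => (nb_row C M q x).trans (hle q)
  have hc : ∀ y, ∑ x, |dR C M q x y| ≤ b := fun y => (nb_column C M q y).trans (hle q)
  refine ⟨schur _ b hr hc, schur _ b hc hr, hr, hc, fun x => ?_⟩
  calc ∑ y, (dR C M q x y) ^ 2 ≤ ∑ y, |dR C M q x y| * b := by
        refine Finset.sum_le_sum fun y _ => ?_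
        rw [← sq_abs, sq]
        refine mul_le_mul_of_nonneg_left ?_ (abs_nonneg _)
        exact (Finset.single_le_sum (f := fun y => |dR C M q x y|) (fun y _ => abs_nonneg _)
          (Finset.mem_univ y)).trans (hr x)
    _ = (∑ y, |dR C M q x y|) * b := (Finset.sum_mul _ _ _).symm
    _ ≤ b * b := mul_le_mul_of_nonneg_right (hr x) (by linarith)
    _ = b ^ 2 := (sq b).symm

theorem NB_local {G : Type} [Group G] {ν n n' : ℕ} (M : Mod G ν) (T : Finset G) (K : ℝ)
    (hK : 0 ≤ K) (h : Matrix (Fin ν × Fin n) (Fin ν × Fin n') ℝ) (h_le : ∀ x y, |h x y| ≤ K)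
    (h_loc : ∀ x y, h x y ≠ 0 → ∃ t ∈ T, y.1 = M.act x.1 t) :
    NB h (K * T.card * (n + n')) := by
  classical
  have habs : ∀ x y, |h x y| ≤ ∑ t ∈ T, if M.act x.1 t = y.1 then K else 0 := by
    intro x y
    have h0 : ∀ t ∈ T, 0 ≤ (if M.act x.1 t = y.1 then K else 0) := by
      intro t _
      split_ifs
      · exact hK
      · exact le_rfl
    by_cases hxy : h x y = 0
    · rw [hxy, abs_zero]
      exact Finset.sum_nonneg h0
    · obtain ⟨t, ht, hty⟩ := h_loc x y hxy
      refine (h_le x y).trans ?_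
      have h1 := Finset.single_le_sum h0 ht
      rw [if_pos hty.symm] at h1
      exact h1
  refine schur h _ (fun x => ?_) (fun y => ?_)
  · calc ∑ y, |h x y| ≤ ∑ y : Fin ν × Fin n', ∑ t ∈ T, (if M.act x.1 t = y.1 then K else 0) :=
          Finset.sum_le_sum fun y _ => habs x y
      _ = ∑ t ∈ T, ∑ _i : Fin n', ∑ w : Fin ν, (if M.act x.1 t = w then K else 0) := by
          rw [Finset.sum_comm]
          refine Finset.sum_congr rfl fun t _ => ?_
          rw [Fintype.sum_prod_type_right]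
      _ = ∑ t ∈ T, ∑ _i : Fin n', K := by
          refine Finset.sum_congr rfl fun t _ => Finset.sum_congr rfl fun i _ => ?_
          rw [Finset.sum_ite_eq Finset.univ (M.act x.1 t), if_pos (Finset.mem_univ _)]
      _ = K * T.card * n' := by
          rw [Finset.sum_const, Finset.sum_const, Finset.card_univ, Fintype.card_fin,
            nsmul_eq_mul, nsmul_eq_mul]
          ring
      _ ≤ K * T.card * (n + n') := by
          refine mul_le_mul_of_nonneg_left ?_ (mul_nonneg hK (Nat.cast_nonneg _))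
          have : (0 : ℝ) ≤ n := Nat.cast_nonneg n
          linarith
  · calc ∑ x, |h x y| ≤ ∑ x : Fin ν × Fin n, ∑ t ∈ T, (if M.act x.1 t = y.1 then K else 0) :=
          Finset.sum_le_sum fun x _ => habs x y
      _ = ∑ t ∈ T, ∑ _i : Fin n, ∑ v : Fin ν, (if M.act v t = y.1 then K else 0) := by
          rw [Finset.sum_comm]
          refine Finset.sum_congr rfl fun t _ => ?_
          rw [Fintype.sum_prod_type_right]
      _ ≤ ∑ t ∈ T, ∑ _i : Fin n, K :=
          Finset.sum_le_sum fun t _ => Finset.sum_le_sum fun i _ => nb_col M t y.1 K hK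
      _ = K * T.card * n := by
          rw [Finset.sum_const, Finset.sum_const, Finset.card_univ, Fintype.card_fin,
            nsmul_eq_mul, nsmul_eq_mul]
          ring
      _ ≤ K * T.card * (n + n') := by
          refine mul_le_mul_of_nonneg_left ?_ (mul_nonneg hK (Nat.cast_nonneg _))
          have : (0 : ℝ) ≤ n' := Nat.cast_nonneg n'
          linarith

end Pool.Agent.LT
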