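import Mathlib
import Pool.Agent.LT.Base
import Pool.Agent.LT.ModB
import Pool.Agent.LT.PartB
import Pool.Agent.LT.HB

set_option autoImplicit false

/-!
# Project LT, module QCount: the counting in the step `Q_q ⇒ Q_{q+1}`

Setting: `r'` is the old partition with classes inside `root.B'`, `cl' a` the class of the old
equation number `a : ι`; `psi a` is the pull back of the old equation along the differential: if
`psi a x ≠ 0` then `x.1.g` is in the class `cl' a` for some `g ∈ S`. `r` is the new partition.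
The new equations are the restrictions `res r c (psi a)` which are not zero; their index set is
`NI r psi`.

PLAN for `step_cost`. For `a : ι` let `P_a := {c : res r c (psi a) ≠ 0}`. If `c ∈ P_a` choose
`x` with `r x.1 = c`, `psi a x ≠ 0`, hence `g ∈ S` with `r' (x.1.g) = cl' a`. So
`P_a ⊆ ⋃_{g ∈ S} r '' {v : r' (v.g) = cl' a}`. For fixed `a, g`: if the set `V_{a,g} := {v : r'(v.g) = cl' a}`
contains some `v ∉ X` then by `hX` all its elements have the same `r`, so `#(r '' V_{a,g}) ≤ 1`;
otherwise `V_{a,g} ⊆ X`. In both cases `#(r '' V_{a,g}) ≤ 1 + #(V_{a,g} ∩ X)`. Hence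
`#P_a ≤ |S| + ∑_{g ∈ S} #{v ∈ X : r'(v.g) = cl' a}`.
Each new equation from `a` has `ℓ¹` norm `≤ ∑ x, |psi a x| ≤ b x_a`, `x_a := ∑ |phi' a| ≥ 1`
(the numbers `nrm a`), so its cost is at most `1 + log (b x_a) ≤ (1 + log b)(1 + log x_a)` and at
most `1 + log (b K)`. (The norm of a new equation is `≥ 1 > 0` because it is a nonzero integer
vector, so `log` is monotone here.) The total cost is at most
`∑_a |S| (1 + log b)(1 + log x_a) + (1 + log (b K)) ∑_a ∑_{g ∈ S} #{v ∈ X : r'(v.g) = cl' a}` and the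
last double sum is `∑_{v ∈ X} ∑_{g ∈ S} #{a : cl' a = r'(v.g)} ≤ |X| |S| K`.
PLAN for `step_card`: if `(a,c)` is an index then there are `x` with `r x.1 = c`,
`x.1 = M.act c b` (`b ∈ B`), and `g ∈ S` with `cl' a = r' (M.act x.1 g)`; so `cl' a` takes at most
`|B| |S|` values and each is taken by at most `K` indices.
-/

open scoped BigOperators

namespace Pool.Agent.LT

variable {G : Type} [Group G] {ν n : ℕ}

/-- index set of the new equations -/
def NI {ι : Type} (r : Fin ν → Fin ν) (psi : ι → Fin ν × Fin n → ℤ) : Type :=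
  {p : ι × Fin ν // res r p.2 (psi p.1) ≠ 0}

noncomputable instance {ι : Type} [Fintype ι] (r : Fin ν → Fin ν) (psi : ι → Fin ν × Fin n → ℤ) :
    Fintype (NI r psi) := by
  classical
  unfold NI
  infer_instance

private theorem qc_sum {ι : Type} [Fintype ι] (r : Fin ν → Fin ν) (psi : ι → Fin ν × Fin n → ℤ)
    (f : ι × Fin ν → ℝ) (m : ι → ℝ) (N : ι → ℝ)
    (hf : ∀ a c, res r c (psi a) ≠ 0 → f (a, c) ≤ m a) (hm : ∀ a, 0 ≤ m a)
    (hN : ∀ a, ∀ P : Finset (Fin ν), (∀ c ∈ P, res r c (psi a) ≠ 0) → (P.card : ℝ) ≤ N a) :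
    ∑ p : NI r psi, f p.1 ≤ ∑ a, N a * m a := by
  classical
  have h0 : ∑ p ∈ Finset.univ.filter (fun p : ι × Fin ν => res r p.2 (psi p.1) ≠ 0), f p =
      ∑ p : NI r psi, f p.1 :=
    Finset.sum_subtype (p := fun p : ι × Fin ν => res r p.2 (psi p.1) ≠ 0)
      (F := (inferInstance : Fintype (NI r psi))) _ (fun x => by simp) f
  rw [← h0, Finset.sum_filter, Fintype.sum_prod_type]
  refine Finset.sum_le_sum fun a _ => ?_
  have h1 : ∑ c, (if res r c (psi a) ≠ 0 then f (a, c) else 0) ≤
      ∑ c, (if res r c (psi a) ≠ 0 then m a else 0) := by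
    refine Finset.sum_le_sum fun c _ => ?_
    by_cases h : res r c (psi a) ≠ 0
    · rw [if_pos h, if_pos h]
      exact hf a c h
    · rw [if_neg h, if_neg h]
  refine h1.trans ?_
  rw [← Finset.sum_filter, Finset.sum_const, nsmul_eq_mul]
  exact mul_le_mul_of_nonneg_right (hN a _ fun c hc => (Finset.mem_filter.1 hc).2) (hm a)

private theorem qc_count {ι : Type} (M : Mod G ν) (S : Finset G) (r r' : Fin ν → Fin ν)
    (cl' : ι → Fin ν) (psi : ι → Fin ν × Fin n → ℤ)
    (hpsi : ∀ a x, psi a x ≠ 0 → ∃ g ∈ S, r' (M.act x.1 g) = cl' a)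
    (X : Finset (Fin ν))
    (hX : ∀ v, v ∉ X → ∀ g ∈ S, ∀ u, r' (M.act u g) = r' (M.act v g) → r u = r v) (a : ι)
    (P : Finset (Fin ν)) (hP : ∀ c ∈ P, res r c (psi a) ≠ 0) :
    P.card ≤ S.card + ∑ g ∈ S, (X.filter fun v => r' (M.act v g) = cl' a).card := by
  classical
  have h1 : P ⊆ S.biUnion fun g =>
      (Finset.univ.filter fun v => r' (M.act v g) = cl' a).image r := by
    intro c hc
    have h2 := hP c hc
    obtain ⟨x, hx⟩ := Function.ne_iff.1 h2
    have h3 : r x.1 = c ∧ psi a x ≠ 0 := by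
      by_cases h : r x.1 = c
      · refine ⟨h, ?_⟩
        intro h4
        apply hx
        unfold res
        rw [if_pos h, h4]
        rfl
      · exfalso
        apply hx
        unfold res
        rw [if_neg h]
        rfl
    obtain ⟨g, hg, hg'⟩ := hpsi a x h3.2
    rw [Finset.mem_biUnion]
    refine ⟨g, hg, ?_⟩
    rw [Finset.mem_image]
    exact ⟨x.1, by rw [Finset.mem_filter]; exact ⟨Finset.mem_univ _, hg'⟩, h3.1⟩
  refine (Finset.card_le_card h1).trans ?_
  refine Finset.card_biUnion_le.trans ?_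
  rw [Finset.card_eq_sum_ones S, ← Finset.sum_add_distrib]
  refine Finset.sum_le_sum fun g hg => ?_
  by_cases h : ∃ v, r' (M.act v g) = cl' a ∧ v ∉ X
  · obtain ⟨v, hv, hvX⟩ := h
    have h2 : (Finset.univ.filter fun v => r' (M.act v g) = cl' a).image r ⊆ {r v} := by
      intro c hc
      obtain ⟨u, hu, huc⟩ := Finset.mem_image.1 hc
      rw [Finset.mem_singleton, ← huc]
      exact hX v hvX g hg u ((Finset.mem_filter.1 hu).2.trans hv.symm)
    have h3 := Finset.card_le_card h2
    rw [Finset.card_singleton] at h3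
    omega
  · push Not at h
    have h2 : (Finset.univ.filter fun v => r' (M.act v g) = cl' a) ⊆
        X.filter fun v => r' (M.act v g) = cl' a := by
      intro v hv
      rw [Finset.mem_filter] at hv ⊢
      exact ⟨h v hv.2, hv.2⟩
    have h3 := Finset.card_le_card h2
    have h4 := Finset.card_image_le (s := Finset.univ.filter fun v => r' (M.act v g) = cl' a)
      (f := r)
    omega

private theorem qc_fib {ι : Type} [Fintype ι] (cl' : ι → Fin ν) (K : ℝ)
    (hcard : ∀ v, (Nat.card {a : ι // cl' a = v} : ℝ) ≤ K) (v : Fin ν) [DecidablePred fun a => cl' a = v] :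
    ((Finset.univ.filter fun a => cl' a = v).card : ℝ) ≤ K := by
  have h := hcard v
  rw [Nat.card_eq_fintype_card, Fintype.card_subtype] at h
  exact h

theorem step_cost {ι : Type} [Fintype ι] (M : Mod G ν) (S : Finset G) (r r' : Fin ν → Fin ν)
    (cl' : ι → Fin ν) (psi : ι → Fin ν × Fin n → ℤ)
    (hpsi : ∀ a x, psi a x ≠ 0 → ∃ g ∈ S, r' (M.act x.1 g) = cl' a)
    (nrm : ι → ℝ) (b K : ℝ) (hb : 1 ≤ b) (h1 : ∀ a, 1 ≤ nrm a) (hK : ∀ a, nrm a ≤ K)
    (hK0 : 0 ≤ K) (hnrm : ∀ a, ∑ x, |(psi a x : ℝ)| ≤ b * nrm a)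
    (hcard : ∀ v, (Nat.card {a : ι // cl' a = v} : ℝ) ≤ K)
    (X : Finset (Fin ν))
    (hX : ∀ v, v ∉ X → ∀ g ∈ S, ∀ u, r' (M.act u g) = r' (M.act v g) → r u = r v) :
    ∑ p : NI r psi, (1 + Real.log (∑ x, |(res r p.1.2 (psi p.1.1) x : ℝ)|)) ≤
      S.card * (1 + Real.log b) * ∑ a, (1 + Real.log (nrm a)) +
        S.card * K * (1 + |Real.log (b * K)|) * X.card := by
  classical
  have hlb : 0 ≤ Real.log b := Real.log_nonneg hb
  have hln : ∀ a, 0 ≤ Real.log (nrm a) := fun a => Real.log_nonneg (h1 a)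
  have hmul : ∀ a, Real.log (b * nrm a) = Real.log b + Real.log (nrm a) := fun a =>
    Real.log_mul (by linarith) (by linarith [h1 a])
  have hmK : ∀ a, 1 + Real.log (b * nrm a) ≤ 1 + |Real.log (b * K)| := by
    intro a
    have h2 : Real.log (b * nrm a) ≤ Real.log (b * K) := by
      apply Real.log_le_log
      · have := h1 a
        positivity
      · exact mul_le_mul_of_nonneg_left (hK a) (by linarith)
    linarith [le_abs_self (Real.log (b * K))]
  have hmain := qc_sum r psi (fun p => 1 + Real.log (∑ x, |(res r p.2 (psi p.1) x : ℝ)|))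
    (fun a => 1 + Real.log (b * nrm a))
    (fun a => (S.card : ℝ) + ∑ g ∈ S, ((X.filter fun v => r' (M.act v g) = cl' a).card : ℝ))
    ?_ ?_ ?_
  · refine hmain.trans ?_
    have h2 : ∑ a, ((S.card : ℝ) + ∑ g ∈ S, ((X.filter fun v =>
        r' (M.act v g) = cl' a).card : ℝ)) * (1 + Real.log (b * nrm a)) ≤
        ∑ a, ((S.card : ℝ) * (1 + Real.log b) * (1 + Real.log (nrm a)) +
          (∑ g ∈ S, ((X.filter fun v => r' (M.act v g) = cl' a).card : ℝ)) *
            (1 + |Real.log (b * K)|)) := by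
      refine Finset.sum_le_sum fun a _ => ?_
      rw [add_mul]
      refine add_le_add ?_ ?_
      · rw [mul_assoc]
        refine mul_le_mul_of_nonneg_left ?_ (Nat.cast_nonneg _)
        rw [hmul]
        nlinarith [mul_nonneg hlb (hln a)]
      · exact mul_le_mul_of_nonneg_left (hmK a)
          (Finset.sum_nonneg fun g _ => Nat.cast_nonneg _)
    refine h2.trans ?_
    rw [Finset.sum_add_distrib, ← Finset.mul_sum, ← Finset.sum_mul]
    refine add_le_add le_rfl ?_
    have h3 : ∑ a, ∑ g ∈ S, ((X.filter fun v => r' (M.act v g) = cl' a).card : ℝ) ≤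
        S.card * K * X.card := by
      rw [Finset.sum_comm]
      have h4 : ∀ g ∈ S, ∑ a, ((X.filter fun v => r' (M.act v g) = cl' a).card : ℝ) ≤
          K * X.card := by
        intro g _
        have h5 : ∀ a, ((X.filter fun v => r' (M.act v g) = cl' a).card : ℝ) =
            ∑ v ∈ X, if cl' a = r' (M.act v g) then (1 : ℝ) else 0 := by
          intro a
          rw [Finset.card_filter]
          push_cast
          refine Finset.sum_congr rfl fun v _ => ?_
          simp only [eq_comm]
        simp only [h5]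
        rw [Finset.sum_comm]
        have h6 : ∀ v ∈ X, ∑ a, (if cl' a = r' (M.act v g) then (1 : ℝ) else 0) ≤ K := by
          intro v _
          have h7 := qc_fib cl' K hcard (r' (M.act v g))
          rw [Finset.card_filter] at h7
          push_cast at h7
          exact h7
        refine (Finset.sum_le_sum h6).trans ?_
        rw [Finset.sum_const, nsmul_eq_mul, mul_comm]
      refine (Finset.sum_le_sum h4).trans ?_
      rw [Finset.sum_const, nsmul_eq_mul, mul_assoc]
    have h8 : (0 : ℝ) ≤ 1 + |Real.log (b * K)| := by positivity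
    calc (∑ a, ∑ g ∈ S, ((X.filter fun v => r' (M.act v g) = cl' a).card : ℝ)) *
          (1 + |Real.log (b * K)|) ≤ (S.card * K * X.card) * (1 + |Real.log (b * K)|) :=
          mul_le_mul_of_nonneg_right h3 h8
      _ = S.card * K * (1 + |Real.log (b * K)|) * X.card := by ring
  · intro a c hac
    have h2 : (0 : ℝ) < ∑ x, |(res r c (psi a) x : ℝ)| := by
      obtain ⟨x, hx⟩ := Function.ne_iff.1 hac
      refine Finset.sum_pos' (fun y _ => abs_nonneg _) ⟨x, Finset.mem_univ _, ?_⟩
      rw [abs_pos]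
      exact Int.cast_ne_zero.2 hx
    have h3 : ∑ x, |(res r c (psi a) x : ℝ)| ≤ b * nrm a := by
      refine le_trans (Finset.sum_le_sum fun x _ => ?_) (hnrm a)
      unfold res
      by_cases h : r x.1 = c
      · rw [if_pos h]
      · rw [if_neg h, Int.cast_zero, abs_zero]
        exact abs_nonneg _
    have h4 := Real.log_le_log h2 h3
    change 1 + Real.log (∑ x, |(res r c (psi a) x : ℝ)|) ≤ 1 + Real.log (b * nrm a)
    linarith
  · intro a
    rw [hmul]
    linarith [hln a]
  · intro a P hP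
    have h2 := qc_count M S r r' cl' psi hpsi X hX a P hP
    change (P.card : ℝ) ≤ (S.card : ℝ) +
      ∑ g ∈ S, ((X.filter fun v => r' (M.act v g) = cl' a).card : ℝ)
    exact_mod_cast h2

theorem step_card {ι : Type} [Fintype ι] (M : Mod G ν) (S B : Finset G) (r r' : Fin ν → Fin ν)
    (hB : ∀ v, ∃ b ∈ B, M.act (r v) b = v)
    (cl' : ι → Fin ν) (psi : ι → Fin ν × Fin n → ℤ)
    (hpsi : ∀ a x, psi a x ≠ 0 → ∃ g ∈ S, r' (M.act x.1 g) = cl' a)
    (K : ℝ) (hK0 : 0 ≤ K) (hcard : ∀ v, (Nat.card {a : ι // cl' a = v} : ℝ) ≤ K) (v : Fin ν) :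
    (Nat.card {p : NI r psi // p.1.2 = v} : ℝ) ≤ B.card * S.card * K := by
  classical
  obtain ⟨T, hT⟩ : ∃ T : Finset (Fin ν), T =
      (B ×ˢ S).image fun q => r' (M.act (M.act v q.1) q.2) := ⟨_, rfl⟩
  have hTc : (T.card : ℝ) ≤ B.card * S.card := by
    have h : T.card ≤ B.card * S.card := by
      rw [hT, ← Finset.card_product]
      exact Finset.card_image_le
    exact_mod_cast h
  have hmem : ∀ p : {p : NI r psi // p.1.2 = v}, cl' p.1.1.1 ∈ T := by
    rintro ⟨⟨⟨a, c⟩, hac⟩, hv⟩
    change c = v at hv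
    subst hv
    change cl' a ∈ T
    obtain ⟨x, hx⟩ := Function.ne_iff.1 hac
    have h3 : r x.1 = c ∧ psi a x ≠ 0 := by
      by_cases h : r x.1 = c
      · refine ⟨h, ?_⟩
        intro h4
        apply hx
        change res r c (psi a) x = 0
        unfold res
        rw [if_pos h, h4]
      · exfalso
        apply hx
        change res r c (psi a) x = 0
        unfold res
        rw [if_neg h]
    obtain ⟨g, hg, hg'⟩ := hpsi a x h3.2
    obtain ⟨b, hb, hb'⟩ := hB x.1
    rw [h3.1] at hb'
    rw [hT, Finset.mem_image]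
    refine ⟨(b, g), Finset.mem_product.2 ⟨hb, hg⟩, ?_⟩
    change r' (M.act (M.act c b) g) = cl' a
    rw [hb', hg']
  have h1 : Nat.card {p : NI r psi // p.1.2 = v} ≤
      (Finset.univ.filter fun a : ι => cl' a ∈ T).card := by
    have h0 : Nat.card {p : NI r psi // p.1.2 = v} ≤ Nat.card {a : ι // cl' a ∈ T} := by
      refine Nat.card_le_card_of_injective (fun p => ⟨p.1.1.1, hmem p⟩) ?_
      rintro ⟨⟨⟨a, c⟩, hac⟩, hv⟩ ⟨⟨⟨a', c'⟩, hac'⟩, hv'⟩ h
      have h1 : a = a' := congrArg Subtype.val h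
      change c = v at hv
      change c' = v at hv'
      subst h1
      subst hv
      subst hv'
      rfl
    rw [Nat.card_eq_fintype_card (α := {a : ι // cl' a ∈ T}), Fintype.card_subtype] at h0
    exact h0
  have h2 : (Finset.univ.filter fun a : ι => cl' a ∈ T).card =
      ∑ t ∈ T, (Finset.univ.filter fun a : ι => cl' a = t).card := by
    have h0 := Finset.card_eq_sum_card_fiberwise (s := Finset.univ.filter fun a : ι => cl' a ∈ T)
      (f := cl') (t := T) (fun a ha => (Finset.mem_filter.1 ha).2)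
    rw [h0]
    refine Finset.sum_congr rfl fun t ht => ?_
    congr 1
    ext a
    simp only [Finset.mem_filter, Finset.mem_univ, true_and]
    constructor
    · exact fun h => h.2
    · intro h
      exact ⟨h ▸ ht, h⟩
  have h3 : ((Finset.univ.filter fun a : ι => cl' a ∈ T).card : ℝ) ≤ T.card * K := by
    rw [h2]
    push_cast
    refine (Finset.sum_le_sum fun t _ => qc_fib cl' K hcard t).trans ?_
    rw [Finset.sum_const, nsmul_eq_mul]
  calc (Nat.card {p : NI r psi // p.1.2 = v} : ℝ) ≤
        ((Finset.univ.filter fun a : ι => cl' a ∈ T).card : ℝ) := by exact_mod_cast h1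
    _ ≤ T.card * K := h3
    _ ≤ B.card * S.card * K := mul_le_mul_of_nonneg_right hTc hK0

end Pool.Agent.LT
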