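import Mathlib
import Pool.Agent.LT.Base
import Pool.Agent.LT.ModB
import Pool.Agent.LT.Push
import Pool.Agent.LT.NormB
import Pool.Agent.LT.HB

set_option autoImplicit false

/-!
# Project LT, module QStepH: the homotopy in the step `Q_q ⇒ Q_{q+1}`

PLAN (lt_proof.md, section 2). Let `b` be the constant of `exists_b C`,
`W := B ∪ {b * s * t : b ∈ B, s ∈ C.S, t ∈ T'}` (image of triples). Take `F1 T T1' L1` from
`exists_h C (q+1) B W`. Put `T1 := T1' ∪ W` and let `F` contain
`F1`, `W * C.S` (image of products), `C.S`, `B`, `W`, `B * C.S`, `T'`.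
`K1 := 1 + b * (K' * |T'| * nn(q+2))`, `L := K1 * L1`.
For the data of the statement put `U := 1 - dR C M (q+1) * Q.h` (real square matrix on
`Fin ν × Fin (C.nn (q+2))`; note that `dR C M (q+1)` has rows at position `q+2` and columns at
position `q+1`).
* Row bound: `∑ y, |U x y| ≤ 1 + ∑ z, |dR x z| ∑ y, |Q.h z y| ≤ K1` (a row of `Q.h` has at most
  `|T'| * nn(q+2)` nonzero entries, `Q.h_loc`, `Q.h_le`).
* Locality: `U x y ≠ 0`, `x.1 ∈ A`: either `x = y`, and `M.act (r x.1) b = x.1` with `b ∈ B ⊆ W`; or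
  there is `z` with `dM x z ≠ 0`, so `z.1 = M.act x.1 s`, `s ∈ C.S` (`push_apply_ne`, `C.mem_S`), and
  `Q.h z y ≠ 0`, so `y.1 = M.act z.1 t`, `t ∈ T'`. With `w := r x.1 ∈ A ⊆ M.good F`:
  `y.1 = ((w.b).s).t = w.(b s t)` (`Mod.act_act`).
* For `x` as in the statement and a root `c ∈ A`: `x1 := res r c x`, `u := x1 ᵥ* dM C M (q+1)`.
  Then `InL Q.A Q.phi u`: `u y ≠ 0` gives `x1 z ≠ 0` and `dM z y ≠ 0`, so `r z.1 = c`, `z.1 ∈ A` and
  `y.1 = M.act z.1 s ∈ Q.A` by `hS`; and
  `∑ y, Q.phi a y * u y = ∑ z, x1 z * psi a z = ∑ z, res r c (psi a) z * x z = 0`.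
  By `Q.h_int` (and `u ᵥ* dM C M q = 0`, `dM_sq`) there is an integral `y'` with
  `toV u ᵥ* Q.h = toV y'`, `y' ᵥ* dM C M (q+1) = u`. Put `z := x1 - y'`: `toV x1 ᵥ* U = toV z`,
  `z ᵥ* dM C M (q+1) = 0`. `z` is supported in `c.W` (by the locality of `U` above).
  `C.cyc (q+1) (pull M W c z)` is `bdL (C.D (q+1)) (pull M W c z) = 0`: by `push_bdL` and
  `push_pull`, `push M c (bdL ..) = z ᵥ* dM C M (q+1) = 0`, and `push_eq_zero` (support in
  `W * C.S ⊆ F`, `bdL_support`).
* `exists_h` gives `y` with `toV x ᵥ* h = toV y` and `toV (y ᵥ* dM C M (q+2)) = toV x ᵥ* U`; if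
  `x ᵥ* dM C M (q+1) = 0` then `toV x ᵥ* U = toV x - (toV x ᵥ* dR ..) ᵥ* Q.h = toV x`.
-/

open scoped BigOperators

namespace Pool.Agent.LT

/-- pull back of the equation `phi` along the differential -/
noncomputable def psiOf {G : Type} [Group G] (C : Cpl G) {ν : ℕ} (M : Mod G ν) (q : ℕ) {ι : Type}
    (phi : ι → Fin ν × Fin (C.nn (q + 1)) → ℤ) (a : ι) : Fin ν × Fin (C.nn (q + 2)) → ℤ :=
  fun x => ∑ y, dM C M (q + 1) x y * phi a y

private lemma toV_vecMul {m n : Type} [Fintype m] (x : m → ℤ) (A : Matrix m n ℤ) :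
    Matrix.vecMul (toV x) (toR A) = toV (Matrix.vecMul x A) := by
  funext j
  simp [toV, toR, Matrix.vecMul, dotProduct]

private lemma toV_injective {m : Type} : Function.Injective (toV : (m → ℤ) → m → ℝ) := by
  intro x y h
  funext i
  have := congrFun h i
  simpa [toV] using this

private lemma row_bound {G : Type} [Group G] {ν n n' : ℕ} (M : Mod G ν) (T : Finset G) (K : ℝ)
    (hK : 0 ≤ K) (h : Matrix (Fin ν × Fin n) (Fin ν × Fin n') ℝ) (h_le : ∀ x y, |h x y| ≤ K)
    (h_loc : ∀ x y, h x y ≠ 0 → ∃ t ∈ T, y.1 = M.act x.1 t) (x : Fin ν × Fin n) :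
    ∑ y, |h x y| ≤ K * (T.card * n') := by
  classical
  set I : Finset (Fin ν × Fin n') := Finset.image
    (fun p : G × Fin n' => (M.act x.1 p.1, p.2)) (T ×ˢ (Finset.univ : Finset (Fin n'))) with hI
  have h1 : ∑ y, |h x y| = ∑ y ∈ I, |h x y| := by
    symm
    apply Finset.sum_subset (Finset.subset_univ _)
    intro y _ hy
    by_contra hne
    apply hy
    have hne' : h x y ≠ 0 := by
      intro h0
      apply hne
      rw [h0, abs_zero]
    obtain ⟨t, ht, hyt⟩ := h_loc x y hne'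
    rw [hI, Finset.mem_image]
    refine ⟨(t, y.2), ?_, ?_⟩
    · simp [ht]
    · ext
      · simp [hyt]
      · simp
  rw [h1]
  calc ∑ y ∈ I, |h x y|
      ≤ ∑ y ∈ I, K := Finset.sum_le_sum fun y _ => h_le x y
    _ = I.card * K := by
        rw [Finset.sum_const, nsmul_eq_mul]
    _ ≤ (T.card * n') * K := by
        apply mul_le_mul_of_nonneg_right _ hK
        have : I.card ≤ T.card * n' := by
          refine le_trans Finset.card_image_le ?_
          rw [Finset.card_product, Finset.card_univ, Fintype.card_fin]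
        exact_mod_cast this
    _ = K * (T.card * n') := by ring

private lemma dM_ne {G : Type} [Group G] (C : Cpl G) {ν : ℕ} (M : Mod G ν) (q : ℕ)
    (x : Fin ν × Fin (C.nn (q + 1))) (y : Fin ν × Fin (C.nn q)) (h : dM C M q x y ≠ 0) :
    ∃ s ∈ C.S, M.act x.1 s = y.1 := by
  by_cases hx : x.1 ∈ Gd C M q
  · have h2 : push M x.1 (C.D q x.2) y ≠ 0 := by
      intro h0
      apply h
      simp only [dM, Matrix.of_apply, if_pos hx]
      exact h0
    obtain ⟨z, hz, hzy⟩ := push_apply_ne M x.1 _ y h2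
    exact ⟨z.1, C.mem_S q x.2 z hz, by rw [← hzy]⟩
  · exfalso
    apply h
    simp only [dM, Matrix.of_apply, if_neg hx]
    rfl

theorem step_h {G : Type} [Group G] (C : Cpl G) (q : ℕ) (B B' T' : Finset G) (K' : ℝ)
    (hK' : 0 ≤ K') :
    ∃ (F T T1 : Finset G) (L : ℝ), 0 ≤ L ∧ C.S ⊆ F ∧ B ⊆ F ∧
      ∀ (ν : ℕ) (M : Mod G ν) (θ' : ℝ) (F' : Finset G) (Q : QD C M q B' F' T' K' θ')
        (r : Fin ν → Fin ν) (A : Finset (Fin ν)),
        (∀ v, r (r v) = r v) → (∀ v, ∃ b ∈ B, M.act (r v) b = v) → (∀ v, r v ∈ A ↔ v ∈ A) →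
        (∀ v ∈ A, v ∈ M.good F) → (∀ v ∈ A, ∀ g ∈ C.S, M.act v g ∈ Q.A) →
        (∀ v ∈ A, ∀ t ∈ T1, M.act v t ∈ Gd C M (q + 1)) →
        (∀ v ∈ A, ∀ t ∈ T1, M.act v t ∈ Gd C M (q + 2)) →
        ∃ h : Matrix (Fin ν × Fin (C.nn (q + 2))) (Fin ν × Fin (C.nn (q + 3))) ℝ,
          (∀ x y, |h x y| ≤ L) ∧ (∀ x y, h x y ≠ 0 → ∃ t ∈ T, y.1 = M.act x.1 t) ∧
          ∀ x : Fin ν × Fin (C.nn (q + 2)) → ℤ, (∀ y, y.1 ∉ A → x y = 0) →
            (∀ a, ∀ c ∈ A, ∑ y, res r c (psiOf C M q Q.phi a) y * x y = 0) →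
            ∃ y : Fin ν × Fin (C.nn (q + 3)) → ℤ, Matrix.vecMul (toV x) h = toV y ∧
              (Matrix.vecMul x (dM C M (q + 1)) = 0 →
                Matrix.vecMul y (dM C M (q + 2)) = x) := by
  classical
  obtain ⟨b, hb1, hb⟩ := exists_b C
  set W : Finset G := B ∪ (B ×ˢ (C.S ×ˢ T')).image (fun p => p.1 * p.2.1 * p.2.2) with hWdef
  obtain ⟨F1, T, T1', L1, hL1, hS1, hB1, hW1, H⟩ := exists_h C (q + 1) B W
  set F : Finset G := F1 ∪ ((W ×ˢ C.S).image (fun p => p.1 * p.2) ∪
    ((B ×ˢ C.S).image (fun p => p.1 * p.2) ∪ T')) with hFdef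
  have hF1F : F1 ⊆ F := by
    intro g hg
    simp only [hFdef, Finset.mem_union]
    exact Or.inl hg
  have hWSF : ∀ g ∈ W, ∀ s ∈ C.S, g * s ∈ F := by
    intro g hg s hs
    simp only [hFdef, Finset.mem_union]
    refine Or.inr (Or.inl ?_)
    rw [Finset.mem_image]
    exact ⟨(g, s), Finset.mem_product.2 ⟨hg, hs⟩, rfl⟩
  have hBSF : ∀ g ∈ B, ∀ s ∈ C.S, g * s ∈ F := by
    intro g hg s hs
    simp only [hFdef, Finset.mem_union]
    refine Or.inr (Or.inr (Or.inl ?_))
    rw [Finset.mem_image]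
    exact ⟨(g, s), Finset.mem_product.2 ⟨hg, hs⟩, rfl⟩
  have hTF : ∀ t ∈ T', t ∈ F := by
    intro t ht
    simp only [hFdef, Finset.mem_union]
    exact Or.inr (Or.inr (Or.inr ht))
  have hBW : ∀ g ∈ B, g ∈ W := by
    intro g hg
    simp only [hWdef, Finset.mem_union]
    exact Or.inl hg
  have hBSTW : ∀ g ∈ B, ∀ s ∈ C.S, ∀ t ∈ T', g * s * t ∈ W := by
    intro g hg s hs t ht
    simp only [hWdef, Finset.mem_union]
    refine Or.inr ?_
    rw [Finset.mem_image]
    exact ⟨(g, s, t), by simp [hg, hs, ht], rfl⟩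
  set K1 : ℝ := 1 + b * (K' * (T'.card * (C.nn (q + 2) : ℝ))) with hK1def
  have hb0 : 0 ≤ b := le_trans zero_le_one hb1
  have hK10 : 0 ≤ K1 := by positivity
  refine ⟨F, T, T1' ∪ W, K1 * L1, mul_nonneg hK10 hL1, fun g hg => hF1F (hS1 hg),
    fun g hg => hF1F (hB1 hg), ?_⟩
  intro ν M θ' F' Q r A hrr hB hrA hgood hQA hGd1 hGd2
  obtain ⟨-, -, hrow, -, -⟩ := hb ν M (q + 1)
  set U : Matrix (Fin ν × Fin (C.nn (q + 2))) (Fin ν × Fin (C.nn (q + 2))) ℝ :=
    1 - dR C M (q + 1) * Q.h with hU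
  -- the row bound
  have hUrow : ∀ x, ∑ y, |U x y| ≤ K1 := by
    intro x
    have h1 : ∀ y, |U x y| ≤ |(1 : Matrix (Fin ν × Fin (C.nn (q + 2)))
        (Fin ν × Fin (C.nn (q + 2))) ℝ) x y| + ∑ z, |dR C M (q + 1) x z| * |Q.h z y| := by
      intro y
      rw [hU, Matrix.sub_apply]
      refine le_trans (abs_sub _ _) ?_
      gcongr
      rw [Matrix.mul_apply]
      refine le_trans (Finset.abs_sum_le_sum_abs _ _) ?_
      exact le_of_eq (Finset.sum_congr rfl fun z _ => abs_mul _ _)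
    calc ∑ y, |U x y| ≤ ∑ y, (|(1 : Matrix (Fin ν × Fin (C.nn (q + 2)))
        (Fin ν × Fin (C.nn (q + 2))) ℝ) x y| + ∑ z, |dR C M (q + 1) x z| * |Q.h z y|) :=
          Finset.sum_le_sum fun y _ => h1 y
      _ = 1 + ∑ z, |dR C M (q + 1) x z| * ∑ y, |Q.h z y| := by
          rw [Finset.sum_add_distrib]
          congr 1
          · rw [Finset.sum_eq_single x]
            · simp
            · intro y _ hy
              rw [Matrix.one_apply_ne (Ne.symm hy), abs_zero]
            · intro h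
              exact absurd (Finset.mem_univ _) h
          · rw [Finset.sum_comm]
            exact Finset.sum_congr rfl fun z _ => by rw [Finset.mul_sum]
      _ ≤ 1 + ∑ z, |dR C M (q + 1) x z| * (K' * (T'.card * (C.nn (q + 2) : ℝ))) := by
          gcongr with z _
          exact row_bound M T' K' hK' Q.h Q.h_le Q.h_loc z
      _ = 1 + (∑ z, |dR C M (q + 1) x z|) * (K' * (T'.card * (C.nn (q + 2) : ℝ))) := by
          rw [Finset.sum_mul]
      _ ≤ K1 := by
          rw [hK1def]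
          gcongr
          exact hrow x
  -- locality
  have hUloc : ∀ x y, x.1 ∈ A → U x y ≠ 0 → ∃ g ∈ W, M.act (r x.1) g = y.1 := by
    intro x y hxA hne
    obtain ⟨g, hg, hgx⟩ := hB x.1
    by_cases hxy : x = y
    · exact ⟨g, hBW g hg, by rw [hgx, hxy]⟩
    · have h1 : ∑ z, dR C M (q + 1) x z * Q.h z y ≠ 0 := by
        intro h0
        apply hne
        rw [hU, Matrix.sub_apply, Matrix.one_apply_ne hxy, Matrix.mul_apply, h0, sub_zero]
      obtain ⟨z, -, hz⟩ := Finset.exists_ne_zero_of_sum_ne_zero h1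
      have hz1 : dM C M (q + 1) x z ≠ 0 := by
        intro h0
        apply hz
        have : dR C M (q + 1) x z = 0 := by
          simp only [dR, toR, Matrix.map_apply, h0, Int.cast_zero]
        rw [this, zero_mul]
      have hz2 : Q.h z y ≠ 0 := by
        intro h0
        apply hz
        rw [h0, mul_zero]
      obtain ⟨s, hs, hsz⟩ := dM_ne C M (q + 1) x z hz1
      obtain ⟨t, ht, hty⟩ := Q.h_loc z y hz2
      have hw : r x.1 ∈ M.good F := hgood _ ((hrA x.1).2 hxA)
      refine ⟨g * s * t, hBSTW g hg s hs t ht, ?_⟩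
      rw [← M.act_act hw (hBSF g hg s hs) (hTF t ht),
        ← M.act_act hw (hF1F (hB1 hg)) (hF1F (hS1 hs)), hgx, hsz, hty]
  have hgood1 : ∀ v ∈ A, v ∈ M.good F1 := fun v hv => M.good_mono hF1F (hgood v hv)
  have hGd2' : ∀ v ∈ A, ∀ t ∈ T1', M.act v t ∈ Gd C M (q + 1 + 1) := by
    intro v hv t ht
    exact hGd2 v hv t (Finset.mem_union_left _ ht)
  obtain ⟨h, hle, hloc, hint⟩ := H ν M r A K1 U hrr hB hrA hgood1 hGd2' hK10 hUrow hUloc
  refine ⟨h, hle, hloc, ?_⟩
  intro x hxA hxphi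
  -- U acts on integral vectors
  have hUact : ∀ x : Fin ν × Fin (C.nn (q + 2)) → ℤ, Matrix.vecMul (toV x) U =
      toV x - Matrix.vecMul (toV (Matrix.vecMul x (dM C M (q + 1)))) Q.h := by
    intro x
    rw [hU, Matrix.vecMul_sub, Matrix.vecMul_one, ← Matrix.vecMul_vecMul]
    congr 2
    exact toV_vecMul _ _
  obtain ⟨y, hy1, hy2⟩ := hint x hxA (by
    intro c hcA hrc
    set x1 := res r c x with hx1
    set u := Matrix.vecMul x1 (dM C M (q + 1)) with hu
    have hx1ne : ∀ z, x1 z ≠ 0 → r z.1 = c ∧ z.1 ∈ A := by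
      intro z hz
      simp only [hx1, res] at hz
      by_cases h1 : r z.1 = c
      · rw [if_pos h1] at hz
        refine ⟨h1, ?_⟩
        by_contra h2
        exact hz (hxA z h2)
      · rw [if_neg h1] at hz
        exact absurd rfl hz
    have huL : InL Q.A Q.phi u := by
      constructor
      · intro y hyA
        rw [hu]
        simp only [Matrix.vecMul, dotProduct]
        apply Finset.sum_eq_zero
        intro z _
        by_contra hne
        have hz1 : x1 z ≠ 0 := left_ne_zero_of_mul hne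
        have hz2 : dM C M (q + 1) z y ≠ 0 := right_ne_zero_of_mul hne
        obtain ⟨s, hs, hsy⟩ := dM_ne C M (q + 1) z y hz2
        apply hyA
        rw [← hsy]
        exact hQA _ (hx1ne z hz1).2 s hs
      · intro a
        have := hxphi a c hcA
        rw [← this, hu]
        simp only [Matrix.vecMul, dotProduct, psiOf, res, hx1]
        calc ∑ y, Q.phi a y * ∑ z, (if r z.1 = c then x z else 0) * dM C M (q + 1) z y
            = ∑ y, ∑ z, Q.phi a y * ((if r z.1 = c then x z else 0) * dM C M (q + 1) z y) :=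
              Finset.sum_congr rfl fun y _ => Finset.mul_sum _ _ _
          _ = ∑ z, ∑ y, Q.phi a y * ((if r z.1 = c then x z else 0) * dM C M (q + 1) z y) :=
              Finset.sum_comm
          _ = ∑ z, (if r z.1 = c then ∑ y, dM C M (q + 1) z y * Q.phi a y else 0) * x z := by
              refine Finset.sum_congr rfl fun z _ => ?_
              by_cases h1 : r z.1 = c
              · simp only [if_pos h1]
                rw [Finset.sum_mul]
                refine Finset.sum_congr rfl fun y _ => ?_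
                ring
              · simp only [if_neg h1]
                simp
    obtain ⟨y', hy', hy''⟩ := Q.h_int u huL
    have hdd : Matrix.vecMul u (dM C M q) = 0 := by
      rw [hu, Matrix.vecMul_vecMul, dM_sq, Matrix.vecMul_zero]
    have hy3 := hy'' hdd
    have hz0 : Matrix.vecMul (toV x1) U = toV (x1 - y') := by
      rw [hUact, ← hu, hy']
      funext i
      simp [toV]
    have hzd : Matrix.vecMul (x1 - y') (dM C M (q + 1)) = 0 := by
      rw [Matrix.sub_vecMul, hy3, ← hu, sub_self]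
    have hcF : c ∈ M.good F := hgood c hcA
    have hzW : ∀ y, (x1 - y') y ≠ 0 → ∃ g ∈ W, M.act c g = y.1 := by
      intro y hy
      have h1 : Matrix.vecMul (toV x1) U y ≠ 0 := by
        rw [hz0]
        intro h0
        apply hy
        have h4 : (((x1 - y') y : ℤ) : ℝ) = 0 := h0
        exact_mod_cast h4
      simp only [Matrix.vecMul, dotProduct] at h1
      obtain ⟨z, -, hz⟩ := Finset.exists_ne_zero_of_sum_ne_zero h1
      have hz1 : x1 z ≠ 0 := by
        intro h0
        apply hz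
        simp [toV, h0]
      have hz2 : U z y ≠ 0 := right_ne_zero_of_mul hz
      obtain ⟨h2, h3⟩ := hx1ne z hz1
      obtain ⟨g, hg, hgy⟩ := hUloc z y h3 hz2
      exact ⟨g, hg, by rw [← h2]; exact hgy⟩
    refine ⟨x1 - y', hz0, ?_⟩
    change bdL (C.D (q + 1)) (pull M W c (x1 - y')) = 0
    have hWF : W ⊆ F := fun g hg => hF1F (hW1 hg)
    have hpp := push_pull M F W hWF c hcF (x1 - y') hzW
    apply push_eq_zero M F c hcF
    · intro y hy
      obtain ⟨w, hw, z, hz, e⟩ := bdL_support _ _ y hy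
      rw [e]
      exact hWSF _ (pull_support M W c _ w hw) _ (C.mem_S (q + 1) w.2 z hz)
    · rw [← push_bdL C M (q + 1) F (fun g hg => hF1F (hS1 hg)) c hcF]
      · rw [hpp, hzd]
      · intro y hy
        exact hWF (pull_support M W c _ y hy)
      · intro y hy
        exact hGd1 c hcA y.1 (Finset.mem_union_right _ (pull_support M W c _ y hy)))
  refine ⟨y, hy1, ?_⟩
  intro hx0
  apply toV_injective
  rw [hy2, hUact, hx0]
  have : toV (0 : Fin ν × Fin (C.nn (q + 1)) → ℤ) = 0 := by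
    funext i
    simp [toV]
  rw [this, Matrix.zero_vecMul, sub_zero]

end Pool.Agent.LT
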