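import Mathlib
import Pool.Agent.LT.Base
import Pool.Agent.LT.ModB
import Pool.Agent.LT.Push
import Pool.Agent.LT.NormB
import Pool.Agent.LT.Part
import Pool.Agent.LT.PartB
import Pool.Agent.LT.QCount
import Pool.Agent.LT.QStepH

set_option autoImplicit false

/-!
# Project LT, module QStep: `Q_q ⇒ Q_{q+1}` (assembly)

PLAN. Let `b` be the constant of `exists_b C`, `s := |C.S|` and `C0 := s (1 + log b) + 1`.
Given `θ > 0` apply `Q_q` with `θ' := θ/(2 C0)`: `B' F' T' K'` (we may also assume `K' ≥ 1`: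
use `K'' := max K' 1` in the constants). Let `E :=` image of `(g,b1,b2) ↦ g * b1⁻¹ * b2 * g⁻¹`,
`g ∈ C.S`, `b1, b2 ∈ B'` (contained in `N` because `N` is normal) and apply `exists_part N hN E _ e`
with `e := θ/(2 (s K'' (1 + |log (b K'')|) + 1))`: `B F0 c`. Then `step_h C q B B' T' K'`: `F1 T T1 L`.
`F := F0 ∪ F1 ∪ F' ∪ C.S ∪ T1 ∪ {everything needed in same_class}`.
For a model `M`: `Q` from `Q_q`, `r` from `exists_part`;
`ok := {u ∈ M.good F : (∀ g ∈ C.S, M.act u g ∈ Q.A) ∧ (∀ t ∈ T1, M.act u t ∈ Gd C M (q+1)) ∧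
(∀ t ∈ T1, M.act u t ∈ Gd C M (q+2))}`, `A := {v : ∀ u, r u = r v → u ∈ ok}`;
`A_card`: `card_A`, `Mod.card_exists_not_mem`, `Q.A_card`, `card_Gd`, `Mod.bad_mono`.
`ι := NI r psi`, `psi := psiOf C M q Q.phi`, `phi p := res r p.1.2 (psi p.1.1)`, `cl p := p.1.2`.
`hpsi`: `psi a x ≠ 0` gives `y` with `dM x y ≠ 0` (so `y.1 = M.act x.1 g`, `g ∈ C.S`:
`push_apply_ne`, `C.mem_S`) and `Q.phi a y ≠ 0`, so `Q.r y.1 = Q.cl a`.
`nrm a := ∑ x, |Q.phi a x|` (`≥ 1` as `Q.phi a` is a nonzero integer vector);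
`hnrm`: `∑_x |∑_y dM x y phi y| ≤ ∑_y |phi y| ∑_x |dM x y| ≤ b nrm a`.
`X := (M.good F)ᶜ ∪ {v : ∃ k ∈ E, r (M.act v k) ≠ r v}`, `hX` by `same_class`.
`step_cost` and `Q.cost`: the cost is at most
`s (1 + log b)(θ' ν + K' bad F') + s K'' (1 + |log (b K'')|) (bad F + e ν + c bad F0) ≤ θ ν + K bad F`.
`phi_le`: `≤ b K'`; `cl_card`: `step_card`; `h` from `step_h` (an index `(a,c)` not in `NI` has
`res r c (psi a) = 0`, so the sum is zero trivially).
-/

open scoped BigOperators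

namespace Pool.Agent.LT

private lemma dM_ne {G : Type} [Group G] (C : Cpl G) {ν : ℕ} (M : Mod G ν) (q : ℕ)
    (x : Fin ν × Fin (C.nn (q + 1))) (y : Fin ν × Fin (C.nn q)) (h : dM C M q x y ≠ 0) :
    ∃ g ∈ C.S, M.act x.1 g = y.1 := by
  unfold dM at h
  rw [Matrix.of_apply] at h
  split_ifs at h with hx
  · obtain ⟨z, hz, hzy⟩ := push_apply_ne M x.1 _ y h
    exact ⟨z.1, C.mem_S q x.2 z hz, congrArg Prod.fst hzy⟩
  · exact absurd rfl h

private lemma psi_ne {G : Type} [Group G] (C : Cpl G) {ν : ℕ} (M : Mod G ν) (q : ℕ)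
    {B F T : Finset G} {K θ : ℝ} (Q : QD C M q B F T K θ) (a : Q.ι)
    (x : Fin ν × Fin (C.nn (q + 2))) (h : psiOf C M q Q.phi a x ≠ 0) :
    ∃ g ∈ C.S, Q.r (M.act x.1 g) = Q.cl a := by
  unfold psiOf at h
  obtain ⟨y, _, hy⟩ := Finset.exists_ne_zero_of_sum_ne_zero h
  obtain ⟨g, hg, hgy⟩ := dM_ne C M (q + 1) x y (left_ne_zero_of_mul hy)
  refine ⟨g, hg, ?_⟩
  rw [hgy]
  exact Q.phi_supp a y (right_ne_zero_of_mul hy)

private lemma one_le_nrm {n : Type} [Fintype n] (x : n → ℤ) (h : x ≠ 0) :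
    (1 : ℝ) ≤ ∑ i, |(x i : ℝ)| := by
  obtain ⟨i, hi⟩ := Function.ne_iff.1 h
  have h1 : (1 : ℝ) ≤ |(x i : ℝ)| := by
    have : 1 ≤ |x i| := Int.one_le_abs hi
    exact_mod_cast this
  exact h1.trans (Finset.single_le_sum (f := fun i => |(x i : ℝ)|)
    (fun j _ => abs_nonneg _) (Finset.mem_univ i))

private lemma psi_nrm {G : Type} [Group G] (C : Cpl G) {ν : ℕ} (M : Mod G ν) (q : ℕ)
    {ι : Type} (phi : ι → Fin ν × Fin (C.nn (q + 1)) → ℤ) (a : ι) (b : ℝ)
    (hb : ∀ y, ∑ x, |dR C M (q + 1) x y| ≤ b) :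
    ∑ x, |(psiOf C M q phi a x : ℝ)| ≤ b * ∑ y, |(phi a y : ℝ)| := by
  have h1 : ∀ x, |(psiOf C M q phi a x : ℝ)| ≤ ∑ y, |dR C M (q + 1) x y| * |(phi a y : ℝ)| := by
    intro x
    unfold psiOf
    push_cast
    refine (Finset.abs_sum_le_sum_abs _ _).trans (le_of_eq ?_)
    refine Finset.sum_congr rfl fun y _ => ?_
    rw [abs_mul]
    rfl
  calc ∑ x, |(psiOf C M q phi a x : ℝ)|
      ≤ ∑ x, ∑ y, |dR C M (q + 1) x y| * |(phi a y : ℝ)| := Finset.sum_le_sum fun x _ => h1 x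
    _ = ∑ y, (∑ x, |dR C M (q + 1) x y|) * |(phi a y : ℝ)| := by
        rw [Finset.sum_comm]
        exact Finset.sum_congr rfl fun y _ => (Finset.sum_mul _ _ _).symm
    _ ≤ ∑ y, b * |(phi a y : ℝ)| :=
        Finset.sum_le_sum fun y _ => mul_le_mul_of_nonneg_right (hb y) (abs_nonneg _)
    _ = b * ∑ y, |(phi a y : ℝ)| := (Finset.mul_sum _ _ _).symm

private lemma res_nrm {ν n : ℕ} (r : Fin ν → Fin ν) (c : Fin ν) (x : Fin ν × Fin n → ℤ) :
    ∑ y, |(res r c x y : ℝ)| ≤ ∑ y, |(x y : ℝ)| := by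
  refine Finset.sum_le_sum fun y _ => ?_
  unfold res
  split_ifs
  · exact le_rfl
  · simp

theorem qs_succ {G : Type} [Group G] (C : Cpl G) (N : Subgroup G) [N.Normal] (hN : FN N) (q : ℕ)
    (h : QS C N q) : QS C N (q + 1) := by
  classical
  intro θ hθ
  obtain ⟨b, hb1, hb⟩ := exists_b C
  have hlogb : 0 ≤ Real.log b := Real.log_nonneg hb1
  set s : ℝ := (C.S.card : ℝ) with hs
  have hs0 : 0 ≤ s := Nat.cast_nonneg _
  set C0 : ℝ := s * (1 + Real.log b) + 1 with hC0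
  have hC0pos : 0 < C0 := by positivity
  obtain ⟨B', F', T', K', hB'N, hK'0, hQ⟩ := h (θ / (2 * C0)) (by positivity)
  set K2 : ℝ := max K' 1 with hK2
  have hK21 : 1 ≤ K2 := le_max_right _ _
  have hK2K : K' ≤ K2 := le_max_left _ _
  set E : Finset G := (C.S ×ˢ B' ×ˢ B').image fun p => p.1 * p.2.1⁻¹ * p.2.2 * p.1⁻¹ with hE
  have hEmem : ∀ g ∈ C.S, ∀ b1 ∈ B', ∀ b2 ∈ B', g * b1⁻¹ * b2 * g⁻¹ ∈ E := by
    intro g hg b1 hb1 b2 hb2
    exact Finset.mem_image.2 ⟨(g, b1, b2), by simp [hg, hb1, hb2], rfl⟩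
  have hEN : (E : Set G) ⊆ (N : Set G) := by
    intro x hx
    rw [Finset.mem_coe, hE, Finset.mem_image] at hx
    obtain ⟨⟨g, b1, b2⟩, hp, rfl⟩ := hx
    simp only [Finset.mem_product] at hp
    have h1 : b1⁻¹ * b2 ∈ N := N.mul_mem (N.inv_mem (hB'N hp.2.1)) (hB'N hp.2.2)
    have h2 := Subgroup.Normal.conj_mem inferInstance (b1⁻¹ * b2) h1 g
    simpa [mul_assoc] using h2
  set R : ℝ := s * K2 * (1 + |Real.log (b * K2)|) with hR
  have hR0 : 0 ≤ R := by positivity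
  obtain ⟨B, F0, c, hBN, h1B, hc0, hpart⟩ := exists_part N hN E hEN (θ / (2 * (R + 1)))
    (by positivity)
  obtain ⟨F1, T, T1, L, hL0, hSF1, hBF1, hstep⟩ := step_h C q B B' T' K' hK'0
  obtain ⟨G1, hG1⟩ := card_Gd C (q + 1)
  obtain ⟨G2, hG2⟩ := card_Gd C (q + 2)
  set F : Finset G := F0 ∪ F1 ∪ F' ∪ C.S ∪ B' ∪ E ∪
    (C.S ×ˢ B').image (fun p => p.1 * p.2⁻¹) with hF
  have hF0 : F0 ⊆ F := by intro x hx; simp only [hF, Finset.mem_union]; tauto
  have hF1 : F1 ⊆ F := by intro x hx; simp only [hF, Finset.mem_union]; tauto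
  have hF' : F' ⊆ F := by intro x hx; simp only [hF, Finset.mem_union]; tauto
  have hFS : C.S ⊆ F := by intro x hx; simp only [hF, Finset.mem_union]; tauto
  have hFB' : B' ⊆ F := by intro x hx; simp only [hF, Finset.mem_union]; tauto
  have hFE : E ⊆ F := by intro x hx; simp only [hF, Finset.mem_union]; tauto
  have hFim : ∀ g ∈ C.S, ∀ b1 ∈ B', g * b1⁻¹ ∈ F := by
    intro g hg b1 hb1
    have : g * b1⁻¹ ∈ (C.S ×ˢ B').image (fun p => p.1 * p.2⁻¹) :=
      Finset.mem_image.2 ⟨(g, b1), by simp [hg, hb1], rfl⟩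
    simp only [hF, Finset.mem_union]; tauto
  set KA : ℝ := B.card * (1 + s * K' + T1.card * G1 + T1.card * G2) with hKA
  have hKA0 : 0 ≤ KA := by positivity
  set KC : ℝ := s * (1 + Real.log b) * K' + R * (1 + c) with hKC
  have hKC0 : 0 ≤ KC := by positivity
  set K : ℝ := KA + b * K' + B.card * s * K' + KC + L with hK
  have hbK' : 0 ≤ b * K' := by positivity
  have hBs : 0 ≤ B.card * s * K' := by positivity
  have hKA_le : KA ≤ K := by rw [hK]; linarith
  have hbK_le : b * K' ≤ K := by rw [hK]; linarith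
  have hBs_le : B.card * s * K' ≤ K := by rw [hK]; linarith
  have hKC_le : KC ≤ K := by rw [hK]; linarith
  have hL_le : L ≤ K := by rw [hK]; linarith
  refine ⟨B, F, T, K, hBN, by linarith, fun ν M => ?_⟩
  obtain ⟨Q⟩ := hQ ν M
  letI := Q.inst
  obtain ⟨r, hrr, hrB, hrcard⟩ := hpart ν M
  set psi := psiOf C M q Q.phi with hpsidef
  set ok : Finset (Fin ν) := (M.good F).filter fun u =>
    (∀ g ∈ C.S, M.act u g ∈ Q.A) ∧ (∀ t ∈ T1, M.act u t ∈ Gd C M (q + 1)) ∧
      (∀ t ∈ T1, M.act u t ∈ Gd C M (q + 2)) with hok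
  set A : Finset (Fin ν) := Finset.univ.filter fun v => ∀ u, r u = r v → u ∈ ok with hA
  have hAok : ∀ v ∈ A, v ∈ ok := fun v hv => (Finset.mem_filter.1 hv).2 v rfl
  have hAr : ∀ v, r v ∈ A ↔ v ∈ A := by
    intro v
    simp only [hA, Finset.mem_filter, Finset.mem_univ, true_and, hrr]
  have hbadF : ∀ F'' : Finset G, F'' ⊆ F → (M.bad F'' : ℝ) ≤ M.bad F := fun F'' h =>
    Nat.cast_le.2 (M.bad_mono h)
  have hAcard : ((Aᶜ).card : ℝ) ≤ KA * M.bad F := by
    have h1 : (Aᶜ).card ≤ B.card * (okᶜ).card := by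
      have := card_A M r B hrB ok
      refine le_trans (Finset.card_le_card ?_) this
      intro v hv
      simp only [hA, Finset.mem_compl, Finset.mem_filter, Finset.mem_univ, true_and] at hv ⊢
      exact hv
    have h2 : okᶜ ⊆ (M.good F)ᶜ ∪ (Finset.univ.filter fun v => ∃ g ∈ C.S, M.act v g ∉ Q.A) ∪
        (Finset.univ.filter fun v => ∃ g ∈ T1, M.act v g ∉ Gd C M (q + 1)) ∪
        (Finset.univ.filter fun v => ∃ g ∈ T1, M.act v g ∉ Gd C M (q + 2)) := by
      intro v hv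
      by_contra hcon
      simp only [Finset.mem_union, Finset.mem_compl, Finset.mem_filter, Finset.mem_univ,
        true_and, not_or, not_not, not_exists, not_and] at hcon
      rw [Finset.mem_compl] at hv
      apply hv
      rw [hok, Finset.mem_filter]
      exact ⟨hcon.1.1.1, hcon.1.1.2, hcon.1.2, hcon.2⟩
    have h3 : (okᶜ).card ≤ M.bad F + C.S.card * (Q.Aᶜ).card +
        T1.card * ((Gd C M (q + 1))ᶜ).card + T1.card * ((Gd C M (q + 2))ᶜ).card := by
      refine (Finset.card_le_card h2).trans ?_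
      refine (Finset.card_union_le _ _).trans (Nat.add_le_add ?_ ?_)
      · refine (Finset.card_union_le _ _).trans (Nat.add_le_add ?_ ?_)
        · refine (Finset.card_union_le _ _).trans (Nat.add_le_add le_rfl ?_)
          convert M.card_exists_not_mem Q.A C.S
        · convert M.card_exists_not_mem (Gd C M (q + 1)) T1
      · convert M.card_exists_not_mem (Gd C M (q + 2)) T1
    have h4 : ((okᶜ).card : ℝ) ≤ (1 + s * K' + T1.card * G1 + T1.card * G2) * M.bad F := by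
      have h3' : ((okᶜ).card : ℝ) ≤ M.bad F + s * (Q.Aᶜ).card +
        T1.card * ((Gd C M (q + 1))ᶜ).card + T1.card * ((Gd C M (q + 2))ᶜ).card := by
        rw [hs]
        exact_mod_cast h3
      have e1 : s * (Q.Aᶜ).card ≤ s * (K' * M.bad F) :=
        mul_le_mul_of_nonneg_left
          (Q.A_card.trans (mul_le_mul_of_nonneg_left (hbadF F' hF') hK'0)) hs0
      have e2 : (T1.card : ℝ) * ((Gd C M (q + 1))ᶜ).card ≤ T1.card * (G1 * M.bad F) := by
        refine mul_le_mul_of_nonneg_left ?_ (Nat.cast_nonneg _)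
        have := hG1 ν M
        have h5 : (((Gd C M (q + 1))ᶜ).card : ℝ) ≤ G1 * M.bad C.S := by exact_mod_cast this
        exact h5.trans (mul_le_mul_of_nonneg_left (hbadF _ hFS) (Nat.cast_nonneg _))
      have e3 : (T1.card : ℝ) * ((Gd C M (q + 2))ᶜ).card ≤ T1.card * (G2 * M.bad F) := by
        refine mul_le_mul_of_nonneg_left ?_ (Nat.cast_nonneg _)
        have := hG2 ν M
        have h5 : (((Gd C M (q + 2))ᶜ).card : ℝ) ≤ G2 * M.bad C.S := by exact_mod_cast this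
        exact h5.trans (mul_le_mul_of_nonneg_left (hbadF _ hFS) (Nat.cast_nonneg _))
      calc ((okᶜ).card : ℝ) ≤ _ := h3'
        _ ≤ M.bad F + s * (K' * M.bad F) + T1.card * (G1 * M.bad F) +
            T1.card * (G2 * M.bad F) := by linarith
        _ = _ := by ring
    have h1' : ((Aᶜ).card : ℝ) ≤ B.card * (okᶜ).card := by exact_mod_cast h1
    calc ((Aᶜ).card : ℝ) ≤ B.card * (okᶜ).card := h1'
      _ ≤ B.card * ((1 + s * K' + T1.card * G1 + T1.card * G2) * M.bad F) :=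
          mul_le_mul_of_nonneg_left h4 (Nat.cast_nonneg _)
      _ = _ := by rw [hKA]; ring
  obtain ⟨hm, hm_le, hm_loc, hm_int⟩ := hstep ν M _ F' Q r A hrr hrB hAr
    (fun v hv => M.good_mono hF1 (Finset.mem_filter.1 (hAok v hv)).1)
    (fun v hv => (Finset.mem_filter.1 (hAok v hv)).2.1)
    (fun v hv => (Finset.mem_filter.1 (hAok v hv)).2.2.1)
    (fun v hv => (Finset.mem_filter.1 (hAok v hv)).2.2.2)
  have hpsi : ∀ a x, psi a x ≠ 0 → ∃ g ∈ C.S, Q.r (M.act x.1 g) = Q.cl a :=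
    fun a x hx => psi_ne C M q Q a x hx
  have hnrm : ∀ a, ∑ x, |(psi a x : ℝ)| ≤ b * ∑ y, |(Q.phi a y : ℝ)| := fun a =>
    psi_nrm C M q Q.phi a b (hb ν M (q + 1)).2.2.2.1
  -- the crossing set
  set X : Finset (Fin ν) := (M.good F)ᶜ ∪
    Finset.univ.filter (fun v => ∃ k ∈ E, r (M.act v k) ≠ r v) with hXdef
  have hX : ∀ v, v ∉ X → ∀ g ∈ C.S, ∀ u, Q.r (M.act u g) = Q.r (M.act v g) → r u = r v := by
    intro v hv g hg u hu
    simp only [hXdef, Finset.mem_union, Finset.mem_compl, Finset.mem_filter, Finset.mem_univ,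
      true_and, not_or, not_not, not_exists, not_and] at hv
    obtain ⟨b1, hb1, b2, hb2, rfl⟩ := same_class M C.S B' F Q.r Q.r_mem v hv.1 g hg
      (fun g hg b1 hb1 b2 hb2 => ⟨hFS hg, hFB' hb1, hFim g hg b1 hb1,
        hFE (hEmem g hg b1 hb1 b2 hb2)⟩) u hu
    exact hv.2 _ (hEmem g hg b1 hb1 b2 hb2)
  have hXcard : (X.card : ℝ) ≤ θ / (2 * (R + 1)) * ν + (1 + c) * M.bad F := by
    have h1 : X.card ≤ M.bad F +
        (Finset.univ.filter (fun v => ∃ k ∈ E, r (M.act v k) ≠ r v)).card :=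
      Finset.card_union_le _ _
    have h2 : (X.card : ℝ) ≤ M.bad F +
        (Finset.univ.filter (fun v => ∃ k ∈ E, r (M.act v k) ≠ r v)).card := by exact_mod_cast h1
    have h3 : ((Finset.univ.filter (fun v => ∃ k ∈ E, r (M.act v k) ≠ r v)).card : ℝ) ≤
        θ / (2 * (R + 1)) * ν + c * M.bad F0 := by convert hrcard
    have h4 : c * M.bad F0 ≤ c * M.bad F := mul_le_mul_of_nonneg_left (hbadF _ hF0) hc0
    linarith
  have hcardQ : ∀ v, (Nat.card {a : Q.ι // Q.cl a = v} : ℝ) ≤ K2 := fun v =>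
    (Q.cl_card v).trans hK2K
  have hcost := step_cost M C.S r Q.r Q.cl psi hpsi (fun a => ∑ y, |(Q.phi a y : ℝ)|) b K2 hb1
    (fun a => one_le_nrm _ (Q.phi_ne a)) (fun a => (Q.phi_le a).trans hK2K) (by linarith)
    hnrm hcardQ X hX
  refine ⟨{
    r := r
    r_r := hrr
    r_mem := hrB
    A := A
    A_r := hAr
    A_card := hAcard.trans (mul_le_mul_of_nonneg_right hKA_le (Nat.cast_nonneg _))
    ι := NI r psi
    inst := inferInstance
    phi := fun p => res r p.1.2 (psi p.1.1)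
    cl := fun p => p.1.2
    phi_supp := ?_
    phi_ne := fun p => p.2
    phi_le := ?_
    cl_card := ?_
    cost := ?_
    h := hm
    h_int := ?_
    h_le := fun x y => (hm_le x y).trans hL_le
    h_loc := hm_loc }⟩
  · intro a x hx
    unfold res at hx
    by_contra hne
    exact hx (if_neg hne)
  · intro a
    refine (res_nrm _ _ _).trans ((hnrm _).trans (le_trans ?_ hbK_le))
    exact mul_le_mul_of_nonneg_left (Q.phi_le _) (by linarith)
  · intro v
    exact (step_card M C.S B r Q.r hrB Q.cl psi hpsi K' hK'0 Q.cl_card v).trans hBs_le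
  · have h1 : ∑ a, (1 + Real.log (∑ y, |(Q.phi a y : ℝ)|)) ≤
        θ / (2 * C0) * ν + K' * M.bad F :=
      Q.cost.trans (add_le_add le_rfl (mul_le_mul_of_nonneg_left (hbadF F' hF') hK'0))
    have h2 : s * (1 + Real.log b) * ∑ a, (1 + Real.log (∑ y, |(Q.phi a y : ℝ)|)) ≤
        s * (1 + Real.log b) * (θ / (2 * C0) * ν + K' * M.bad F) :=
      mul_le_mul_of_nonneg_left h1 (by positivity)
    have h3 : R * X.card ≤ R * (θ / (2 * (R + 1)) * ν + (1 + c) * M.bad F) :=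
      mul_le_mul_of_nonneg_left hXcard hR0
    have hν : (0 : ℝ) ≤ ν := Nat.cast_nonneg _
    have h4 : s * (1 + Real.log b) * (θ / (2 * C0) * ν) ≤ θ / 2 * ν := by
      rw [← mul_assoc]
      refine mul_le_mul_of_nonneg_right ?_ hν
      rw [← mul_div_assoc, div_le_div_iff₀ (by positivity) (by norm_num)]
      rw [hC0]
      nlinarith
    have h5 : R * (θ / (2 * (R + 1)) * ν) ≤ θ / 2 * ν := by
      rw [← mul_assoc]
      refine mul_le_mul_of_nonneg_right ?_ hν
      rw [← mul_div_assoc, div_le_div_iff₀ (by positivity) (by norm_num)]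
      nlinarith
    have h6 : KC * M.bad F ≤ K * M.bad F :=
      mul_le_mul_of_nonneg_right hKC_le (Nat.cast_nonneg _)
    have h7 : KC * M.bad F = s * (1 + Real.log b) * (K' * M.bad F) +
        R * ((1 + c) * M.bad F) := by rw [hKC]; ring
    refine hcost.trans ?_
    calc s * (1 + Real.log b) * ∑ a, (1 + Real.log (∑ y, |(Q.phi a y : ℝ)|)) + R * X.card
        ≤ s * (1 + Real.log b) * (θ / (2 * C0) * ν + K' * M.bad F) +
          R * (θ / (2 * (R + 1)) * ν + (1 + c) * M.bad F) := add_le_add h2 h3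
      _ = s * (1 + Real.log b) * (θ / (2 * C0) * ν) + R * (θ / (2 * (R + 1)) * ν) +
          KC * M.bad F := by rw [h7]; ring
      _ ≤ θ * ν + K * M.bad F := by linarith
  · rintro x ⟨hx1, hx2⟩
    refine hm_int x hx1 ?_
    intro a c hc
    by_cases hne : res r c (psi a) = 0
    · rw [← hpsidef, hne]
      simp
    · exact hx2 ⟨(a, c), hne⟩

end Pool.Agent.LT
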