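import Mathlib
import Pool.Agent.LT.Base
import Pool.Agent.LT.LAVol
import Pool.Agent.LT.LAProj

set_option autoImplicit false

/-!
# Project LT, module LAKer: small bases of integral kernels (L4)

STATEMENT `exists_kernel_basis`: the integral kernel of `m` integral linear forms `A i` on `ℤⁿ`
contains linearly independent vectors (rows of `s`) which span the real kernel, with
`vol s ≤ ∏_i max 1 |A i|`, and their number is at least `card n - card m`.

PLAN. Induction over the forms, one at a time (`Finset.induction` over the set of forms, or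
`Fin m` after reindexing): for a finite set `I` of forms there is an integer matrix `s` with
linearly independent rows and
(i) the rows are killed by all `A i`, `i ∈ I`, (ii) every real vector killed by all `A i`,
`i ∈ I` is in `rs s`, (iii) `card n ≤ rows + card I`, (iv) the product bound.
Start: `s = 1` (`vol = 1`). Step (module lemma `one_form`): let `s` have `l` rows, let `c := s φ`
(`c i = ∑ j, s i j * φ j`, an integer vector with `l` entries), `φ := A i`. If `c = 0` keep `s`.
Otherwise there is an integer matrix `P`, `l × l`, `|det P| = 1`, such that all entries of `P c`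
except one are zero and the remaining one is `g ≠ 0` (Euclid; or: the range of the functional
`x ↦ x ⬝ c` on `ℤ^l` is `g ℤ`, so `ℤ^l = ker ⊕ ℤ y0`; take a basis of the kernel
(`Submodule.basisOfPid`) and `y0`: this is a basis of `ℤ^l`, its matrix `P` is invertible over
`ℤ`). The rows of `P s` are `y` (with `y ⬝ φ = g`) and the rows of `s'` (killed by `φ`).
`vol s = vol (P s) = vol s' * vol (y prj s')` (`vol_fromRows`, `vol_mul`), and
`y prj s' = y - (combination of rows of s')` (`sub_vecMul_prj_mem`) has scalar product `g` with `φ`,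
so `1 ≤ |g| ≤ |y prj s'| |φ|` (Cauchy-Schwarz) and
`vol s' = vol s / |y prj s'| ≤ vol s |φ|`. A real vector of `rs s` killed by `φ` is in `rs s'`.
`|φ|₂ ≤ ∑ |φ_j|`.
-/

open scoped BigOperators

namespace Pool.Agent.LT

variable {m n : Type} [Fintype m] [DecidableEq m] [Fintype n] [DecidableEq n]

omit [DecidableEq n] in
private lemma dot_toV (x y : n → ℤ) : toV x ⬝ᵥ toV y = ((x ⬝ᵥ y : ℤ) : ℝ) := by
  simp [toV, dotProduct]

omit [DecidableEq n] in
private lemma rs_dot {k : Type} (A : Matrix k n ℝ) (v : n → ℝ) (h : ∀ i, A i ⬝ᵥ v = 0)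
    (x : n → ℝ) (hx : x ∈ rs A) : x ⬝ᵥ v = 0 := by
  unfold rs at hx
  induction hx using Submodule.span_induction with
  | mem x hx =>
    obtain ⟨i, rfl⟩ := hx
    exact h i
  | zero => exact zero_dotProduct v
  | add x y _ _ hx hy => rw [add_dotProduct, hx, hy, add_zero]
  | smul a x _ hx => rw [smul_dotProduct, hx, smul_zero]

/-- a unimodular matrix which splits an integral functional -/
private lemma exists_unimod {l : ℕ} (c : Fin l → ℤ) (hc : c ≠ 0) :
    ∃ (r : ℕ) (hr : r + 1 = l) (P : Matrix (Fin (r + 1)) (Fin l) ℤ) (g : ℤ), g ≠ 0 ∧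
      P 0 ⬝ᵥ c = g ∧ (∀ i : Fin r, P i.succ ⬝ᵥ c = 0) ∧
      |(P.submatrix id (Fin.cast hr)).det| = 1 := by
  let f : (Fin l → ℤ) →ₗ[ℤ] ℤ :=
    { toFun := fun x => x ⬝ᵥ c
      map_add' := fun x y => add_dotProduct x y c
      map_smul' := fun a x => smul_dotProduct a x c }
  obtain ⟨g, hg⟩ := (IsPrincipalIdealRing.principal (LinearMap.range f)).principal
  have hgm : g ∈ LinearMap.range f := by
    rw [hg]
    exact Submodule.mem_span_singleton_self g
  obtain ⟨y, hy⟩ := hgm
  have hg0 : g ≠ 0 := by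
    rintro rfl
    rw [Submodule.span_zero_singleton] at hg
    apply hc
    ext i
    have h1 : f (Pi.single i 1) ∈ LinearMap.range f := LinearMap.mem_range_self _ _
    rw [hg, Submodule.mem_bot] at h1
    have h2 : f (Pi.single i 1) = c i := single_one_dotProduct i c
    rw [← h2, h1]
    rfl
  let b := Module.finBasis ℤ (LinearMap.ker f)
  have hli : ∀ (a : ℤ), ∀ x ∈ LinearMap.ker f, a • y + x = 0 → a = 0 := by
    intro a x hx h
    have h1 := congrArg f h
    rw [map_add, map_smul, LinearMap.mem_ker.1 hx, hy, add_zero, map_zero, smul_eq_mul] at h1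
    exact (mul_eq_zero.1 h1).resolve_right hg0
  have hsp : ∀ z : Fin l → ℤ, ∃ a : ℤ, z + a • y ∈ LinearMap.ker f := by
    intro z
    have h1 : f z ∈ LinearMap.range f := LinearMap.mem_range_self _ _
    rw [hg, Submodule.mem_span_singleton] at h1
    obtain ⟨a, ha⟩ := h1
    refine ⟨-a, ?_⟩
    rw [LinearMap.mem_ker, map_add, map_smul, hy, neg_smul, ha, add_neg_cancel]
  let B := Module.Basis.mkFinCons y b hli hsp
  have hB : (B : Fin (Module.finrank ℤ (LinearMap.ker f) + 1) → (Fin l → ℤ)) =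
      Fin.cons y ((↑) ∘ b) := Module.Basis.coe_mkFinCons y b hli hsp
  have hr : Module.finrank ℤ (LinearMap.ker f) + 1 = l := by
    have h1 := Module.finrank_eq_card_basis B
    rw [Module.finrank_fintype_fun_eq_card, Fintype.card_fin, Fintype.card_fin] at h1
    exact h1.symm
  refine ⟨Module.finrank ℤ (LinearMap.ker f), hr, Matrix.of B, g, hg0, ?_, ?_, ?_⟩
  · change B 0 ⬝ᵥ c = g
    rw [hB]
    exact hy
  · intro i
    change B i.succ ⬝ᵥ c = 0
    rw [hB]
    exact LinearMap.mem_ker.1 (b i).2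
  · have h1 := (Pi.basisFun ℤ (Fin l)).isUnit_det (B.reindex (finCongr hr))
    rw [Pi.basisFun_det_apply] at h1
    have h2 := Int.isUnit_iff_abs_eq.1 h1
    have h3 : ((Matrix.of B : Matrix _ (Fin l) ℤ).submatrix id (Fin.cast hr)).det =
        (Matrix.of fun i => (B.reindex (finCongr hr)) i).det := by
      rw [← Matrix.det_submatrix_equiv_self (finCongr hr)]
      congr 1
      ext i j
      simp [Matrix.submatrix_apply, Module.Basis.reindex_apply]
    rw [h3]
    exact h2

/-- one form, in the unimodular position -/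
private lemma one_form_aux {r : ℕ} (s : Matrix (Fin (r + 1)) n ℤ) (hs : LI (toR s)) (φ : n → ℤ)
    (h0 : s 0 ⬝ᵥ φ ≠ 0) (h1 : ∀ i : Fin r, s i.succ ⬝ᵥ φ = 0) :
    LI (toR (s.submatrix Fin.succ id)) ∧
      rs (toR (s.submatrix Fin.succ id)) ≤ rs (toR s) ∧
      (∀ x ∈ rs (toR s), x ⬝ᵥ toV φ = 0 → x ∈ rs (toR (s.submatrix Fin.succ id))) ∧
      vol (toR (s.submatrix Fin.succ id)) ≤ vol (toR s) * max 1 (∑ j, |(φ j : ℝ)|) := by
  have hLI : LI (toR (s.submatrix Fin.succ id)) :=
    LinearIndependent.comp hs Fin.succ (Fin.succ_injective r)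
  have hle : rs (toR (s.submatrix Fin.succ id)) ≤ rs (toR s) := by
    refine Submodule.span_mono ?_
    rintro _ ⟨i, rfl⟩
    exact ⟨i.succ, rfl⟩
  have hker : ∀ i, (toR (s.submatrix Fin.succ id)) i ⬝ᵥ toV φ = 0 := by
    intro i
    have h2 := dot_toV (s i.succ) φ
    rw [h1 i, Int.cast_zero] at h2
    exact h2
  refine ⟨hLI, hle, ?_, ?_⟩
  · intro x hx hx0
    obtain ⟨c, hc⟩ := (mem_rs _ _).1 hx
    have h2 : x = c 0 • toV (s 0) +
        Matrix.vecMul (fun i : Fin r => c i.succ) (toR (s.submatrix Fin.succ id)) := by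
      rw [← hc]
      ext j
      simp [Matrix.vecMul, dotProduct, Fin.sum_univ_succ, toR, toV]
    have h3 : Matrix.vecMul (fun i : Fin r => c i.succ) (toR (s.submatrix Fin.succ id)) ∈
        rs (toR (s.submatrix Fin.succ id)) := (mem_rs _ _).2 ⟨_, rfl⟩
    have h4 := rs_dot _ _ hker _ h3
    have h5 : c 0 = 0 := by
      rw [h2, add_dotProduct, h4, add_zero, smul_dotProduct, dot_toV, smul_eq_mul] at hx0
      exact (mul_eq_zero.1 hx0).resolve_right (Int.cast_ne_zero.2 h0)
    rw [h2, h5, zero_smul, zero_add]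
    exact h3
  · let Y : Matrix PUnit n ℝ := Matrix.of fun _ => toV (s 0)
    let e : Fin (r + 1) ≃ Fin r ⊕ PUnit := (finSuccEquiv r).trans (Equiv.optionEquivSumPUnit _)
    have hdec : toR s = (Matrix.fromRows (toR (s.submatrix Fin.succ id)) Y).submatrix e
        (Equiv.refl n) := by
      ext i j
      refine Fin.cases ?_ (fun i => ?_) i
      · simp [e, Y, toR, toV]
      · simp [e, toR]
    have hvol : vol (toR s) = vol (toR (s.submatrix Fin.succ id)) *
        vol (Y * prj (toR (s.submatrix Fin.succ id))) := by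
      conv_lhs => rw [hdec]
      rw [vol_submatrix, vol_fromRows _ _ hLI]
    set S := toR (s.submatrix Fin.succ id) with hS
    set w : n → ℝ := Matrix.vecMul (toV (s 0)) (prj S) with hw
    have hvw : vol (Y * prj S) ^ 2 = w ⬝ᵥ w := by
      rw [vol_sq, Matrix.det_unique]
      rfl
    have hg : w ⬝ᵥ toV φ = ((s 0 ⬝ᵥ φ : ℤ) : ℝ) := by
      have h6 := rs_dot S (toV φ) hker _ (sub_vecMul_prj_mem S (toV (s 0)))
      rw [sub_dotProduct, sub_eq_zero, dot_toV] at h6
      exact h6.symm
    have h7 : (1 : ℝ) ≤ |w ⬝ᵥ toV φ| := by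
      rw [hg, ← Int.cast_abs]
      exact_mod_cast Int.one_le_abs h0
    have h8 : ∀ j, |w j| ≤ vol (Y * prj S) := by
      intro j
      refine abs_le_of_sq_le_sq ?_ (vol_nonneg _)
      rw [hvw, sq]
      exact Finset.single_le_sum (f := fun j => w j * w j) (fun i _ => mul_self_nonneg (w i))
        (Finset.mem_univ j)
    have h9 : |w ⬝ᵥ toV φ| ≤ vol (Y * prj S) * ∑ j, |(φ j : ℝ)| := by
      rw [Finset.mul_sum]
      refine (Finset.abs_sum_le_sum_abs _ _).trans (Finset.sum_le_sum fun j _ => ?_)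
      rw [abs_mul]
      exact mul_le_mul_of_nonneg_right (h8 j) (abs_nonneg _)
    have h10 : (1 : ℝ) ≤ vol (Y * prj S) * max 1 (∑ j, |(φ j : ℝ)|) :=
      (h7.trans h9).trans (mul_le_mul_of_nonneg_left (le_max_right _ _) (vol_nonneg _))
    rw [hvol, mul_assoc]
    exact le_mul_of_one_le_right (vol_nonneg _) h10

lemma one_form {l : ℕ} (s : Matrix (Fin l) n ℤ) (hs : LI (toR s)) (φ : n → ℤ) :
    ∃ (l' : ℕ) (s' : Matrix (Fin l') n ℤ), LI (toR s') ∧ (∀ i, s' i ⬝ᵥ φ = 0) ∧
      rs (toR s') ≤ rs (toR s) ∧ (∀ x ∈ rs (toR s), x ⬝ᵥ toV φ = 0 → x ∈ rs (toR s')) ∧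
      l ≤ l' + 1 ∧ vol (toR s') ≤ vol (toR s) * max 1 (∑ j, |(φ j : ℝ)|) := by
  by_cases hc : (fun i => s i ⬝ᵥ φ) = 0
  · exact ⟨l, s, hs, fun i => congrFun hc i, le_rfl, fun x hx _ => hx, Nat.le_succ l,
      le_mul_of_one_le_right (vol_nonneg _) (le_max_left _ _)⟩
  · obtain ⟨r, hr, P, g, hg, hP0, hP1, hdet⟩ := exists_unimod _ hc
    subst hr
    have hdet' : |P.det| = 1 := hdet
    have hdetR : |(toR P).det| = 1 := by
      have h2 : (toR P).det = ((P.det : ℤ) : ℝ) := ((Int.castRingHom ℝ).map_det P).symm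
      rw [h2, ← Int.cast_abs, hdet', Int.cast_one]
    have hdet0 : (toR P).det ≠ 0 := by
      intro h
      rw [h, abs_zero] at hdetR
      exact zero_ne_one hdetR
    have hrow : ∀ i, (P * s) i ⬝ᵥ φ = P i ⬝ᵥ (fun i => s i ⬝ᵥ φ) := by
      intro i
      change Matrix.vecMul (P i) s ⬝ᵥ φ = P i ⬝ᵥ Matrix.mulVec s φ
      rw [Matrix.dotProduct_mulVec]
    have hLI : LI (toR (P * s)) := by
      rw [toR_mul]
      exact li_mul _ hdet0 _ hs
    have hrs : rs (toR (P * s)) = rs (toR s) := by
      rw [toR_mul]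
      exact rs_mul _ hdet0 _
    have hv : vol (toR (P * s)) = vol (toR s) := by
      rw [toR_mul, vol_mul, hdetR, one_mul]
    obtain ⟨k1, k2, k3, k4⟩ := one_form_aux (P * s) hLI φ
      (by rw [hrow, hP0]; exact hg) (fun i => by rw [hrow]; exact hP1 i)
    refine ⟨r, (P * s).submatrix Fin.succ id, k1, fun i => ?_, ?_, ?_, le_rfl, ?_⟩
    · change (P * s) i.succ ⬝ᵥ φ = 0
      rw [hrow]
      exact hP1 i
    · rw [← hrs]
      exact k2
    · intro x hx
      exact k3 x (by rw [hrs]; exact hx)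
    · rw [← hv]
      exact k4

theorem exists_kernel_basis (A : Matrix m n ℤ) :
    ∃ (l : ℕ) (s : Matrix (Fin l) n ℤ), LI (toR s) ∧ (∀ i j, s i ⬝ᵥ A j = 0) ∧
      (∀ x : n → ℝ, (∀ j, x ⬝ᵥ toV (A j) = 0) → x ∈ rs (toR s)) ∧
      Fintype.card n ≤ l + Fintype.card m ∧
      vol (toR s) ≤ ∏ i, max 1 (∑ j, |(A i j : ℝ)|) := by
  have key : ∀ I : Finset m, ∃ (l : ℕ) (s : Matrix (Fin l) n ℤ), LI (toR s) ∧
      (∀ i, ∀ j ∈ I, s i ⬝ᵥ A j = 0) ∧
      (∀ x : n → ℝ, (∀ j ∈ I, x ⬝ᵥ toV (A j) = 0) → x ∈ rs (toR s)) ∧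
      Fintype.card n ≤ l + I.card ∧
      vol (toR s) ≤ ∏ i ∈ I, max 1 (∑ j, |(A i j : ℝ)|) := by
    intro I
    induction I using Finset.induction_on with
    | empty =>
      let e := Fintype.equivFin n
      let s : Matrix (Fin (Fintype.card n)) n ℤ := (1 : Matrix n n ℤ).submatrix e.symm id
      have hON : ON (toR s) := by
        have h1 : toR s = (1 : Matrix n n ℝ).submatrix e.symm id := by
          ext i j
          simp [s, toR, Matrix.one_apply, apply_ite]
        unfold ON
        rw [h1, Matrix.transpose_submatrix, Matrix.transpose_one]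
        have h2 := Matrix.submatrix_mul_equiv (1 : Matrix n n ℝ) (1 : Matrix n n ℝ) e.symm
          (Equiv.refl n) e.symm
        change (1 : Matrix n n ℝ).submatrix e.symm (Equiv.refl n) *
          (1 : Matrix n n ℝ).submatrix (Equiv.refl n) e.symm = 1
        rw [h2, Matrix.one_mul]
        exact Matrix.submatrix_one_equiv e.symm
      refine ⟨_, s, li_of_on _ hON, fun i j hj => absurd hj (Finset.notMem_empty j), ?_, ?_, ?_⟩
      · intro x _
        refine (mem_rs _ _).2 ⟨fun i => x (e.symm i), ?_⟩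
        ext j
        have hs1 : ∀ i : Fin (Fintype.card n), toR s i j = if e.symm i = j then 1 else 0 := by
          intro i
          change ((1 : Matrix n n ℤ) (e.symm i) j : ℝ) = _
          rw [Matrix.one_apply]
          split_ifs <;> simp
        simp only [Matrix.vecMul, dotProduct, hs1]
        rw [Finset.sum_eq_single (e j)]
        · rw [Equiv.symm_apply_apply, if_pos rfl, mul_one]
        · intro i _ hi
          have h3 : e.symm i ≠ j := fun h => hi (by rw [← h, Equiv.apply_symm_apply])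
          rw [if_neg h3, mul_zero]
        · intro h
          exact absurd (Finset.mem_univ _) h
      · rw [Finset.card_empty, add_zero]
      · rw [vol_of_on _ hON, Finset.prod_empty]
    | insert a I ha ih =>
      obtain ⟨l, s, k1, k2, k3, k4, k5⟩ := ih
      obtain ⟨l', s', j1, j2, j3, j4, j5, j6⟩ := one_form s k1 (A a)
      refine ⟨l', s', j1, ?_, ?_, ?_, ?_⟩
      · intro i j hj
        rcases Finset.mem_insert.1 hj with rfl | hj
        · exact j2 i
        · have h1 : (toR s') i ∈ rs (toR s) := j3 (Submodule.subset_span ⟨i, rfl⟩)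
          have h2 := rs_dot (toR s) (toV (A j)) (fun i => by
            have h3 := dot_toV (s i) (A j)
            rw [k2 i j hj, Int.cast_zero] at h3
            exact h3) _ h1
          have h4 : toV (s' i) ⬝ᵥ toV (A j) = 0 := h2
          rw [dot_toV] at h4
          exact_mod_cast h4
      · intro x hx
        exact j4 x (k3 x fun j hj => hx j (Finset.mem_insert_of_mem hj))
          (hx a (Finset.mem_insert_self a I))
      · rw [Finset.card_insert_of_notMem ha]
        omega
      · rw [Finset.prod_insert ha, mul_comm]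
        exact j6.trans (mul_le_mul_of_nonneg_right k5 (le_trans zero_le_one (le_max_left _ _)))
  obtain ⟨l, s, k1, k2, k3, k4, k5⟩ := key Finset.univ
  exact ⟨l, s, k1, fun i j => k2 i j (Finset.mem_univ j),
    fun x hx => k3 x fun j _ => hx j, k4, k5⟩

end Pool.Agent.LT
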