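import Mathlib
import Pool.Agent.LT.Defs

set_option autoImplicit false

/-!
# Project LT (MP_271752_gt): the definitions of the final statement

The groups (`IsSofic`, `IsAmenable`) and resolutions (`FinRes`) are defined in
`Pool.Agent.LT.Defs`.
-/

open scoped BigOperators Topology InnerProductSpace

namespace Pool.Agent.LT

/-- the Hilbert space `ℓ²(G)^n` (square summable functions on `G × {1,...,n}`) -/
def HS (G : Type) (n : ℕ) : Type := lp (fun _ : G × Fin n => ℂ) 2

/-- its norm -/
noncomputable def nacgHS (G : Type) (n : ℕ) : NormedAddCommGroup (HS G n) :=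
  lp.normedAddCommGroup (E := fun _ : G × Fin n => ℂ) (p := 2)

noncomputable instance instNHS {G : Type} {n : ℕ} : NormedAddCommGroup (HS G n) := nacgHS G n

/-- its inner product -/
noncomputable def ipsHS (G : Type) (n : ℕ) : InnerProductSpace ℂ (HS G n) :=
  lp.instInnerProductSpace (G := fun _ : G × Fin n => ℂ)

noncomputable instance instIHS {G : Type} {n : ℕ} : InnerProductSpace ℂ (HS G n) := ipsHS G n

open Classical in
/-- the orthonormal basis: the vector `bas (g,j)` is `g e_j` -/
noncomputable def bas {G : Type} {n : ℕ} (x : G × Fin n) : HS G n :=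
  (lp.single 2 x (1 : ℂ) : lp (fun _ : G × Fin n => ℂ) 2)

/-- bounded operators `ℓ²(G)^m → ℓ²(G)^n` -/
def Op (G : Type) (m n : ℕ) : Type := HS G m →L[ℂ] HS G n

/-- the value of an operator -/
noncomputable def Op.app {G : Type} {m n : ℕ} (T : Op G m n) (x : HS G m) : HS G n :=
  ContinuousLinearMap.toLinearMap T x

/-- `S` is the adjoint of `T` -/
def IsAdj {G : Type} {m n : ℕ} (S : Op G n m) (T : Op G m n) : Prop :=
  ∀ x y, inner ℂ (S.app x) y = inner ℂ x (T.app y)

/-- `T` is the bounded operator `x ↦ x A` on row vectors: `T (g e_j) = ∑ i, (g A_ji) e_i` -/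
def IsRop' {G : Type} [Group G] {m n : ℕ} (A : Matrix (Fin m) (Fin n) (MonoidAlgebra ℤ G))
    (T : Op G m n) : Prop :=
  ∀ (g : G) (j : Fin m),
    T.app (bas (g, j)) = ∑ i, (A j i).coeff.sum fun h a => (a : ℂ) • bas (g * h, i)

/-- the Laplacians `c_p* c_p + c_{p+1} c_{p+1}*` of the complex `c` with the adjoint maps `d` -/
noncomputable def lapF {G : Type} {n : ℕ → ℕ} (c : ∀ p, Op G (n (p + 1)) (n p))
    (d : ∀ p, Op G (n p) (n (p + 1))) : ∀ p, HS G (n p) → HS G (n p)
  | 0, x => (c 0).app ((d 0).app x)
  | p + 1, x => (d p).app ((c p).app x) + (c (p + 1)).app ((d (p + 1)).app x)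

/-- the von Neumann trace of the `k`-th power of the `G`-equivariant operator `f` -/
noncomputable def trPow {G : Type} [Group G] {n : ℕ} (f : HS G n → HS G n) (k : ℕ) : ℝ :=
  ∑ j, (inner ℂ (bas ((1 : G), j)) (f^[k] (bas (1, j)))).re

/-- `μ` is the spectral measure of the positive `G`-equivariant operator `f` with respect to the
von Neumann trace: the finite measure with compact support in `[0,∞)` whose moments are the
traces of the powers of `f` (a measure with compact support is determined by its moments). So
`μ [0,x]` is the spectral density function of `f`, the trace of the spectral projection. -/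
def IsSpecF {G : Type} [Group G] {n : ℕ} (f : HS G n → HS G n) (μ : MeasureTheory.Measure ℝ) :
    Prop :=
  MeasureTheory.IsFiniteMeasure μ ∧ (∃ r : ℝ, μ (Set.Icc 0 r)ᶜ = 0) ∧
    ∀ k : ℕ, ∫ s, s ^ k ∂μ = trPow f k

/-- The positive `G`-equivariant operator `f` is of determinant class (its Fuglede-Kadison
determinant is positive), and `x` is the logarithm of its Fuglede-Kadison determinant:
`∫_{0+}^∞ log s dμ = x` for the spectral measure `μ`. -/
def HasLogDetF {G : Type} [Group G] {n : ℕ} (f : HS G n → HS G n) (x : ℝ) : Prop :=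
  ∃ μ, IsSpecF f μ ∧ MeasureTheory.IntegrableOn Real.log (Set.Ioi 0) μ ∧
    ∫ s in Set.Ioi 0, Real.log s ∂μ = x

end Pool.Agent.LT
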