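import Pool.Agent.LT.Main
import Pool.Agent.LT.Pub

set_option autoImplicit false

/-!
# Project LT (MP_271752_gt): the final theorem in terms of the sealed Hilbert spaces
-/

open scoped BigOperators Topology InnerProductSpace

namespace Pool.Agent.LT

lemma hasLogDetF_of {G : Type} [Group G] {n : ℕ} (T : Hil G n →L[ℂ] Hil G n)
    (f : HS G n → HS G n) (hf : ∀ x : Hil G n, f x = T x) (x : ℝ) (h : HasLogDet T x) :
    HasLogDetF f x := by
  obtain ⟨μ, ⟨h1, h2, h3⟩, h4, h5⟩ := h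
  refine ⟨μ, ⟨h1, h2, fun k => ?_⟩, h4, h5⟩
  rw [h3 k]
  have hit : ∀ (k : ℕ) (y : Hil G n), f^[k] y = (T ^ k) y := by
    intro k
    induction k with
    | zero => intro y; rfl
    | succ k ih =>
      intro y
      rw [Function.iterate_succ_apply', ih y, hf, pow_succ']
      rfl
  unfold trG trPow
  refine Finset.sum_congr rfl fun j _ => ?_
  have h6 := hit k (bv (1, j))
  change _ = (inner ℂ (bv ((1 : G), j)) (f^[k] (bv (1, j)))).re
  rw [h6]

theorem lt_final {G : Type} [Group G] (hG : IsSofic G) (N : Subgroup G) [N.Normal] [Infinite N]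
    (hN : IsAmenable N) (C : FinRes G) :
    ∃ (c : ∀ p, Op G (C.n (p + 1)) (C.n p)) (d : ∀ p, Op G (C.n p) (C.n (p + 1))),
      (∀ p, IsRop' (C.D p) (c p)) ∧ (∀ p, IsAdj (d p) (c p)) ∧
      (∀ p, Function.Injective (lapF c d p)) ∧
      (∀ p, ∃ x, HasLogDetF (fun v => (d p).app ((c p).app v)) x) ∧
      ∃ l : ℕ → ℝ, (∀ p, HasLogDetF (lapF c d p) (l p)) ∧
        -(1 / 2 : ℝ) * ∑ p ∈ Finset.range (C.d + 1), (-1 : ℝ) ^ p * p * l p = 0 := by
  obtain ⟨c, h1, h2, h3, l, h4, h5⟩ := lt_main hG N hN C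
  let e : ∀ p, Hil G (C.n p) →L[ℂ] Hil G (C.n (p + 1)) := fun p =>
    ContinuousLinearMap.adjoint (c p)
  have hl : ∀ p (x : Hil G (C.n p)), lapF (n := C.n) (fun p => (c p : Op G (C.n (p + 1)) (C.n p)))
      (fun p => (e p : Op G (C.n p) (C.n (p + 1)))) p x = lap c p x := by
    intro p x
    cases p with
    | zero => rfl
    | succ p => exact add_comm _ _
  refine ⟨fun p => c p, fun p => e p, fun p => h1 p, fun p x y => ?_,
    fun p => ?_, fun p => ?_, l, fun p => ?_, ?_⟩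
  · exact ContinuousLinearMap.adjoint_inner_left (c p) y x
  · intro x y hxy
    apply h2 p
    rw [← hl p x, ← hl p y]
    exact hxy
  · obtain ⟨x, hx⟩ := h3 p
    exact ⟨x, hasLogDetF_of (absSq c p) _ (fun v => rfl) x hx⟩
  · exact hasLogDetF_of (lap c p) _ (hl p) (l p) (h4 p)
  · rw [h5, mul_zero]

end Pool.Agent.LT
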