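import Mathlib
import Pool.Agent.LT.Base
import Pool.Agent.LT.ModB
import Pool.Agent.LT.Push

set_option autoImplicit false

/-!
# Project LT, module Rep: families of matrices which are group ring matrices at good vertices

PLAN. `Rep X a`: there is `F` such that for every model and every `F`-good vertex `v` the row `(v,j)`
of `X` is `push M v (a j)`. By `Mod.good_mono` the set `F` may be enlarged.
`rep_one`: `push_single`, `M.act_one`. `rep_add`: `push_add`.
`rep_mul`: `F := ` finite set containing `F_X`, `1`, the supports `s` of the `a j`, all `s * f` and `s⁻¹`, ...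
such that if `v` is `F`-good and `s` in the support of some `a j` then `v.s` is `F_Y`-good:
`(v.s) g h`: `act (act (act v s) g) h = act (act v (s g)) h = act v (s g h) = act (act v s) (g h)`
needs `s, g, s*g, h, g*h` in `F`; injectivity: `act (act v s) g = act v (s g)`.
The row `(v,j)` of `X * Y` is `push M v (a j) ᵥ* Y = ∑_{y ∈ supp (a j)} a j y • Y (M.act v y.1, y.2)
= ∑ a j y • push M (M.act v y.1) (b y.2) = ∑ a j y • push M v (shift y.1 (b y.2)) = push M v (bdL b (a j))`.
`rep_pow`: induction with `rep_mul` and `powG`. (`X^(k+1) = X^k * X`.)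
`rep_dM`: `good F ⊆ Gd C M q` for a suitable `F = F_q` (induction on `q`: `F_0 = ∅`;
`F_{q+1}` such that `F_{q+1}`-good implies `S`-good and `v.g` is `F_q`-good for `g ∈ S`, as in
`rep_mul`: lemma `exists_deep`).
`rep_dMT`: the column of `dM` at `(w,i)`: for `w` good (for a large set, such that `w.s⁻¹`
is in `Gd C M q` for `s ∈ S`) `dM (v,j) (w,i) = ∑_{y : M.act v y.1 = w, y.2 = i} C.D q j y` (if
`v ∈ Gd`); `M.act v s = w` iff `v = M.act w s⁻¹` (`M.act (M.act w s⁻¹) s = w` and `M.inj s`). And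
`push M w (starG (C.D q) i) (v,j) = ∑_{y : y.2 = i, M.act w y.1⁻¹ = v} C.D q j y`. If `v ∉ Gd` then
`v` is not of the form `w.s⁻¹`, so both sides are `0`.
-/

open scoped BigOperators

namespace Pool.Agent.LT

variable {G : Type} [Group G]

/-- `X` is the group ring matrix `a` at good vertices -/
def Rep {m n : ℕ} (X : ∀ ν, Mod G ν → Matrix (Fin ν × Fin m) (Fin ν × Fin n) ℤ)
    (a : Fin m → (G × Fin n →₀ ℤ)) : Prop :=
  ∃ F : Finset G, ∀ (ν : ℕ) (M : Mod G ν) (v : Fin ν), v ∈ M.good F →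
    ∀ (j : Fin m) (y : Fin ν × Fin n), X ν M (v, j) y = push M v (a j) y

lemma exists_deep (F S : Finset G) : ∃ F' : Finset G, F ⊆ F' ∧ ∀ (ν : ℕ) (M : Mod G ν)
    (v : Fin ν), v ∈ M.good F' → ∀ s ∈ S, M.act v s ∈ M.good F := by
  classical
  refine ⟨F ∪ (S ∪ (Finset.image₂ (fun x y => x * y) S F ∪ Finset.image₂ (fun x y => x * y) F F)),
    Finset.subset_union_left, ?_⟩
  intro ν M v hv s hs
  set F' := F ∪ (S ∪ (Finset.image₂ (fun x y => x * y) S F ∪
    Finset.image₂ (fun x y => x * y) F F)) with hF'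
  have hF : ∀ g ∈ F, g ∈ F' := fun g hg => by
    rw [hF']; exact Finset.mem_union_left _ hg
  have hS : s ∈ F' := by
    rw [hF']; exact Finset.mem_union_right _ (Finset.mem_union_left _ hs)
  have hSF : ∀ g ∈ F, s * g ∈ F' := fun g hg => by
    rw [hF']
    exact Finset.mem_union_right _ (Finset.mem_union_right _ (Finset.mem_union_left _
      (Finset.mem_image₂_of_mem hs hg)))
  have hFF : ∀ g ∈ F, ∀ h ∈ F, g * h ∈ F' := fun g hg h hh => by
    rw [hF']
    exact Finset.mem_union_right _ (Finset.mem_union_right _ (Finset.mem_union_right _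
      (Finset.mem_image₂_of_mem hg hh)))
  have key : ∀ g ∈ F, M.act (M.act v s) g = M.act v (s * g) := fun g hg =>
    M.act_act hv hS (hF g hg)
  unfold Mod.good
  rw [Finset.mem_filter]
  refine ⟨Finset.mem_univ _, ?_, ?_⟩
  · intro g hg h hh
    rw [key g hg, M.act_act hv (hSF g hg) (hF h hh), M.act_act hv hS (hFF g hg h hh), mul_assoc]
  · intro g hg h hh e
    rw [key g hg, key h hh] at e
    exact mul_left_cancel (M.act_inj hv (hSF g hg) (hSF h hh) e)

theorem rep_one (n : ℕ) : Rep (G := G) (fun ν _ => (1 : Matrix (Fin ν × Fin n) (Fin ν × Fin n) ℤ))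
    (oneG G n) := by
  refine ⟨∅, ?_⟩
  intro ν M v _ j y
  show (1 : Matrix (Fin ν × Fin n) (Fin ν × Fin n) ℤ) (v, j) y =
    push M v (Finsupp.single ((1 : G), j) 1) y
  rw [push_single, M.act_one, Matrix.one_apply, Pi.single_apply]
  by_cases h : (v, j) = y
  · subst h; simp
  · rw [if_neg h, if_neg (fun e => h e.symm)]

theorem rep_add {m n : ℕ} (X Y : ∀ ν, Mod G ν → Matrix (Fin ν × Fin m) (Fin ν × Fin n) ℤ)
    (a b : Fin m → (G × Fin n →₀ ℤ)) (hX : Rep X a) (hY : Rep Y b) :
    Rep (fun ν M => X ν M + Y ν M) (fun j => a j + b j) := by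
  classical
  obtain ⟨F, hF⟩ := hX
  obtain ⟨F', hF'⟩ := hY
  refine ⟨F ∪ F', ?_⟩
  intro ν M v hv j y
  show (X ν M + Y ν M) (v, j) y = push M v (a j + b j) y
  rw [Matrix.add_apply, push_add, Pi.add_apply,
    hF ν M v (M.good_mono Finset.subset_union_left hv),
    hF' ν M v (M.good_mono Finset.subset_union_right hv)]

/-- the push forward as a sum of point masses -/
lemma push_eq_sum_single {ν n : ℕ} (M : Mod G ν) (v : Fin ν) (a : G × Fin n →₀ ℤ) :
    push M v a = ∑ x ∈ a.support, Pi.single (M.act v x.1, x.2) (a x) := by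
  conv_lhs => rw [← Finsupp.sum_single a]
  unfold Finsupp.sum
  rw [push_sum M v a.support (fun x => Finsupp.single x (a x))]
  refine Finset.sum_congr rfl ?_
  intro x _
  exact push_single M v x.1 x.2 (a x)

/-- the values of the push forward -/
lemma push_apply_sum {ν n : ℕ} (M : Mod G ν) (v : Fin ν) (a : G × Fin n →₀ ℤ)
    (z : Fin ν × Fin n) :
    push M v a z = ∑ x ∈ a.support, if (M.act v x.1, x.2) = z then a x else 0 := by
  rw [push_eq_sum_single, Finset.sum_apply]
  refine Finset.sum_congr rfl ?_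
  intro x _
  rw [Pi.single_apply]
  by_cases h : (M.act v x.1, x.2) = z
  · rw [if_pos h, if_pos h.symm]
  · rw [if_neg h, if_neg (fun e => h e.symm)]

open Classical in
/-- the elements of the group occurring in a matrix -/
noncomputable def gsupp {m n : ℕ} (a : Fin m → (G × Fin n →₀ ℤ)) : Finset G :=
  Finset.univ.biUnion fun j => (a j).support.image fun y => y.1

omit [Group G] in
lemma mem_gsupp {m n : ℕ} (a : Fin m → (G × Fin n →₀ ℤ)) (j : Fin m) (y : G × Fin n)
    (hy : y ∈ (a j).support) : y.1 ∈ gsupp a := by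
  classical
  unfold gsupp
  exact Finset.mem_biUnion.mpr ⟨j, Finset.mem_univ _, Finset.mem_image.mpr ⟨y, hy, rfl⟩⟩

theorem rep_mul {m n l : ℕ} (X : ∀ ν, Mod G ν → Matrix (Fin ν × Fin m) (Fin ν × Fin n) ℤ)
    (Y : ∀ ν, Mod G ν → Matrix (Fin ν × Fin n) (Fin ν × Fin l) ℤ)
    (a : Fin m → (G × Fin n →₀ ℤ)) (b : Fin n → (G × Fin l →₀ ℤ)) (hX : Rep X a)
    (hY : Rep Y b) : Rep (fun ν M => X ν M * Y ν M) (mulG a b) := by
  classical
  obtain ⟨FX, hFX⟩ := hX
  obtain ⟨FY, hFY⟩ := hY
  obtain ⟨F', -, hdeep⟩ := exists_deep FY (gsupp a)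
  refine ⟨FX ∪ (F' ∪ (gsupp a ∪ gsupp b)), ?_⟩
  intro ν M v hv j z
  set F0 := FX ∪ (F' ∪ (gsupp a ∪ gsupp b)) with hF0
  have h1 : FX ⊆ F0 := Finset.subset_union_left
  have h2 : F' ⊆ F0 := Finset.subset_union_left.trans Finset.subset_union_right
  have h3 : gsupp a ⊆ F0 := fun g hg => by
    rw [hF0]
    exact Finset.mem_union_right _ (Finset.mem_union_right _ (Finset.mem_union_left _ hg))
  have h4 : gsupp b ⊆ F0 := fun g hg => by
    rw [hF0]
    exact Finset.mem_union_right _ (Finset.mem_union_right _ (Finset.mem_union_right _ hg))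
  show (X ν M * Y ν M) (v, j) z = push M v (mulG a b j) z
  rw [Matrix.mul_apply]
  have e1 : ∀ y, X ν M (v, j) y * Y ν M y z
      = ∑ x ∈ (a j).support, (if (M.act v x.1, x.2) = y then a j x * Y ν M y z else 0) := by
    intro y
    rw [hFX ν M v (M.good_mono h1 hv) j y, push_apply_sum, Finset.sum_mul]
    refine Finset.sum_congr rfl ?_
    intro x _
    rw [ite_mul, zero_mul]
  rw [Finset.sum_congr rfl (fun y _ => e1 y), Finset.sum_comm]
  have e2 : ∀ x ∈ (a j).support,
      (∑ y, (if (M.act v x.1, x.2) = y then a j x * Y ν M y z else 0))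
        = a j x * push M v (shift x.1 (b x.2)) z := by
    intro x hx
    rw [Finset.sum_ite_eq, if_pos (Finset.mem_univ _)]
    have hx1 : x.1 ∈ gsupp a := mem_gsupp a j x hx
    rw [hFY ν M (M.act v x.1) (hdeep ν M v (M.good_mono h2 hv) x.1 hx1) x.2 z,
      push_shift M F0 v hv x.1 (h3 hx1) (b x.2) (fun y hy => h4 (mem_gsupp b x.2 y hy))]
  rw [Finset.sum_congr rfl e2]
  unfold mulG
  rw [bdL_eq_sum, push_sum, Finset.sum_apply]
  refine Finset.sum_congr rfl ?_
  intro x _
  rw [push_smul, Pi.smul_apply, smul_eq_mul]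

theorem rep_pow {n : ℕ} (X : ∀ ν, Mod G ν → Matrix (Fin ν × Fin n) (Fin ν × Fin n) ℤ)
    (a : Fin n → (G × Fin n →₀ ℤ)) (hX : Rep X a) (k : ℕ) :
    Rep (fun ν M => (X ν M) ^ k) (powG a k) := by
  induction k with
  | zero =>
    simp only [pow_zero]
    exact rep_one n
  | succ k ih =>
    simp only [pow_succ]
    exact rep_mul (fun ν M => (X ν M) ^ k) X (powG a k) a ih hX

/-- sufficiently good vertices are in `Gd` -/
lemma exists_good_Gd (C : Cpl G) (q : ℕ) : ∃ F : Finset G, ∀ (ν : ℕ) (M : Mod G ν),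
    M.good F ⊆ Gd C M q := by
  classical
  induction q with
  | zero =>
    refine ⟨∅, ?_⟩
    intro ν M v _
    exact Finset.mem_univ _
  | succ q ih =>
    obtain ⟨F, hF⟩ := ih
    obtain ⟨F', _, hF'⟩ := exists_deep F C.S
    refine ⟨C.S ∪ F', ?_⟩
    intro ν M v hv
    show v ∈ (M.good C.S).filter fun v => ∀ g ∈ C.S, M.act v g ∈ Gd C M q
    rw [Finset.mem_filter]
    refine ⟨M.good_mono Finset.subset_union_left hv, ?_⟩
    intro g hg
    exact hF ν M (hF' ν M v (M.good_mono Finset.subset_union_right hv) g hg)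

theorem rep_dM (C : Cpl G) (q : ℕ) : Rep (fun _ M => dM C M q) (C.D q) := by
  obtain ⟨F, hF⟩ := exists_good_Gd C q
  refine ⟨F, ?_⟩
  intro ν M v hv j y
  show (if v ∈ Gd C M q then push M v (C.D q j) else 0) y = _
  rw [if_pos (hF ν M hv)]

theorem rep_dMT (C : Cpl G) (q : ℕ) :
    Rep (fun _ M => (dM C M q).transpose) (starG (C.D q)) := by
  classical
  obtain ⟨F, hF⟩ := exists_good_Gd C q
  obtain ⟨F', _, hF'⟩ := exists_deep F (gsupp (C.D q) ∪ (gsupp (C.D q)).image fun g => g⁻¹)
  refine ⟨F' ∪ (gsupp (C.D q) ∪ (gsupp (C.D q)).image fun g => g⁻¹), ?_⟩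
  intro ν M w hw i x
  obtain ⟨v, j⟩ := x
  set S0 := gsupp (C.D q) ∪ (gsupp (C.D q)).image fun g => g⁻¹ with hS0
  have hGd : ∀ s ∈ gsupp (C.D q), M.act w s⁻¹ ∈ Gd C M q := by
    intro s hs
    refine hF ν M (hF' ν M w (M.good_mono Finset.subset_union_left hw) s⁻¹ ?_)
    rw [hS0]
    exact Finset.mem_union_right _ (Finset.mem_image.mpr ⟨s, hs, rfl⟩)
  have hback : ∀ s ∈ gsupp (C.D q), M.act (M.act w s⁻¹) s = w := by
    intro s hs
    have m1 : s⁻¹ ∈ F' ∪ S0 := by
      rw [hS0]
      exact Finset.mem_union_right _ (Finset.mem_union_right _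
        (Finset.mem_image.mpr ⟨s, hs, rfl⟩))
    have m2 : s ∈ F' ∪ S0 := by
      rw [hS0]
      exact Finset.mem_union_right _ (Finset.mem_union_left _ hs)
    rw [M.act_act hw m1 m2, inv_mul_cancel, M.act_one]
  have key : ∀ s ∈ gsupp (C.D q), (M.act w s⁻¹ = v ↔ (v ∈ Gd C M q ∧ M.act v s = w)) := by
    intro s hs
    constructor
    · intro e
      subst e
      exact ⟨hGd s hs, hback s hs⟩
    · rintro ⟨_, e⟩
      apply M.inj s
      show M.act (M.act w s⁻¹) s = M.act v s
      rw [hback s hs, e]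
  -- the right hand side
  have hR : push M w (starG (C.D q) i) (v, j)
      = ∑ y ∈ (C.D q j).support, if y.2 = i ∧ M.act w y.1⁻¹ = v then C.D q j y else 0 := by
    unfold starG
    rw [push_sum, Finset.sum_apply, Finset.sum_eq_single j]
    · unfold Finsupp.sum
      rw [push_sum, Finset.sum_apply]
      refine Finset.sum_congr rfl ?_
      intro y _
      show push M w (if y.2 = i then Finsupp.single (y.1⁻¹, j) (C.D q j y) else 0) (v, j) = _
      by_cases h1 : y.2 = i
      · rw [if_pos h1, push_single, Pi.single_apply]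
        by_cases h2 : M.act w y.1⁻¹ = v
        · rw [if_pos (by rw [h2] : (v, j) = (M.act w y.1⁻¹, j)), if_pos ⟨h1, h2⟩]
        · rw [if_neg (fun e => h2 (Prod.ext_iff.mp e).1.symm :
            ¬ ((v, j) = (M.act w y.1⁻¹, j))), if_neg (fun h => h2 h.2)]
      · rw [if_neg h1, if_neg (fun h => h1 h.1), push_zero, Pi.zero_apply]
    · intro j' _ hj'
      unfold Finsupp.sum
      rw [push_sum, Finset.sum_apply]
      refine Finset.sum_eq_zero ?_
      intro y _
      show push M w (if y.2 = i then Finsupp.single (y.1⁻¹, j') (C.D q j' y) else 0) (v, j) = 0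
      by_cases h1 : y.2 = i
      · rw [if_pos h1, push_single, Pi.single_apply, if_neg]
        intro e
        exact hj' (Prod.ext_iff.mp e).2.symm
      · rw [if_neg h1, push_zero, Pi.zero_apply]
    · intro h
      exact absurd (Finset.mem_univ j) h
  -- the left hand side
  have hL : (dM C M q).transpose (w, i) (v, j)
      = ∑ y ∈ (C.D q j).support, if y.2 = i ∧ M.act w y.1⁻¹ = v then C.D q j y else 0 := by
    rw [Matrix.transpose_apply]
    show (if v ∈ Gd C M q then push M v (C.D q j) else 0) (w, i) = _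
    by_cases hv : v ∈ Gd C M q
    · rw [if_pos hv, push_apply_sum]
      refine Finset.sum_congr rfl ?_
      intro y hy
      have hy1 := mem_gsupp (C.D q) j y hy
      have hk := key y.1 hy1
      by_cases h1 : y.2 = i
      · by_cases h2 : M.act v y.1 = w
        · rw [if_pos (by rw [h1, h2]), if_pos ⟨h1, hk.mpr ⟨hv, h2⟩⟩]
        · rw [if_neg (fun e => h2 (Prod.ext_iff.mp e).1), if_neg (fun e => h2 (hk.mp e.2).2)]
      · rw [if_neg (fun e => h1 (Prod.ext_iff.mp e).2), if_neg (fun e => h1 e.1)]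
    · rw [if_neg hv, Pi.zero_apply]
      symm
      refine Finset.sum_eq_zero ?_
      intro y hy
      rw [if_neg]
      rintro ⟨_, e⟩
      exact hv ((key y.1 (mem_gsupp (C.D q) j y hy)).mp e).1
  show (dM C M q).transpose (w, i) (v, j) = _
  rw [hL, hR]

end Pool.Agent.LT
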