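import Mathlib
import Pool.Agent.LT.Base
import Pool.Agent.LT.LAVol
import Pool.Agent.LT.LADet
import Pool.Agent.LT.NormB
import Pool.Agent.LT.Rep

set_option autoImplicit false

/-!
# Project LT, module AsmDef: the group ring matrices `D D*` and the Laplacians
-/

open scoped BigOperators

namespace Pool.Agent.LT

variable {G : Type} [Group G]

/-- `D D*` at position `q + 1` -/
noncomputable def aP (C : Cpl G) (q : ℕ) : Fin (C.nn (q + 1)) → (G × Fin (C.nn (q + 1)) →₀ ℤ) :=
  mulG (C.D q) (starG (C.D q))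

/-- the Laplacian at position `q + 1` -/
noncomputable def aL (C : Cpl G) (q : ℕ) : Fin (C.nn (q + 1)) → (G × Fin (C.nn (q + 1)) →₀ ℤ) :=
  fun j => aP C q j + mulG (starG (C.D (q + 1))) (C.D (q + 1)) j

/-- finite level version of `aP` -/
noncomputable def XP (C : Cpl G) (q : ℕ) (ν : ℕ) (M : Mod G ν) :
    Matrix (Fin ν × Fin (C.nn (q + 1))) (Fin ν × Fin (C.nn (q + 1))) ℤ :=
  dM C M q * (dM C M q).transpose

/-- finite level version of `aL` -/
noncomputable def XL (C : Cpl G) (q : ℕ) (ν : ℕ) (M : Mod G ν) :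
    Matrix (Fin ν × Fin (C.nn (q + 1))) (Fin ν × Fin (C.nn (q + 1))) ℤ :=
  XP C q ν M + (dM C M (q + 1)).transpose * dM C M (q + 1)

theorem rep_aP (C : Cpl G) (q : ℕ) : Rep (XP C q) (aP C q) :=
  rep_mul _ _ _ _ (rep_dM C q) (rep_dMT C q)

theorem rep_aL (C : Cpl G) (q : ℕ) : Rep (XL C q) (aL C q) :=
  rep_add _ _ _ _ (rep_aP C q) (rep_mul _ _ _ _ (rep_dMT C (q + 1)) (rep_dM C (q + 1)))

lemma toR_XP (C : Cpl G) (q ν : ℕ) (M : Mod G ν) :
    toR (XP C q ν M) = dR C M q * (dR C M q).transpose := by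
  unfold XP
  rw [toR_mul, toR_transpose]
  rfl

lemma toR_XL (C : Cpl G) (q ν : ℕ) (M : Mod G ν) :
    toR (XL C q ν M) = dR C M q * (dR C M q).transpose +
      (dR C M (q + 1)).transpose * dR C M (q + 1) := by
  have h1 : toR (XL C q ν M) = toR (XP C q ν M) +
      toR ((dM C M (q + 1)).transpose * dM C M (q + 1)) := by
    unfold XL
    ext i j
    simp [toR]
  rw [h1, toR_XP, toR_mul, toR_transpose]
  rfl

theorem psd_XP (C : Cpl G) (q ν : ℕ) (M : Mod G ν) : (toR (XP C q ν M)).PosSemidef := by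
  rw [toR_XP]
  exact gram_posSemidef _

theorem psd_XL (C : Cpl G) (q ν : ℕ) (M : Mod G ν) : (toR (XL C q ν M)).PosSemidef := by
  rw [toR_XL]
  refine Matrix.PosSemidef.add (gram_posSemidef _) ?_
  have h := gram_posSemidef (dR C M (q + 1)).transpose
  rwa [Matrix.transpose_transpose] at h

/-- a norm bound as an inequality of symmetric matrices -/
lemma psd_of_NB {m n : Type} [Fintype m] [DecidableEq m] [Fintype n] (A : Matrix m n ℝ) (b : ℝ)
    (h : NB A b) : ((b ^ 2) • (1 : Matrix m m ℝ) - A * A.transpose).PosSemidef := by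
  apply Matrix.PosSemidef.of_dotProduct_mulVec_nonneg
  · refine Matrix.IsHermitian.sub ?_ (gram_posSemidef A).1
    exact (Matrix.isHermitian_one (n := m) (α := ℝ)).smul (by simp [IsSelfAdjoint])
  · intro x
    have h1 := h x
    rw [star_trivial, Matrix.sub_mulVec, dotProduct_sub, Matrix.smul_mulVec, Matrix.one_mulVec,
      dotProduct_smul, smul_eq_mul, sub_nonneg]
    refine le_trans (le_of_eq ?_) h1
    rw [← Matrix.mulVec_mulVec, Matrix.dotProduct_mulVec, Matrix.mulVec_transpose]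

theorem le_XP (C : Cpl G) (q ν : ℕ) (M : Mod G ν) (b : ℝ) (hb : NB (dR C M q) b) :
    ((b ^ 2) • (1 : Matrix (Fin ν × Fin (C.nn (q + 1))) (Fin ν × Fin (C.nn (q + 1))) ℝ) -
      toR (XP C q ν M)).PosSemidef := by
  rw [toR_XP]
  exact psd_of_NB _ _ hb

theorem le_XL (C : Cpl G) (q ν : ℕ) (M : Mod G ν) (b : ℝ) (hb : NB (dR C M q) b)
    (hb' : NB (dR C M (q + 1)).transpose b) :
    ((2 * b ^ 2) • (1 : Matrix (Fin ν × Fin (C.nn (q + 1))) (Fin ν × Fin (C.nn (q + 1))) ℝ) -
      toR (XL C q ν M)).PosSemidef := by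
  rw [toR_XL]
  have h1 := psd_of_NB _ _ hb
  have h2 := psd_of_NB _ _ hb'
  rw [Matrix.transpose_transpose] at h2
  have h3 := Matrix.PosSemidef.add h1 h2
  convert h3 using 1
  rw [two_mul, add_smul]
  abel

theorem trZ_zero (C : Cpl G) (k : ℕ) : trZ (powG (aP C 0) (k + 1)) = 0 := by
  have h0 : ∀ j, C.D 0 j = 0 := by
    intro j
    ext y
    have := y.2
    rw [C.nn_zero] at this
    exact Fin.elim0 this
  have h1 : ∀ j, aP C 0 j = 0 := by
    intro j
    unfold aP mulG
    rw [h0 j, map_zero]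
  have h2 : ∀ j, powG (aP C 0) (k + 1) j = 0 := by
    intro j
    change bdL (aP C 0) (powG (aP C 0) k j) = 0
    unfold bdL
    rw [Finsupp.linearCombination_apply]
    refine Finset.sum_eq_zero fun x _ => ?_
    simp only [h1]
    simp [shift]
  unfold trZ
  refine Finset.sum_eq_zero fun j _ => ?_
  rw [h2 j]
  rfl

end Pool.Agent.LT
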