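import Mathlib

set_option autoImplicit false

/-!
# Project LT, module MeasLog: from `∫ log (s + δ²)` to `∫_{(0,∞)} log s`

PLAN. Let `L δ := ∫ log (s + δ²) dμ`, `A δ := 1/2 L δ - κ log δ`, `0 ≤ A δ ≤ K` for `0 < δ ≤ 1`.
(1) `μ {0} = κ`: `L δ / log (δ²) → μ {0}` for `δ → 0+` by dominated convergence.
(2) So `A δ = 1/2 ∫_{(0,∞)} log (s + δ²) dμ` (split off the atom `0`: `log (δ²) μ{0} = 2 κ log δ`).
(3) Fatou gives the integrability of `log` on `(0,∞)`, and dominated convergence the limit.
-/

open scoped BigOperators Topology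
open MeasureTheory

namespace Pool.Agent.LT

namespace MeasLogAux

lemma ae_mem {μ : Measure ℝ} {c : ℝ} (hc : μ (Set.Icc 0 c)ᶜ = 0) :
    ∀ᵐ s ∂μ, 0 ≤ s ∧ s ≤ c := by
  have : ∀ᵐ s ∂μ, s ∈ Set.Icc 0 c := by
    rw [ae_iff]
    exact hc
  exact this

lemma log_bounds {s c δ C : ℝ} (h0 : 0 ≤ s) (hs : s ≤ c) (hC : c + 1 ≤ C) (hδ : 0 < δ)
    (hδ1 : δ ≤ 1) : Real.log (δ ^ 2) ≤ Real.log (s + δ ^ 2) ∧ Real.log (s + δ ^ 2) ≤ Real.log C := by
  have h1 : 0 < δ ^ 2 := by positivity
  have h2 : δ ^ 2 ≤ 1 := by nlinarith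
  constructor
  · exact Real.log_le_log h1 (by linarith)
  · exact Real.log_le_log (by linarith) (by linarith)

lemma meas_logf (δ : ℝ) : Measurable (fun s : ℝ => Real.log (s + δ ^ 2)) :=
  Real.measurable_log.comp (measurable_id.add_const _)

lemma integrable_log {μ : Measure ℝ} (hμ : IsFiniteMeasure μ) {c C : ℝ}
    (hae : ∀ᵐ s ∂μ, 0 ≤ s ∧ s ≤ c) (hC : c + 1 ≤ C) {δ : ℝ} (hδ : 0 < δ)
    (hδ1 : δ ≤ 1) : Integrable (fun s : ℝ => Real.log (s + δ ^ 2)) μ := by
  refine Integrable.mono' (integrable_const (|Real.log (δ ^ 2)| + |Real.log C|))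
    (meas_logf δ).aestronglyMeasurable ?_
  filter_upwards [hae] with s hs
  obtain ⟨h1, h2⟩ := log_bounds hs.1 hs.2 hC hδ hδ1
  rw [Real.norm_eq_abs, abs_le]
  constructor
  · have := neg_abs_le (Real.log (δ ^ 2))
    have := abs_nonneg (Real.log C)
    linarith
  · have := le_abs_self (Real.log C)
    have := abs_nonneg (Real.log (δ ^ 2))
    linarith

/-- the atom at zero -/
lemma atom {μ : Measure ℝ} (hμ : IsFiniteMeasure μ) {c C : ℝ}
    (hae : ∀ᵐ s ∂μ, 0 ≤ s ∧ s ≤ c) (hC : c + 1 ≤ C) (hC1 : 1 ≤ C)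
    (κ K : ℝ) (hK : ∀ δ : ℝ, 0 < δ → δ ≤ 1 →
      0 ≤ 1 / 2 * ∫ s, Real.log (s + δ ^ 2) ∂μ - κ * Real.log δ ∧
        1 / 2 * ∫ s, Real.log (s + δ ^ 2) ∂μ - κ * Real.log δ ≤ K) :
    (μ {0}).toReal = κ := by
  have hev : ∀ᶠ δ : ℝ in 𝓝[>] 0, 0 < δ ∧ δ ≤ 1 / 2 := by
    have : Set.Ioc (0 : ℝ) (1 / 2) ∈ 𝓝[>] (0 : ℝ) := Ioc_mem_nhdsGT (by norm_num)
    exact this
  have hlogδ : Filter.Tendsto (fun δ : ℝ => Real.log δ) (𝓝[>] 0) Filter.atBot :=
    Real.tendsto_log_nhdsGT_zero
  have hlogδ2 : Filter.Tendsto (fun δ : ℝ => Real.log (δ ^ 2)) (𝓝[>] 0) Filter.atBot := by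
    have h2 : (fun δ : ℝ => Real.log (δ ^ 2)) = fun δ : ℝ => 2 * Real.log δ := by
      funext δ
      rw [Real.log_pow]
      norm_num
    rw [h2]
    exact hlogδ.const_mul_atBot (by norm_num)
  -- first limit
  have hlim1 : Filter.Tendsto (fun δ : ℝ => ∫ s, Real.log (s + δ ^ 2) / Real.log (δ ^ 2) ∂μ)
      (𝓝[>] 0) (𝓝 (∫ s, Set.indicator {0} (fun _ => (1 : ℝ)) s ∂μ)) := by
    refine tendsto_integral_filter_of_dominated_convergence (fun _ => 1 + Real.log C) ?_ ?_ ?_ ?_
    · exact Filter.Eventually.of_forall fun δ =>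
        ((meas_logf δ).div_const _).aestronglyMeasurable
    · filter_upwards [hev] with δ hδ
      filter_upwards [hae] with s hs
      obtain ⟨h1, h2⟩ := log_bounds hs.1 hs.2 hC hδ.1 (by linarith [hδ.2])
      have hlC : 0 ≤ Real.log C := Real.log_nonneg hC1
      have hneg : Real.log (δ ^ 2) ≤ -1 := by
        have h3 : δ ^ 2 ≤ 1 / 4 := by nlinarith [hδ.1, hδ.2]
        have h4 : Real.log (δ ^ 2) ≤ Real.log (1 / 4) :=
          Real.log_le_log (by have := hδ.1; positivity) h3
        have h5 : Real.log (1 / 4) ≤ -1 := by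
          have h6 : Real.log (1 / 4 : ℝ) = - (2 * Real.log 2) := by
            rw [show (1 / 4 : ℝ) = ((2 : ℝ) ^ 2)⁻¹ by norm_num, Real.log_inv, Real.log_pow]
            norm_num
          rw [h6]
          have := Real.log_two_gt_d9
          linarith
        linarith
      rw [Real.norm_eq_abs, abs_div]
      have habs : |Real.log (δ ^ 2)| = - Real.log (δ ^ 2) := abs_of_nonpos (by linarith)
      rw [habs, div_le_iff₀ (by linarith), abs_le]
      constructor
      · nlinarith
      · nlinarith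
    · exact integrable_const _
    · filter_upwards [hae] with s hs
      rcases eq_or_lt_of_le hs.1 with h0 | h0
      · subst h0
        rw [Set.indicator_of_mem (Set.mem_singleton _)]
        refine tendsto_const_nhds.congr' ?_
        filter_upwards [hev] with δ hδ
        have hne : Real.log (δ ^ 2) ≠ 0 := by
          have : Real.log (δ ^ 2) < 0 := by
            refine Real.log_neg (by have := hδ.1; positivity) ?_
            nlinarith [hδ.1, hδ.2]
          exact this.ne
        rw [zero_add, div_self hne]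
      · have hns : s ∉ ({0} : Set ℝ) := by
          intro h
          rw [Set.mem_singleton_iff] at h
          exact h0.ne' h
        rw [Set.indicator_of_notMem hns]
        have hnum : Filter.Tendsto (fun δ : ℝ => Real.log (s + δ ^ 2)) (𝓝[>] 0)
            (𝓝 (Real.log s)) := by
          have hc0 : ContinuousAt (fun δ : ℝ => Real.log (s + δ ^ 2)) 0 := by
            refine ContinuousAt.log (by fun_prop) ?_
            simp
            exact h0.ne'
          have := hc0.tendsto
          simp only [ne_eq, OfNat.ofNat_ne_zero, not_false_eq_true, zero_pow, add_zero] at this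
          exact this.mono_left nhdsWithin_le_nhds
        exact hnum.div_atBot hlogδ2
  -- value of the limit
  have hval : ∫ s, Set.indicator {0} (fun _ => (1 : ℝ)) s ∂μ = (μ {0}).toReal := by
    rw [integral_indicator (measurableSet_singleton 0)]
    simp [Measure.real]
  -- second limit
  have hlim2 : Filter.Tendsto (fun δ : ℝ => ∫ s, Real.log (s + δ ^ 2) / Real.log (δ ^ 2) ∂μ)
      (𝓝[>] 0) (𝓝 κ) := by
    have hA : Filter.Tendsto (fun δ : ℝ =>
        (1 / 2 * ∫ s, Real.log (s + δ ^ 2) ∂μ - κ * Real.log δ) / Real.log δ) (𝓝[>] 0) (𝓝 0) := by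
      have hinv : Filter.Tendsto (fun δ : ℝ => K / |Real.log δ|) (𝓝[>] 0) (𝓝 0) := by
        have h1 : Filter.Tendsto (fun δ : ℝ => |Real.log δ|) (𝓝[>] 0) Filter.atTop :=
          Filter.tendsto_abs_atBot_atTop.comp hlogδ
        exact h1.const_div_atTop K
      refine squeeze_zero_norm' ?_ hinv
      filter_upwards [hev] with δ hδ
      obtain ⟨h1, h2⟩ := hK δ hδ.1 (by linarith [hδ.2])
      rw [norm_div, Real.norm_eq_abs, Real.norm_eq_abs, abs_of_nonneg h1]
      exact div_le_div_of_nonneg_right h2 (abs_nonneg _)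
    have hB := hA.add_const κ
    rw [zero_add] at hB
    refine hB.congr' ?_
    filter_upwards [hev] with δ hδ
    have hne : Real.log δ ≠ 0 := by
      have : Real.log δ < 0 := Real.log_neg hδ.1 (by linarith [hδ.2])
      exact this.ne
    rw [integral_div, Real.log_pow]
    push_cast
    field_simp
    ring
  have := tendsto_nhds_unique hlim1 hlim2
  rw [hval] at this
  exact this

end MeasLogAux

open MeasLogAux in
theorem meas_log (μ : Measure ℝ) (hμ : IsFiniteMeasure μ) (c : ℝ) (hc : μ (Set.Icc 0 c)ᶜ = 0)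
    (κ K : ℝ) (hK : ∀ δ : ℝ, 0 < δ → δ ≤ 1 →
      0 ≤ 1 / 2 * ∫ s, Real.log (s + δ ^ 2) ∂μ - κ * Real.log δ ∧
        1 / 2 * ∫ s, Real.log (s + δ ^ 2) ∂μ - κ * Real.log δ ≤ K) :
    (μ {0}).toReal = κ ∧ IntegrableOn Real.log (Set.Ioi 0) μ ∧
      Filter.Tendsto (fun δ : ℝ => 1 / 2 * ∫ s, Real.log (s + δ ^ 2) ∂μ - κ * Real.log δ)
        (𝓝[>] 0) (𝓝 (1 / 2 * ∫ s in Set.Ioi 0, Real.log s ∂μ)) := by
  have hae := ae_mem hc
  set C : ℝ := |c| + 1 with hCdef
  have hC : c + 1 ≤ C := by
    have := le_abs_self c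
    rw [hCdef]; linarith
  have hC1 : 1 ≤ C := by
    have := abs_nonneg c
    rw [hCdef]; linarith
  have hlC : 0 ≤ Real.log C := Real.log_nonneg hC1
  have hatom := atom hμ hae hC hC1 κ K hK
  have hev : ∀ᶠ δ : ℝ in 𝓝[>] 0, 0 < δ ∧ δ ≤ 1 := by
    have : Set.Ioc (0 : ℝ) 1 ∈ 𝓝[>] (0 : ℝ) := Ioc_mem_nhdsGT (by norm_num)
    exact this
  -- step 2
  have hstep : ∀ δ : ℝ, 0 < δ → δ ≤ 1 →
      1 / 2 * ∫ s, Real.log (s + δ ^ 2) ∂μ - κ * Real.log δ =
        1 / 2 * ∫ s in Set.Ioi 0, Real.log (s + δ ^ 2) ∂μ := by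
    intro δ hδ hδ1
    have hint := integrable_log hμ hae hC hδ hδ1
    have h1 : ∫ s, Real.log (s + δ ^ 2) ∂μ = ∫ s in Set.Ici 0, Real.log (s + δ ^ 2) ∂μ := by
      symm
      refine setIntegral_eq_integral_of_ae_compl_eq_zero ?_
      filter_upwards [hae] with s hs hs'
      exact absurd hs.1 hs'
    have h2 : Set.Ici (0 : ℝ) = {0} ∪ Set.Ioi 0 := by
      ext s
      simp only [Set.mem_Ici, Set.mem_union, Set.mem_singleton_iff, Set.mem_Ioi]
      constructor
      · intro h
        rcases eq_or_lt_of_le h with h | h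
        · exact Or.inl h.symm
        · exact Or.inr h
      · rintro (h | h)
        · rw [h]
        · exact h.le
    have hdisj : Disjoint ({0} : Set ℝ) (Set.Ioi 0) := by
      rw [Set.disjoint_singleton_left]
      simp
    have h3 : ∫ s in Set.Ici 0, Real.log (s + δ ^ 2) ∂μ =
        (∫ s in ({0} : Set ℝ), Real.log (s + δ ^ 2) ∂μ) +
          ∫ s in Set.Ioi 0, Real.log (s + δ ^ 2) ∂μ := by
      rw [h2, setIntegral_union hdisj measurableSet_Ioi hint.integrableOn hint.integrableOn]
    have h4 : ∫ s in ({0} : Set ℝ), Real.log (s + δ ^ 2) ∂μ = κ * (2 * Real.log δ) := by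
      rw [integral_singleton, Measure.real, hatom, zero_add, Real.log_pow, smul_eq_mul]
      norm_num
    rw [h1, h3, h4]
    ring
  -- integrability
  have hintIoi : IntegrableOn Real.log (Set.Ioi 0) μ := by
    set ν := μ.restrict (Set.Ioi 0) with hν
    have haeν : ∀ᵐ s ∂ν, 0 < s ∧ s ≤ c := by
      have h1 : ∀ᵐ s ∂ν, 0 ≤ s ∧ s ≤ c := ae_restrict_of_ae hae
      have h2 : ∀ᵐ s ∂ν, s ∈ Set.Ioi (0 : ℝ) := ae_restrict_mem measurableSet_Ioi
      filter_upwards [h1, h2] with s hs hs'
      exact ⟨hs', hs.2⟩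
    have haeν' : ∀ᵐ s ∂ν, 0 ≤ s ∧ s ≤ c := by
      filter_upwards [haeν] with s hs
      exact ⟨hs.1.le, hs.2⟩
    have hνfin : IsFiniteMeasure ν := by rw [hν]; infer_instance
    let d : ℕ → ℝ := fun k => 1 / ((k : ℝ) + 1)
    have hd0 : ∀ k, 0 < d k := fun k => by positivity
    have hd1 : ∀ k, d k ≤ 1 := fun k => by
      show 1 / ((k : ℝ) + 1) ≤ 1
      rw [div_le_one (by positivity)]
      have : (0 : ℝ) ≤ k := Nat.cast_nonneg k
      linarith
    have hdlim : Filter.Tendsto d Filter.atTop (𝓝 0) := tendsto_one_div_add_atTop_nhds_zero_nat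
    have hFint : Integrable (fun s : ℝ => Real.log C - Real.log s) ν := by
      refine ⟨(measurable_const.sub Real.measurable_log).aestronglyMeasurable, ?_⟩
      rw [hasFiniteIntegral_iff_ofReal]
      · have hfat : ∫⁻ s, ENNReal.ofReal (Real.log C - Real.log s) ∂ν ≤
            Filter.liminf (fun k => ∫⁻ s, ENNReal.ofReal (Real.log C - Real.log (s + d k ^ 2)) ∂ν)
              Filter.atTop := by
          refine le_trans (le_of_eq ?_) (lintegral_liminf_le fun k =>
            (measurable_const.sub (meas_logf (d k))).ennreal_ofReal)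
          refine lintegral_congr_ae ?_
          filter_upwards [haeν] with s hs
          symm
          refine Filter.Tendsto.liminf_eq ?_
          refine ENNReal.tendsto_ofReal ?_
          refine tendsto_const_nhds.sub ?_
          have hc0 : ContinuousAt (fun δ : ℝ => Real.log (s + δ ^ 2)) 0 := by
            refine ContinuousAt.log (by fun_prop) ?_
            simp
            exact hs.1.ne'
          have h5 := hc0.tendsto
          simp only [ne_eq, OfNat.ofNat_ne_zero, not_false_eq_true, zero_pow, add_zero] at h5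
          exact h5.comp hdlim
        have hbd : ∀ k, ∫⁻ s, ENNReal.ofReal (Real.log C - Real.log (s + d k ^ 2)) ∂ν ≤
            ENNReal.ofReal (Real.log C * ν.real Set.univ) := by
          intro k
          have hi : Integrable (fun s : ℝ => Real.log (s + d k ^ 2)) ν :=
            integrable_log hνfin haeν' hC (hd0 k) (hd1 k)
          have hi2 : Integrable (fun s : ℝ => Real.log C - Real.log (s + d k ^ 2)) ν :=
            (integrable_const _).sub hi
          rw [← ofReal_integral_eq_lintegral_ofReal hi2]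
          · refine ENNReal.ofReal_le_ofReal ?_
            rw [integral_sub (integrable_const _) hi, integral_const, smul_eq_mul]
            have h6 := (hK (d k) (hd0 k) (hd1 k)).1
            rw [hstep (d k) (hd0 k) (hd1 k)] at h6
            linarith
          · filter_upwards [haeν'] with s hs
            have := (log_bounds hs.1 hs.2 hC (hd0 k) (hd1 k)).2
            show (0 : ℝ) ≤ Real.log C - Real.log (s + d k ^ 2)
            linarith
        refine lt_of_le_of_lt (hfat.trans ?_) (ENNReal.ofReal_lt_top (r := Real.log C * ν.real Set.univ))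
        refine Filter.liminf_le_of_frequently_le' ?_
        exact Filter.Frequently.of_forall hbd
      · filter_upwards [haeν] with s hs
        have h7 : Real.log s ≤ Real.log C := Real.log_le_log hs.1 (by linarith [hs.2])
        show (0 : ℝ) ≤ Real.log C - Real.log s
        linarith
    have h8 : Integrable (fun s : ℝ => Real.log C - (Real.log C - Real.log s)) ν :=
      (integrable_const _).sub hFint
    have h9 : (fun s : ℝ => Real.log C - (Real.log C - Real.log s)) = Real.log := by
      funext s; ring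
    rw [h9] at h8
    exact h8
  refine ⟨hatom, hintIoi, ?_⟩
  have hlim : Filter.Tendsto (fun δ : ℝ => ∫ s in Set.Ioi 0, Real.log (s + δ ^ 2) ∂μ)
      (𝓝[>] 0) (𝓝 (∫ s in Set.Ioi 0, Real.log s ∂μ)) := by
    have haeν : ∀ᵐ s ∂(μ.restrict (Set.Ioi 0)), 0 < s ∧ s ≤ c := by
      have h1 : ∀ᵐ s ∂(μ.restrict (Set.Ioi 0)), 0 ≤ s ∧ s ≤ c := ae_restrict_of_ae hae
      have h2 : ∀ᵐ s ∂(μ.restrict (Set.Ioi 0)), s ∈ Set.Ioi (0 : ℝ) :=
        ae_restrict_mem measurableSet_Ioi
      filter_upwards [h1, h2] with s hs hs'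
      exact ⟨hs', hs.2⟩
    refine tendsto_integral_filter_of_dominated_convergence
      (fun s => |Real.log s| + Real.log C) ?_ ?_ ?_ ?_
    · exact Filter.Eventually.of_forall fun δ => (meas_logf δ).aestronglyMeasurable
    · filter_upwards [hev] with δ hδ
      filter_upwards [haeν] with s hs
      have h1 := (log_bounds hs.1.le hs.2 hC hδ.1 hδ.2).2
      have h2 : Real.log s ≤ Real.log (s + δ ^ 2) :=
        Real.log_le_log hs.1 (by have := hδ.1; positivity |> fun h : 0 ≤ δ ^ 2 => by linarith)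
      rw [Real.norm_eq_abs, abs_le]
      constructor
      · have := neg_abs_le (Real.log s)
        linarith
      · have := abs_nonneg (Real.log s)
        linarith
    · exact hintIoi.abs.add (integrable_const _)
    · filter_upwards [haeν] with s hs
      have hc0 : ContinuousAt (fun δ : ℝ => Real.log (s + δ ^ 2)) 0 := by
        refine ContinuousAt.log (by fun_prop) ?_
        simp
        exact hs.1.ne'
      have h5 := hc0.tendsto
      simp only [ne_eq, OfNat.ofNat_ne_zero, not_false_eq_true, zero_pow, add_zero] at h5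
      exact h5.mono_left nhdsWithin_le_nhds
  refine (hlim.const_mul (1 / 2)).congr' ?_
  filter_upwards [hev] with δ hδ
  exact (hstep δ hδ.1 hδ.2).symm

end Pool.Agent.LT
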