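import Mathlib
import Pool.Agent.LT.Defs
import Pool.Agent.LT.Base
import Pool.Agent.LT.ModB

set_option autoImplicit false

/-!
# Project LT, module Net: a net of better and better models of a sofic group

PLAN. For `i = (F,k)` apply `IsSofic` with the finite set
`F1 := F ∪ F⁻¹ ∪ F * F ∪ ...` (containing all `g, g⁻¹, g h, (g h)⁻¹, h⁻¹ * g⁻¹, g⁻¹ * h` for `g, h ∈ F ∪ {1}`)
and `e := 1/((k+1) (|F| + 1)^2 * 4)`: `n, σ`. Put `act v g := if g = 1 then v else (σ g)⁻¹ v`
(`(σ g).symm v`). It is injective in `v`, `act_one`. The vertex `v` is `F`-good unless for some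
`g, h ∈ F` one of the following happens:
`act (act v g) h ≠ act v (g h)`, or `g ≠ h` and `act v g = act v h`. For given `g, h ∈ F` different from
`1`: `act (act v g) h = σ(h)⁻¹ σ(g)⁻¹ v`; put `w := σ(h)⁻¹ σ(g)⁻¹ v`, so `v = σ g (σ h w)`; if
`σ (g h) w = σ g (σ h w)` then `w = σ(g h)⁻¹ v`, which is `act v (g h)` when `g h ≠ 1`. So the number
of exceptional `v` is at most `e n` (`v ↦ w` is a bijection). If `g h = 1` one needs
`σ 1 w = w` for most `w`: from `σ (1 * 1) w = σ 1 (σ 1 w)` for all but `e n` of the `w`, hence (inject)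
`σ 1 w = w` for all but `e n`. The second condition: if `σ(g)⁻¹ v = σ(h)⁻¹ v =: w`, `g ≠ h`, then
`σ g w = v = σ h w`; let `k := g⁻¹ h ≠ 1`, `h = g k`: for most `w`, `σ h w = σ g (σ k w)`, so `σ k w = w`,
which holds for at most `e n` of the `w`. (If `g = 1` use that `σ 1 = 1` at most points.)
In total at most `4 (|F|+1)^2 e n ≤ n/(k+1)` exceptional vertices: `bad F ≤ n/(k+1)`.
`Tendsto`: for fixed `F`, for all `(F',k) ≥ (F,K)` we have `bad F ≤ bad F' ≤ ν/(k+1)`.
-/

open scoped BigOperators Topology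

namespace Pool.Agent.LT

private theorem card_comap_le {n : ℕ} (T : Finset (Fin n)) (f : Fin n → Fin n)
    (hf : Function.Injective f) (X : Finset (Fin n)) (h : ∀ v ∈ X, f v ∈ T) : X.card ≤ T.card :=
  Finset.card_le_card_of_injOn f h hf.injOn

open Classical in
/-- the action attached to an almost homomorphism -/
private noncomputable def actS {G : Type} [Group G] {n : ℕ} (σ : G → Equiv.Perm (Fin n)) (v : Fin n)
    (g : G) : Fin n := if g = 1 then v else (σ g).symm v

private theorem actS_one {G : Type} [Group G] {n : ℕ} (σ : G → Equiv.Perm (Fin n)) (v : Fin n) :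
    actS σ v 1 = v := by
  unfold actS
  rw [if_pos rfl]

private theorem actS_ne {G : Type} [Group G] {n : ℕ} (σ : G → Equiv.Perm (Fin n)) (v : Fin n)
    {g : G} (hg : g ≠ 1) : actS σ v g = (σ g).symm v := by
  unfold actS
  rw [if_neg hg]

private theorem actS_inj {G : Type} [Group G] {n : ℕ} (σ : G → Equiv.Perm (Fin n)) (g : G) :
    Function.Injective fun v => actS σ v g := by
  intro v w h
  by_cases hg : g = 1
  · subst hg
    simpa only [actS_one] using h
  · simp only [actS_ne σ _ hg] at h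
    exact (σ g).symm.injective h

open Classical in
private theorem card_A {G : Type} [Group G] {n : ℕ} (σ : G → Equiv.Perm (Fin n)) (g h : G) (c : ℝ)
    (hc : 0 ≤ c)
    (h1 : ((Finset.univ.filter fun v => σ (g * h) v ≠ σ g (σ h v)).card : ℝ) ≤ c)
    (h2 : ((Finset.univ.filter fun v => σ (1 * 1) v ≠ σ 1 (σ 1 v)).card : ℝ) ≤ c) :
    ((Finset.univ.filter fun v => actS σ (actS σ v g) h ≠ actS σ v (g * h)).card : ℝ) ≤ 2 * c := by
  by_cases hg : g = 1
  · subst hg
    have : (Finset.univ.filter fun v => actS σ (actS σ v 1) h ≠ actS σ v (1 * h)) = ∅ := by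
      apply Finset.filter_false_of_mem
      intro v _
      rw [actS_one, one_mul, not_not]
    rw [this, Finset.card_empty]
    push_cast
    linarith
  by_cases hh : h = 1
  · subst hh
    have : (Finset.univ.filter fun v => actS σ (actS σ v g) 1 ≠ actS σ v (g * 1)) = ∅ := by
      apply Finset.filter_false_of_mem
      intro v _
      rw [actS_one, mul_one, not_not]
    rw [this, Finset.card_empty]
    push_cast
    linarith
  have hle : (Finset.univ.filter fun v => actS σ (actS σ v g) h ≠ actS σ v (g * h)).card ≤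
      ((Finset.univ.filter fun v => σ (g * h) v ≠ σ g (σ h v)) ∪
        (Finset.univ.filter fun v => σ (1 * 1) v ≠ σ 1 (σ 1 v))).card := by
    refine card_comap_le _ (fun v => (σ h).symm ((σ g).symm v)) ?_ _ ?_
    · intro v w hvw
      exact (σ g).symm.injective ((σ h).symm.injective hvw)
    · intro v hv
      rw [Finset.mem_filter] at hv
      rw [actS_ne σ _ hg, actS_ne σ _ hh] at hv
      by_contra hcon
      rw [Finset.mem_union, not_or, Finset.mem_filter, Finset.mem_filter] at hcon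
      obtain ⟨c1, c2⟩ := hcon
      have c1' : σ (g * h) ((σ h).symm ((σ g).symm v)) = v := by
        by_contra hc1
        apply c1
        refine ⟨Finset.mem_univ _, ?_⟩
        rw [Equiv.apply_symm_apply, Equiv.apply_symm_apply]
        exact hc1
      by_cases hgh : g * h = 1
      · have c2' : σ 1 ((σ h).symm ((σ g).symm v)) = (σ h).symm ((σ g).symm v) := by
          by_contra hc2
          apply c2
          refine ⟨Finset.mem_univ _, ?_⟩
          rw [one_mul]
          intro hc3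
          exact hc2 ((σ 1).injective hc3.symm)
        apply hv.2
        rw [hgh, actS_one, ← c2', ← hgh]
        exact c1'
      · apply hv.2
        rw [actS_ne σ _ hgh, Equiv.eq_symm_apply]
        exact c1'
  have h3 := Finset.card_union_le (Finset.univ.filter fun v => σ (g * h) v ≠ σ g (σ h v))
    (Finset.univ.filter fun v => σ (1 * 1) v ≠ σ 1 (σ 1 v))
  have h4 : ((Finset.univ.filter fun v => actS σ (actS σ v g) h ≠ actS σ v (g * h)).card : ℝ) ≤
      ((Finset.univ.filter fun v => σ (g * h) v ≠ σ g (σ h v)).card : ℝ) +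
      ((Finset.univ.filter fun v => σ (1 * 1) v ≠ σ 1 (σ 1 v)).card : ℝ) := by
    exact_mod_cast hle.trans h3
  linarith

open Classical in
private theorem card_B {G : Type} [Group G] {n : ℕ} (σ : G → Equiv.Perm (Fin n)) (g h : G)
    (hgh : g ≠ h) (c : ℝ) (hc : 0 ≤ c)
    (h1 : ((Finset.univ.filter fun v => σ (g * (g⁻¹ * h)) v ≠ σ g (σ (g⁻¹ * h) v)).card : ℝ) ≤ c)
    (h2 : ((Finset.univ.filter fun v => σ (g⁻¹ * h) v = v).card : ℝ) ≤ c)
    (h3 : g ≠ 1 → ((Finset.univ.filter fun v => σ g v = v).card : ℝ) ≤ c)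
    (h4 : h ≠ 1 → ((Finset.univ.filter fun v => σ h v = v).card : ℝ) ≤ c) :
    ((Finset.univ.filter fun v => actS σ v g = actS σ v h).card : ℝ) ≤ 2 * c := by
  by_cases hg : g = 1
  · subst hg
    have hh : h ≠ 1 := Ne.symm hgh
    have h5 : (Finset.univ.filter fun v => actS σ v 1 = actS σ v h) ⊆
        (Finset.univ.filter fun v => σ h v = v) := by
      intro v hv
      rw [Finset.mem_filter] at hv ⊢
      refine ⟨hv.1, ?_⟩
      have h6 := hv.2
      rw [actS_one, actS_ne σ _ hh, Equiv.eq_symm_apply] at h6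
      exact h6
    have h6 : ((Finset.univ.filter fun v => actS σ v 1 = actS σ v h).card : ℝ) ≤
        ((Finset.univ.filter fun v => σ h v = v).card : ℝ) := by
      exact_mod_cast Finset.card_le_card h5
    linarith [h4 hh]
  by_cases hh : h = 1
  · subst hh
    have h5 : (Finset.univ.filter fun v => actS σ v g = actS σ v 1) ⊆
        (Finset.univ.filter fun v => σ g v = v) := by
      intro v hv
      rw [Finset.mem_filter] at hv ⊢
      refine ⟨hv.1, ?_⟩
      have h6 := hv.2
      rw [actS_one, actS_ne σ _ hg, Equiv.symm_apply_eq] at h6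
      exact h6.symm
    have h6 : ((Finset.univ.filter fun v => actS σ v g = actS σ v 1).card : ℝ) ≤
        ((Finset.univ.filter fun v => σ g v = v).card : ℝ) := by
      exact_mod_cast Finset.card_le_card h5
    linarith [h3 hg]
  have hle : (Finset.univ.filter fun v => actS σ v g = actS σ v h).card ≤
      ((Finset.univ.filter fun v => σ (g * (g⁻¹ * h)) v ≠ σ g (σ (g⁻¹ * h) v)) ∪
        (Finset.univ.filter fun v => σ (g⁻¹ * h) v = v)).card := by
    refine card_comap_le _ (fun v => (σ g).symm v) (σ g).symm.injective _ ?_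
    intro v hv
    rw [Finset.mem_filter] at hv
    rw [actS_ne σ _ hg, actS_ne σ _ hh] at hv
    by_contra hcon
    rw [Finset.mem_union, not_or, Finset.mem_filter, Finset.mem_filter] at hcon
    obtain ⟨c1, c2⟩ := hcon
    have c1' : σ (g * (g⁻¹ * h)) ((σ g).symm v) = σ g (σ (g⁻¹ * h) ((σ g).symm v)) := by
      by_contra hc1
      exact c1 ⟨Finset.mem_univ _, hc1⟩
    rw [mul_inv_cancel_left, hv.2, Equiv.apply_symm_apply, ← hv.2] at c1'
    apply c2
    refine ⟨Finset.mem_univ _, ?_⟩
    rw [Equiv.eq_symm_apply]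
    exact c1'.symm
  have h5 := Finset.card_union_le
    (Finset.univ.filter fun v => σ (g * (g⁻¹ * h)) v ≠ σ g (σ (g⁻¹ * h) v))
    (Finset.univ.filter fun v => σ (g⁻¹ * h) v = v)
  have h6 : ((Finset.univ.filter fun v => actS σ v g = actS σ v h).card : ℝ) ≤
      ((Finset.univ.filter fun v => σ (g * (g⁻¹ * h)) v ≠ σ g (σ (g⁻¹ * h) v)).card : ℝ) +
      ((Finset.univ.filter fun v => σ (g⁻¹ * h) v = v).card : ℝ) := by
    exact_mod_cast hle.trans h5
  linarith

theorem exists_good_model {G : Type} [Group G] (hG : IsSofic G) (F : Finset G) (e : ℝ)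
    (he : 0 < e) : ∃ (ν : ℕ) (M : Mod G ν), 0 < ν ∧ (M.bad F : ℝ) ≤ e * ν := by
  classical
  set F1 : Finset G := insert 1 (F ∪ (F ×ˢ F).image fun p => p.1⁻¹ * p.2) with hF1
  have m1 : (1 : G) ∈ F1 := Finset.mem_insert_self _ _
  have mF : ∀ g ∈ F, g ∈ F1 := fun g hg =>
    Finset.mem_insert_of_mem (Finset.mem_union_left _ hg)
  have mK : ∀ g ∈ F, ∀ h ∈ F, g⁻¹ * h ∈ F1 := fun g hg h hh =>
    Finset.mem_insert_of_mem (Finset.mem_union_right _ (Finset.mem_image.2
      ⟨(g, h), Finset.mem_product.2 ⟨hg, hh⟩, rfl⟩))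
  set e1 : ℝ := e / (4 * ((F.card : ℝ) + 1) ^ 2) with he1
  have hpos : (0 : ℝ) < 4 * ((F.card : ℝ) + 1) ^ 2 := by positivity
  have he1pos : 0 < e1 := div_pos he hpos
  obtain ⟨n, σ, hn, hs1, hs2⟩ := hG F1 e1 he1pos
  refine ⟨n, ⟨actS σ, actS_one σ, actS_inj σ⟩, hn, ?_⟩
  set M : Mod G n := ⟨actS σ, actS_one σ, actS_inj σ⟩ with hM
  have hc : 0 ≤ e1 * n := by positivity
  have hsub : (M.good F)ᶜ ⊆ (F ×ˢ F).biUnion fun p =>
      (Finset.univ.filter fun v => actS σ (actS σ v p.1) p.2 ≠ actS σ v (p.1 * p.2)) ∪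
      (if p.1 = p.2 then ∅ else Finset.univ.filter fun v => actS σ v p.1 = actS σ v p.2) := by
    intro v hv
    rw [Finset.mem_compl] at hv
    unfold Mod.good at hv
    rw [Finset.mem_filter, not_and] at hv
    have hv' := hv (Finset.mem_univ _)
    rw [not_and_or] at hv'
    rw [Finset.mem_biUnion]
    rcases hv' with h | h
    · push Not at h
      obtain ⟨g, hg, k, hk, hgk⟩ := h
      refine ⟨(g, k), Finset.mem_product.2 ⟨hg, hk⟩, Finset.mem_union_left _ ?_⟩
      exact Finset.mem_filter.2 ⟨Finset.mem_univ _, hgk⟩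
    · push Not at h
      obtain ⟨g, hg, k, hk, hgk, hne⟩ := h
      refine ⟨(g, k), Finset.mem_product.2 ⟨hg, hk⟩, Finset.mem_union_right _ ?_⟩
      dsimp only
      rw [if_neg hne]
      exact Finset.mem_filter.2 ⟨Finset.mem_univ _, hgk⟩
  have hbad : (M.bad F : ℝ) ≤ ∑ p ∈ F ×ˢ F, (4 * (e1 * n)) := by
    have h1 : M.bad F ≤ ∑ p ∈ F ×ˢ F,
        ((Finset.univ.filter fun v => actS σ (actS σ v p.1) p.2 ≠ actS σ v (p.1 * p.2)) ∪
      (if p.1 = p.2 then ∅ else Finset.univ.filter fun v => actS σ v p.1 = actS σ v p.2)).card :=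
      (Finset.card_le_card hsub).trans Finset.card_biUnion_le
    have h2 : (M.bad F : ℝ) ≤ ∑ p ∈ F ×ˢ F,
        (((Finset.univ.filter fun v => actS σ (actS σ v p.1) p.2 ≠ actS σ v (p.1 * p.2)) ∪
      (if p.1 = p.2 then ∅ else Finset.univ.filter fun v => actS σ v p.1 = actS σ v p.2)).card : ℝ) := by
      exact_mod_cast h1
    refine h2.trans (Finset.sum_le_sum fun p hp => ?_)
    obtain ⟨hp1, hp2⟩ := Finset.mem_product.1 hp
    have h3 := Finset.card_union_le
      (Finset.univ.filter fun v => actS σ (actS σ v p.1) p.2 ≠ actS σ v (p.1 * p.2))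
      (if p.1 = p.2 then ∅ else Finset.univ.filter fun v => actS σ v p.1 = actS σ v p.2)
    have h4 := card_A σ p.1 p.2 (e1 * n) hc (hs1 p.1 (mF _ hp1) p.2 (mF _ hp2)) (hs1 1 m1 1 m1)
    have h5 : (((if p.1 = p.2 then ∅ else
        Finset.univ.filter fun v => actS σ v p.1 = actS σ v p.2) : Finset (Fin n)).card : ℝ) ≤
          2 * (e1 * n) := by
      by_cases hpp : p.1 = p.2
      · rw [if_pos hpp, Finset.card_empty]
        push_cast
        linarith
      · rw [if_neg hpp]
        refine card_B σ p.1 p.2 hpp (e1 * n) hc (hs1 p.1 (mF _ hp1) _ (mK _ hp1 _ hp2))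
          (hs2 _ (mK _ hp1 _ hp2) ?_) (fun h => hs2 _ (mF _ hp1) h) (fun h => hs2 _ (mF _ hp2) h)
        intro h
        exact hpp (inv_mul_eq_one.1 h)
    have h6 : (((Finset.univ.filter fun v =>
        actS σ (actS σ v p.1) p.2 ≠ actS σ v (p.1 * p.2)) ∪
      (if p.1 = p.2 then ∅ else
        Finset.univ.filter fun v => actS σ v p.1 = actS σ v p.2)).card : ℝ) ≤
      ((Finset.univ.filter fun v =>
        actS σ (actS σ v p.1) p.2 ≠ actS σ v (p.1 * p.2)).card : ℝ) +
      (((if p.1 = p.2 then ∅ else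
        Finset.univ.filter fun v => actS σ v p.1 = actS σ v p.2) : Finset (Fin n)).card : ℝ) := by
      exact_mod_cast h3
    linarith
  rw [Finset.sum_const, Finset.card_product, nsmul_eq_mul] at hbad
  refine hbad.trans ?_
  have h7 : e1 * (4 * ((F.card : ℝ) + 1) ^ 2) = e := div_mul_cancel₀ e hpos.ne'
  have h8 : (F.card : ℝ) * F.card ≤ ((F.card : ℝ) + 1) ^ 2 := by
    have h9 : (0 : ℝ) ≤ F.card := Nat.cast_nonneg _
    nlinarith
  calc ((F.card * F.card : ℕ) : ℝ) * (4 * (e1 * n))
      = ((F.card : ℝ) * F.card) * (4 * (e1 * n)) := by push_cast; ring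
    _ ≤ ((F.card : ℝ) + 1) ^ 2 * (4 * (e1 * n)) :=
        mul_le_mul_of_nonneg_right h8 (by linarith)
    _ = (e1 * (4 * ((F.card : ℝ) + 1) ^ 2)) * n := by ring
    _ = e * n := by rw [h7]

/-- a net of models -/
structure Net (G : Type) [Group G] where
  /-- number of vertices -/
  ν : Finset G × ℕ → ℕ
  /-- the models -/
  M : ∀ i, Mod G (ν i)
  pos : ∀ i, 0 < ν i
  tends : ∀ F : Finset G, Filter.Tendsto (fun i => ((M i).bad F : ℝ) / ν i) Filter.atTop (𝓝 0)

theorem exists_net {G : Type} [Group G] (hG : IsSofic G) : Nonempty (Net G) := by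
  have h : ∀ i : Finset G × ℕ, ∃ (ν : ℕ) (M : Mod G ν), 0 < ν ∧
      (M.bad i.1 : ℝ) ≤ (1 / ((i.2 : ℝ) + 1)) * ν := fun i =>
    exists_good_model hG i.1 _ (by positivity)
  choose ν M hpos hM using h
  refine ⟨⟨ν, M, hpos, fun F => ?_⟩⟩
  have h1 : Filter.Tendsto (fun i : Finset G × ℕ => (1 : ℝ) / ((i.2 : ℝ) + 1)) Filter.atTop (𝓝 0) := by
    have h2 : Filter.Tendsto (fun i : Finset G × ℕ => i.2) Filter.atTop Filter.atTop := by
      rw [Filter.tendsto_atTop]
      intro k
      exact (Filter.eventually_ge_atTop ((∅, k) : Finset G × ℕ)).mono fun i hi => hi.2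
    exact (tendsto_one_div_add_atTop_nhds_zero_nat (𝕜 := ℝ)).comp h2
  refine squeeze_zero' (Filter.Eventually.of_forall fun i => by positivity) ?_ h1
  refine (Filter.eventually_ge_atTop ((F, 0) : Finset G × ℕ)).mono fun i hi => ?_
  have h3 : (0 : ℝ) < ν i := by exact_mod_cast hpos i
  rw [div_le_iff₀ h3]
  have h4 : ((M i).bad F : ℝ) ≤ ((M i).bad i.1 : ℝ) := by
    exact_mod_cast (M i).bad_mono hi.1
  exact h4.trans (hM i)

/-- statements which hold for all good models hold eventually along a net -/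
theorem Net.eventually {G : Type} [Group G] (X : Net G) (F : Finset G) (e : ℝ) (he : 0 < e) :
    ∀ᶠ i in Filter.atTop, ((X.M i).bad F : ℝ) ≤ e * X.ν i := by
  have h1 := (X.tends F).eventually (ge_mem_nhds he)
  refine h1.mono fun i hi => ?_
  have h3 : (0 : ℝ) < X.ν i := by exact_mod_cast X.pos i
  exact (div_le_iff₀ h3).1 hi

end Pool.Agent.LT
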