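import Mathlib
import Pool.Agent.LT.Base
import Pool.Agent.LT.LAVol
import Pool.Agent.LT.LAExt
import Pool.Agent.LT.LADet

/-!
# Project LT, module LAAC: the inequalities (A) and (C)

PLAN (A). `B := d dᵀ + δ²`. `vol (X d)² = det (X d dᵀ Xᵀ) ≤ det (X d dᵀ Xᵀ + δ² (X Xᵀ))` (`X Xᵀ = 1`,
`det_le_det_add_smul`) `= det (X B Xᵀ) ≤ det (X Xᵀ) det B / (δ²)^(card β - card ξ)` by
`det_two_sided` (first half, `a = δ²`; `c` any upper bound of `B`, e.g. a multiple of the trace plus
`δ²`: exists because `Matrix.PosSemidef` `P ≤ (tr P) • 1`; or choose `c` from `b` with `NB d b`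
if simpler: the lemma `exists_upper` below). Take logarithms: `log (vol)² = 2 log vol`,
`log (δ²)^k = 2 k log δ = - 2 k |log δ|`.
PLAN (C). `B := e eᵀ + δ²`, `c := b² + 1`; `c • 1 - B` is positive semidefinite by `NB e b` and
`δ ≤ 1`. `G0 :=` orthonormal basis of `rs g` (`exists_on_basis`), with `card κ` rows, `G0 * e = 0`
(rows of `G0` are combinations of rows of `g`), `G0 * Yᵀ = 0`. `Y' := fromRows G0 Y`; its Gram
matrix is `fromBlocks 1 0 0 (Y Yᵀ)`. `Y` has linearly independent rows because `Y * e` has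
orthonormal rows. `Y' B Y'ᵀ = fromBlocks (δ² • 1) 0 0 (Y B Yᵀ)` and
`Y B Yᵀ = (Y e)(Y e)ᵀ + δ² Y Yᵀ = 1 + δ² Y Yᵀ ≤ (1 + δ² Λ²) • 1`, so by `det_le_pow` its determinant is
at most `(1 + δ² Λ²)^k`. `det_two_sided` (second half):
`det (Y Yᵀ) det B ≤ (δ²)^(card κ) (1 + δ² Λ²)^k c^(card γ - card κ - k)`. Take logarithms.
-/

set_option autoImplicit false

open scoped BigOperators

namespace Pool.Agent.LT

variable {α β γ κ ξ k : Type} [Fintype α] [DecidableEq α] [Fintype β] [DecidableEq β]
  [Fintype γ] [DecidableEq γ] [Fintype κ] [DecidableEq κ] [Fintype ξ] [DecidableEq ξ]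
  [Fintype k] [DecidableEq k]

omit [DecidableEq β] in
private lemma laac_psd (M : Matrix β β ℝ) (hs : M.transpose = M)
    (h : ∀ x : β → ℝ, 0 ≤ x ⬝ᵥ M.mulVec x) : M.PosSemidef := by
  refine Matrix.PosSemidef.of_dotProduct_mulVec_nonneg ?_ ?_
  · rw [Matrix.IsHermitian, Matrix.conjTranspose_eq_transpose_of_trivial]; exact hs
  · intro x
    have := h x
    simpa using this

omit [DecidableEq α] [DecidableEq β] in
private lemma laac_gram (A : Matrix β α ℝ) (x : β → ℝ) :
    x ⬝ᵥ (A * A.transpose).mulVec x = Matrix.vecMul x A ⬝ᵥ Matrix.vecMul x A := by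
  rw [← Matrix.mulVec_mulVec, Matrix.dotProduct_mulVec, Matrix.mulVec_transpose]

private lemma laac_smul_one (c : ℝ) (x : β → ℝ) :
    x ⬝ᵥ (c • (1 : Matrix β β ℝ)).mulVec x = c * (x ⬝ᵥ x) := by
  rw [Matrix.smul_mulVec, Matrix.one_mulVec, dotProduct_smul, smul_eq_mul]

lemma exists_upper (B : Matrix β β ℝ) (hB : B.PosSemidef) :
    ∃ c : ℝ, (c • (1 : Matrix β β ℝ) - B).PosSemidef := by
  have hsym : B.transpose = B := by
    have := hB.isHermitian
    rwa [Matrix.IsHermitian, Matrix.conjTranspose_eq_transpose_of_trivial] at this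
  refine ⟨∑ i, ∑ j, |B i j|, laac_psd _ ?_ ?_⟩
  · rw [Matrix.transpose_sub, Matrix.transpose_smul, Matrix.transpose_one, hsym]
  · intro x
    rw [Matrix.sub_mulVec, dotProduct_sub, laac_smul_one]
    have h1 : x ⬝ᵥ B.mulVec x ≤ ∑ i, ∑ j, |B i j| * (x ⬝ᵥ x) := by
      rw [dotProduct]
      refine Finset.sum_le_sum fun i _ => ?_
      rw [Matrix.mulVec, dotProduct, Finset.mul_sum]
      refine Finset.sum_le_sum fun j _ => ?_
      have hi : x i ^ 2 ≤ x ⬝ᵥ x := by
        rw [dotProduct]
        have := Finset.single_le_sum (f := fun i => x i * x i) (fun i _ => mul_self_nonneg _)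
          (Finset.mem_univ i)
        simpa [pow_two] using this
      have hj : x j ^ 2 ≤ x ⬝ᵥ x := by
        rw [dotProduct]
        have := Finset.single_le_sum (f := fun i => x i * x i) (fun i _ => mul_self_nonneg _)
          (Finset.mem_univ j)
        simpa [pow_two] using this
      have h2 : |x i * x j| ≤ x ⬝ᵥ x := by
        rw [abs_mul]
        nlinarith [sq_nonneg (|x i| - |x j|), sq_abs (x i), sq_abs (x j)]
      calc x i * (B i j * x j) = B i j * (x i * x j) := by ring
        _ ≤ |B i j * (x i * x j)| := le_abs_self _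
        _ = |B i j| * |x i * x j| := abs_mul _ _
        _ ≤ |B i j| * (x ⬝ᵥ x) := mul_le_mul_of_nonneg_left h2 (abs_nonneg _)
    have h3 : ∑ i, ∑ j, |B i j| * (x ⬝ᵥ x) = (∑ i, ∑ j, |B i j|) * (x ⬝ᵥ x) := by
      rw [Finset.sum_mul]
      refine Finset.sum_congr rfl fun i _ => ?_
      rw [Finset.sum_mul]
    rw [h3] at h1
    linarith

omit [DecidableEq α] in
private lemma laac_B_lo (d : Matrix β α ℝ) (δ : ℝ) :
    (d * d.transpose + (δ ^ 2) • (1 : Matrix β β ℝ) - (δ ^ 2) • (1 : Matrix β β ℝ)).PosSemidef := by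
  rw [add_sub_cancel_right]
  exact gram_posSemidef d

omit [DecidableEq α] in
private lemma laac_B_psd (d : Matrix β α ℝ) (δ : ℝ) :
    (d * d.transpose + (δ ^ 2) • (1 : Matrix β β ℝ)).PosSemidef :=
  (gram_posSemidef d).add (Matrix.PosSemidef.one.smul (sq_nonneg δ))

omit [DecidableEq α] in
private lemma laac_B_det (d : Matrix β α ℝ) (δ : ℝ) (h0 : 0 < δ) :
    0 < (d * d.transpose + (δ ^ 2) • (1 : Matrix β β ℝ)).det := by
  have h : (d * d.transpose + (δ ^ 2) • (1 : Matrix β β ℝ)).PosDef :=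
    Matrix.PosDef.posSemidef_add (gram_posSemidef d) (Matrix.PosDef.one.smul (by positivity))
  exact h.det_pos

omit [DecidableEq β] in
private lemma laac_card (X : Matrix ξ β ℝ) (h : LI X) : Fintype.card ξ ≤ Fintype.card β := by
  have := h.fintype_card_le_finrank
  rwa [Module.finrank_fintype_fun_eq_card] at this

theorem ineq_A (d : Matrix β α ℝ) (X : Matrix ξ β ℝ) (hX : ON X) (hLI : LI (X * d)) (δ : ℝ)
    (h0 : 0 < δ) (h1 : δ ≤ 1) :
    Real.log (vol (X * d)) ≤
      1 / 2 * ld d δ + ((Fintype.card β : ℝ) - Fintype.card ξ) * |Real.log δ| := by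
  set B : Matrix β β ℝ := d * d.transpose + (δ ^ 2) • (1 : Matrix β β ℝ) with hB
  have hXLI : LI X := li_of_on X hX
  have hcard := laac_card X hXLI
  obtain ⟨c, hc⟩ := exists_upper B (laac_B_psd d δ)
  have hts := (det_two_sided B X hXLI (δ ^ 2) c (by positivity) (laac_B_lo d δ) hc).1
  have hXX : (X * X.transpose).det = 1 := by
    rw [ON] at hX; rw [hX, Matrix.det_one]
  have hXB : X * B * X.transpose =
      (X * d) * (X * d).transpose + (δ ^ 2) • (1 : Matrix ξ ξ ℝ) := by
    rw [hB, Matrix.mul_add, Matrix.add_mul, Matrix.transpose_mul, Matrix.mul_smul, Matrix.mul_one,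
      Matrix.smul_mul]
    rw [ON] at hX
    rw [hX]
    simp only [Matrix.mul_assoc]
  have hle := det_le_det_add_smul ((X * d) * (X * d).transpose) (δ ^ 2) (sq_nonneg δ)
    (gram_posSemidef _)
  rw [← hXB, ← vol_sq] at hle
  have hBpos : 0 < B.det := laac_B_det d δ h0
  have hvpos : 0 < vol (X * d) := vol_pos _ hLI
  rw [hXX, one_mul] at hts
  set N := Fintype.card β - Fintype.card ξ with hN
  have hmain : vol (X * d) ^ 2 * (δ ^ 2) ^ N ≤ B.det :=
    le_trans (mul_le_mul_of_nonneg_right hle (by positivity)) hts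
  have hlog := Real.log_le_log (by positivity) hmain
  rw [Real.log_mul (by positivity) (by positivity), Real.log_pow, Real.log_pow, Real.log_pow] at hlog
  have hld : ld d δ = Real.log B.det := rfl
  have habs : |Real.log δ| = - Real.log δ := abs_of_nonpos (Real.log_nonpos h0.le h1)
  have hNr : (N : ℝ) = (Fintype.card β : ℝ) - Fintype.card ξ := by
    rw [hN, Nat.cast_sub hcard]
  rw [hld, habs, ← hNr]
  push_cast at hlog
  nlinarith [hlog]

theorem ineq_C (e : Matrix γ β ℝ) (g : Matrix κ γ ℝ) (hg : LI g) (hge : g * e = 0)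
    (Y : Matrix k γ ℝ) (hYg : Y * g.transpose = 0) (hYe : ON (Y * e)) (L b δ : ℝ) (hL : NB Y L)
    (hb : NB e b) (h0 : 0 < δ) (h1 : δ ≤ 1) :
    Real.log (vol Y) ≤ Fintype.card k / 2 * Real.log (1 + δ ^ 2 * L ^ 2) - 1 / 2 * ld e δ -
      Fintype.card κ * |Real.log δ| +
      1 / 2 * ((Fintype.card γ : ℝ) - Fintype.card κ - Fintype.card k) *
        Real.log (b ^ 2 + 1) := by
  set B : Matrix γ γ ℝ := e * e.transpose + (δ ^ 2) • (1 : Matrix γ γ ℝ) with hB
  -- the upper bound
  have hhi : ((b ^ 2 + 1) • (1 : Matrix γ γ ℝ) - B).PosSemidef := by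
    refine laac_psd _ ?_ ?_
    · rw [hB]
      simp only [Matrix.transpose_sub, Matrix.transpose_smul, Matrix.transpose_one,
        Matrix.transpose_add, Matrix.transpose_mul, Matrix.transpose_transpose]
    · intro x
      rw [Matrix.sub_mulVec, dotProduct_sub, laac_smul_one, hB, Matrix.add_mulVec, dotProduct_add,
        laac_smul_one, laac_gram]
      have h2 := hb x
      have h3 : 0 ≤ x ⬝ᵥ x := by
        rw [dotProduct]; exact Finset.sum_nonneg fun i _ => mul_self_nonneg _
      have h4 : δ ^ 2 ≤ 1 := by nlinarith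
      nlinarith
  -- orthonormal basis of the row space of `g`
  obtain ⟨G0, hGon, hGrs⟩ := exists_on_basis (rs g)
  have hNκ : Module.finrank ℝ (rs g) = Fintype.card κ := by
    rw [finrank_rs, rank_of_li g hg]
  have hrow : ∀ i, ∃ c : κ → ℝ, Matrix.vecMul c g = G0.row i := by
    intro i
    rw [← mem_rs]
    exact hGrs.le (Submodule.subset_span ⟨i, rfl⟩)
  have hG0 : ∃ C : Matrix (Fin (Module.finrank ℝ (rs g))) κ ℝ, C * g = G0 := by
    choose c hc using hrow
    refine ⟨Matrix.of c, ?_⟩
    ext i j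
    have := congrFun (hc i) j
    exact this
  obtain ⟨C, hC⟩ := hG0
  have hG0e : G0 * e = 0 := by rw [← hC, Matrix.mul_assoc, hge, Matrix.mul_zero]
  have hG0Y : G0 * Y.transpose = 0 := by
    have h2 : g * Y.transpose = 0 := by
      have := congrArg Matrix.transpose hYg
      rwa [Matrix.transpose_mul, Matrix.transpose_transpose, Matrix.transpose_zero] at this
    rw [← hC, Matrix.mul_assoc, h2, Matrix.mul_zero]
  have hYG0 : Y * G0.transpose = 0 := by
    have := congrArg Matrix.transpose hG0Y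
    rwa [Matrix.transpose_mul, Matrix.transpose_transpose, Matrix.transpose_zero] at this
  -- `Y` has independent rows
  have hYLI : LI Y := by
    have h2 : LI (Y * e) := li_of_on _ hYe
    rw [LI, Fintype.linearIndependent_iff] at h2 ⊢
    intro c hc
    apply h2 c
    have h3 : Matrix.vecMul c Y = 0 := by
      rw [← hc]
      ext j
      simp [Matrix.vecMul, dotProduct, Matrix.row]
    have h4 : Matrix.vecMul c (Y * e) = 0 := by
      rw [← Matrix.vecMul_vecMul, h3, Matrix.zero_vecMul]
    rw [← h4]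
    ext j
    simp [Matrix.vecMul, dotProduct, Matrix.row]
  -- the big matrix
  set Y' := Matrix.fromRows G0 Y with hY'
  have hYY : Y' * Y'.transpose = Matrix.fromBlocks 1 0 0 (Y * Y.transpose) := by
    rw [hY', Matrix.transpose_fromRows, Matrix.fromRows_mul_fromCols]
    rw [ON] at hGon
    rw [hGon, hG0Y, hYG0]
  have hYYdet : (Y' * Y'.transpose).det = (Y * Y.transpose).det := by
    rw [hYY, Matrix.det_fromBlocks_zero₂₁, Matrix.det_one, one_mul]
  have hvY : 0 < vol Y := vol_pos Y hYLI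
  have hYdet : (Y * Y.transpose).det = vol Y ^ 2 := (vol_sq Y).symm
  have hY'LI : LI Y' := by
    apply li_of_vol_pos
    rw [vol, hYYdet, hYdet]
    positivity
  have hcard := laac_card Y' hY'LI
  rw [Fintype.card_sum, Fintype.card_fin, hNκ] at hcard
  have hYeon : Y * e * (Y * e).transpose = 1 := hYe
  have hYBY : Y * B * Y.transpose = 1 + (δ ^ 2) • (Y * Y.transpose) := by
    rw [hB, Matrix.mul_add, Matrix.add_mul, Matrix.mul_smul, Matrix.mul_one, Matrix.smul_mul]
    congr 1
    rw [← hYeon, Matrix.transpose_mul]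
    simp only [Matrix.mul_assoc]
  have hG0B : G0 * B = (δ ^ 2) • G0 := by
    rw [hB, Matrix.mul_add, ← Matrix.mul_assoc, hG0e, Matrix.zero_mul, zero_add, Matrix.mul_smul,
      Matrix.mul_one]
  have hBG0 : B * G0.transpose = (δ ^ 2) • G0.transpose := by
    have hBs : B.transpose = B := by
      rw [hB]
      simp only [Matrix.transpose_smul, Matrix.transpose_one,
        Matrix.transpose_add, Matrix.transpose_mul, Matrix.transpose_transpose]
    have := congrArg Matrix.transpose hG0B
    rwa [Matrix.transpose_mul, Matrix.transpose_smul, hBs] at this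
  have hbig : Y' * B * Y'.transpose = Matrix.fromBlocks ((δ ^ 2) • (1 : Matrix _ _ ℝ)) 0 0
      (1 + (δ ^ 2) • (Y * Y.transpose)) := by
    rw [hY', Matrix.transpose_fromRows, Matrix.fromRows_mul, Matrix.fromRows_mul_fromCols, hYBY,
      hG0B, Matrix.smul_mul, Matrix.smul_mul, hG0Y, smul_zero, Matrix.mul_assoc Y, hBG0,
      Matrix.mul_smul, hYG0, smul_zero]
    rw [ON] at hGon
    rw [hGon]
  have hbigdet : (Y' * B * Y'.transpose).det =
      (δ ^ 2) ^ Fintype.card κ * (1 + (δ ^ 2) • (Y * Y.transpose)).det := by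
    rw [hbig, Matrix.det_fromBlocks_zero₂₁, Matrix.det_smul, Matrix.det_one, mul_one,
      Fintype.card_fin, hNκ]
  have hpsd1 : (1 + (δ ^ 2) • (Y * Y.transpose)).PosSemidef :=
    Matrix.PosSemidef.one.add ((gram_posSemidef Y).smul (sq_nonneg δ))
  have hdetle : (1 + (δ ^ 2) • (Y * Y.transpose)).det ≤
      (1 + δ ^ 2 * L ^ 2) ^ Fintype.card k := by
    refine det_le_pow _ _ hpsd1 (laac_psd _ ?_ ?_)
    · simp only [Matrix.transpose_sub, Matrix.transpose_smul, Matrix.transpose_one,
        Matrix.transpose_add, Matrix.transpose_mul, Matrix.transpose_transpose]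
    · intro x
      rw [Matrix.sub_mulVec, dotProduct_sub, laac_smul_one, Matrix.add_mulVec, dotProduct_add,
        Matrix.one_mulVec, Matrix.smul_mulVec, dotProduct_smul, laac_gram, smul_eq_mul]
      have h2 := hL x
      nlinarith [sq_nonneg δ, mul_le_mul_of_nonneg_left h2 (sq_nonneg δ)]
  have hts := (det_two_sided B Y' hY'LI (δ ^ 2) (b ^ 2 + 1) (by positivity) (laac_B_lo e δ)
    hhi).2
  rw [hYYdet, hbigdet, Fintype.card_sum, Fintype.card_fin, hNκ, hYdet] at hts
  set N := Fintype.card γ - (Fintype.card κ + Fintype.card k) with hN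
  have hBpos : 0 < B.det := laac_B_det e δ h0
  have hmain : vol Y ^ 2 * B.det ≤ (δ ^ 2) ^ Fintype.card κ *
      (1 + δ ^ 2 * L ^ 2) ^ Fintype.card k * (b ^ 2 + 1) ^ N := by
    refine le_trans hts ?_
    gcongr
  have hlog := Real.log_le_log (by positivity) hmain
  rw [Real.log_mul (by positivity) (by positivity), Real.log_mul (by positivity) (by positivity),
    Real.log_mul (by positivity) (by positivity), Real.log_pow, Real.log_pow, Real.log_pow,
    Real.log_pow, Real.log_pow] at hlog
  have hld : ld e δ = Real.log B.det := rfl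
  have habs : |Real.log δ| = - Real.log δ := abs_of_nonpos (Real.log_nonpos h0.le h1)
  have hNr : (N : ℝ) = (Fintype.card γ : ℝ) - Fintype.card κ - Fintype.card k := by
    rw [hN, Nat.cast_sub hcard]; push_cast; ring
  rw [hld, habs, ← hNr]
  push_cast at hlog
  nlinarith [hlog]

end Pool.Agent.LT
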