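import Mathlib
import Pool.Agent.LT.Base
import Pool.Agent.LT.LAVol
import Pool.Agent.LT.LAProj

set_option autoImplicit false

/-!
# Project LT, module LAInt: integral bases

PLAN `exists_int_basis`: `Z := {z : n → ℤ | toV z ∈ rs (toR d)}` is a submodule of `n → ℤ`, so it has
a finite basis (`Submodule.basisOfPid`, `Module.Free`); its elements form the rows of `g`. The rows
are linearly independent over `ℝ` (integer vectors independent over `ℤ` are independent over `ℚ`
and over `ℝ`; for instance: `LinearIndependent ℤ` of the rows gives by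
`LinearIndependent.iff_fractionRing`/localization the independence over `ℚ`, and then
`Matrix.rank`/`LinearIndependent.map_of_injective`...; or through the Gram determinant, an integer
whose vanishing gives a rational, hence an integral relation). `rs (toR g) = rs (toR d)`:
the rows of `g` are in `rs (toR d)`, and the rows of `d` are in `Z`, so integer combinations of
rows of `g`.
PLAN `exists_smaller`: `g` from `exists_int_basis d`, `r` rows. The integer matrix
`G := fromBlocks g 0 0 1` (rows `Fin r ⊕ γ`, columns `α ⊕ γ`) has linearly independent rows, and row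
space `{(a,c) : a ∈ rs (toR d)} = rs (toR T)` (`hT`). Every row `(a,c)` of `T` has integral
`a ∈ rs (toR d)`, so `a` is an integer combination of rows of `g`, and `T = Q * G` with an integer
matrix `Q : Matrix p (Fin r ⊕ γ) ℤ`; `card p = r + card γ` (both are the dimension of the row
space), so after reindexing `Q` is square, its determinant is a nonzero integer (`T` has linearly
independent rows), and `vol T = |det Q| vol G ≥ vol G = vol g` (`vol_mul`,
`vol_block`-type computation: the Gram matrix of `G` is `fromBlocks (g gᵀ) 0 0 1`).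
-/

open scoped BigOperators

namespace Pool.Agent.LT

variable {α β γ p n : Type} [Fintype α] [DecidableEq α] [Fintype β] [DecidableEq β]
  [Fintype γ] [DecidableEq γ] [Fintype p] [DecidableEq p] [Fintype n] [DecidableEq n]

private def Zlat (d : Matrix β α ℤ) : Submodule ℤ (α → ℤ) where
  carrier := {z | toV z ∈ rs (toR d)}
  zero_mem' := by
    have e : toV (0 : α → ℤ) = 0 := by
      funext i
      simp [toV]
    change toV (0 : α → ℤ) ∈ rs (toR d)
    rw [e]
    exact (rs (toR d)).zero_mem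
  add_mem' := by
    intro x y hx hy
    have e : toV (x + y) = toV x + toV y := by
      funext i
      simp [toV]
    change toV (x + y) ∈ rs (toR d)
    rw [e]
    exact (rs (toR d)).add_mem hx hy
  smul_mem' := by
    intro c x hx
    have e : toV (c • x) = (c : ℝ) • toV x := by
      funext i
      simp [toV]
    change toV (c • x) ∈ rs (toR d)
    rw [e]
    exact (rs (toR d)).smul_mem _ hx

private lemma row_mem_rs {m n : Type} (A : Matrix m n ℝ) (i : m) : A i ∈ rs A :=
  Submodule.subset_span ⟨i, rfl⟩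

private lemma rs_le {m n k : Type} (A : Matrix m n ℝ) (B : Matrix k n ℝ) (h : ∀ i, A i ∈ rs B) :
    rs A ≤ rs B := by
  unfold rs
  rw [Submodule.span_le]
  rintro _ ⟨i, rfl⟩
  exact h i

private lemma det_toR {m : Type} [Fintype m] [DecidableEq m] (M : Matrix m m ℤ) :
    (toR M).det = ((M.det : ℤ) : ℝ) := by
  rw [Int.cast_det]
  rfl

private lemma li_toR {r : ℕ} (g : Matrix (Fin r) α ℤ)
    (h : ∀ c : Fin r → ℤ, Matrix.vecMul c g = 0 → c = 0) : LI (toR g) := by
  apply li_of_vol_pos
  have h1 : (g * g.transpose).det ≠ 0 := by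
    intro h0
    rw [← Matrix.exists_vecMul_eq_zero_iff] at h0
    obtain ⟨v, hv, hvg⟩ := h0
    apply hv
    apply h
    have h2 : Matrix.vecMul v g ⬝ᵥ Matrix.vecMul v g = 0 := by
      rw [← Matrix.dotProduct_mulVec, ← Matrix.vecMul_transpose, Matrix.vecMul_vecMul, dotProduct_comm,
        hvg, zero_dotProduct]
    funext j
    simp only [dotProduct] at h2
    have h3 := (Finset.sum_eq_zero_iff_of_nonneg (fun i _ => mul_self_nonneg _)).1 h2 j
      (Finset.mem_univ j)
    exact mul_self_eq_zero.1 h3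
  have h2 : vol (toR g) ^ 2 = (((g * g.transpose).det : ℤ) : ℝ) := by
    rw [vol_sq, ← toR_transpose, ← toR_mul, det_toR]
  have h3 : vol (toR g) ≠ 0 := by
    intro h0
    rw [h0] at h2
    apply h1
    have : (((g * g.transpose).det : ℤ) : ℝ) = 0 := by rw [← h2]; norm_num
    exact_mod_cast this
  exact lt_of_le_of_ne (vol_nonneg _) (Ne.symm h3)

theorem exists_int_basis (d : Matrix β α ℤ) :
    ∃ (r : ℕ) (g : Matrix (Fin r) α ℤ), LI (toR g) ∧ rs (toR g) = rs (toR d) ∧
      ∀ z : α → ℤ, toV z ∈ rs (toR d) → ∃ c : Fin r → ℤ, Matrix.vecMul c g = z := by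
  obtain ⟨r, b⟩ := Submodule.basisOfPid (Pi.basisFun ℤ α) (Zlat d)
  obtain ⟨g, hg⟩ : ∃ g : Matrix (Fin r) α ℤ, ∀ i, g i = (b i : α → ℤ) :=
    ⟨fun i => (b i : α → ℤ), fun i => rfl⟩
  have hsum : ∀ c : Fin r → ℤ, Matrix.vecMul c g = ((∑ i, c i • b i : Zlat d) : α → ℤ) := by
    intro c
    rw [Matrix.vecMul_eq_sum, Submodule.coe_sum]
    refine Finset.sum_congr rfl fun i _ => ?_
    rw [hg i]
    rfl
  have hlast : ∀ z : α → ℤ, toV z ∈ rs (toR d) → ∃ c : Fin r → ℤ, Matrix.vecMul c g = z := by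
    intro z hz
    refine ⟨fun i => b.repr ⟨z, hz⟩ i, ?_⟩
    rw [hsum, b.sum_repr]
  refine ⟨r, g, ?_, ?_, hlast⟩
  · apply li_toR
    intro c hc
    rw [hsum] at hc
    have h1 : (∑ i, c i • b i : Zlat d) = 0 := Subtype.ext hc
    funext i
    exact Fintype.linearIndependent_iff.1 b.linearIndependent c h1 i
  · apply le_antisymm
    · apply rs_le
      intro i
      have h1 : toR g i = toV (g i) := rfl
      rw [h1, hg i]
      exact (b i).2
    · apply rs_le
      intro j
      have h1 : toR d j = toV (d j) := rfl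
      have h2 : toV (d j) ∈ rs (toR d) := row_mem_rs (toR d) j
      obtain ⟨c, hc⟩ := hlast (d j) h2
      rw [h1, ← hc, toV_vecMul, mem_rs]
      exact ⟨_, rfl⟩

private lemma mem_rs_block {ρ : Type} [Fintype ρ] [DecidableEq ρ] (A : Matrix ρ α ℝ)
    (x : α ⊕ γ → ℝ) :
    x ∈ rs (Matrix.fromBlocks A 0 0 (1 : Matrix γ γ ℝ)) ↔ (fun i => x (Sum.inl i)) ∈ rs A := by
  rw [mem_rs, mem_rs]
  constructor
  · rintro ⟨c, hc⟩
    refine ⟨c ∘ Sum.inl, ?_⟩
    rw [Matrix.vecMul_fromBlocks] at hc
    funext i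
    have := congrFun hc (Sum.inl i)
    simpa using this
  · rintro ⟨c, hc⟩
    refine ⟨Sum.elim c (fun j => x (Sum.inr j)), ?_⟩
    rw [Matrix.vecMul_fromBlocks]
    funext i
    rcases i with i | i
    · have := congrFun hc i
      simpa using this
    · simp

private lemma toR_block {ρ : Type} (g : Matrix ρ α ℤ) :
    toR (Matrix.fromBlocks g 0 0 (1 : Matrix γ γ ℤ)) =
      Matrix.fromBlocks (toR g) 0 0 (1 : Matrix γ γ ℝ) := by
  unfold toR
  rw [Matrix.fromBlocks_map]
  congr 1
  · ext i j; simp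
  · ext i j; simp
  · exact Matrix.map_one _ Int.cast_zero Int.cast_one

private lemma vol_block_one {ρ : Type} [Fintype ρ] [DecidableEq ρ] (A : Matrix ρ α ℝ) :
    vol (Matrix.fromBlocks A 0 0 (1 : Matrix γ γ ℝ)) = vol A := by
  unfold vol
  rw [Matrix.fromBlocks_transpose, Matrix.fromBlocks_multiply]
  congr 1
  simp

theorem exists_smaller (d : Matrix β α ℤ) (T : Matrix p (α ⊕ γ) ℤ) (hLI : LI (toR T))
    (hT : rs (toR T) = rs (Matrix.fromBlocks (toR d) 0 0 (1 : Matrix γ γ ℝ))) :
    ∃ (r : ℕ) (g : Matrix (Fin r) α ℤ), LI (toR g) ∧ rs (toR g) = rs (toR d) ∧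
      vol (toR g) ≤ vol (toR T) := by
  obtain ⟨r, g, hg, hrs, hint⟩ := exists_int_basis d
  refine ⟨r, g, hg, hrs, ?_⟩
  obtain ⟨G, hG⟩ : ∃ G : Matrix (Fin r ⊕ γ) (α ⊕ γ) ℤ, G = Matrix.fromBlocks g 0 0 1 := ⟨_, rfl⟩
  have hGR : toR G = Matrix.fromBlocks (toR g) 0 0 (1 : Matrix γ γ ℝ) := by
    rw [hG, toR_block]
  have hvG : vol (toR G) = vol (toR g) := by rw [hGR, vol_block_one]
  have hGLI : LI (toR G) := by
    apply li_of_vol_pos
    rw [hvG]
    exact vol_pos _ hg
  have hrsG : rs (toR G) = rs (toR T) := by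
    rw [hT, hGR]
    ext x
    rw [mem_rs_block, mem_rs_block, hrs]
  -- the integer matrix
  have hrow : ∀ i : p, ∃ q : Fin r ⊕ γ → ℤ, Matrix.vecMul q G = T i := by
    intro i
    have h1 : toV (T i) ∈ rs (Matrix.fromBlocks (toR d) 0 0 (1 : Matrix γ γ ℝ)) := by
      rw [← hT]
      exact row_mem_rs (toR T) i
    rw [mem_rs_block] at h1
    obtain ⟨c, hc⟩ := hint (fun j => T i (Sum.inl j)) h1
    refine ⟨Sum.elim c (fun j => T i (Sum.inr j)), ?_⟩
    rw [hG, Matrix.vecMul_fromBlocks]
    funext j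
    rcases j with j | j
    · have := congrFun hc j
      simpa using this
    · simp
  choose Q hQ using hrow
  have hTQ : T = (Matrix.of Q) * G := by
    ext i j
    have := congrFun (hQ i) j
    rw [← this]
    rfl
  have hcard : Fintype.card p = Fintype.card (Fin r ⊕ γ) := by
    rw [← rank_of_li _ hLI, ← rank_of_li _ hGLI, ← finrank_rs, ← finrank_rs, hrsG]
  obtain ⟨e⟩ : Nonempty (p ≃ Fin r ⊕ γ) := ⟨Fintype.equivOfCardEq hcard⟩
  obtain ⟨Q', hQ'⟩ : ∃ Q' : Matrix (Fin r ⊕ γ) (Fin r ⊕ γ) ℤ,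
      Q' = (Matrix.of Q).submatrix e.symm id := ⟨_, rfl⟩
  have h1 : vol (toR T) = vol ((toR T).submatrix e.symm (Equiv.refl (α ⊕ γ))) :=
    (vol_submatrix (toR T) e.symm (Equiv.refl (α ⊕ γ))).symm
  have h2 : (toR T).submatrix e.symm (Equiv.refl (α ⊕ γ)) = toR Q' * toR G := by
    rw [← toR_mul, hQ']
    rw [hTQ]
    rfl
  have h3 : vol (toR T) = |((Q'.det : ℤ) : ℝ)| * vol (toR g) := by
    rw [h1, h2, vol_mul, det_toR, hvG]
  have h4 : Q'.det ≠ 0 := by
    intro h0
    rw [h0] at h3
    have h5 := vol_pos _ hLI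
    rw [h3] at h5
    simp at h5
  have h5 : (1 : ℝ) ≤ |((Q'.det : ℤ) : ℝ)| := by
    have h6 : (1 : ℤ) ≤ |Q'.det| := Int.one_le_abs h4
    exact_mod_cast h6
  rw [h3]
  have h7 := vol_nonneg (toR g)
  nlinarith

end Pool.Agent.LT
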