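import Mathlib
import Pool.Agent.LT.Base
import Pool.Agent.LT.LAVol
import Pool.Agent.LT.LAProj
import Pool.Agent.LT.LAExt
import Pool.Agent.LT.LAInt

set_option autoImplicit false

/-!
# Project LT, module LAStep: the step of the main inequality (section 4 of lt_proof.md)

PLAN. Apply `exists_onb_pair (toR s) hs (toR d)`: `k l Y X e P` (so `k + l = card ι`). Real matrices:
`Y h := Y * h`, `X h`, `X d := X * toR d` and `Y * toR d = 0`.
(1) `fromRows (toR g) (Y * h)` has linearly independent rows: if `a ᵥ* g + c ᵥ* Y ᵥ* h = 0` apply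
`ᵥ* toR e0`: `g * e0 = 0` and `(c ᵥ* Y ᵥ* h) ᵥ* toR e0 = c ᵥ* Y` by `hcyc` (`c ᵥ* Y` is in
`rs (toR s)` and killed by `d`), so `c ᵥ* Y = 0`, `c = 0`, `a = 0`.
(2) `exists_ext` with `B := 1` (unit rows): `s1 ⊆ γ` with
`Γ := fromRows (fromRows (toR g) (Y * h)) (unit rows in s1)` linearly independent and row space
everything, so `card κ + k + card s1 = card γ`. Volume:
`vol Γ = vol (fromRows g (Y h)) * vol (unit rows * prj ..) ≤ vol g * vol (Y * h * prj g) * 1`
(`vol_fromRows`, `vol_prj_le_pow` with `b = 1`).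
(3) `exists_ext (X * toR d) _ (toR d)`: `s2 ⊆ β` with `Δ := fromRows (X d) (rows of d in s2)` linearly
independent, row space `rs (toR d)`, `l + card s2 = finrank (rs (toR d)) = rank`. Volume:
`vol Δ ≤ vol (X d) * b ^ card s2` (`vol_fromRows`, `vol_prj_le_pow`, `hrow`).
(4) `T_real`: rows (in this order) `(0 | g)`, `(0 | Y h)`, `(0 | unit rows s1)`, `(X d | X h)`,
`(d rows s2 | 0)`, that is `fromBlocks 0 Γ Δ Ξ` with `Ξ := fromRows (X h) 0`; `vol_block`:
`vol T_real = vol Γ * vol Δ`.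
(5) `T_int` (integer matrix with columns `α ⊕ γ`): rows `(0 | g)`, `(s d | t)` (`t` from `hint`),
`(0 | unit rows s1)`, `(d rows s2 | 0)`. The rows of `T_real` are those of `T_int` after a reordering
with the block `s` replaced by `P s = (Y; X)` (`e`): `T_real ~ diag(1, P, 1, 1) * T_int`, so
`vol T_real = |det P| vol T_int`, i.e. `vol T_int = vol s * vol T_real` (`|det P| vol s = 1`).
`T_int` has linearly independent rows (`vol T_real > 0`) and its row space is that of `T_real`,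
i.e. `rs Δ ⊕ ℝ^γ = rs (fromBlocks (toR d) 0 0 1)`.
(6) `exists_smaller d T_int`: `g'` with `vol g' ≤ vol T_int`. Take logarithms (all volumes of
linearly independent families are positive).
The statement is formulated with the two volumes `vol (X * toR d)` and `vol (Y * h * prj (toR g))`.
-/

open scoped BigOperators

namespace Pool.Agent.LT

variable {α β γ κ ι : Type} [Fintype α] [DecidableEq α] [Fintype β] [DecidableEq β]
  [Fintype γ] [DecidableEq γ] [Fintype κ] [DecidableEq κ] [Fintype ι] [DecidableEq ι]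

private lemma li_iff {m n : Type} [Fintype m] (A : Matrix m n ℝ) :
    LI A ↔ ∀ c : m → ℝ, Matrix.vecMul c A = 0 → c = 0 := by
  unfold LI
  rw [← Matrix.vecMul_injective_iff]
  constructor
  · intro h c hc
    exact h (hc.trans (Matrix.zero_vecMul A).symm)
  · intro h c c' hc
    have := h (c - c') (by rw [Matrix.sub_vecMul]; exact sub_eq_zero.2 hc)
    exact sub_eq_zero.1 this

private lemma mem_block {p r α γ : Type} [Fintype p] [DecidableEq p] [Fintype r] [DecidableEq r]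
    [Fintype α] [Fintype γ]
    (Γ : Matrix p γ ℝ) (hΓ : rs Γ = ⊤) (Δ : Matrix r α ℝ) (Ξ : Matrix r γ ℝ) (x : α ⊕ γ → ℝ) :
    x ∈ rs (Matrix.fromBlocks 0 Γ Δ Ξ) ↔ x ∘ Sum.inl ∈ rs Δ := by
  rw [mem_rs, mem_rs]
  constructor
  · rintro ⟨c, rfl⟩
    refine ⟨c ∘ Sum.inr, ?_⟩
    rw [Matrix.vecMul_fromBlocks]
    funext j
    simp
  · rintro ⟨c, hc⟩
    have h1 : x ∘ Sum.inr - Matrix.vecMul c Ξ ∈ rs Γ := by rw [hΓ]; trivial
    obtain ⟨a, ha⟩ := (mem_rs _ _).1 h1
    refine ⟨Sum.elim a c, ?_⟩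
    rw [Matrix.vecMul_fromBlocks]
    simp only [Sum.elim_comp_inl, Sum.elim_comp_inr, Matrix.vecMul_zero, zero_add, hc, ha,
      sub_add_cancel]
    exact Sum.elim_comp_inl_inr x

private lemma mem_block' {b α γ : Type} [Fintype b] [DecidableEq b]
    [Fintype α] [Fintype γ] [DecidableEq γ] (D : Matrix b α ℝ) (x : α ⊕ γ → ℝ) :
    x ∈ rs (Matrix.fromBlocks D 0 0 (1 : Matrix γ γ ℝ)) ↔ x ∘ Sum.inl ∈ rs D := by
  rw [mem_rs, mem_rs]
  constructor
  · rintro ⟨c, rfl⟩
    refine ⟨c ∘ Sum.inl, ?_⟩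
    rw [Matrix.vecMul_fromBlocks]
    funext j
    simp
  · rintro ⟨c, hc⟩
    refine ⟨Sum.elim c (x ∘ Sum.inr), ?_⟩
    rw [Matrix.vecMul_fromBlocks]
    simp only [Sum.elim_comp_inl, Sum.elim_comp_inr, Matrix.vecMul_zero, zero_add, add_zero, hc,
      Matrix.vecMul_one]
    exact Sum.elim_comp_inl_inr x

private lemma rs_submatrix {m m' n : Type} (A : Matrix m n ℝ) (e : m' ≃ m) :
    rs (A.submatrix e id) = rs A := by
  unfold rs
  congr 1
  ext x
  constructor
  · rintro ⟨i, rfl⟩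
    exact ⟨e i, rfl⟩
  · rintro ⟨i, rfl⟩
    exact ⟨e.symm i, by funext j; simp [Matrix.row]⟩

private lemma rs_one_top {γ : Type} [Fintype γ] [DecidableEq γ] :
    rs (1 : Matrix γ γ ℝ) = ⊤ := by
  rw [eq_top_iff]
  intro x _
  exact (mem_rs _ _).2 ⟨x, Matrix.vecMul_one x⟩

private lemma rs_mul_le {m n k : Type} [Fintype m] [DecidableEq m] [Fintype k] [DecidableEq k]
    [Fintype n] (X : Matrix k m ℝ) (A : Matrix m n ℝ) : rs (X * A) ≤ rs A := by
  intro x hx
  obtain ⟨c, rfl⟩ := (mem_rs _ _).1 hx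
  exact (mem_rs _ _).2 ⟨Matrix.vecMul c X, Matrix.vecMul_vecMul c X A⟩

/-- reordering of the rows -/
private def tau (a b c d f : Type) :
    (a ⊕ b) ⊕ (c ⊕ (d ⊕ f)) ≃ ((c ⊕ a) ⊕ d) ⊕ (b ⊕ f) where
  toFun
    | .inl (.inl x) => .inl (.inl (.inr x))
    | .inl (.inr x) => .inr (.inl x)
    | .inr (.inl x) => .inl (.inl (.inl x))
    | .inr (.inr (.inl x)) => .inl (.inr x)
    | .inr (.inr (.inr x)) => .inr (.inr x)
  invFun
    | .inl (.inl (.inr x)) => .inl (.inl x)
    | .inr (.inl x) => .inl (.inr x)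
    | .inl (.inl (.inl x)) => .inr (.inl x)
    | .inl (.inr x) => .inr (.inr (.inl x))
    | .inr (.inr x) => .inr (.inr (.inr x))
  left_inv := by rintro ((x | x) | (x | (x | x))) <;> rfl
  right_inv := by rintro (((x | x) | x) | (x | x)) <;> rfl

theorem la_step (d : Matrix β α ℤ) (e0 : Matrix γ β ℤ) (g : Matrix κ γ ℤ) (hg : LI (toR g))
    (hge : g * e0 = 0) (s : Matrix ι β ℤ) (hs : LI (toR s)) (h : Matrix β γ ℝ)
    (hint : ∃ t : Matrix ι γ ℤ, toR s * h = toR t)
    (hcyc : ∀ x ∈ rs (toR s), Matrix.vecMul x (toR d) = 0 →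
      Matrix.vecMul (Matrix.vecMul x h) (toR e0) = x)
    (b : ℝ) (hb : 1 ≤ b) (hrow : ∀ i, ∑ j, ((d i j : ℝ)) ^ 2 ≤ b ^ 2) :
    ∃ (k l : ℕ) (Y : Matrix (Fin k) β ℝ) (X : Matrix (Fin l) β ℝ) (r : ℕ)
      (g' : Matrix (Fin r) α ℤ),
      k + l = Fintype.card ι ∧
      k = Module.finrank ℝ ↥(rs (toR s) ⊓ LinearMap.ker (toR d).vecMulLinear) ∧
      rs Y = rs (toR s) ⊓ LinearMap.ker (toR d).vecMulLinear ∧ ON Y ∧ ON X ∧
      LI (X * toR d) ∧ LI (Y * h * prj (toR g)) ∧
      LI (toR g') ∧ rs (toR g') = rs (toR d) ∧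
      Real.log (vol (toR g')) ≤ Real.log (vol (toR g)) + Real.log (vol (toR s)) +
        Real.log (vol (Y * h * prj (toR g))) + Real.log (vol (X * toR d)) +
        (((toR d).rank : ℝ) - l) * Real.log b := by
  obtain ⟨k, l, Y, X, e, P, hk, hrsY, hY, hX, hYd, hXd, hXs, hPs, hPvol⟩ :=
    exists_onb_pair (toR s) hs (toR d)
  obtain ⟨t, ht⟩ := hint
  -- (1)
  have h1 : LI (Matrix.fromRows (toR g) (Y * h)) := by
    rw [li_iff]
    intro c hc
    rw [Matrix.vecMul_fromRows] at hc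
    set a := c ∘ Sum.inl with ha
    set c' := c ∘ Sum.inr with hc'
    have hz : Matrix.vecMul c' Y ∈ rs (toR s) ⊓ LinearMap.ker (toR d).vecMulLinear := by
      rw [← hrsY]
      exact (mem_rs _ _).2 ⟨c', rfl⟩
    have h2 := congrArg (fun v => Matrix.vecMul v (toR e0)) hc
    simp only [Matrix.add_vecMul, Matrix.zero_vecMul] at h2
    have h3 : Matrix.vecMul (Matrix.vecMul a (toR g)) (toR e0) = 0 := by
      rw [Matrix.vecMul_vecMul, ← toR_mul, hge]
      have : toR (0 : Matrix κ β ℤ) = 0 := by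
        ext i j
        simp [toR]
      rw [this, Matrix.vecMul_zero]
    have h4 := hcyc _ hz.1 (by simpa using hz.2)
    rw [Matrix.vecMul_vecMul c' Y h] at h4
    rw [h3, zero_add, h4] at h2
    have h5 : c' = 0 := (li_iff Y).1 (li_of_on Y hY) c' h2
    rw [h5, Matrix.zero_vecMul, add_zero] at hc
    have h6 : a = 0 := (li_iff _).1 hg a hc
    funext i
    rcases i with i | i
    · exact congrFun h6 i
    · exact congrFun h5 i
  have hvolC : vol (Matrix.fromRows (toR g) (Y * h)) = vol (toR g) * vol (Y * h * prj (toR g)) :=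
    vol_fromRows _ _ hg
  have hgpos := vol_pos _ hg
  have hspos := vol_pos _ hs
  have hC : 0 < vol (Y * h * prj (toR g)) := by
    have := vol_pos _ h1
    rw [hvolC] at this
    exact (pos_iff_pos_of_mul_pos this).1 hgpos
  -- (2)
  obtain ⟨s1, hΓ, hΓrs, hΓcard⟩ := exists_ext (Matrix.fromRows (toR g) (Y * h)) h1
    (1 : Matrix γ γ ℝ)
  rw [rs_one_top, sup_top_eq] at hΓrs hΓcard
  rw [finrank_top, Module.finrank_fintype_fun_eq_card] at hΓcard
  set U1 : Matrix s1 γ ℤ := (1 : Matrix γ γ ℤ).submatrix Subtype.val id with hU1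
  have hU1R : toR U1 = (1 : Matrix γ γ ℝ).submatrix (Subtype.val : s1 → γ) id := by
    ext i j
    simp [toR, hU1, Matrix.one_apply]
  rw [← hU1R] at hΓ hΓrs
  set Γ := Matrix.fromRows (Matrix.fromRows (toR g) (Y * h)) (toR U1) with hΓdef
  have hΓvol : vol Γ ≤ vol (toR g) * vol (Y * h * prj (toR g)) := by
    rw [hΓdef, vol_fromRows _ _ h1, hvolC]
    have h2 := vol_prj_le_pow (Matrix.fromRows (toR g) (Y * h)) h1 (toR U1) 1 zero_le_one (by
      intro i
      rw [hU1R]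
      simp [dotProduct, Matrix.one_apply])
    rw [one_pow] at h2
    exact mul_le_of_le_one_right (mul_pos hgpos hC).le h2
  -- (3)
  obtain ⟨s2, hΔ, hΔrs, hΔcard⟩ := exists_ext (X * toR d) hXd (toR d)
  rw [sup_eq_right.2 (rs_mul_le X (toR d))] at hΔrs hΔcard
  rw [finrank_rs, Fintype.card_fin] at hΔcard
  set D2 : Matrix s2 α ℤ := d.submatrix Subtype.val id with hD2
  have hD2R : toR D2 = (toR d).submatrix (Subtype.val : s2 → β) id := rfl
  rw [← hD2R] at hΔ hΔrs
  set Δ := Matrix.fromRows (X * toR d) (toR D2) with hΔdef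
  have hXpos := vol_pos _ hXd
  have hΔvol : vol Δ ≤ vol (X * toR d) * b ^ s2.card := by
    rw [hΔdef, vol_fromRows _ _ hXd]
    refine mul_le_mul_of_nonneg_left ?_ hXpos.le
    have h2 := vol_prj_le_pow (X * toR d) hXd (toR D2) b (zero_le_one.trans hb) (by
      intro i
      refine le_trans (le_of_eq ?_) (hrow i)
      simp only [dotProduct, hD2, toR, Matrix.map_apply, Matrix.submatrix_apply, id, sq])
    rwa [Fintype.card_coe] at h2
  -- (4)
  set Ξ : Matrix (Fin l ⊕ s2) γ ℝ := Matrix.fromRows (X * h) 0 with hΞ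
  have hTr : vol (Matrix.fromBlocks 0 Γ Δ Ξ) = vol Γ * vol Δ :=
    vol_block Γ hΓ (by rw [Fintype.card_sum, Fintype.card_coe]; exact hΓcard) Δ Ξ
  have hTrpos : 0 < vol (Matrix.fromBlocks 0 Γ Δ Ξ) := by
    rw [hTr]
    exact mul_pos (vol_pos _ hΓ) (vol_pos _ hΔ)
  -- (5)
  set T : Matrix (ι ⊕ (κ ⊕ (s1 ⊕ s2))) (α ⊕ γ) ℤ :=
    Matrix.fromRows (Matrix.fromCols (s * d) t) (Matrix.fromRows (Matrix.fromCols 0 g)
      (Matrix.fromRows (Matrix.fromCols 0 U1) (Matrix.fromCols D2 0))) with hT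
  set Q : Matrix (ι ⊕ (κ ⊕ (s1 ⊕ s2))) (ι ⊕ (κ ⊕ (s1 ⊕ s2))) ℝ :=
    Matrix.fromBlocks P 0 0 1 with hQ
  have hdetQ : Q.det = P.det := by
    rw [hQ, Matrix.det_fromBlocks_zero₂₁, Matrix.det_one, mul_one]
  have hPdet : P.det ≠ 0 := by
    intro h0
    rw [h0, abs_zero, zero_mul] at hPvol
    exact zero_ne_one hPvol
  let σ : ι ⊕ (κ ⊕ (s1 ⊕ s2)) ≃ ((κ ⊕ Fin k) ⊕ s1) ⊕ (Fin l ⊕ s2) :=
    (Equiv.sumCongr e.symm (Equiv.refl _)).trans (tau (Fin k) (Fin l) κ s1 s2)
  have hPd : P * toR s * toR d = ((Matrix.fromRows Y X).submatrix e.symm id) * toR d := by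
    rw [hPs]
  have hPh : P * toR s * h = ((Matrix.fromRows Y X).submatrix e.symm id) * h := by
    rw [hPs]
  have hT1 : toR T = Matrix.fromRows (Matrix.fromCols (toR s * toR d) (toR s * h))
      (Matrix.fromRows (Matrix.fromCols 0 (toR g))
        (Matrix.fromRows (Matrix.fromCols 0 (toR U1)) (Matrix.fromCols (toR D2) 0))) := by
    rw [ht, ← toR_mul, hT]
    ext i j
    rcases i with i | i | i | i <;> rcases j with j | j <;> simp [toR]
  have hQT : Q * toR T = (Matrix.fromBlocks 0 Γ Δ Ξ).submatrix σ id := by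
    rw [hT1, hQ, Matrix.fromBlocks_mul_fromRows, Matrix.zero_mul, Matrix.zero_mul, add_zero,
      zero_add, Matrix.one_mul, Matrix.mul_fromCols, ← Matrix.mul_assoc, ← Matrix.mul_assoc, hPd,
      hPh]
    have hsd : ∀ {c : Type} (A : Matrix β c ℝ), (Matrix.fromRows Y X).submatrix e.symm id * A =
        (Matrix.fromRows (Y * A) (X * A)).submatrix e.symm id := by
      intro c A
      rw [← Matrix.fromRows_mul]
      rfl
    rw [hsd, hsd, hYd]
    ext i j
    rcases i with i | i | i | i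
    · rcases hi : e.symm i with a | a <;> rcases j with j | j <;>
        simp [σ, tau, hi, hΓdef, hΔdef, hΞ]
    all_goals rcases j with j | j <;> simp [σ, tau, hΓdef, hΔdef, hΞ]
  have hvT : vol (toR T) = vol (toR s) * vol (Matrix.fromBlocks 0 Γ Δ Ξ) := by
    have h2 : vol (Q * toR T) = vol (Matrix.fromBlocks 0 Γ Δ Ξ) := by
      rw [hQT]
      exact vol_submatrix _ σ (Equiv.refl _)
    rw [← h2, vol_mul, hdetQ, ← mul_assoc, mul_comm (vol (toR s)), hPvol, one_mul]
  have hTLI : LI (toR T) := li_of_vol_pos _ (by rw [hvT]; exact mul_pos hspos hTrpos)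
  have hTrs : rs (toR T) = rs (Matrix.fromBlocks (toR d) 0 0 (1 : Matrix γ γ ℝ)) := by
    rw [← rs_mul Q (by rw [hdetQ]; exact hPdet), hQT, rs_submatrix]
    ext x
    rw [mem_block Γ hΓrs, mem_block', hΔrs]
  obtain ⟨r, g', hg'1, hg'2, hg'3⟩ := exists_smaller d T hTLI hTrs
  refine ⟨k, l, Y, X, r, g', ?_, hk, hrsY, hY, hX, hXd, li_of_vol_pos _ hC, hg'1, hg'2, ?_⟩
  · have := Fintype.card_congr e
    rw [Fintype.card_sum, Fintype.card_fin, Fintype.card_fin] at this
    exact this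
  · have hb0 : 0 < b := zero_lt_one.trans_le hb
    have h2 : vol (toR g') ≤ vol (toR s) * ((vol (toR g) * vol (Y * h * prj (toR g))) *
        (vol (X * toR d) * b ^ s2.card)) := by
      refine hg'3.trans ?_
      rw [hvT, hTr]
      exact mul_le_mul_of_nonneg_left (mul_le_mul hΓvol hΔvol (vol_nonneg _)
        (mul_pos hgpos hC).le) hspos.le
    have h3 := Real.log_le_log (vol_pos _ hg'1) h2
    have hbp : 0 < b ^ s2.card := pow_pos hb0 _
    rw [Real.log_mul hspos.ne' (mul_pos (mul_pos hgpos hC) (mul_pos hXpos hbp)).ne',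
      Real.log_mul (mul_pos hgpos hC).ne' (mul_pos hXpos hbp).ne',
      Real.log_mul hgpos.ne' hC.ne', Real.log_mul hXpos.ne' hbp.ne', Real.log_pow] at h3
    have h4 : ((toR d).rank : ℝ) - l = s2.card := by
      rw [← hΔcard]
      push_cast
      ring
    rw [h4]
    linarith

end Pool.Agent.LT
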