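import Mathlib
import Pool.Agent.LT.Base
import Pool.Agent.LT.LAVol
import Pool.Agent.LT.LAKer
import Pool.Agent.LT.NormB

set_option autoImplicit false

/-!
# Project LT, module QLat: the lattice belonging to the data `QD`

PLAN. Let `n := C.nn (q+1)` and consider the integral linear forms on `ℤ^(Fin ν × Fin n)`
with index set `ι ⊕ {x : Fin ν × Fin n // x.1 ∉ A}`: the `phi a` and the coordinates `x`, `x.1 ∉ A`
(`Pi.single x 1`, norm 1). `InL A phi x` iff `x` is killed by all of them. `exists_kernel_basis`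
gives `s` with `l` rows: `InL` for the rows, `vol s ≤ ∏_a max 1 ‖phi a‖₁ = ∏_a ‖phi a‖₁` (a nonzero
integer vector has `ℓ¹` norm at least `1`), so
`log vol s ≤ ∑_a log ‖phi a‖₁ ≤ cost ≤ θ ν + K bad F`; the number of forms is
`card ι + n * card Aᶜ ≤ θ ν + K bad F + n K bad F` (`card ι ≤ cost` because `log ≥ 0`).
Cycle property: let `x ∈ rs (toR s)` be real with `x ᵥ* toR (dM q) = 0`. Apply
`exists_kernel_basis` to the forms above together with the columns of `dM C M q`: `s2`. Then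
`x ∈ rs (toR s2)` (all vectors of `rs (toR s)` are killed by the forms), so `x` is a real
combination of the rows `z` of `s2`, integral vectors with `InL A phi z` and `z ᵥ* dM q = 0`.
By `Q.h_int` there is `y` with `toV z ᵥ* h = toV y`, `y ᵥ* dM (q+1) = z`; so
`(toV z ᵥ* h) ᵥ* toR (dM (q+1)) = toV z`, and by linearity the same for `x`.
-/

open scoped BigOperators

namespace Pool.Agent.LT

/-- the integral linear forms which cut out `InL A phi` -/
private noncomputable def fm {ν n : ℕ} {ι : Type} (A : Finset (Fin ν))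
    (phi : ι → Fin ν × Fin n → ℤ) :
    Matrix (ι ⊕ {x : Fin ν × Fin n // x.1 ∉ A}) (Fin ν × Fin n) ℤ :=
  Matrix.of (Sum.elim phi (fun x => Pi.single x.1 1))

private theorem inL_of {ν n : ℕ} {ι : Type} (A : Finset (Fin ν))
    (phi : ι → Fin ν × Fin n → ℤ) (z : Fin ν × Fin n → ℤ) (h : ∀ j, z ⬝ᵥ fm A phi j = 0) :
    InL A phi z := by
  refine ⟨fun y hy => ?_, fun a => ?_⟩
  · have h1 : z ⬝ᵥ (Pi.single y 1 : Fin ν × Fin n → ℤ) = 0 := h (Sum.inr ⟨y, hy⟩)
    rwa [dotProduct_single_one] at h1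
  · have h1 : z ⬝ᵥ phi a = 0 := h (Sum.inl a)
    rw [dotProduct_comm] at h1
    exact h1

private theorem dot_toV {n : Type} [Fintype n] (x y : n → ℤ) :
    toV x ⬝ᵥ toV y = ((x ⬝ᵥ y : ℤ) : ℝ) := by
  simp [toV, dotProduct]

private theorem killed {n m : Type} [Fintype n] {l : ℕ} (s : Matrix (Fin l) n ℤ)
    (A : Matrix m n ℤ) (h : ∀ i j, s i ⬝ᵥ A j = 0) {x : n → ℝ} (hx : x ∈ rs (toR s)) (j : m) :
    x ⬝ᵥ toV (A j) = 0 := by
  unfold rs at hx
  induction hx using Submodule.span_induction with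
  | mem x hx =>
    obtain ⟨i, rfl⟩ := hx
    have h1 : (toR s).row i = toV (s i) := rfl
    rw [h1, dot_toV, h, Int.cast_zero]
  | zero => rw [zero_dotProduct]
  | add x y _ _ hx hy => rw [add_dotProduct, hx, hy, add_zero]
  | smul c x _ hx => rw [smul_dotProduct, hx, smul_zero]

private theorem one_le_norm {n : Type} [Fintype n] (f : n → ℤ) (h : f ≠ 0) :
    1 ≤ ∑ x, |(f x : ℝ)| := by
  obtain ⟨x, hx⟩ := Function.ne_iff.1 h
  have h1 : (1 : ℝ) ≤ |(f x : ℝ)| := by
    have : (1 : ℤ) ≤ |f x| := Int.one_le_abs hx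
    exact_mod_cast this
  exact h1.trans (Finset.single_le_sum (f := fun x => |(f x : ℝ)|) (fun i _ => abs_nonneg _)
    (Finset.mem_univ x))

private theorem norm_single {n : Type} [Fintype n] [DecidableEq n] (x : n) :
    ∑ y, |((Pi.single x 1 : n → ℤ) y : ℝ)| = 1 := by
  rw [Finset.sum_eq_single x]
  · simp
  · intro y _ hy
    simp [hy]
  · intro h
    exact absurd (Finset.mem_univ x) h

theorem qd_lattice {G : Type} [Group G] (C : Cpl G) {ν : ℕ} (M : Mod G ν) (q : ℕ)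
    (B F T : Finset G) (K θ : ℝ) (hK : 0 ≤ K) (Q : QD C M q B F T K θ) :
    ∃ (l : ℕ) (s : Matrix (Fin l) (Fin ν × Fin (C.nn (q + 1))) ℤ), LI (toR s) ∧
      (∃ t : Matrix (Fin l) (Fin ν × Fin (C.nn (q + 2))) ℤ, toR s * Q.h = toR t) ∧
      (∀ x ∈ rs (toR s), Matrix.vecMul x (toR (dM C M q)) = 0 →
        Matrix.vecMul (Matrix.vecMul x Q.h) (toR (dM C M (q + 1))) = x) ∧
      Real.log (vol (toR s)) ≤ θ * ν + K * M.bad F ∧
      (C.nn (q + 1) : ℝ) * ν ≤ l + (θ * ν + K * M.bad F + C.nn (q + 1) * K * M.bad F) := by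
  classical
  letI := Q.inst
  obtain ⟨l, s, hLI, hker, hall, hcard, hvol⟩ := exists_kernel_basis (fm Q.A Q.phi)
  have hlog : ∀ a, 0 ≤ Real.log (∑ x, |(Q.phi a x : ℝ)|) := fun a =>
    Real.log_nonneg (one_le_norm _ (Q.phi_ne a))
  refine ⟨l, s, hLI, ?_, ?_, ?_, ?_⟩
  · choose y hy using fun i => Q.h_int (s i) (inL_of _ _ _ (hker i))
    refine ⟨Matrix.of y, ?_⟩
    ext i z
    rw [Matrix.mul_apply_eq_vecMul]
    exact congrFun (hy i).1 z
  · intro x hx hx0
    obtain ⟨l2, s2, -, hker2, hall2, -, -⟩ := exists_kernel_basis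
      (Matrix.of (Sum.elim (fm Q.A Q.phi) (fun c y => dM C M q y c)) :
        Matrix ((Q.ι ⊕ {x : Fin ν × Fin (C.nn (q + 1)) // x.1 ∉ Q.A}) ⊕
          (Fin ν × Fin (C.nn q))) (Fin ν × Fin (C.nn (q + 1))) ℤ)
    have hx2 : x ∈ rs (toR s2) := by
      apply hall2
      rintro (j | c)
      · exact killed s (fm Q.A Q.phi) hker hx j
      · exact congrFun hx0 c
    have hin : ∀ i, InL Q.A Q.phi (s2 i) := fun i =>
      inL_of _ _ _ fun j => hker2 i (Sum.inl j)
    have hcyc : ∀ i, Matrix.vecMul (s2 i) (dM C M q) = 0 := fun i => by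
      funext c
      exact hker2 i (Sum.inr c)
    clear hx hx0
    unfold rs at hx2
    induction hx2 using Submodule.span_induction with
    | mem x hx =>
      obtain ⟨i, rfl⟩ := hx
      have h1 : (toR s2).row i = toV (s2 i) := rfl
      obtain ⟨y, hy1, hy2⟩ := Q.h_int (s2 i) (hin i)
      rw [h1, hy1, ← toV_vecMul, hy2 (hcyc i)]
    | zero => rw [Matrix.zero_vecMul, Matrix.zero_vecMul]
    | add x y _ _ hx hy => rw [Matrix.add_vecMul, Matrix.add_vecMul, hx, hy]
    | smul c x _ hx => rw [Matrix.smul_vecMul, Matrix.smul_vecMul, hx]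
  · have h1 : Real.log (vol (toR s)) ≤
        Real.log (∏ i, max 1 (∑ j, |((fm Q.A Q.phi) i j : ℝ)|)) :=
      Real.log_le_log (vol_pos _ hLI) hvol
    have h2 : Real.log (∏ i, max 1 (∑ j, |((fm Q.A Q.phi) i j : ℝ)|)) =
        ∑ a, Real.log (∑ x, |(Q.phi a x : ℝ)|) := by
      rw [Real.log_prod (fun i _ => by positivity), Fintype.sum_sum_type]
      have h3 : ∀ a, max 1 (∑ j, |((fm Q.A Q.phi) (Sum.inl a) j : ℝ)|) =
          ∑ x, |(Q.phi a x : ℝ)| := fun a => max_eq_right (one_le_norm _ (Q.phi_ne a))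
      have h4 : ∀ x, max 1 (∑ j, |((fm Q.A Q.phi) (Sum.inr x) j : ℝ)|) = 1 := by
        intro x
        have : (∑ j, |((fm Q.A Q.phi) (Sum.inr x) j : ℝ)|) = 1 := norm_single x.1
        rw [this, max_self]
      simp only [h3, h4, Real.log_one, Finset.sum_const_zero, add_zero]
    rw [h2] at h1
    refine h1.trans (le_trans ?_ Q.cost)
    exact Finset.sum_le_sum fun a _ => by linarith
  · have h1 : (Fintype.card Q.ι : ℝ) ≤ θ * ν + K * M.bad F := by
      refine le_trans ?_ Q.cost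
      have : (Fintype.card Q.ι : ℝ) = ∑ _a : Q.ι, (1 : ℝ) := by simp
      rw [this]
      exact Finset.sum_le_sum fun a _ => by linarith [hlog a]
    have h2 : Fintype.card {x : Fin ν × Fin (C.nn (q + 1)) // x.1 ∉ Q.A} =
        (Q.Aᶜ).card * C.nn (q + 1) := by
      rw [Fintype.card_subtype]
      have : (Finset.univ.filter fun x : Fin ν × Fin (C.nn (q + 1)) => x.1 ∉ Q.A) =
          (Q.Aᶜ) ×ˢ (Finset.univ : Finset (Fin (C.nn (q + 1)))) := by
        ext x
        simp
      rw [this, Finset.card_product, Finset.card_univ, Fintype.card_fin]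
    rw [Fintype.card_sum, h2, Fintype.card_prod, Fintype.card_fin, Fintype.card_fin] at hcard
    have h3 : ((ν * C.nn (q + 1) : ℕ) : ℝ) ≤
        ((l + (Fintype.card Q.ι + (Q.Aᶜ).card * C.nn (q + 1)) : ℕ) : ℝ) := by
      exact_mod_cast hcard
    push_cast at h3
    have h4 : ((Q.Aᶜ).card : ℝ) * (C.nn (q + 1) : ℝ) ≤ (K * M.bad F) * (C.nn (q + 1) : ℝ) :=
      mul_le_mul_of_nonneg_right Q.A_card (Nat.cast_nonneg _)
    nlinarith [h1, h3, h4]

end Pool.Agent.LT
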