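import Mathlib
import Pool.Agent.LT.Base
import Pool.Agent.LT.ModB
import Pool.Agent.LT.Push
import Pool.Agent.LT.NormB
import Pool.Agent.LT.LAVol
import Pool.Agent.LT.LAProj
import Pool.Agent.LT.LAAC
import Pool.Agent.LT.LAStep
import Pool.Agent.LT.QLat

set_option autoImplicit false

/-!
# Project LT, module OneStep: ranks and the main inequality for one position

PLAN `rk_add_le`: `dR (q+1) * dR q = 0` (`dM_sq`), so the row space of `dR (q+1)` is contained in
the kernel of `x ↦ x ᵥ* dR q`, of dimension `nn (q+1) ν - rk q` (rank-nullity);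
(`Matrix.rank` of `A * B = 0`: e.g. `Matrix.rank_add_rank_le_card_of_mul_eq_zero` if it exists).
PLAN `rank_ineq`: apply `QS C N q` with `θ/2`: `B F T K`; `e0 := θ/(2 (K + nn(q+1) K + 1))`. For a
model with `bad F ≤ e0 ν` take `Q`, and `s` with `l` rows from `qd_lattice`. The subspace
`K_q := rs (toR s) ⊓ ker (· ᵥ* dR q)` is contained in the row space of `dR (q+1)` (cycle property),
so `finrank ≤ rk (q+1)`, and `l - finrank K_q ≤ rk q`. So `l ≤ rk q + rk (q+1)`, and
`nn(q+1) ν ≤ l + θ ν`.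
PLAN `one_step`: apply `QS C N q` with `θ/2`, `rank_ineq` at `q` and at `q+1` with `θ` (`F` = union of
the three sets, `e0` = minimum). `L := K |T| (nn(q+1) + nn(q+2))` (`NB_local`). Given `g`
(linearly independent, row space that of `dR (q+2)`, so its number of rows is `rk (q+2)` and
`g * dM (q+1) = 0` because `dM (q+2) * dM (q+1) = 0`). Apply `la_step` with `d := dM q`,
`e0 := dM (q+1)`, `s` from `qd_lattice`, `h := Q.h`: `k l' Y X r g'`.
`ineq_A` with `X`: `log vol (X d) ≤ 1/2 ld (dR q) δA + (nn(q+1) ν - l') |log δA|`;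
`ineq_C` with `e := dR (q+1)`, `Y := Y * h * prj (toR g)`:
`Y h prj g * gᵀ = 0` (`prj g * gᵀ = (g prj g)ᵀ = 0`), `Y h prj(g) e = Y h e = Y` (because
`z - z prj g ∈ rs g` is killed by `e`), `NB (Y h prj g) L` (`ON Y`, `NB h L`, `prj_norm_le`).
Numbers: `k ≤ nn(q+1) ν - rk q`, `l' = l - k ≥ rk q - θ ν`, `k ≥ l - rk q ≥ rk (q+1) - θ ν`
(`rk_add_le`) and `nn(q+2) ν - rk (q+2) ≤ rk (q+1) + θ ν` (`rank_ineq` at `q+1`), so
`nn(q+2) ν - rk (q+2) - k ≤ 2 θ ν`; `k ≤ nn(q+1) ν` for the term with `log (1 + δC² L²) ≥ 0`;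
`rk q - l' ≤ θ ν`; `log b ≥ 0`, `log (b²+1) ≥ 0`.
-/

open scoped BigOperators

namespace Pool.Agent.LT

variable {G : Type} [Group G]

/-- the contribution of position `q + 1` to the main inequality -/
noncomputable def TT (C : Cpl G) {ν : ℕ} (M : Mod G ν) (b L θ δA δC : ℝ) (q : ℕ) : ℝ :=
  θ + (1 / 2 * (ld (dR C M q) δA / ν) +
      (C.nn (q + 1) - (rk C M q : ℝ) / ν + θ) * |Real.log δA|) +
    (C.nn (q + 1) / 2 * Real.log (1 + δC ^ 2 * L ^ 2) -
      1 / 2 * (ld (dR C M (q + 1)) δC / ν) - (rk C M (q + 2) : ℝ) / ν * |Real.log δC| +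
      θ * Real.log (b ^ 2 + 1)) + θ * Real.log b

/-! ### auxiliary facts -/

private theorem range_vecMul {m n : Type} [Fintype m] [DecidableEq m] [Fintype n]
    (A : Matrix m n ℝ) : LinearMap.range A.vecMulLinear = rs A := by
  ext x
  rw [LinearMap.mem_range, mem_rs]
  rfl

private theorem finrank_split {m n : Type} [Fintype m] [DecidableEq m] [Fintype n]
    (A : Matrix m n ℝ) (W : Submodule ℝ (m → ℝ)) :
    Module.finrank ℝ W ≤ A.rank + Module.finrank ℝ ↥(W ⊓ LinearMap.ker A.vecMulLinear) := by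
  have h1 := LinearMap.finrank_range_add_finrank_ker (A.vecMulLinear.domRestrict W)
  have h2 : Module.finrank ℝ ↥(LinearMap.range (A.vecMulLinear.domRestrict W)) ≤ A.rank := by
    rw [← finrank_rs, ← range_vecMul]
    apply Submodule.finrank_mono
    rintro _ ⟨x, rfl⟩
    exact ⟨x.1, rfl⟩
  have h3 : Module.finrank ℝ ↥(LinearMap.ker (A.vecMulLinear.domRestrict W)) =
      Module.finrank ℝ ↥(W ⊓ LinearMap.ker A.vecMulLinear) := by
    have h4 : Submodule.map W.subtype (LinearMap.ker (A.vecMulLinear.domRestrict W)) =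
        W ⊓ LinearMap.ker A.vecMulLinear := by
      rw [← Submodule.map_comap_subtype]
      rfl
    rw [← Submodule.finrank_map_subtype_eq W, h4]
  omega

private theorem finrank_ker {m n : Type} [Fintype m] [DecidableEq m] [Fintype n]
    (A : Matrix m n ℝ) :
    A.rank + Module.finrank ℝ ↥(LinearMap.ker A.vecMulLinear) = Fintype.card m := by
  have h1 := LinearMap.finrank_range_add_finrank_ker A.vecMulLinear
  rw [range_vecMul, finrank_rs, Module.finrank_fintype_fun_eq_card] at h1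
  exact h1

theorem rk_add_le (C : Cpl G) {ν : ℕ} (M : Mod G ν) (q : ℕ) :
    rk C M q + rk C M (q + 1) ≤ C.nn (q + 1) * ν := by
  have h1 : dR C M (q + 1) * dR C M q = 0 := by
    unfold dR
    rw [← toR_mul, dM_sq]
    ext i j
    simp [toR]
  have h2 := Matrix.rank_add_rank_le_card_of_mul_eq_zero h1
  rw [Fintype.card_prod, Fintype.card_fin, Fintype.card_fin] at h2
  unfold rk
  rw [mul_comm (C.nn (q + 1)) ν]
  omega

/-- the rank of the lattice is at most the sum of two ranks -/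
private theorem lattice_split (C : Cpl G) {ν : ℕ} (M : Mod G ν) (q l : ℕ)
    (s : Matrix (Fin l) (Fin ν × Fin (C.nn (q + 1))) ℤ) (hs : LI (toR s)) :
    l ≤ rk C M q +
      Module.finrank ℝ ↥(rs (toR s) ⊓ LinearMap.ker (toR (dM C M q)).vecMulLinear) := by
  have h1 := finrank_split (toR (dM C M q)) (rs (toR s))
  rw [finrank_rs, rank_of_li _ hs, Fintype.card_fin] at h1
  exact h1

theorem rank_ineq (C : Cpl G) (N : Subgroup G) (q : ℕ) (hQ : QS C N q) (θ : ℝ) (hθ : 0 < θ) :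
    ∃ (F : Finset G) (e0 : ℝ), 0 < e0 ∧ ∀ (ν : ℕ) (M : Mod G ν), (M.bad F : ℝ) ≤ e0 * ν →
      (C.nn (q + 1) : ℝ) * ν - θ * ν ≤ rk C M q + rk C M (q + 1) := by
  obtain ⟨B, F, T, K, -, hK, hQD⟩ := hQ (θ / 2) (by linarith)
  have hden : 0 < 2 * (K + C.nn (q + 1) * K + 1) := by positivity
  refine ⟨F, θ / (2 * (K + C.nn (q + 1) * K + 1)), by positivity, fun ν M hbad => ?_⟩
  obtain ⟨Q⟩ := hQD ν M
  obtain ⟨l, s, hs, -, hcyc, -, hl⟩ := qd_lattice C M q B F T K (θ / 2) hK Q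
  have h1 := lattice_split C M q l s hs
  have h2 : Module.finrank ℝ ↥(rs (toR s) ⊓ LinearMap.ker (toR (dM C M q)).vecMulLinear) ≤
      rk C M (q + 1) := by
    unfold rk
    rw [← finrank_rs]
    apply Submodule.finrank_mono
    rintro x ⟨hx1, hx2⟩
    have h3 := hcyc x hx1 hx2
    rw [mem_rs]
    exact ⟨_, h3⟩
  have h4 : (l : ℝ) ≤ rk C M q + rk C M (q + 1) := by
    exact_mod_cast h1.trans (Nat.add_le_add_left h2 _)
  have h5 : (K + C.nn (q + 1) * K) * M.bad F ≤ θ / 2 * ν := by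
    calc (K + C.nn (q + 1) * K) * M.bad F
        ≤ (K + C.nn (q + 1) * K) * (θ / (2 * (K + C.nn (q + 1) * K + 1)) * ν) :=
          mul_le_mul_of_nonneg_left hbad (by positivity)
      _ = ((K + C.nn (q + 1) * K) / (K + C.nn (q + 1) * K + 1)) * (θ / 2 * ν) := by
          field_simp
      _ ≤ 1 * (θ / 2 * ν) := by
          apply mul_le_mul_of_nonneg_right _ (by positivity)
          rw [div_le_one (by positivity)]
          linarith
      _ = θ / 2 * ν := one_mul _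
  nlinarith

private theorem NB_of_on {m n : Type} [Fintype m] [DecidableEq m] [Fintype n] (Y : Matrix m n ℝ)
    (h : ON Y) : NB Y 1 := by
  intro x
  have h1 : Matrix.vecMul x Y ⬝ᵥ Matrix.vecMul x Y = x ⬝ᵥ x := by
    have h2 : Matrix.vecMul x Y ⬝ᵥ Matrix.vecMul x Y =
        Matrix.vecMul (Matrix.vecMul x Y) Y.transpose ⬝ᵥ x := by
      rw [← Matrix.dotProduct_mulVec, Matrix.vecMul_transpose, dotProduct_comm]
    rw [h2, Matrix.vecMul_vecMul, h, Matrix.vecMul_one]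
  rw [h1]
  simp

private theorem NB_mul {m n k : Type} [Fintype m] [Fintype n] [Fintype k] (A : Matrix m n ℝ)
    (B : Matrix n k ℝ) (a b : ℝ) (hA : NB A a) (hB : NB B b) : NB (A * B) (a * b) := by
  intro x
  have h1 := hB (Matrix.vecMul x A)
  have h2 := hA x
  rw [← Matrix.vecMul_vecMul]
  calc _ ≤ b ^ 2 * (Matrix.vecMul x A ⬝ᵥ Matrix.vecMul x A) := h1
    _ ≤ b ^ 2 * (a ^ 2 * (x ⬝ᵥ x)) := mul_le_mul_of_nonneg_left h2 (sq_nonneg b)
    _ = (a * b) ^ 2 * (x ⬝ᵥ x) := by ring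

private theorem rs_mul_zero {m n k p : Type} [Fintype m] [DecidableEq m] [Fintype n] [Fintype p]
    [DecidableEq p] (A : Matrix m n ℝ) (A' : Matrix p n ℝ) (B : Matrix n k ℝ)
    (h : rs A ≤ rs A') (h0 : A' * B = 0) : A * B = 0 := by
  ext i j
  have h1 : A.row i ∈ rs A' := h (Submodule.subset_span ⟨i, rfl⟩)
  rw [mem_rs] at h1
  obtain ⟨c, hc⟩ := h1
  have h2 : Matrix.vecMul (A.row i) B = 0 := by
    rw [← hc, Matrix.vecMul_vecMul, h0, Matrix.vecMul_zero]
  have h3 := congrFun h2 j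
  exact h3

theorem one_step (C : Cpl G) (N : Subgroup G) (b : ℝ) (hb : 1 ≤ b)
    (hb' : ∀ (ν : ℕ) (M : Mod G ν) (q : ℕ), NB (dR C M q) b ∧
      ∀ x, ∑ y, (dR C M q x y) ^ 2 ≤ b ^ 2)
    (q : ℕ) (hQ : QS C N q) (hQ1 : QS C N (q + 1)) (θ : ℝ) (hθ : 0 < θ) :
    ∃ (F : Finset G) (e0 L : ℝ), 0 < e0 ∧ 0 ≤ L ∧ ∀ (ν : ℕ) (M : Mod G ν), 0 < ν →
      (M.bad F : ℝ) ≤ e0 * ν → ∀ δA δC : ℝ, 0 < δA → δA ≤ 1 → 0 < δC → δC ≤ 1 →
      ∀ (r : ℕ) (g : Matrix (Fin r) (Fin ν × Fin (C.nn (q + 2))) ℤ), LI (toR g) →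
        rs (toR g) = rs (dR C M (q + 2)) →
        ∃ (r' : ℕ) (g' : Matrix (Fin r') (Fin ν × Fin (C.nn q)) ℤ), LI (toR g') ∧
          rs (toR g') = rs (dR C M q) ∧
          Real.log (vol (toR g')) ≤ Real.log (vol (toR g)) + ν * TT C M b L θ δA δC q := by
  classical
  obtain ⟨B, F0, T, K, -, hK, hQD⟩ := hQ (θ / 2) (by linarith)
  obtain ⟨F2, e2, he2, hr2⟩ := rank_ineq C N (q + 1) hQ1 θ hθ
  have hden : 0 < 2 * (K + C.nn (q + 1) * K + 1) := by positivity
  refine ⟨F0 ∪ F2, min (θ / (2 * (K + C.nn (q + 1) * K + 1))) e2,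
    K * T.card * (C.nn (q + 1) + C.nn (q + 2)), lt_min (by positivity) he2, by positivity, ?_⟩
  intro ν M hν hbad δA δC hA0 hA1 hC0 hC1 r g hg hgr
  set L : ℝ := K * T.card * (C.nn (q + 1) + C.nn (q + 2)) with hL
  have hν0 : (0 : ℝ) < ν := by exact_mod_cast hν
  have hbad0 : (M.bad F0 : ℝ) ≤ θ / (2 * (K + C.nn (q + 1) * K + 1)) * ν := by
    have h1 : (M.bad F0 : ℝ) ≤ M.bad (F0 ∪ F2) := by
      exact_mod_cast M.bad_mono Finset.subset_union_left
    refine h1.trans (hbad.trans ?_)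
    exact mul_le_mul_of_nonneg_right (min_le_left _ _) hν0.le
  have hbad2 : (M.bad F2 : ℝ) ≤ e2 * ν := by
    have h1 : (M.bad F2 : ℝ) ≤ M.bad (F0 ∪ F2) := by
      exact_mod_cast M.bad_mono Finset.subset_union_right
    refine h1.trans (hbad.trans ?_)
    exact mul_le_mul_of_nonneg_right (min_le_right _ _) hν0.le
  obtain ⟨Q⟩ := hQD ν M
  obtain ⟨l, s, hs, hint, hcyc, hvol, hl⟩ := qd_lattice C M q B F0 T K (θ / 2) hK Q
  have h5 : (K + C.nn (q + 1) * K) * M.bad F0 ≤ θ / 2 * ν := by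
    calc (K + C.nn (q + 1) * K) * M.bad F0
        ≤ (K + C.nn (q + 1) * K) * (θ / (2 * (K + C.nn (q + 1) * K + 1)) * ν) :=
          mul_le_mul_of_nonneg_left hbad0 (by positivity)
      _ = ((K + C.nn (q + 1) * K) / (K + C.nn (q + 1) * K + 1)) * (θ / 2 * ν) := by
          field_simp
      _ ≤ 1 * (θ / 2 * ν) := by
          apply mul_le_mul_of_nonneg_right _ (by positivity)
          rw [div_le_one (by positivity)]
          linarith
      _ = θ / 2 * ν := one_mul _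
  have hKb : 0 ≤ C.nn (q + 1) * K * M.bad F0 := by positivity
  have hvol' : Real.log (vol (toR s)) ≤ θ * ν := by nlinarith
  have hl' : (C.nn (q + 1) : ℝ) * ν ≤ l + θ * ν := by nlinarith
  -- the differentials kill each other
  have hge' : toR g * dR C M (q + 1) = 0 := by
    apply rs_mul_zero (toR g) (dR C M (q + 2)) _ hgr.le
    unfold dR
    rw [← toR_mul, dM_sq]
    ext i j
    simp [toR]
  have hge : g * dM C M (q + 1) = 0 := by
    ext i j
    have h1 : toR (g * dM C M (q + 1)) = 0 := by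
      rw [toR_mul]
      exact hge'
    have h2 := congrFun (congrFun h1 i) j
    have h3 : (((g * dM C M (q + 1)) i j : ℤ) : ℝ) = 0 := h2
    exact_mod_cast h3
  have hrow : ∀ i, ∑ j, ((dM C M q i j : ℝ)) ^ 2 ≤ b ^ 2 := fun i => (hb' ν M q).2 i
  obtain ⟨k, l', Y, X, r', g', hkl, hk, hY, hYon, hXon, hXd, hYh, hg', hrs', hlog⟩ :=
    la_step (dM C M q) (dM C M (q + 1)) g hg hge s hs Q.h hint hcyc b hb hrow
  refine ⟨r', g', hg', hrs', ?_⟩
  rw [Fintype.card_fin] at hkl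
  -- inequality (A)
  have hineqA := ineq_A (toR (dM C M q)) X hXon hXd δA hA0 hA1
  -- inequality (C)
  have hprj0 : prj (toR g) * (toR g).transpose = 0 := by
    have h1 := congrArg Matrix.transpose (mul_prj (toR g) hg)
    rw [Matrix.transpose_mul, prj_transpose, Matrix.transpose_zero] at h1
    exact h1
  have hYg : Y * Q.h * prj (toR g) * (toR g).transpose = 0 := by
    rw [Matrix.mul_assoc, hprj0, Matrix.mul_zero]
  have hrowY : ∀ i, Matrix.vecMul (Y.row i) Q.h = (Y * Q.h).row i := fun i => by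
    ext j
    rfl
  have hYe : Y * Q.h * prj (toR g) * toR (dM C M (q + 1)) = Y := by
    ext i j
    have hYi : Y.row i ∈ rs Y := Submodule.subset_span ⟨i, rfl⟩
    rw [hY] at hYi
    have h1 := hcyc (Y.row i) hYi.1 hYi.2
    set z := Matrix.vecMul (Y.row i) Q.h with hz
    have h2 : z - Matrix.vecMul z (prj (toR g)) ∈ rs (toR g) := sub_vecMul_prj_mem (toR g) z
    rw [mem_rs] at h2
    obtain ⟨c, hc⟩ := h2
    have h3 : Matrix.vecMul (z - Matrix.vecMul z (prj (toR g))) (toR (dM C M (q + 1))) = 0 := by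
      rw [← hc, Matrix.vecMul_vecMul]
      have : toR g * toR (dM C M (q + 1)) = 0 := hge'
      rw [this, Matrix.vecMul_zero]
    rw [Matrix.sub_vecMul, h1, sub_eq_zero] at h3
    have h4 := congrFun h3 j
    have h5 : (Y * Q.h * prj (toR g) * toR (dM C M (q + 1))) i j =
        Matrix.vecMul (Matrix.vecMul z (prj (toR g))) (toR (dM C M (q + 1))) j := by
      rw [hz, Matrix.vecMul_vecMul, Matrix.vecMul_vecMul, Matrix.mul_assoc, Matrix.mul_assoc]
      rfl
    rw [h5, ← h4]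
    rfl
  have hNB : NB (Y * Q.h * prj (toR g)) L := by
    have h1 := NB_local M T K hK Q.h Q.h_le Q.h_loc
    have h2 := NB_mul _ _ _ _ (NB_mul _ _ _ _ (NB_of_on Y hYon) h1) (prj_norm_le (toR g) hg)
    rw [one_mul, mul_one] at h2
    exact h2
  have hineqC := ineq_C (toR (dM C M (q + 1))) (toR g) hg hge' (Y * Q.h * prj (toR g)) hYg
    (by rw [hYe]; exact hYon) L b δC hNB (hb' ν M (q + 1)).1 hC0 hC1
  -- the ranks
  have hrank_g : r = rk C M (q + 2) := by
    have h1 := rank_of_li (toR g) hg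
    rw [Fintype.card_fin, ← finrank_rs, hgr, finrank_rs] at h1
    exact h1.symm
  have hkle : rk C M q + k ≤ C.nn (q + 1) * ν := by
    have h1 := finrank_ker (toR (dM C M q))
    have h2 : k ≤ Module.finrank ℝ ↥(LinearMap.ker (toR (dM C M q)).vecMulLinear) := by
      rw [hk]
      exact Submodule.finrank_mono inf_le_right
    rw [Fintype.card_prod, Fintype.card_fin, Fintype.card_fin, mul_comm ν] at h1
    unfold rk dR
    omega
  have hkge : l ≤ rk C M q + k := by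
    have h1 := lattice_split C M q l s hs
    rwa [← hk] at h1
  have hrk := rk_add_le C M q
  have hr2' := hr2 ν M hbad2
  simp only [Fintype.card_prod, Fintype.card_fin, Nat.cast_mul] at hineqA hineqC
  have hkl' : (k : ℝ) + l' = l := by exact_mod_cast hkl
  have hkle' : (rk C M q : ℝ) + k ≤ C.nn (q + 1) * ν := by exact_mod_cast hkle
  have hkge' : (l : ℝ) ≤ rk C M q + k := by exact_mod_cast hkge
  have hrk' : (rk C M q : ℝ) + rk C M (q + 1) ≤ C.nn (q + 1) * ν := by exact_mod_cast hrk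
  have hrg' : (r : ℝ) = rk C M (q + 2) := by rw [hrank_g]
  have hrkq : ((toR (dM C M q)).rank : ℝ) = rk C M q := rfl
  rw [hrkq] at hlog
  rw [hrg'] at hineqC
  have hlogb : 0 ≤ Real.log b := Real.log_nonneg hb
  have hlogb2 : 0 ≤ Real.log (b ^ 2 + 1) := Real.log_nonneg (by nlinarith)
  have hlogL : 0 ≤ Real.log (1 + δC ^ 2 * L ^ 2) := Real.log_nonneg (by nlinarith [mul_nonneg (sq_nonneg δC) (sq_nonneg L)])
  have i1 : ((ν : ℝ) * C.nn (q + 1) - l') * |Real.log δA| ≤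
      ((C.nn (q + 1) : ℝ) * ν - rk C M q + θ * ν) * |Real.log δA| := by
    apply mul_le_mul_of_nonneg_right _ (abs_nonneg _)
    nlinarith
  have i2 : (k : ℝ) / 2 * Real.log (1 + δC ^ 2 * L ^ 2) ≤
      (C.nn (q + 1) : ℝ) * ν / 2 * Real.log (1 + δC ^ 2 * L ^ 2) := by
    apply mul_le_mul_of_nonneg_right _ hlogL
    have : (0 : ℝ) ≤ rk C M q := Nat.cast_nonneg _
    linarith
  have i3 : 1 / 2 * ((ν : ℝ) * C.nn (q + 2) - rk C M (q + 2) - k) * Real.log (b ^ 2 + 1) ≤
      θ * ν * Real.log (b ^ 2 + 1) := by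
    apply mul_le_mul_of_nonneg_right _ hlogb2
    have h6 : (C.nn (q + 1 + 1) : ℝ) * ν = ν * C.nn (q + 2) := mul_comm _ _
    have h7 : (rk C M (q + 1 + 1) : ℝ) = rk C M (q + 2) := rfl
    rw [h6, h7] at hr2'
    linarith
  have i4 : ((rk C M q : ℝ) - l') * Real.log b ≤ θ * ν * Real.log b := by
    apply mul_le_mul_of_nonneg_right _ hlogb
    linarith
  have hTT : (ν : ℝ) * TT C M b L θ δA δC q = θ * ν + 1 / 2 * ld (dR C M q) δA +
      ((C.nn (q + 1) : ℝ) * ν - rk C M q + θ * ν) * |Real.log δA| +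
      ((C.nn (q + 1) : ℝ) * ν / 2 * Real.log (1 + δC ^ 2 * L ^ 2) -
        1 / 2 * ld (dR C M (q + 1)) δC - rk C M (q + 2) * |Real.log δC| +
        θ * ν * Real.log (b ^ 2 + 1)) + θ * ν * Real.log b := by
    unfold TT
    field_simp
    ring
  rw [hTT]
  have hA' : Real.log (vol (X * toR (dM C M q))) ≤ 1 / 2 * ld (dR C M q) δA +
      ((ν : ℝ) * C.nn (q + 1) - l') * |Real.log δA| := hineqA
  have hC' : Real.log (vol (Y * Q.h * prj (toR g))) ≤
      (k : ℝ) / 2 * Real.log (1 + δC ^ 2 * L ^ 2) - 1 / 2 * ld (dR C M (q + 1)) δC -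
      rk C M (q + 2) * |Real.log δC| +
      1 / 2 * ((ν : ℝ) * C.nn (q + 2) - rk C M (q + 2) - k) * Real.log (b ^ 2 + 1) := hineqC
  linarith

end Pool.Agent.LT
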