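import Mathlib
import Pool.Agent.LT.Base
import Pool.Agent.LT.Net
import Pool.Agent.LT.OneStep

set_option autoImplicit false

/-!
# Project LT, module RkLim: limits of the normalized ranks

PLAN. `w 0 = 0`, `w (q+1) = nn (q+1) - w q`. Induction on `q`. `rk 0 = 0`: the matrix `dR C M 0` has
no columns (`nn 0 = 0`), its rank is at most the number of columns
(`Matrix.rank_le_card_width`). Step: for every `θ > 0` eventually (`rank_ineq`, `Net.eventually`,
`rk_add_le`, `ν > 0`) `nn(q+1) - θ ≤ (rk q + rk (q+1))/ν ≤ nn(q+1)`, so the sum tends to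
`nn (q+1)`.
-/

open scoped BigOperators Topology

namespace Pool.Agent.LT

/-- limits of the normalized ranks -/
noncomputable def wlim {G : Type} [Group G] (C : Cpl G) : ℕ → ℝ
  | 0 => 0
  | q + 1 => C.nn (q + 1) - wlim C q

theorem tendsto_rk {G : Type} [Group G] (C : Cpl G) (N : Subgroup G) (hQ : ∀ q, QS C N q)
    (X : Net G) (q : ℕ) :
    Filter.Tendsto (fun i => (rk C (X.M i) q : ℝ) / X.ν i) Filter.atTop (𝓝 (wlim C q)) := by
  induction q with
  | zero =>
    have h0 : ∀ i, rk C (X.M i) 0 = 0 := by
      intro i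
      have h1 := Matrix.rank_le_card_width (dR C (X.M i) 0)
      rw [Fintype.card_prod, Fintype.card_fin, Fintype.card_fin] at h1
      have h2 : X.ν i * C.nn 0 = 0 := by rw [C.nn_zero, mul_zero]
      exact Nat.le_zero.1 (h1.trans h2.le)
    have h1 : (fun i => (rk C (X.M i) 0 : ℝ) / X.ν i) = fun _ => (0 : ℝ) := by
      funext i
      rw [h0 i]
      simp
    rw [h1]
    exact tendsto_const_nhds
  | succ q ih =>
    have hs : Filter.Tendsto (fun i => ((rk C (X.M i) q : ℝ) + rk C (X.M i) (q + 1)) / X.ν i)
        Filter.atTop (𝓝 (C.nn (q + 1))) := by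
      rw [Metric.tendsto_nhds]
      intro e he
      obtain ⟨F, e0, he0, hF⟩ := rank_ineq C N q (hQ q) (e / 2) (by positivity)
      filter_upwards [X.eventually F e0 he0] with i hi
      have hν : (0 : ℝ) < X.ν i := by exact_mod_cast X.pos i
      have h1 := hF (X.ν i) (X.M i) hi
      have h2 : (rk C (X.M i) q : ℝ) + rk C (X.M i) (q + 1) ≤ C.nn (q + 1) * X.ν i := by
        exact_mod_cast rk_add_le C (X.M i) q
      rw [Real.dist_eq, abs_lt]
      constructor
      · have : (C.nn (q + 1) : ℝ) - e / 2 ≤
            ((rk C (X.M i) q : ℝ) + rk C (X.M i) (q + 1)) / X.ν i := by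
          rw [le_div_iff₀ hν]
          linarith
        linarith
      · have : ((rk C (X.M i) q : ℝ) + rk C (X.M i) (q + 1)) / X.ν i ≤ C.nn (q + 1) := by
          rw [div_le_iff₀ hν]
          exact h2
        linarith
    have h3 := hs.sub ih
    refine h3.congr fun i => ?_
    rw [add_div]
    ring

end Pool.Agent.LT
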