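import Mathlib
import Pool.Agent.LT.Base
import Pool.Agent.LT.ModB
import Pool.Agent.LT.Push
import Pool.Agent.LT.Rep
import Pool.Agent.LT.Net

set_option autoImplicit false

/-!
# Project LT, module Moment: limits of normalized traces

PLAN. `Rep X a` with the set `F0`; `F := F0 ∪ {1} ∪ supports of the a j`. For an `F`-good vertex `v`,
`X (v,j) (v,j) = push M v (a j) (M.act v 1, j) = a j (1,j)` (`push_good`, `act_one`). So
`|trace X - ν * trZ a| ≤ n (c + max |a j (1,j)|) * bad F`, divide by `ν` and use `X.tends F`.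
-/

open scoped BigOperators Topology

namespace Pool.Agent.LT

variable {G : Type} [Group G]

theorem tendsto_trace {n : ℕ} (X : ∀ ν, Mod G ν → Matrix (Fin ν × Fin n) (Fin ν × Fin n) ℤ)
    (a : Fin n → (G × Fin n →₀ ℤ)) (hX : Rep X a) (c : ℝ)
    (hc : ∀ ν (M : Mod G ν) x, |((X ν M x x : ℤ) : ℝ)| ≤ c) (Y : Net G) :
    Filter.Tendsto (fun i => (((X (Y.ν i) (Y.M i)).trace : ℤ) : ℝ) / Y.ν i) Filter.atTop
      (𝓝 (trZ a : ℝ)) := by
  classical
  obtain ⟨F0, hF0⟩ := hX
  let F : Finset G := F0 ∪ insert 1 (Finset.univ.biUnion fun j => (a j).support.image Prod.fst)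
  have hF0F : F0 ⊆ F := Finset.subset_union_left
  have h1F : (1 : G) ∈ F := Finset.mem_union_right _ (Finset.mem_insert_self _ _)
  have haF : ∀ j, ∀ y ∈ (a j).support, y.1 ∈ F := fun j y hy =>
    Finset.mem_union_right _ (Finset.mem_insert_of_mem (Finset.mem_biUnion.2
      ⟨j, Finset.mem_univ _, Finset.mem_image_of_mem _ hy⟩))
  let A : ℝ := ∑ j, |((a j (1, j) : ℤ) : ℝ)|
  have hA : ∀ j, |((a j (1, j) : ℤ) : ℝ)| ≤ A := fun j =>
    Finset.single_le_sum (f := fun j => |((a j (1, j) : ℤ) : ℝ)|) (fun _ _ => abs_nonneg _)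
      (Finset.mem_univ j)
  have hA0 : 0 ≤ A := Finset.sum_nonneg fun _ _ => abs_nonneg _
  have key : ∀ (ν : ℕ) (M : Mod G ν),
      |(((X ν M).trace : ℤ) : ℝ) - ν * (trZ a : ℝ)| ≤ (n * (|c| + A)) * M.bad F := by
    intro ν M
    have e1 : (((X ν M).trace : ℤ) : ℝ) = ∑ v : Fin ν, ∑ j : Fin n,
        ((X ν M (v, j) (v, j) : ℤ) : ℝ) := by
      rw [Matrix.trace, Fintype.sum_prod_type]
      push_cast
      rfl
    have e2 : (ν : ℝ) * (trZ a : ℝ) = ∑ _v : Fin ν, ∑ j : Fin n, ((a j (1, j) : ℤ) : ℝ) := by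
      rw [Finset.sum_const, Finset.card_univ, Fintype.card_fin, nsmul_eq_mul, trZ]
      push_cast
      rfl
    rw [e1, e2, ← Finset.sum_sub_distrib]
    refine (Finset.abs_sum_le_sum_abs _ _).trans ?_
    have hb : ∀ v : Fin ν, |(∑ j : Fin n, ((X ν M (v, j) (v, j) : ℤ) : ℝ)) -
        ∑ j : Fin n, ((a j (1, j) : ℤ) : ℝ)| ≤
        if v ∈ (M.good F)ᶜ then n * (|c| + A) else 0 := by
      intro v
      by_cases hv : v ∈ (M.good F)ᶜ
      · rw [if_pos hv, ← Finset.sum_sub_distrib]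
        refine (Finset.abs_sum_le_sum_abs _ _).trans ?_
        calc ∑ j : Fin n, |((X ν M (v, j) (v, j) : ℤ) : ℝ) - ((a j (1, j) : ℤ) : ℝ)|
            ≤ ∑ _j : Fin n, (|c| + A) := Finset.sum_le_sum fun j _ =>
              (abs_sub _ _).trans (add_le_add ((hc ν M (v, j)).trans (le_abs_self c)) (hA j))
          _ = n * (|c| + A) := by
              rw [Finset.sum_const, Finset.card_univ, Fintype.card_fin, nsmul_eq_mul]
      · rw [if_neg hv]
        have hv' : v ∈ M.good F := by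
          rw [Finset.mem_compl, not_not] at hv
          exact hv
        have h2 : ∀ j, X ν M (v, j) (v, j) = a j (1, j) := by
          intro j
          rw [hF0 ν M v (M.good_mono hF0F hv') j (v, j)]
          have h3 := push_good M F v hv' (a j) (haF j) 1 h1F j
          rwa [M.act_one] at h3
        simp [h2]
    refine (Finset.sum_le_sum fun v _ => hb v).trans ?_
    rw [Finset.sum_ite_mem, Finset.univ_inter, Finset.sum_const, nsmul_eq_mul, mul_comm]
    exact le_rfl
  rw [tendsto_iff_norm_sub_tendsto_zero]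
  have hlim : Filter.Tendsto (fun i => (n * (|c| + A)) * (((Y.M i).bad F : ℝ) / Y.ν i))
      Filter.atTop (𝓝 0) := by
    simpa using (Y.tends F).const_mul (n * (|c| + A))
  refine squeeze_zero (fun _ => norm_nonneg _) (fun i => ?_) hlim
  have hpos : (0 : ℝ) < Y.ν i := by exact_mod_cast Y.pos i
  have e3 : (((X (Y.ν i) (Y.M i)).trace : ℤ) : ℝ) / Y.ν i - (trZ a : ℝ) =
      ((((X (Y.ν i) (Y.M i)).trace : ℤ) : ℝ) - Y.ν i * (trZ a : ℝ)) / Y.ν i := by
    field_simp
  rw [e3, Real.norm_eq_abs, abs_div, abs_of_pos hpos, ← mul_div_assoc]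
  exact div_le_div_of_nonneg_right (key _ _) hpos.le

end Pool.Agent.LT
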