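import Mathlib
import Pool.Agent.LT.Base
import Pool.Agent.LT.ModB
import Pool.Agent.LT.Rep
import Pool.Agent.LT.Moment
import Pool.Agent.LT.Net

set_option autoImplicit false

/-!
# Project LT, module SpecLim: limits of the normalized log determinants (T1)

STATEMENT: a family `X` of symmetric integer matrices, `0 ≤ X ≤ c`, with `Rep X a`; `μ` a finite
measure on `[0,c']` whose moments are the numbers `trZ (a^k)`. Then for `t > 0`
`1/ν log det (X + t) → ∫ log (s + t) dμ(s)` along every net of models.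

PLAN. We may assume `c' ≥ c` and `c ≥ 0` (enlarge `c`). Let `λ_x`, `x ∈ Fin ν × Fin n`, be the
eigenvalues of the real symmetric matrix `toR X` (`Matrix.IsHermitian.eigenvalues`), `0 ≤ λ_x ≤ c`.
`trace ((toR X)^k) = ∑_x λ_x^k` (`Matrix.IsHermitian.spectral_theorem`; or
`trace = sum of roots of charpoly`), `det (toR X + t) = ∏_x (λ_x + t)` (same diagonalisation), so
`log det = ∑_x log (λ_x + t)`.
Moments: `1/ν ∑_x λ_x^k → trZ (powG a k) = ∫ s^k dμ` by `tendsto_trace` for the family `X^k`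
(`rep_pow`; diagonal entries of `X^k` are bounded by `c^k` since `0 ≤ X^k ≤ c^k`, or: `(X^k) x x`
is a convex combination of the `λ^k`). Hence `1/ν ∑_x p(λ_x) → ∫ p dμ` for polynomials `p`.
Given `ε > 0` choose by Stone-Weierstrass (`exists_polynomial_near_of_continuousOn`) a polynomial
`p` with `|p(s) - log (s + t)| ≤ ε` on `[0,c']`. Then
`|1/ν ∑ log (λ_x + t) - ∫ log (s+t) dμ| ≤ ε n + |1/ν ∑ p(λ_x) - ∫ p dμ| + ε μ(univ)`.
-/

open scoped BigOperators Topology
open MeasureTheory

namespace Pool.Agent.LT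

/-- orthogonal diagonalisation with bounds for the eigenvalues -/
lemma sl_exists_diag {ι : Type} [Fintype ι] [DecidableEq ι] (A : Matrix ι ι ℝ)
    (hA : A.PosSemidef) (c : ℝ) (hc : (c • (1 : Matrix ι ι ℝ) - A).PosSemidef) :
    ∃ (U : Matrix ι ι ℝ) (l : ι → ℝ), U * U.transpose = 1 ∧ U.transpose * U = 1 ∧
      A = U * Matrix.diagonal l * U.transpose ∧ (∀ x, 0 ≤ l x) ∧ ∀ x, l x ≤ c := by
  have hU1 : (hA.1.eigenvectorUnitary : Matrix ι ι ℝ) *
      (hA.1.eigenvectorUnitary : Matrix ι ι ℝ).transpose = 1 := by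
    have h := Unitary.coe_mul_star_self hA.1.eigenvectorUnitary
    rw [Unitary.coe_star, Matrix.star_eq_conjTranspose,
      Matrix.conjTranspose_eq_transpose_of_trivial] at h
    exact h
  have hU2 : (hA.1.eigenvectorUnitary : Matrix ι ι ℝ).transpose *
      (hA.1.eigenvectorUnitary : Matrix ι ι ℝ) = 1 := by
    have h := Unitary.coe_star_mul_self hA.1.eigenvectorUnitary
    rwa [Matrix.star_eq_conjTranspose, Matrix.conjTranspose_eq_transpose_of_trivial] at h
  have hsp : A = (hA.1.eigenvectorUnitary : Matrix ι ι ℝ) * Matrix.diagonal hA.1.eigenvalues *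
      (hA.1.eigenvectorUnitary : Matrix ι ι ℝ).transpose := by
    have h := hA.1.spectral_theorem
    rw [Unitary.conjStarAlgAut_apply, Matrix.star_eq_conjTranspose,
      Matrix.conjTranspose_eq_transpose_of_trivial] at h
    exact h
  refine ⟨hA.1.eigenvectorUnitary, hA.1.eigenvalues, hU1, hU2, hsp, hA.eigenvalues_nonneg, ?_⟩
  intro x
  have h1 := hc.conjTranspose_mul_mul_same (hA.1.eigenvectorUnitary : Matrix ι ι ℝ)
  rw [Matrix.conjTranspose_eq_transpose_of_trivial] at h1
  have h2 : (hA.1.eigenvectorUnitary : Matrix ι ι ℝ).transpose * (c • (1 : Matrix ι ι ℝ) - A) *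
      (hA.1.eigenvectorUnitary : Matrix ι ι ℝ) = c • (1 : Matrix ι ι ℝ) -
        Matrix.diagonal hA.1.eigenvalues := by
    set U := (hA.1.eigenvectorUnitary : Matrix ι ι ℝ) with hUdef
    set D := Matrix.diagonal hA.1.eigenvalues with hD
    rw [Matrix.mul_sub, Matrix.sub_mul]
    congr 1
    · rw [Matrix.mul_smul, Matrix.mul_one, Matrix.smul_mul, hU2]
    · calc U.transpose * A * U = U.transpose * (U * D * U.transpose) * U := by rw [← hsp]
        _ = (U.transpose * U) * D * (U.transpose * U) := by simp only [Matrix.mul_assoc]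
        _ = D := by rw [hU2, Matrix.one_mul, Matrix.mul_one]
  rw [h2] at h1
  have h3 := h1.diag_nonneg (i := x)
  simpa using h3

lemma sl_pow_eq {ι : Type} [Fintype ι] [DecidableEq ι] {A U : Matrix ι ι ℝ} {l : ι → ℝ}
    (h2 : U.transpose * U = 1) (h1 : U * U.transpose = 1)
    (hA : A = U * Matrix.diagonal l * U.transpose) (k : ℕ) :
    A ^ k = U * Matrix.diagonal (fun x => l x ^ k) * U.transpose := by
  induction k with
  | zero => simp [h1]
  | succ k ih =>
    rw [pow_succ, ih]
    conv_lhs => rw [hA]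
    calc U * Matrix.diagonal (fun x => l x ^ k) * U.transpose * (U * Matrix.diagonal l * U.transpose)
        = U * Matrix.diagonal (fun x => l x ^ k) * (U.transpose * U) * Matrix.diagonal l *
            U.transpose := by simp only [Matrix.mul_assoc]
      _ = U * (Matrix.diagonal (fun x => l x ^ k) * Matrix.diagonal l) * U.transpose := by
          rw [h2, Matrix.mul_one]; simp only [Matrix.mul_assoc]
      _ = _ := by rw [Matrix.diagonal_mul_diagonal]; simp only [pow_succ]

lemma sl_trace_pow {ι : Type} [Fintype ι] [DecidableEq ι] {A U : Matrix ι ι ℝ} {l : ι → ℝ}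
    (h2 : U.transpose * U = 1) (h1 : U * U.transpose = 1)
    (hA : A = U * Matrix.diagonal l * U.transpose) (k : ℕ) :
    (A ^ k).trace = ∑ x, l x ^ k := by
  rw [sl_pow_eq h2 h1 hA, Matrix.trace_mul_comm, ← Matrix.mul_assoc, h2, Matrix.one_mul,
    Matrix.trace_diagonal]

lemma sl_det_add {ι : Type} [Fintype ι] [DecidableEq ι] {A U : Matrix ι ι ℝ} {l : ι → ℝ}
    (h2 : U.transpose * U = 1) (h1 : U * U.transpose = 1)
    (hA : A = U * Matrix.diagonal l * U.transpose) (t : ℝ) :
    (A + t • (1 : Matrix ι ι ℝ)).det = ∏ x, (l x + t) := by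
  have e : A + t • (1 : Matrix ι ι ℝ) = U * Matrix.diagonal (fun x => l x + t) * U.transpose := by
    have e1 : Matrix.diagonal (fun x => l x + t) = Matrix.diagonal l + t • (1 : Matrix ι ι ℝ) := by
      ext i j
      by_cases h : i = j
      · subst h; simp
      · simp [h]
    rw [e1, Matrix.mul_add, Matrix.add_mul, ← hA, Matrix.mul_smul, Matrix.smul_mul, Matrix.mul_one,
      h1]
  rw [e, Matrix.det_mul_comm, ← Matrix.mul_assoc, h2, Matrix.one_mul, Matrix.det_diagonal]

lemma sl_pow_diag_le {ι : Type} [Fintype ι] [DecidableEq ι] {A U : Matrix ι ι ℝ} {l : ι → ℝ}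
    (h2 : U.transpose * U = 1) (h1 : U * U.transpose = 1)
    (hA : A = U * Matrix.diagonal l * U.transpose) {c : ℝ} (h0 : ∀ x, 0 ≤ l x)
    (hc : ∀ x, l x ≤ c) (k : ℕ) (x : ι) : |(A ^ k) x x| ≤ |c| ^ k := by
  have e : (A ^ k) x x = ∑ y, U x y ^ 2 * l y ^ k := by
    rw [sl_pow_eq h2 h1 hA, Matrix.mul_apply]
    refine Finset.sum_congr rfl fun y _ => ?_
    rw [Matrix.mul_diagonal, Matrix.transpose_apply]
    ring
  have e1 : ∑ y, U x y ^ 2 = 1 := by
    have h := congrFun (congrFun h1 x) x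
    rw [Matrix.mul_apply, Matrix.one_apply_eq] at h
    rw [← h]
    refine Finset.sum_congr rfl fun y _ => ?_
    rw [Matrix.transpose_apply]
    ring
  have hn : 0 ≤ ∑ y, U x y ^ 2 * l y ^ k :=
    Finset.sum_nonneg fun y _ => mul_nonneg (sq_nonneg _) (pow_nonneg (h0 y) _)
  rw [e, abs_of_nonneg hn]
  calc ∑ y, U x y ^ 2 * l y ^ k ≤ ∑ y, U x y ^ 2 * |c| ^ k := by
        refine Finset.sum_le_sum fun y _ => mul_le_mul_of_nonneg_left ?_ (sq_nonneg _)
        exact pow_le_pow_left₀ (h0 y) ((hc y).trans (le_abs_self c)) k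
    _ = |c| ^ k := by rw [← Finset.sum_mul, e1, one_mul]

variable {G : Type} [Group G]

lemma sl_toR_pow {ι : Type} [Fintype ι] [DecidableEq ι] (A : Matrix ι ι ℤ) (k : ℕ) :
    toR (A ^ k) = (toR A) ^ k := by
  have h := map_pow (Int.castRingHom ℝ).mapMatrix A k
  exact h

lemma sl_toR_trace {ι : Type} [Fintype ι] (A : Matrix ι ι ℤ) :
    (toR A).trace = ((A.trace : ℤ) : ℝ) := by
  simp [toR, Matrix.trace]

theorem tendsto_logdet {n : ℕ}
    (X : ∀ ν, Mod G ν → Matrix (Fin ν × Fin n) (Fin ν × Fin n) ℤ)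
    (a : Fin n → (G × Fin n →₀ ℤ)) (hX : Rep X a) (c : ℝ)
    (hpos : ∀ ν (M : Mod G ν), (toR (X ν M)).PosSemidef)
    (hc : ∀ ν (M : Mod G ν),
      (c • (1 : Matrix (Fin ν × Fin n) (Fin ν × Fin n) ℝ) - toR (X ν M)).PosSemidef)
    (μ : Measure ℝ) (hμ : IsFiniteMeasure μ) (c' : ℝ) (hsupp : μ (Set.Icc 0 c')ᶜ = 0)
    (hmom : ∀ k : ℕ, ∫ s, s ^ k ∂μ = (trZ (powG a k) : ℝ)) (Y : Net G) (t : ℝ) (ht : 0 < t) :
    Filter.Tendsto (fun i => Real.log (toR (X (Y.ν i) (Y.M i)) +
        t • (1 : Matrix (Fin (Y.ν i) × Fin n) (Fin (Y.ν i) × Fin n) ℝ)).det / Y.ν i)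
      Filter.atTop (𝓝 (∫ s, Real.log (s + t) ∂μ)) := by
  classical
  -- the eigenvalues
  choose U l h1 h2 hA h0 hl using fun i => sl_exists_diag (toR (X (Y.ν i) (Y.M i)))
    (hpos _ _) c (hc _ _)
  set b : ℝ := max c' (max c 0) with hb
  have hlb : ∀ i x, l i x ∈ Set.Icc (0 : ℝ) b := fun i x =>
    ⟨h0 i x, (hl i x).trans ((le_max_left c 0).trans (le_max_right _ _))⟩
  have hb0 : (0 : ℝ) ≤ b := (le_max_right c 0).trans (le_max_right _ _)
  have hsupp' : μ (Set.Icc 0 b)ᶜ = 0 := by
    refine measure_mono_null (Set.compl_subset_compl.2 ?_) hsupp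
    exact Set.Icc_subset_Icc_right (le_max_left _ _)
  have hae : ∀ᵐ s ∂μ, s ∈ Set.Icc (0 : ℝ) b := by
    rw [ae_iff]
    exact hsupp'
  have hres : μ.restrict (Set.Icc 0 b) = μ := Measure.restrict_eq_self_of_ae_mem hae
  have hint : ∀ f : ℝ → ℝ, ContinuousOn f (Set.Icc 0 b) → Integrable f μ := by
    intro f hf
    have h := hf.integrableOn_Icc (μ := μ)
    rwa [IntegrableOn, hres] at h
  -- logarithm of the determinant
  have hlog : ∀ i, Real.log (toR (X (Y.ν i) (Y.M i)) +
        t • (1 : Matrix (Fin (Y.ν i) × Fin n) (Fin (Y.ν i) × Fin n) ℝ)).det / Y.ν i =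
      (∑ x, Real.log (l i x + t)) / Y.ν i := by
    intro i
    rw [sl_det_add (h2 i) (h1 i) (hA i), Real.log_prod]
    intro x _
    have := h0 i x
    positivity
  -- moments
  have hmomlim : ∀ k : ℕ, Filter.Tendsto (fun i => (∑ x, l i x ^ k) / Y.ν i) Filter.atTop
      (𝓝 (∫ s, s ^ k ∂μ)) := by
    intro k
    have h := tendsto_trace (fun ν M => (X ν M) ^ k) (powG a k) (rep_pow X a hX k) (|c| ^ k)
      (fun ν M x => by
        obtain ⟨U', l', h1', h2', hA', h0', hl'⟩ := sl_exists_diag (toR (X ν M))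
          (hpos ν M) c (hc ν M)
        have := sl_pow_diag_le h2' h1' hA' h0' hl' k x
        rw [← sl_toR_pow] at this
        exact this) Y
    rw [hmom k]
    refine h.congr fun i => ?_
    congr 1
    rw [← sl_trace_pow (h2 i) (h1 i) (hA i) k, ← sl_toR_pow, sl_toR_trace]
  have hpoly : ∀ p : Polynomial ℝ, Filter.Tendsto (fun i => (∑ x, p.eval (l i x)) / Y.ν i)
      Filter.atTop (𝓝 (∫ s, p.eval s ∂μ)) := by
    intro p
    have e1 : ∫ s, p.eval s ∂μ = ∑ k ∈ Finset.range (p.natDegree + 1),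
        p.coeff k * ∫ s, s ^ k ∂μ := by
      simp_rw [Polynomial.eval_eq_sum_range]
      rw [integral_finsetSum]
      · refine Finset.sum_congr rfl fun k _ => ?_
        rw [integral_const_mul]
      · intro k _
        exact hint _ (by fun_prop)
    have e2 : ∀ i, (∑ x, p.eval (l i x)) / Y.ν i = ∑ k ∈ Finset.range (p.natDegree + 1),
        p.coeff k * ((∑ x, l i x ^ k) / Y.ν i) := by
      intro i
      simp_rw [Polynomial.eval_eq_sum_range]
      rw [Finset.sum_comm, Finset.sum_div]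
      refine Finset.sum_congr rfl fun k _ => ?_
      rw [← Finset.mul_sum, mul_div_assoc]
    rw [e1]
    simp_rw [e2]
    exact tendsto_finsetSum _ fun k _ => (hmomlim k).const_mul _
  simp_rw [hlog]
  rw [Metric.tendsto_nhds]
  intro ε hε
  set m : ℝ := (μ Set.univ).toReal with hm
  have hm0 : 0 ≤ m := ENNReal.toReal_nonneg
  set K : ℝ := n + m + 1 with hK
  have hKpos : 0 < K := by positivity
  obtain ⟨p, hp⟩ := exists_polynomial_near_of_continuousOn 0 b (fun s => Real.log (s + t))
    (by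
      refine ContinuousOn.log (by fun_prop) ?_
      intro s hs
      have := hs.1
      positivity) (ε / (2 * K)) (by positivity)
  have hev := (Metric.tendsto_nhds.1 (hpoly p)) (ε / 2) (by positivity)
  filter_upwards [hev] with i hi
  have hν : (0 : ℝ) < Y.ν i := by exact_mod_cast Y.pos i
  have d1 : |(∑ x, Real.log (l i x + t)) / Y.ν i - (∑ x, p.eval (l i x)) / Y.ν i| ≤
      n * (ε / (2 * K)) := by
    rw [← sub_div, ← Finset.sum_sub_distrib, abs_div, abs_of_pos hν, div_le_iff₀ hν]
    calc |∑ x, (Real.log (l i x + t) - p.eval (l i x))|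
        ≤ ∑ x, |Real.log (l i x + t) - p.eval (l i x)| := Finset.abs_sum_le_sum_abs _ _
      _ ≤ ∑ _x : Fin (Y.ν i) × Fin n, ε / (2 * K) := by
          refine Finset.sum_le_sum fun x _ => ?_
          rw [abs_sub_comm]
          exact (hp _ (hlb i x)).le
      _ = n * (ε / (2 * K)) * Y.ν i := by
          rw [Finset.sum_const, Finset.card_univ, Fintype.card_prod, Fintype.card_fin,
            Fintype.card_fin, nsmul_eq_mul]
          push_cast
          ring
  have hilog : Integrable (fun s => Real.log (s + t)) μ := by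
    refine hint _ (ContinuousOn.log (by fun_prop) ?_)
    intro s hs
    have := hs.1
    positivity
  have hip : Integrable (fun s => p.eval s) μ := hint _ (by fun_prop)
  have d2 : |∫ s, p.eval s ∂μ - ∫ s, Real.log (s + t) ∂μ| ≤ ε / (2 * K) * m := by
    rw [← integral_sub hip hilog]
    have := norm_integral_le_of_norm_le_const (μ := μ) (f := fun s => p.eval s - Real.log (s + t))
      (C := ε / (2 * K)) (by
        filter_upwards [hae] with s hs
        rw [Real.norm_eq_abs]
        exact (hp s hs).le)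
    rw [Real.norm_eq_abs] at this
    exact this
  rw [Real.dist_eq] at hi ⊢
  calc |(∑ x, Real.log (l i x + t)) / Y.ν i - ∫ s, Real.log (s + t) ∂μ|
      = |((∑ x, Real.log (l i x + t)) / Y.ν i - (∑ x, p.eval (l i x)) / Y.ν i) +
        ((∑ x, p.eval (l i x)) / Y.ν i - ∫ s, p.eval s ∂μ) +
        (∫ s, p.eval s ∂μ - ∫ s, Real.log (s + t) ∂μ)| := by
        congr 1
        ring
    _ ≤ |(∑ x, Real.log (l i x + t)) / Y.ν i - (∑ x, p.eval (l i x)) / Y.ν i| +
        |(∑ x, p.eval (l i x)) / Y.ν i - ∫ s, p.eval s ∂μ| +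
        |∫ s, p.eval s ∂μ - ∫ s, Real.log (s + t) ∂μ| := abs_add_three _ _ _
    _ < n * (ε / (2 * K)) + ε / 2 + ε / (2 * K) * m := by
        have := add_lt_add_of_le_of_lt d1 hi
        linarith
    _ ≤ ε := by
        have e : n * (ε / (2 * K)) + ε / (2 * K) * m ≤ ε / 2 := by
          have : n * (ε / (2 * K)) + ε / (2 * K) * m = (n + m) / K * (ε / 2) := by
            field_simp
          rw [this]
          have h3 : (n + m) / K ≤ 1 := by
            rw [div_le_one hKpos, hK]
            linarith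
          have h4 : (n + m) / K * (ε / 2) ≤ 1 * (ε / 2) :=
            mul_le_mul_of_nonneg_right h3 (by positivity)
          linarith
        linarith

end Pool.Agent.LT
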