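import Mathlib
import Pool.Agent.LT.Base
import Pool.Agent.LT.NormB
import Pool.Agent.LT.Net
import Pool.Agent.LT.RkLim
import Pool.Agent.LT.SpecLim
import Pool.Agent.LT.FinLap
import Pool.Agent.LT.MeasLog
import Pool.Agent.LT.AsmDef

set_option autoImplicit false

/-!
# Project LT, module AsmA: the spectral measures of `c_q† c_q` and of the Laplacians

PLAN `lim_P`: `tendsto_logdet` for the family `XP C q` (`rep_aP`, `psd_XP`, `le_XP`, `exists_b`),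
`t = δ²`; `toR (XP ..) = dR * dRᵀ` (`toR_mul`, `toR_transpose`), so the determinant is that of `ld`.
PLAN `spec_P`: let `κ := nn (q+1) - wlim q`. For `0 < δ ≤ δ' ≤ 1` and every model of the net
`0 ≤ 1/ν (1/2 ld (dR q) δ - (nn(q+1) ν - rk q) log δ) ≤ 1/ν (1/2 ld (dR q) δ' - .. log δ')`
(`ld_nonneg`, `ld_mono`; `dR = toR dM`, `Fintype.card (Fin ν × Fin n) = ν n`). Pass to the limit with
`lim_P` and `tendsto_rk`: `0 ≤ A δ ≤ A δ'`, `A δ := 1/2 ∫ log (s + δ²) dμ - κ log δ`; with `δ' = 1` the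
hypothesis of `meas_log` holds with `K := A 1`.
PLAN `spec_L`: `tendsto_logdet` for `XL C q` and `logdet_lap` with `A := dR q`, `B := dR (q+1)`
(`dR (q+1) * dR q = 0` by `dM_sq`): in the limit
`∫ log (s+δ²) dμL = ∫ log (s+δ²) dμ_q + ∫ log (s+δ²) dμ_{q+1} - 2 nn(q+2) log δ
= 2 A_q δ + 2 A_{q+1} δ` (because `(nn(q+1) - w q) + (nn(q+2) - w (q+1)) = nn(q+2)`, as
`w (q+1) = nn(q+1) - w q`). So `meas_log` applies to `μL` with `κ = 0`, and the limits for `δ → 0+`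
(unique) give the value.
-/

open scoped BigOperators Topology
open MeasureTheory

namespace Pool.Agent.LT

variable {G : Type} [Group G]

/-- `μ` is a finite measure with compact support in `[0,∞)` and the moments of `a` -/
def HasMom {n : ℕ} (a : Fin n → (G × Fin n →₀ ℤ)) (μ : Measure ℝ) : Prop :=
  IsFiniteMeasure μ ∧ (∃ c : ℝ, μ (Set.Icc 0 c)ᶜ = 0) ∧
    ∀ k : ℕ, ∫ s, s ^ k ∂μ = (trZ (powG a k) : ℝ)

theorem lim_P (C : Cpl G) (X : Net G) (q : ℕ) (μ : Measure ℝ) (hμ : HasMom (aP C q) μ) (δ : ℝ)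
    (hδ : 0 < δ) :
    Filter.Tendsto (fun i => ld (dR C (X.M i) q) δ / X.ν i) Filter.atTop
      (𝓝 (∫ s, Real.log (s + δ ^ 2) ∂μ)) := by
  obtain ⟨b, _, hb⟩ := exists_b C
  obtain ⟨hfin, ⟨c', hc'⟩, hmom⟩ := hμ
  have h := tendsto_logdet (XP C q) (aP C q) (rep_aP C q) (b ^ 2) (psd_XP C q)
    (fun ν M => le_XP C q ν M b (hb ν M q).1) μ hfin c' hc' hmom X (δ ^ 2) (by positivity)
  have h2 : ∀ i, toR (XP C q (X.ν i) (X.M i)) = dR C (X.M i) q * (dR C (X.M i) q).transpose := by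
    intro i
    unfold XP dR
    rw [toR_mul, toR_transpose]
  simp only [h2] at h
  exact h

private theorem norm_P (C : Cpl G) (X : Net G) (N : Subgroup G) (hQ : ∀ q, QS C N q) (q : ℕ)
    (μ : Measure ℝ) (hμ : HasMom (aP C q) μ) (δ : ℝ) (hδ : 0 < δ) :
    Filter.Tendsto (fun i => (1 / 2 * ld (dR C (X.M i) q) δ -
        ((Fintype.card (Fin (X.ν i) × Fin (C.nn (q + 1))) : ℝ) - (dR C (X.M i) q).rank) *
          Real.log δ) / X.ν i) Filter.atTop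
      (𝓝 (1 / 2 * ∫ s, Real.log (s + δ ^ 2) ∂μ - (C.nn (q + 1) - wlim C q) * Real.log δ)) := by
  have h1 := (lim_P C X q μ hμ δ hδ).const_mul (1 / 2)
  have h2 := ((tendsto_rk C N hQ X q).const_sub ((C.nn (q + 1) : ℕ) : ℝ)).mul_const (Real.log δ)
  refine (h1.sub h2).congr fun i => ?_
  have hν : (X.ν i : ℝ) ≠ 0 := by exact_mod_cast (X.pos i).ne'
  rw [Fintype.card_prod, Fintype.card_fin, Fintype.card_fin]
  push_cast
  unfold rk
  field_simp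

private theorem bnd_P (C : Cpl G) (X : Net G) (N : Subgroup G) (hQ : ∀ q, QS C N q) (q : ℕ)
    (μ : Measure ℝ) (hμ : HasMom (aP C q) μ) (δ : ℝ) (hδ : 0 < δ) (hδ1 : δ ≤ 1) :
    0 ≤ 1 / 2 * ∫ s, Real.log (s + δ ^ 2) ∂μ - (C.nn (q + 1) - wlim C q) * Real.log δ ∧
      1 / 2 * ∫ s, Real.log (s + δ ^ 2) ∂μ - (C.nn (q + 1) - wlim C q) * Real.log δ ≤
        1 / 2 * ∫ s, Real.log (s + 1 ^ 2) ∂μ - (C.nn (q + 1) - wlim C q) * Real.log 1 := by
  classical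
  have h1 := norm_P C X N hQ q μ hμ δ hδ
  have h2 := norm_P C X N hQ q μ hμ 1 one_pos
  constructor
  · refine ge_of_tendsto' h1 fun i => ?_
    exact div_nonneg (ld_nonneg (dM C (X.M i) q) δ hδ) (Nat.cast_nonneg _)
  · refine le_of_tendsto_of_tendsto' h1 h2 fun i => ?_
    exact div_le_div_of_nonneg_right (ld_mono (dM C (X.M i) q) δ 1 hδ hδ1) (Nat.cast_nonneg _)

theorem spec_P (C : Cpl G) (N : Subgroup G) (hQ : ∀ q, QS C N q) (X : Net G) (q : ℕ)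
    (μ : Measure ℝ) (hμ : HasMom (aP C q) μ) :
    IntegrableOn Real.log (Set.Ioi 0) μ ∧
      Filter.Tendsto (fun δ : ℝ => 1 / 2 * ∫ s, Real.log (s + δ ^ 2) ∂μ -
        (C.nn (q + 1) - wlim C q) * Real.log δ)
        (𝓝[>] 0) (𝓝 (1 / 2 * ∫ s in Set.Ioi 0, Real.log s ∂μ)) := by
  obtain ⟨c, hc⟩ := hμ.2.1
  exact (meas_log μ hμ.1 c hc (C.nn (q + 1) - wlim C q) _
    (fun δ hδ hδ1 => bnd_P C X N hQ q μ hμ δ hδ hδ1)).2

private theorem lim_L (C : Cpl G) (X : Net G) (q : ℕ) (μ μ' μL : Measure ℝ)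
    (hμ : HasMom (aP C q) μ) (hμ' : HasMom (aP C (q + 1)) μ')
    (hμL : HasMom (aL C q) μL) (δ : ℝ) (hδ : 0 < δ) :
    ∫ s, Real.log (s + δ ^ 2) ∂μL = ∫ s, Real.log (s + δ ^ 2) ∂μ +
      ∫ s, Real.log (s + δ ^ 2) ∂μ' - 2 * C.nn (q + 2) * Real.log δ := by
  classical
  obtain ⟨b, _, hb⟩ := exists_b C
  obtain ⟨hfin, ⟨c', hc'⟩, hmom⟩ := hμL
  have h := tendsto_logdet (XL C q) (aL C q) (rep_aL C q) (2 * b ^ 2) (psd_XL C q)
    (fun ν M => le_XL C q ν M b (hb ν M q).1 (hb ν M (q + 1)).2.1) μL hfin c' hc' hmom X (δ ^ 2)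
    (by positivity)
  have h1 := ((lim_P C X q μ hμ δ hδ).add (lim_P C X (q + 1) μ' hμ' δ hδ)).sub_const
    (2 * C.nn (q + 2) * Real.log δ)
  refine tendsto_nhds_unique h (h1.congr fun i => ?_)
  have h2 : toR (XL C q (X.ν i) (X.M i)) =
      dR C (X.M i) q * (dR C (X.M i) q).transpose +
        (dR C (X.M i) (q + 1)).transpose * dR C (X.M i) (q + 1) := by
    have h3 : ∀ A B : Matrix (Fin (X.ν i) × Fin (C.nn (q + 1)))
        (Fin (X.ν i) × Fin (C.nn (q + 1))) ℤ, toR (A + B) = toR A + toR B := by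
      intro A B
      ext x y
      simp [toR]
    unfold XL XP dR
    rw [h3, toR_mul, toR_mul, toR_transpose, toR_transpose]
  have h4 : dR C (X.M i) (q + 1) * dR C (X.M i) q = 0 := by
    unfold dR
    rw [← toR_mul, dM_sq]
    ext x y
    simp [toR]
  rw [h2, logdet_lap _ _ h4 δ hδ, Fintype.card_prod, Fintype.card_fin, Fintype.card_fin]
  have hν : (X.ν i : ℝ) ≠ 0 := by exact_mod_cast (X.pos i).ne'
  push_cast
  field_simp

theorem spec_L (C : Cpl G) (N : Subgroup G) (hQ : ∀ q, QS C N q) (X : Net G) (q : ℕ)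
    (μ μ' μL : Measure ℝ) (hμ : HasMom (aP C q) μ) (hμ' : HasMom (aP C (q + 1)) μ')
    (hμL : HasMom (aL C q) μL) :
    μL {0} = 0 ∧ IntegrableOn Real.log (Set.Ioi 0) μL ∧
      ∫ s in Set.Ioi 0, Real.log s ∂μL =
        ∫ s in Set.Ioi 0, Real.log s ∂μ + ∫ s in Set.Ioi 0, Real.log s ∂μ' := by
  have hw : wlim C (q + 1) = C.nn (q + 1) - wlim C q := rfl
  have key : ∀ δ : ℝ, 0 < δ → 1 / 2 * ∫ s, Real.log (s + δ ^ 2) ∂μL - 0 * Real.log δ =
      (1 / 2 * ∫ s, Real.log (s + δ ^ 2) ∂μ - (C.nn (q + 1) - wlim C q) * Real.log δ) +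
      (1 / 2 * ∫ s, Real.log (s + δ ^ 2) ∂μ' -
        (C.nn (q + 1 + 1) - wlim C (q + 1)) * Real.log δ) := by
    intro δ hδ
    rw [lim_L C X q μ μ' μL hμ hμ' hμL δ hδ, hw]
    ring
  obtain ⟨c, hc⟩ := hμL.2.1
  obtain ⟨h1, h2, h3⟩ := meas_log μL hμL.1 c hc 0 _ (fun δ hδ hδ1 => by
    have h4 := bnd_P C X N hQ q μ hμ δ hδ hδ1
    have h5 := bnd_P C X N hQ (q + 1) μ' hμ' δ hδ hδ1
    rw [key δ hδ]
    exact ⟨add_nonneg h4.1 h5.1, add_le_add h4.2 h5.2⟩)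
  refine ⟨?_, h2, ?_⟩
  · have := hμL.1
    rcases (ENNReal.toReal_eq_zero_iff _).mp h1 with h4 | h4
    · exact h4
    · exact absurd h4 (measure_ne_top μL _)
  · have h4 := (spec_P C N hQ X q μ hμ).2.add (spec_P C N hQ X (q + 1) μ' hμ').2
    have h5 := tendsto_nhds_unique h3 (h4.congr' (by
      filter_upwards [self_mem_nhdsWithin] with δ hδ
      exact (key δ hδ).symm))
    linarith

end Pool.Agent.LT
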