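import Mathlib

set_option autoImplicit false

/-!
# Project LT, module FinalReal: the last limits (F)

PLAN `limit_ineq`. Fix `θ > 0`, `L` and `δA`. The finite sum is continuous in the quantities
`Ad (..) δC → a (..)` and `log (1 + δC² L²) → 0` for `δC → 0+`, so (`ge_of_tendsto`)
`0 ≤ ∑ (θ (1 + |log δA| + c1) + Ad (2i+par) δA + θ |log δA| - a (2i+par+1))`. The inequality holds for
all `θ > 0` and does not contain `L` any more; let `θ → 0` (`le_of_forall_pos_le_add`-type or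
`ge_of_tendsto`), then `δA → 0+`.
PLAN `alternating`. With `s := ∑_{q=0}^{2d+1} (-1)^q a q`; the inequality for `par = 0` is
`0 ≤ s`, the one for `par = 1` is `0 ≤ ∑_{i ≤ d} (a (2i+1) - a (2i+2)) = -(s - a 0) - a (2d+2) = -s`. So
`s = 0`, and since `a q = 0` for `q > d`, `∑_{q ∈ range (d+1)} (-1)^q a q = 0`. Then
`∑_{p ∈ range d} (-1)^p p (2 a p + 2 a (p+1)) = 2 ∑_{q} a q ((-1)^q q + (-1)^(q-1) (q-1)) =
2 ∑_{q ≥ 1} (-1)^q a q = 0` (`a 0 = 0`, `a q = 0` for `q > d`); prove it for instance from the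
general identity (induction on `d`)
`∑_{p ∈ range d} (-1)^p p (a p + a (p+1)) = ∑_{q ∈ range (d+1)} (-1)^q a q - a 0 - (-1)^d d * a d`
(check the boundary term, and adapt: for `a d ≠ 0` the last term of the left side is missing;
the statement below has the sum over `range (d+1)` and `a (d+1) = 0`).
-/

open scoped BigOperators Topology

namespace Pool.Agent.LT

theorem limit_ineq (d : ℕ) (nn : ℕ → ℝ) (Ad : ℕ → ℝ → ℝ) (a : ℕ → ℝ) (c1 : ℝ)
    (hA : ∀ q, Filter.Tendsto (Ad q) (𝓝[>] 0) (𝓝 (a q)))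
    (h : ∀ θ : ℝ, 0 < θ → ∃ L : ℝ, ∀ δA δC : ℝ, 0 < δA → δA ≤ 1 → 0 < δC → δC ≤ 1 →
      ∀ par : ℕ, par ≤ 1 → 0 ≤ ∑ i ∈ Finset.range (d + 1),
        (θ + Ad (2 * i + par) δA + θ * |Real.log δA| +
          nn (2 * i + par) * Real.log (1 + δC ^ 2 * L ^ 2) - Ad (2 * i + par + 1) δC + θ * c1))
    (par : ℕ) (hpar : par ≤ 1) :
    0 ≤ ∑ i ∈ Finset.range (d + 1), (a (2 * i + par) - a (2 * i + par + 1)) := by
  have hlog : ∀ L : ℝ, Filter.Tendsto (fun x : ℝ => Real.log (1 + x ^ 2 * L ^ 2)) (𝓝[>] 0)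
      (𝓝 0) := by
    intro L
    have h1 : ContinuousAt (fun x : ℝ => Real.log (1 + x ^ 2 * L ^ 2)) 0 := by
      refine ContinuousAt.log ?_ (by norm_num)
      fun_prop
    have h2 := h1.tendsto
    simp only [ne_eq, OfNat.ofNat_ne_zero, not_false_eq_true, zero_pow, zero_mul, add_zero,
      Real.log_one] at h2
    exact h2.mono_left nhdsWithin_le_nhds
  have hev : ∀ᶠ x : ℝ in 𝓝[>] 0, 0 < x ∧ x ≤ 1 := by
    filter_upwards [Ioc_mem_nhdsGT (zero_lt_one (α := ℝ))] with x hx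
    exact hx
  -- the limit in `δC`
  have s1 : ∀ θ : ℝ, 0 < θ → ∀ δA : ℝ, 0 < δA → δA ≤ 1 →
      0 ≤ ∑ i ∈ Finset.range (d + 1),
        (θ + Ad (2 * i + par) δA + θ * |Real.log δA| - a (2 * i + par + 1) + θ * c1) := by
    intro θ hθ δA h1 h2
    obtain ⟨L, hL⟩ := h θ hθ
    have ht : Filter.Tendsto (fun δC : ℝ => ∑ i ∈ Finset.range (d + 1),
        (θ + Ad (2 * i + par) δA + θ * |Real.log δA| +
          nn (2 * i + par) * Real.log (1 + δC ^ 2 * L ^ 2) - Ad (2 * i + par + 1) δC + θ * c1))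
        (𝓝[>] 0) (𝓝 (∑ i ∈ Finset.range (d + 1),
        (θ + Ad (2 * i + par) δA + θ * |Real.log δA| +
          nn (2 * i + par) * 0 - a (2 * i + par + 1) + θ * c1))) := by
      refine tendsto_finsetSum _ fun i _ => ?_
      exact (((tendsto_const_nhds.add ((hlog L).const_mul _)).sub (hA _)).add tendsto_const_nhds)
    have h3 := ge_of_tendsto ht (b := 0) (by
      filter_upwards [hev] with x hx
      exact hL δA x h1 h2 hx.1 hx.2 par hpar)
    simpa only [mul_zero, add_zero] using h3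
  -- the limit in `θ`
  have s2 : ∀ δA : ℝ, 0 < δA → δA ≤ 1 →
      0 ≤ ∑ i ∈ Finset.range (d + 1), (Ad (2 * i + par) δA - a (2 * i + par + 1)) := by
    intro δA h1 h2
    have ht : Filter.Tendsto (fun θ : ℝ => ∑ i ∈ Finset.range (d + 1),
        (θ + Ad (2 * i + par) δA + θ * |Real.log δA| - a (2 * i + par + 1) + θ * c1))
        (𝓝[>] 0) (𝓝 (∑ i ∈ Finset.range (d + 1),
        (0 + Ad (2 * i + par) δA + 0 * |Real.log δA| - a (2 * i + par + 1) + 0 * c1))) := by
      have hc : Continuous (fun θ : ℝ => ∑ i ∈ Finset.range (d + 1),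
        (θ + Ad (2 * i + par) δA + θ * |Real.log δA| - a (2 * i + par + 1) + θ * c1)) := by
        fun_prop
      exact (hc.tendsto 0).mono_left nhdsWithin_le_nhds
    have h3 := ge_of_tendsto ht (b := 0) (by
      filter_upwards [hev] with x hx
      exact s1 x hx.1 δA h1 h2)
    simpa only [zero_mul, zero_add, add_zero] using h3
  have ht : Filter.Tendsto (fun δA : ℝ => ∑ i ∈ Finset.range (d + 1),
      (Ad (2 * i + par) δA - a (2 * i + par + 1))) (𝓝[>] 0)
      (𝓝 (∑ i ∈ Finset.range (d + 1), (a (2 * i + par) - a (2 * i + par + 1)))) := by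
    refine tendsto_finsetSum _ fun i _ => ?_
    exact (hA _).sub tendsto_const_nhds
  refine ge_of_tendsto ht ?_
  filter_upwards [hev] with x hx
  exact s2 x hx.1 hx.2

private theorem alt_even (a : ℕ → ℝ) (n : ℕ) :
    ∑ i ∈ Finset.range n, (a (2 * i) - a (2 * i + 1)) =
      ∑ q ∈ Finset.range (2 * n), (-1 : ℝ) ^ q * a q := by
  induction n with
  | zero => simp
  | succ n ih =>
    have e : 2 * (n + 1) = 2 * n + 1 + 1 := by ring
    rw [Finset.sum_range_succ, ih, e, Finset.sum_range_succ, Finset.sum_range_succ, pow_succ,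
      pow_mul]
    norm_num
    ring

private theorem alt_odd (a : ℕ → ℝ) (n : ℕ) :
    ∑ i ∈ Finset.range n, (a (2 * i + 1) - a (2 * i + 1 + 1)) =
      a 0 - ∑ q ∈ Finset.range (2 * n), (-1 : ℝ) ^ q * a q - a (2 * n) := by
  induction n with
  | zero => simp
  | succ n ih =>
    have e : 2 * (n + 1) = 2 * n + 1 + 1 := by ring
    rw [Finset.sum_range_succ, ih, e, Finset.sum_range_succ, Finset.sum_range_succ, pow_succ,
      pow_mul]
    norm_num
    ring

private theorem alt_weight (a : ℕ → ℝ) (n : ℕ) :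
    ∑ p ∈ Finset.range (n + 1), (-1 : ℝ) ^ p * p * (a p + a (p + 1)) =
      ∑ q ∈ Finset.range (n + 1), (-1 : ℝ) ^ q * a q - a 0 + (-1 : ℝ) ^ n * n * a (n + 1) := by
  induction n with
  | zero => simp
  | succ n ih =>
    rw [Finset.sum_range_succ, ih, Finset.sum_range_succ (fun q => (-1 : ℝ) ^ q * a q) (n + 1),
      pow_succ]
    push_cast
    ring

theorem alternating (d : ℕ) (a : ℕ → ℝ) (h0 : a 0 = 0) (hd : ∀ q, d < q → a q = 0)
    (h : ∀ par : ℕ, par ≤ 1 →
      0 ≤ ∑ i ∈ Finset.range (d + 1), (a (2 * i + par) - a (2 * i + par + 1))) :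
    ∑ p ∈ Finset.range (d + 1), (-1 : ℝ) ^ p * p * (2 * a p + 2 * a (p + 1)) = 0 := by
  set S : ℝ := ∑ q ∈ Finset.range (2 * (d + 1)), (-1 : ℝ) ^ q * a q with hS
  have e0 := alt_even a (d + 1)
  have e1 := alt_odd a (d + 1)
  have h1 := h 0 (by norm_num)
  have h2 := h 1 le_rfl
  simp only [add_zero] at h1
  rw [e0] at h1
  have h3 : ∑ i ∈ Finset.range (d + 1), (a (2 * i + 1) - a (2 * i + 1 + 1)) =
      a 0 - S - a (2 * (d + 1)) := e1
  rw [h3, h0, hd _ (by omega)] at h2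
  have hS0 : S = 0 := by linarith
  have hU : ∑ q ∈ Finset.range (d + 1), (-1 : ℝ) ^ q * a q = 0 := by
    rw [← hS0, hS]
    refine Finset.sum_subset ?_ fun q _ hq => ?_
    · intro q hq
      rw [Finset.mem_range] at hq ⊢
      omega
    · rw [Finset.mem_range, not_lt] at hq
      rw [hd q (by omega), mul_zero]
  have e2 := alt_weight a d
  rw [hU, h0, hd (d + 1) (by omega)] at e2
  have e3 : ∑ p ∈ Finset.range (d + 1), (-1 : ℝ) ^ p * p * (2 * a p + 2 * a (p + 1)) =
      2 * ∑ p ∈ Finset.range (d + 1), (-1 : ℝ) ^ p * p * (a p + a (p + 1)) := by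
    rw [Finset.mul_sum]
    refine Finset.sum_congr rfl fun p _ => ?_
    ring
  rw [e3, e2]
  ring

end Pool.Agent.LT
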