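import Mathlib
import Pool.Agent.LT.Base
import Pool.Agent.LT.LAVol
import Pool.Agent.LT.OneStep

set_option autoImplicit false

/-!
# Project LT, module MI: the main inequality for a model

PLAN. For every `q ≤ 2 (C.d + 1) + 1` take `F_q, e_q, L_q` from `one_step`; `F` = union, `e0` =
minimum, `L` = maximum (`TT` is monotone in `L ≥ 0`). For a model with `bad F ≤ e0 ν` and
`par : ℕ`, `par ≤ 1`: by downward induction on `i ≤ C.d + 1` there is an integer family `g` with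
linearly independent rows, row space `rs (dR C M (2 i + par))` and
`log vol g ≤ ν * ∑_{j ∈ [i, C.d+1)} TT (2 j + par)`. Start `i = C.d + 1`: `2 i + par > d`, so
`nn (2 i + par) = 0` and the row space is zero: take the empty family (`vol_of_isEmpty`, `log 1 = 0`).
Step: `one_step` with `q = 2 i + par`. At `i = 0` the volume is at least `1` (`one_le_vol_int`), so
`0 ≤ ν * ∑`, and divide by `ν > 0`.
-/

open scoped BigOperators

namespace Pool.Agent.LT

variable {G : Type} [Group G]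

private lemma TT_mono (C : Cpl G) {ν : ℕ} (M : Mod G ν) (b : ℝ) {L L' : ℝ} (hL : 0 ≤ L) (hLL : L ≤ L')
    (θ δA δC : ℝ) (q : ℕ) : TT C M b L θ δA δC q ≤ TT C M b L' θ δA δC q := by
  have h1 : Real.log (1 + δC ^ 2 * L ^ 2) ≤ Real.log (1 + δC ^ 2 * L' ^ 2) := by
    apply Real.log_le_log
    · positivity
    · have h2 : L ^ 2 ≤ L' ^ 2 := pow_le_pow_left₀ hL hLL 2
      have h3 := mul_le_mul_of_nonneg_left h2 (sq_nonneg δC)
      linarith
  have h4 : (C.nn (q + 1) : ℝ) / 2 * Real.log (1 + δC ^ 2 * L ^ 2) ≤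
      (C.nn (q + 1) : ℝ) / 2 * Real.log (1 + δC ^ 2 * L' ^ 2) :=
    mul_le_mul_of_nonneg_left h1 (by positivity)
  unfold TT
  linarith

private lemma exists_min_pos (e : ℕ → ℝ) (he : ∀ q, 0 < e q) (n : ℕ) :
    ∃ e0 : ℝ, 0 < e0 ∧ ∀ q, q < n → e0 ≤ e q := by
  induction n with
  | zero => exact ⟨1, one_pos, fun q hq => absurd hq (Nat.not_lt_zero q)⟩
  | succ n ih =>
    obtain ⟨e0, h0, h1⟩ := ih
    refine ⟨min e0 (e n), lt_min h0 (he n), fun q hq => ?_⟩
    rcases Nat.lt_succ_iff_lt_or_eq.1 hq with h | h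
    · exact (min_le_left _ _).trans (h1 q h)
    · rw [h]
      exact min_le_right _ _

private def PP (C : Cpl G) {ν : ℕ} (M : Mod G ν) (q : ℕ) (X : ℝ) : Prop :=
  ∃ (r : ℕ) (g : Matrix (Fin r) (Fin ν × Fin (C.nn q)) ℤ), LI (toR g) ∧
    rs (toR g) = rs (dR C M q) ∧ Real.log (vol (toR g)) ≤ ν * X

private lemma PP_start (C : Cpl G) {ν : ℕ} (M : Mod G ν) {q : ℕ} (hq : C.d < q) : PP C M q 0 := by
  have h0 := C.nn_top q hq
  have he : IsEmpty (Fin (C.nn q)) := by
    rw [h0]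
    infer_instance
  refine ⟨0, fun i => i.elim0, ?_, ?_, ?_⟩
  · exact linearIndependent_empty_type
  · ext x
    have hx : x = 0 := Subsingleton.elim _ _
    rw [hx]
    exact ⟨fun _ => Submodule.zero_mem _, fun _ => Submodule.zero_mem _⟩
  · rw [vol_of_isEmpty, Real.log_one, mul_zero]

theorem main_ineq (C : Cpl G) (N : Subgroup G) (b : ℝ) (hb : 1 ≤ b)
    (hb' : ∀ (ν : ℕ) (M : Mod G ν) (q : ℕ), NB (dR C M q) b ∧
      ∀ x, ∑ y, (dR C M q x y) ^ 2 ≤ b ^ 2)
    (hQ : ∀ q, QS C N q) (θ : ℝ) (hθ : 0 < θ) :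
    ∃ (F : Finset G) (e0 L : ℝ), 0 < e0 ∧ 0 ≤ L ∧ ∀ (ν : ℕ) (M : Mod G ν), 0 < ν →
      (M.bad F : ℝ) ≤ e0 * ν → ∀ δA δC : ℝ, 0 < δA → δA ≤ 1 → 0 < δC → δC ≤ 1 →
      ∀ par : ℕ, par ≤ 1 → 0 ≤ ∑ i ∈ Finset.range (C.d + 1), TT C M b L θ δA δC (2 * i + par) := by
  classical
  choose F e L he hL hstep using fun q => one_step C N b hb hb' q (hQ q) (hQ (q + 1)) θ hθ
  set n := 2 * (C.d + 1) + 2 with hn
  obtain ⟨e0, h0, h1⟩ := exists_min_pos e he n
  refine ⟨(Finset.range n).biUnion F, e0, ∑ q ∈ Finset.range n, L q, h0,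
    Finset.sum_nonneg (fun q _ => hL q), ?_⟩
  intro ν M hν hbad δA δC hA0 hA1 hC0 hC1 par hpar
  set Lc := ∑ q ∈ Finset.range n, L q with hLc
  have hst : ∀ q, q < n → ∀ X, PP C M (q + 2) X → PP C M q (X + TT C M b Lc θ δA δC q) := by
    rintro q hq X ⟨r, g, hg1, hg2, hg3⟩
    have hb1 : (M.bad (F q) : ℝ) ≤ e q * ν := by
      have h2 : F q ⊆ (Finset.range n).biUnion F :=
        Finset.subset_biUnion_of_mem F (Finset.mem_range.2 hq)
      have h3 : (M.bad (F q) : ℝ) ≤ (M.bad ((Finset.range n).biUnion F) : ℝ) := by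
        exact_mod_cast M.bad_mono h2
      have h4 : e0 * ν ≤ e q * ν := mul_le_mul_of_nonneg_right (h1 q hq) (Nat.cast_nonneg ν)
      linarith
    obtain ⟨r', g', k1, k2, k3⟩ := hstep q ν M hν hb1 δA δC hA0 hA1 hC0 hC1 r g hg1 hg2
    refine ⟨r', g', k1, k2, ?_⟩
    have h5 : L q ≤ Lc :=
      Finset.single_le_sum (f := L) (fun q _ => hL q) (Finset.mem_range.2 hq)
    have h6 := TT_mono C M b (hL q) h5 θ δA δC q
    have h7 := mul_le_mul_of_nonneg_left h6 (Nat.cast_nonneg (α := ℝ) ν)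
    rw [mul_add]
    linarith
  have key : ∀ k, k ≤ C.d + 1 → PP C M (2 * (C.d + 1 - k) + par)
      (∑ i ∈ Finset.Ico (C.d + 1 - k) (C.d + 1), TT C M b Lc θ δA δC (2 * i + par)) := by
    intro k
    induction k with
    | zero =>
      intro _
      rw [Nat.sub_zero, Finset.Ico_self, Finset.sum_empty]
      exact PP_start C M (by omega)
    | succ k ih =>
      intro hk
      have h2 := ih (by omega)
      obtain ⟨i, hi⟩ : ∃ i, i = C.d + 1 - (k + 1) := ⟨_, rfl⟩
      have hi1 : C.d + 1 - k = i + 1 := by omega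
      rw [← hi]
      rw [hi1] at h2
      have e1 : 2 * (i + 1) + par = (2 * i + par) + 2 := by ring
      rw [e1] at h2
      have h3 := hst (2 * i + par) (by omega) _ h2
      rw [Finset.sum_eq_sum_Ico_succ_bot (by omega : i < C.d + 1)]
      rw [add_comm (TT C M b Lc θ δA δC (2 * i + par))]
      exact h3
  have key0 := key (C.d + 1) le_rfl
  rw [Nat.sub_self] at key0
  obtain ⟨r, g, k1, k2, k3⟩ := key0
  have h8 := Real.log_nonneg (one_le_vol_int g k1)
  have hν' : (0 : ℝ) < ν := by exact_mod_cast hν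
  have h9 := h8.trans k3
  rw [Finset.range_eq_Ico]
  exact nonneg_of_mul_nonneg_right h9 hν'

end Pool.Agent.LT
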