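import Mathlib
import Pool.Agent.LT.Base
import Pool.Agent.LT.NormB
import Pool.Agent.LT.Net
import Pool.Agent.LT.RkLim
import Pool.Agent.LT.MI
import Pool.Agent.LT.FinalReal
import Pool.Agent.LT.AsmA

set_option autoImplicit false

/-!
# Project LT, module AsmC: the final inequality for the numbers `a q`

Let `a q := 1/2 ∫_{(0,∞)} log s dμ_q`.
PLAN `asm_ineq`: apply `limit_ineq` with `d := C.d`, `nn q := C.nn (q+1) / 2`,
`Ad q δ := 1/2 ∫ log (s + δ²) dμ_q - (C.nn (q+1) - wlim C q) log δ`, `c1 := log (b²+1) + log b` (`b` from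
`exists_b C`); `hA` is `spec_P`. For `h`: given `θ` take `F, e0, L` from `main_ineq`; for `δA, δC`,
`par`, eventually along the net (`Net.eventually`) `0 ≤ ∑ TT ..`; pass to the limit in every
summand: by `lim_P` and `tendsto_rk`, `TT (q) → θ + 1/2 ∫ log (s + δA²) dμ_q +
(nn(q+1) - w q + θ) |log δA| + nn(q+1)/2 log (1 + δC² L²) - 1/2 ∫ log (s + δC²) dμ_{q+1} -
w (q+2) |log δC| + θ log (b²+1) + θ log b`, `|log δ| = - log δ` for `0 < δ ≤ 1` and
`w (q+2) = nn(q+2) - w (q+1)`: this is `θ + Ad q δA + θ |log δA| + .. - Ad (q+1) δC + θ c1`.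
PLAN `asm_zero`: `∫ s dμ_0 = trZ (powG (aP C 0) 1) = 0` (`trZ_zero`), `s ≥ 0` almost everywhere, so
`μ_0 (Ioi 0) = 0`. PLAN `asm_top`: `nn (q+1) = 0`, so `∫ 1 dμ_q = trZ (powG _ 0) = 0` (empty sum),
`μ_q = 0`.
-/

open scoped BigOperators Topology
open MeasureTheory

namespace Pool.Agent.LT

variable {G : Type} [Group G]

/-- the limit of `TT` along the net -/
noncomputable def TTlim (C : Cpl G) (μ : ℕ → Measure ℝ) (b L θ δA δC : ℝ) (q : ℕ) : ℝ :=
  θ + (1 / 2 * (∫ s, Real.log (s + δA ^ 2) ∂(μ q)) +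
      (C.nn (q + 1) - wlim C q + θ) * |Real.log δA|) +
    (C.nn (q + 1) / 2 * Real.log (1 + δC ^ 2 * L ^ 2) -
      1 / 2 * (∫ s, Real.log (s + δC ^ 2) ∂(μ (q + 1))) - wlim C (q + 2) * |Real.log δC| +
      θ * Real.log (b ^ 2 + 1)) + θ * Real.log b

theorem tendsto_TT (C : Cpl G) (N : Subgroup G) (hQ : ∀ q, QS C N q) (X : Net G)
    (μ : ℕ → Measure ℝ) (hμ : ∀ q, HasMom (aP C q) (μ q)) (b L θ δA δC : ℝ) (hA : 0 < δA)
    (hC : 0 < δC) (q : ℕ) :
    Filter.Tendsto (fun i => TT C (X.M i) b L θ δA δC q) Filter.atTop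
      (𝓝 (TTlim C μ b L θ δA δC q)) := by
  have h1 := lim_P C X q (μ q) (hμ q) δA hA
  have h2 := lim_P C X (q + 1) (μ (q + 1)) (hμ (q + 1)) δC hC
  have h3 := tendsto_rk C N hQ X q
  have h4 := tendsto_rk C N hQ X (q + 2)
  unfold TT TTlim
  refine Filter.Tendsto.add_const _ ?_
  refine Filter.Tendsto.add ?_ ?_
  · refine Filter.Tendsto.const_add _ ?_
    refine Filter.Tendsto.add (h1.const_mul _) ?_
    exact ((h3.const_sub _).add_const _).mul_const _
  · refine Filter.Tendsto.add_const _ ?_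
    exact ((h2.const_mul _).const_sub _).sub (h4.mul_const _)

theorem asm_ineq (C : Cpl G) (N : Subgroup G) (hQ : ∀ q, QS C N q) (X : Net G)
    (μ : ℕ → Measure ℝ) (hμ : ∀ q, HasMom (aP C q) (μ q)) (par : ℕ) (hpar : par ≤ 1) :
    0 ≤ ∑ i ∈ Finset.range (C.d + 1),
      (1 / 2 * ∫ s in Set.Ioi 0, Real.log s ∂(μ (2 * i + par)) -
        1 / 2 * ∫ s in Set.Ioi 0, Real.log s ∂(μ (2 * i + par + 1))) := by
  classical
  obtain ⟨b, hb, hb'⟩ := exists_b C
  refine limit_ineq C.d (fun q => (C.nn (q + 1) : ℝ) / 2)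
    (fun q δ => 1 / 2 * ∫ s, Real.log (s + δ ^ 2) ∂(μ q) -
        (C.nn (q + 1) - wlim C q) * Real.log δ)
    (fun q => 1 / 2 * ∫ s in Set.Ioi 0, Real.log s ∂(μ q))
    (Real.log (b ^ 2 + 1) + Real.log b)
    (fun q => (spec_P C N hQ X q (μ q) (hμ q)).2) ?_ par hpar
  intro θ hθ
  obtain ⟨F, e0, L, he0, hL, hmain⟩ := main_ineq C N b hb
    (fun ν M q => ⟨(hb' ν M q).1, (hb' ν M q).2.2.2.2⟩) hQ θ hθ
  refine ⟨L, fun δA δC hA hA1 hC hC1 par hpar => ?_⟩
  have hlim : Filter.Tendsto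
      (fun i => ∑ j ∈ Finset.range (C.d + 1), TT C (X.M i) b L θ δA δC (2 * j + par))
      Filter.atTop
      (𝓝 (∑ j ∈ Finset.range (C.d + 1), TTlim C μ b L θ δA δC (2 * j + par))) :=
    tendsto_finsetSum _ fun j _ => tendsto_TT C N hQ X μ hμ b L θ δA δC hA hC (2 * j + par)
  have hev : ∀ᶠ i in Filter.atTop,
      0 ≤ ∑ j ∈ Finset.range (C.d + 1), TT C (X.M i) b L θ δA δC (2 * j + par) := by
    filter_upwards [X.eventually F e0 he0] with i hi
    exact hmain (X.ν i) (X.M i) (X.pos i) hi δA δC hA hA1 hC hC1 par hpar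
  have h0 := ge_of_tendsto hlim hev
  refine h0.trans (le_of_eq ?_)
  refine Finset.sum_congr rfl fun j _ => ?_
  have hlA : |Real.log δA| = -Real.log δA := abs_of_nonpos (Real.log_nonpos hA.le hA1)
  have hlC : |Real.log δC| = -Real.log δC := abs_of_nonpos (Real.log_nonpos hC.le hC1)
  have hw : wlim C (2 * j + par + 2) = C.nn (2 * j + par + 2) - wlim C (2 * j + par + 1) := rfl
  have hn : 2 * j + par + 1 + 1 = 2 * j + par + 2 := rfl
  unfold TTlim
  simp only [hlA, hlC, hw, hn]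
  ring

theorem asm_zero (C : Cpl G) (μ : Measure ℝ) (hμ : HasMom (aP C 0) μ) :
    ∫ s in Set.Ioi 0, Real.log s ∂μ = 0 := by
  obtain ⟨hfin, ⟨c, hc⟩, hmom⟩ := hμ
  have h1 := hmom 1
  rw [trZ_zero C 0] at h1
  simp only [pow_one, Int.cast_zero] at h1
  have hae : ∀ᵐ s ∂μ, s ∈ Set.Icc (0 : ℝ) c := by
    rw [ae_iff]
    exact hc
  have hnn : 0 ≤ᵐ[μ] fun s : ℝ => s := by
    filter_upwards [hae] with s hs
    exact hs.1
  have hint : Integrable (fun s : ℝ => s) μ := by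
    refine Integrable.mono' (integrable_const c) measurable_id.aestronglyMeasurable ?_
    filter_upwards [hae] with s hs
    change ‖s‖ ≤ c
    rw [Real.norm_eq_abs, abs_of_nonneg hs.1]
    exact hs.2
  have hz := (integral_eq_zero_iff_of_nonneg_ae hnn hint).1 h1
  have hz' : ∀ᵐ s ∂μ, s = 0 := hz
  have hI : μ (Set.Ioi 0) = 0 := by
    rw [ae_iff] at hz'
    refine measure_mono_null ?_ hz'
    intro s hs
    exact ne_of_gt hs
  rw [Measure.restrict_eq_zero.2 hI]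
  simp

theorem asm_top (C : Cpl G) (q : ℕ) (hq : C.d ≤ q) (μ : Measure ℝ) (hμ : HasMom (aP C q) μ) :
    ∫ s in Set.Ioi 0, Real.log s ∂μ = 0 := by
  obtain ⟨hfin, _, hmom⟩ := hμ
  have h0 := hmom 0
  have hn : C.nn (q + 1) = 0 := C.nn_top (q + 1) (by omega)
  have : IsEmpty (Fin (C.nn (q + 1))) := by rw [hn]; infer_instance
  have ht : trZ (powG (aP C q) 0) = 0 := by
    unfold trZ
    exact Finset.sum_of_isEmpty _
  rw [ht] at h0
  simp only [pow_zero, integral_const, smul_eq_mul, mul_one, Int.cast_zero] at h0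
  have hu : μ Set.univ = 0 := by
    rw [measureReal_def, ENNReal.toReal_eq_zero_iff] at h0
    rcases h0 with h | h
    · exact h
    · exact absurd h (measure_ne_top μ _)
  have hm : μ = 0 := Measure.measure_univ_eq_zero.1 hu
  rw [hm]
  simp

end Pool.Agent.LT
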