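import Mathlib
import Pool.Agent.LT.Defs
import Pool.Agent.LT.Base
import Pool.Agent.LT.OpAlg

set_option autoImplicit false

/-!
# Project LT, module OpEx: existence of the operators `x ↦ x a`

PLAN. For `h : G` and indices `j, i` let `R h j i : Hil G m →L[ℂ] Hil G n` be the operator with
`R (bv (g,j)) = bv (g * h, i)` and `R (bv (g,j')) = 0` for `j' ≠ j`. Construction: the linear map
`f ↦ (fun x => if x.2 = i then f (x.1 * h⁻¹, j) else 0)` from `lp .. 2` to `lp .. 2`: membership
(`Memℓp`, `memℓp_gen_iff`, summability of `‖f‖²` along the injective map `g ↦ (g h⁻¹, j)`,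
`Summable.comp_injective`) and norm bound `‖R f‖ ≤ ‖f‖` (`lp.norm_sq_eq_of_L2`/
`lp.norm_rpow_eq_tsum`, `tsum` comparison), `LinearMap.mkContinuous`. Then
`T := ∑_j ∑_{y ∈ supp (a j)} (a j y : ℂ) • R y.1 j y.2`.
Alternative: `lp` functoriality, or `Orthonormal`-extension: an isometry from a Hilbert basis
(`HilbertBasis`, `OrthonormalBasis`) if that is shorter.
-/

open scoped BigOperators InnerProductSpace

namespace Pool.Agent.LT

variable {G : Type} [Group G] {m n : ℕ}

/-- A map `φ : Y → Option X` is injective on the set where it is defined. -/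
private def PInj {X Y : Type} (φ : Y → Option X) : Prop :=
  ∀ y y' a, φ y = some a → φ y' = some a → y = y'

private def pullFun {X Y : Type} (φ : Y → Option X) (x : X → ℂ) (y : Y) : ℂ := (φ y).elim 0 x

private theorem sum_pullFun_le {X Y : Type} (φ : Y → Option X) (h : PInj φ)
    (x : lp (fun _ : X => ℂ) 2) (s : Finset Y) :
    ∑ y ∈ s, ‖pullFun φ x y‖ ^ (2 : ENNReal).toReal ≤ ‖x‖ ^ (2 : ENNReal).toReal := by
  classical
  set s' : Finset Y := s.filter (fun y => (φ y).isSome) with hs'
  have h1 : ∑ y ∈ s, ‖pullFun φ x y‖ ^ (2 : ENNReal).toReal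
      = ∑ y ∈ s', ‖pullFun φ x y‖ ^ (2 : ENNReal).toReal := by
    symm
    apply Finset.sum_subset (Finset.filter_subset _ _)
    intro y hy hy'
    have : φ y = none := by
      by_contra hc
      exact hy' (Finset.mem_filter.2 ⟨hy, Option.isSome_iff_ne_none.2 hc⟩)
    simp [pullFun, this]
  set t : Finset X := s'.biUnion (fun y => (φ y).toFinset) with ht
  have h2 : ∑ y ∈ s', ‖pullFun φ x y‖ ^ (2 : ENNReal).toReal
      = ∑ a ∈ t, ‖x a‖ ^ (2 : ENNReal).toReal := by
    refine Finset.sum_bij (fun y hy => (φ y).get (Finset.mem_filter.1 hy).2) ?_ ?_ ?_ ?_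
    · intro y hy
      rw [ht, Finset.mem_biUnion]
      exact ⟨y, hy, by simp⟩
    · intro y hy y' hy' he
      have e1 := Option.some_get (Finset.mem_filter.1 hy).2
      have e2 := Option.some_get (Finset.mem_filter.1 hy').2
      exact h y y' _ e1.symm (by rw [he]; exact e2.symm)
    · intro a ha
      rw [ht, Finset.mem_biUnion] at ha
      obtain ⟨y, hy, hya⟩ := ha
      simp only [Option.mem_toFinset, Option.mem_def] at hya
      exact ⟨y, hy, by simp [hya]⟩
    · intro y hy
      obtain ⟨a, ha⟩ := Option.isSome_iff_exists.1 (Finset.mem_filter.1 hy).2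
      simp [pullFun, ha]
  rw [h1, h2]
  exact lp.sum_rpow_le_norm_rpow (by norm_num) x t

/-- The operator `(pullO φ x) y = x (φ y)`. -/
private noncomputable def pullO {X Y : Type} (φ : Y → Option X) (h : PInj φ) :
    lp (fun _ : X => ℂ) 2 →L[ℂ] lp (fun _ : Y => ℂ) 2 :=
  LinearMap.mkContinuous
    { toFun := fun x => ⟨pullFun φ x, memℓp_gen' (sum_pullFun_le φ h x)⟩
      map_add' := fun x x' => by
        apply lp.ext
        funext y
        show pullFun φ (x + x') y = pullFun φ x y + pullFun φ x' y
        unfold pullFun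
        cases φ y with
        | none => simp
        | some a => simp
      map_smul' := fun c x => by
        apply lp.ext
        funext y
        show pullFun φ (c • x) y = c • pullFun φ x y
        unfold pullFun
        cases φ y with
        | none => simp
        | some a => simp }
    1 (fun x => by
      rw [one_mul]
      exact lp.norm_le_of_forall_sum_le (by norm_num) (norm_nonneg _) (sum_pullFun_le φ h x))

private theorem pullO_apply {X Y : Type} (φ : Y → Option X) (h : PInj φ)
    (x : lp (fun _ : X => ℂ) 2) (y : Y) : pullO φ h x y = (φ y).elim 0 x := rfl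

open Classical in
private noncomputable def shf (h : G) (j : Fin m) (i : Fin n) : G × Fin n → Option (G × Fin m) :=
  fun y => if y.2 = i then some (y.1 * h⁻¹, j) else none

private theorem shf_inj (h : G) (j : Fin m) (i : Fin n) : PInj (shf h j i) := by
  rintro ⟨g, i'⟩ ⟨g', i''⟩ ⟨g0, j0⟩ h1 h2
  unfold shf at h1 h2
  by_cases e1 : i' = i
  · by_cases e2 : i'' = i
    · simp only [e1, e2, if_true, Option.some.injEq, Prod.mk.injEq] at h1 h2
      have : g = g' := by
        have h3 := h1.1.trans h2.1.symm
        exact mul_right_cancel h3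
      subst this
      rw [e1, e2]
    · simp [e2] at h2
  · simp [e1] at h1

theorem exists_rop_single (h : G) (j : Fin m) (i : Fin n) :
    ∃ R : Hil G m →L[ℂ] Hil G n, ∀ (g : G) (j' : Fin m),
      R (bv (g, j')) = if j' = j then bv (g * h, i) else 0 := by
  classical
  refine ⟨pullO (shf h j i) (shf_inj h j i), fun g j' => ?_⟩
  apply lp.ext
  funext y
  obtain ⟨k, i'⟩ := y
  rw [pullO_apply]
  by_cases e : j' = j
  · rw [if_pos e, bv_apply]
    subst e
    unfold shf
    by_cases e1 : i' = i
    · subst e1
      simp only [if_true, Option.elim_some, bv_apply, Prod.mk.injEq, and_true]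
      have : (k * h⁻¹ = g) ↔ (k = g * h) := by
        constructor
        · intro h1
          rw [← h1]; group
        · intro h1
          rw [h1]; group
      simp only [this]
    · simp [e1]
  · rw [if_neg e]
    unfold shf
    by_cases e1 : i' = i
    · simp only [e1, if_true, Option.elim_some, bv_apply, Prod.mk.injEq]
      rw [if_neg (fun h' => e h'.2.symm)]
      rfl
    · simp [e1]

theorem exists_ropF (a : Fin m → (G × Fin n →₀ ℤ)) :
    ∃ T : Hil G m →L[ℂ] Hil G n, IsRopF a T := by
  classical
  choose R hR using fun (h : G) (j : Fin m) (i : Fin n) => exists_rop_single (G := G) h j i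
  refine ⟨∑ j, ∑ y ∈ (a j).support, ((a j y : ℤ) : ℂ) • R y.1 j y.2, fun g j => ?_⟩
  simp only [sum_apply, smul_apply, hR]
  rw [Finset.sum_eq_single j]
  · simp only [if_true]
    rfl
  · intro j' _ hj'
    refine Finset.sum_eq_zero fun y _ => ?_
    rw [if_neg (Ne.symm hj'), smul_zero]
  · intro hj
    exact absurd (Finset.mem_univ _) hj

end Pool.Agent.LT
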