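import Mathlib
import Pool.Agent.LT.Defs
import Pool.Agent.LT.Base
import Pool.Agent.LT.OpAlg

set_option autoImplicit false
set_option linter.unusedSectionVars false

/-!
# Project LT, module OpInj: injectivity from the spectral measure

PLAN. Let `T` be positive, `T = (x ↦ x a)` with a group ring matrix `a`, `μ` its spectral measure,
`μ (Set.Icc 0 c)ᶜ = 0`, `c ≥ 1` (enlarge `c`), `μ {0} = 0`. For `k : ℕ` let
`P_k := (1 - c⁻¹ • T)^k`; it is selfadjoint.
(1) `trG (P_k * P_k) = trG ((1 - c⁻¹ T)^(2k)) = ∫ (1 - s/c)^(2k) dμ` (expand the power by the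
binomial theorem on both sides: moments; `trG` is linear), and this tends to `μ {0} = 0` for
`k → ∞` by dominated convergence (`0 ≤ 1 - s/c ≤ 1` on `[0,c]`, `< 1` for `s > 0`).
(2) `‖P_k (bv (1,j))‖² = (inner (bv (1,j)) (P_k (P_k (bv (1,j))))).re ≤ trG (P_k * P_k)` (all
summands are nonnegative). By equivariance `‖P_k (bv (g,j))‖ = ‖P_k (bv (1,j))‖`: `P_k` is a real
linear combination of the operators `T^i = (x ↦ x a^i)` (`ropF_pow`), so
`inner (bv (g h, i)) (P_k (bv (g,j)))` does not depend on `g` (for `IsRopF b S`,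
`inner (bv (g h,i)) (S (bv (g,j))) = b j (h,i)`; left translation by `g` is a bijection of the
coordinates), or: the left translation `L_g` (an isometry with `L_g (bv x) = bv (g x.1, x.2)`)
commutes with `T`. Simplest: prove
`‖P_k (bv (g,j))‖² = inner (bv (g,j)) (P_k² (bv (g,j)))` and for every operator `S` with `IsRopF b S`
`inner (bv (g,j)) (S (bv (g,j))) = b j (1,j)`, independent of `g`; extend to linear combinations.
(3) If `T x = 0` then `P_k x = x`, so for all `y = (g,j)`
`|inner (bv y) x| = |inner (P_k (bv y)) x| ≤ ‖P_k (bv y)‖ ‖x‖ → 0`. So all coordinates of `x`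
vanish (`inner_bv`), `x = 0`.
-/

open scoped BigOperators InnerProductSpace
open MeasureTheory

namespace Pool.Agent.LT

variable {G : Type} [Group G] {n : ℕ}

/-- evaluation of real polynomials in the operator `T` -/
private noncomputable def pe (T : Hil G n →L[ℂ] Hil G n) (p : Polynomial ℝ) :
    Hil G n →L[ℂ] Hil G n :=
  Polynomial.aeval T (p.map (algebraMap ℝ ℂ))

private lemma pe_add (T : Hil G n →L[ℂ] Hil G n) (p q : Polynomial ℝ) :
    pe T (p + q) = pe T p + pe T q := by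
  simp [pe]

private lemma pe_mul (T : Hil G n →L[ℂ] Hil G n) (p q : Polynomial ℝ) :
    pe T (p * q) = pe T p * pe T q := by
  simp [pe]

private lemma pe_pow (T : Hil G n →L[ℂ] Hil G n) (p : Polynomial ℝ) (k : ℕ) :
    pe T (p ^ k) = pe T p ^ k := by
  simp [pe]

private lemma pe_monomial (T : Hil G n →L[ℂ] Hil G n) (k : ℕ) (r : ℝ) :
    pe T (Polynomial.monomial k r) = (r : ℂ) • T ^ k := by
  simp [pe, Algebra.smul_def]

private lemma trG_add (S T : Hil G n →L[ℂ] Hil G n) : trG (S + T) = trG S + trG T := by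
  unfold trG
  rw [← Finset.sum_add_distrib]
  refine Finset.sum_congr rfl fun j _ => ?_
  rw [ContinuousLinearMap.add_apply, inner_add_right, Complex.add_re]

private lemma trG_smul (r : ℝ) (T : Hil G n →L[ℂ] Hil G n) : trG ((r : ℂ) • T) = r * trG T := by
  unfold trG
  rw [Finset.mul_sum]
  refine Finset.sum_congr rfl fun j _ => ?_
  rw [ContinuousLinearMap.smul_apply, inner_smul_right, Complex.re_ofReal_mul]

private lemma spec_integrable {μ : Measure ℝ} [IsFiniteMeasure μ] {c : ℝ}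
    (hc : μ (Set.Icc 0 c)ᶜ = 0) (p : Polynomial ℝ) : Integrable (fun s => p.eval s) μ := by
  have h1 : μ.restrict (Set.Icc 0 c) = μ :=
    Measure.restrict_eq_self_of_ae_mem (mem_ae_iff.2 hc)
  have h2 : IntegrableOn (fun s => p.eval s) (Set.Icc 0 c) μ :=
    p.continuous.integrableOn_Icc
  rw [IntegrableOn, h1] at h2
  exact h2

private lemma trG_pe (T : Hil G n →L[ℂ] Hil G n) {μ : Measure ℝ} [IsFiniteMeasure μ] {c : ℝ}
    (hc : μ (Set.Icc 0 c)ᶜ = 0) (hm : ∀ k : ℕ, ∫ s, s ^ k ∂μ = trG (T ^ k)) (p : Polynomial ℝ) :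
    trG (pe T p) = ∫ s, p.eval s ∂μ := by
  induction p using Polynomial.induction_on' with
  | add p q hp hq =>
    rw [pe_add, trG_add, hp, hq, ← integral_add (spec_integrable hc p) (spec_integrable hc q)]
    simp
  | monomial k r =>
    rw [pe_monomial, trG_smul, ← hm k, ← integral_const_mul]
    simp

private lemma inner_pe (T : Hil G n →L[ℂ] Hil G n) (a : Fin n → (G × Fin n →₀ ℤ))
    (ha : IsRopF a T) (p : Polynomial ℝ) (g : G) (j : Fin n) :
    (inner ℂ (bv (g, j)) (pe T p (bv (g, j))) : ℂ) =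
      inner ℂ (bv ((1 : G), j)) (pe T p (bv (1, j))) := by
  induction p using Polynomial.induction_on' with
  | add p q hp hq =>
    rw [pe_add, ContinuousLinearMap.add_apply, ContinuousLinearMap.add_apply, inner_add_right,
      inner_add_right, hp, hq]
  | monomial k r =>
    rw [pe_monomial, ContinuousLinearMap.smul_apply, ContinuousLinearMap.smul_apply,
      inner_smul_right, inner_smul_right]
    congr 1
    have h := ropF_pow a T ha k
    rw [h g j, h 1 j]
    simp only [Finsupp.sum, inner_sum, inner_smul_right, inner_bv]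
    classical
    refine Finset.sum_congr rfl fun y _ => ?_
    congr 1
    rw [bv_apply, bv_apply]
    simp only [Prod.mk.injEq, one_mul, left_eq_mul, eq_comm (a := (1 : G))]

private lemma pe_lin (T : Hil G n →L[ℂ] Hil G n) (c : ℝ) :
    pe T (1 - Polynomial.C c * Polynomial.X) = 1 - (c : ℂ) • T := by
  simp [pe, Algebra.smul_def]

theorem injective_of_spec (a : Fin n → (G × Fin n →₀ ℤ)) (T : Hil G n →L[ℂ] Hil G n)
    (hT : T.IsPositive) (ha : IsRopF a T) (μ : Measure ℝ) (hμ : IsSpec T μ)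
    (h0 : μ {0} = 0) : Function.Injective T := by
  classical
  obtain ⟨hfin, ⟨c₀, hc₀⟩, hm⟩ := hμ
  -- enlarge the bound
  set c : ℝ := max c₀ 1 with hcdef
  have hc1 : 0 < c := lt_of_lt_of_le one_pos (le_max_right _ _)
  have hc : μ (Set.Icc 0 c)ᶜ = 0 := by
    refine measure_mono_null ?_ hc₀
    exact Set.compl_subset_compl.2 (Set.Icc_subset_Icc le_rfl (le_max_left _ _))
  -- the operators
  set q : Polynomial ℝ := 1 - Polynomial.C c⁻¹ * Polynomial.X with hq
  have hU : pe T q = 1 - ((c⁻¹ : ℝ) : ℂ) • T := pe_lin T c⁻¹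
  have hTsa : IsSelfAdjoint T := hT.isSelfAdjoint
  have hUsa : IsSelfAdjoint (pe T q) := by
    rw [hU]
    refine (IsSelfAdjoint.one _).sub ?_
    refine IsSelfAdjoint.smul ?_ hTsa
    rw [isSelfAdjoint_iff, RCLike.star_def, Complex.conj_ofReal]
  have hPsa : ∀ k : ℕ, IsSelfAdjoint (pe T q ^ k) := fun k => hUsa.pow k
  -- the trace tends to zero
  have hlim : Filter.Tendsto (fun k : ℕ => trG (pe T (q ^ k * q ^ k))) Filter.atTop (nhds 0) := by
    have h1 : ∀ k : ℕ, trG (pe T (q ^ k * q ^ k)) = ∫ s, (1 - c⁻¹ * s) ^ k * (1 - c⁻¹ * s) ^ k ∂μ := by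
      intro k
      rw [trG_pe T hc hm]
      simp [hq]
    simp_rw [h1]
    have h2 : (0 : ℝ) = ∫ _s : ℝ, (0 : ℝ) ∂μ := by simp
    rw [h2]
    have hae : ∀ᵐ s ∂μ, s ∈ Set.Icc 0 c ∧ s ≠ 0 := by
      have e1 : ∀ᵐ s ∂μ, s ∈ Set.Icc 0 c := mem_ae_iff.2 hc
      have e2 : ∀ᵐ s ∂μ, s ≠ 0 := by
        rw [ae_iff]
        simpa using h0
      filter_upwards [e1, e2] with s h3 h4 using ⟨h3, h4⟩
    have hb : ∀ s : ℝ, s ∈ Set.Icc 0 c → 0 ≤ 1 - c⁻¹ * s ∧ 1 - c⁻¹ * s ≤ 1 := by
      intro s hs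
      have h5 : c⁻¹ * s ≤ 1 := by
        rw [inv_mul_le_iff₀ hc1, mul_one]
        exact hs.2
      have h6 : 0 ≤ c⁻¹ * s := mul_nonneg (inv_nonneg.2 hc1.le) hs.1
      constructor <;> linarith
    refine tendsto_integral_of_dominated_convergence (fun _ => (1 : ℝ)) ?_ (integrable_const _) ?_ ?_
    · intro k
      exact (by fun_prop : Continuous fun s : ℝ =>
        (1 - c⁻¹ * s) ^ k * (1 - c⁻¹ * s) ^ k).aestronglyMeasurable
    · intro k
      filter_upwards [hae] with s hs
      obtain ⟨h5, h6⟩ := hb s hs.1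
      rw [Real.norm_of_nonneg (by positivity)]
      exact mul_le_one₀ (pow_le_one₀ h5 h6) (by positivity) (pow_le_one₀ h5 h6)
    · filter_upwards [hae] with s hs
      obtain ⟨h5, h6⟩ := hb s hs.1
      have h7 : 1 - c⁻¹ * s < 1 := by
        have : 0 < c⁻¹ * s := mul_pos (inv_pos.2 hc1) (lt_of_le_of_ne hs.1.1 (Ne.symm hs.2))
        linarith
      have h8 := tendsto_pow_atTop_nhds_zero_of_lt_one h5 h7
      simpa using h8.mul h8
  -- the norms
  have hnorm : ∀ (k : ℕ) (g : G) (j : Fin n),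
      ‖(pe T q ^ k) (bv (g, j))‖ ^ 2 = (inner ℂ (bv ((1 : G), j))
        (pe T (q ^ k * q ^ k) (bv (1, j)))).re := by
    intro k g j
    rw [← inner_pe T a ha (q ^ k * q ^ k) g j, pe_mul, pe_pow, ContinuousLinearMap.mul_apply]
    have h1 : (inner ℂ (bv (g, j)) ((pe T q ^ k) ((pe T q ^ k) (bv (g, j)))) : ℂ) =
        inner ℂ ((pe T q ^ k) (bv (g, j))) ((pe T q ^ k) (bv (g, j))) := by
      have h2 := ContinuousLinearMap.adjoint_inner_left (pe T q ^ k) ((pe T q ^ k) (bv (g, j)))
        (bv (g, j))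
      rw [← ContinuousLinearMap.star_eq_adjoint, (hPsa k).star_eq] at h2
      exact h2.symm
    rw [h1, inner_self_eq_norm_sq_to_K]
    norm_cast
  have hle : ∀ (k : ℕ) (g : G) (j : Fin n),
      ‖(pe T q ^ k) (bv (g, j))‖ ^ 2 ≤ trG (pe T (q ^ k * q ^ k)) := by
    intro k g j
    rw [hnorm k g j]
    unfold trG
    refine Finset.single_le_sum (f := fun j : Fin n => (inner ℂ (bv ((1 : G), j))
        (pe T (q ^ k * q ^ k) (bv (1, j)))).re) (fun i _ => ?_) (Finset.mem_univ j)
    rw [← hnorm k 1 i]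
    positivity
  refine (injective_iff_map_eq_zero T).2 fun x hx => ?_
  have hUx : ∀ k : ℕ, (pe T q ^ k) x = x := by
    intro k
    induction k with
    | zero => simp
    | succ k ih =>
      rw [pow_succ, ContinuousLinearMap.mul_apply]
      have : (pe T q) x = x := by
        rw [hU]
        simp [hx]
      rw [this, ih]
  apply lp.ext
  funext y
  obtain ⟨g, j⟩ := y
  have h1 : ∀ k : ℕ, ‖x (g, j)‖ ≤ Real.sqrt (trG (pe T (q ^ k * q ^ k))) * ‖x‖ := by
    intro k
    rw [← inner_bv (g, j) x]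
    have h2 : (inner ℂ (bv (g, j)) x : ℂ) = inner ℂ ((pe T q ^ k) (bv (g, j))) x := by
      have h3 := ContinuousLinearMap.adjoint_inner_left (pe T q ^ k) x (bv (g, j))
      rw [← ContinuousLinearMap.star_eq_adjoint, (hPsa k).star_eq, hUx k] at h3
      exact h3.symm
    rw [h2]
    refine (norm_inner_le_norm _ _).trans ?_
    refine mul_le_mul_of_nonneg_right ?_ (norm_nonneg _)
    exact Real.le_sqrt_of_sq_le (hle k g j)
  have h2 : Filter.Tendsto (fun k : ℕ => Real.sqrt (trG (pe T (q ^ k * q ^ k))) * ‖x‖)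
      Filter.atTop (nhds 0) := by
    have h3 := (hlim.sqrt).mul_const ‖x‖
    simpa using h3
  have h3 : ‖x (g, j)‖ ≤ 0 := ge_of_tendsto' h2 h1
  have h4 : x (g, j) = 0 := norm_le_zero_iff.1 h3
  rw [h4]
  rfl

end Pool.Agent.LT
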