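import Mathlib
import Pool.Agent.LT.Defs
import Pool.Agent.LT.Base
import Pool.Agent.LT.OpAlg

set_option autoImplicit false

/-!
# Project LT, module OpSpec: the spectral measure with respect to the trace exists

PLAN. `T` is a positive bounded operator on the Hilbert space `H = Hil G n`. Let `c := ‖T‖`. For a
continuous function `f : ℝ → ℝ` let `Λ f := trG (cfc f T)` (real continuous functional calculus of
the selfadjoint `T`; `cfc (R := ℝ)` with the predicate `IsSelfAdjoint`, instance for the
C*-algebra `H →L[ℂ] H`). It is linear in `f` (`cfc_add`, `cfc_const_mul`), depends only on the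
restriction of `f` to the spectrum, which is contained in `[0,c]`
(`ContinuousLinearMap.IsPositive`, `spectrum_nonneg_of_nonneg`, `spectrum.norm_le_norm_of_mem`), and
`Λ f ≥ 0` if `f ≥ 0` on `[0,c]` (`cfc_nonneg`; for a positive operator `S`,
`(inner (bv x) (S (bv x))).re ≥ 0`). `Λ (s^k) = trG (T^k)` (`cfc_pow_id`).
Riesz-Markov-Kakutani (`RealRMK.integral_rieszMeasure`) on the compact space `X := Set.Icc 0 c`: the
positive linear functional `C_c(X, ℝ) → ℝ`, `f ↦ Λ (f ∘ projIcc)` (`Set.projIcc`, `Set.IccExtend`)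
gives a measure on `X`; push it forward to `ℝ` (`Measure.map Subtype.val`). It is finite
(`X` compact), supported in `[0,c]`, and `∫ s^k = Λ (s^k) = trG (T^k)`.
Alternative: for each `j` the moment functional of the vector `bv (1,j)`; sum over `j`.
-/

open scoped BigOperators InnerProductSpace CompactlySupported
open MeasureTheory

namespace Pool.Agent.LT

section General

variable {E : Type*} [NormedAddCommGroup E] [InnerProductSpace ℂ E] [CompleteSpace E] {n : ℕ}

private noncomputable def trV (v : Fin n → E) (S : E →L[ℂ] E) : ℝ :=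
  ∑ j, (inner ℂ (v j) (S (v j))).re

omit [CompleteSpace E] in
private lemma trV_add (v : Fin n → E) (S S' : E →L[ℂ] E) :
    trV v (S + S') = trV v S + trV v S' := by
  unfold trV
  rw [← Finset.sum_add_distrib]
  refine Finset.sum_congr rfl fun j _ => ?_
  rw [add_apply, inner_add_right, Complex.add_re]

omit [CompleteSpace E] in
private lemma trV_smul (v : Fin n → E) (r : ℝ) (S : E →L[ℂ] E) :
    trV v (r • S) = r * trV v S := by
  unfold trV
  rw [Finset.mul_sum]
  refine Finset.sum_congr rfl fun j _ => ?_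
  rw [smul_apply, RCLike.real_smul_eq_coe_smul (K := ℂ), inner_smul_right]
  exact Complex.re_ofReal_mul _ _

omit [CompleteSpace E] in
private lemma trV_nonneg (v : Fin n → E) (S : E →L[ℂ] E) (hS : 0 ≤ S) : 0 ≤ trV v S := by
  rw [ContinuousLinearMap.nonneg_iff_isPositive] at hS
  exact Finset.sum_nonneg fun j _ => hS.re_inner_nonneg_right _

private theorem exists_spec_gen (v : Fin n → E) (T : E →L[ℂ] E) (hT : T.IsPositive) :
    ∃ μ : Measure ℝ, IsFiniteMeasure μ ∧ (∃ c : ℝ, μ (Set.Icc 0 c)ᶜ = 0) ∧
    ∀ k : ℕ, ∫ s, s ^ k ∂μ = trV v (T ^ k) := by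
  classical
  obtain ⟨c, hc0, hspec⟩ : ∃ c : ℝ, 0 ≤ c ∧ spectrum ℝ T ⊆ Set.Icc 0 c := by
    refine ⟨‖T‖ * ‖(1 : E →L[ℂ] E)‖, by positivity, fun x hx => ⟨?_, ?_⟩⟩
    · exact spectrum_nonneg_of_nonneg ((ContinuousLinearMap.nonneg_iff_isPositive T).2 hT) hx
    · exact (le_abs_self x).trans (spectrum.norm_le_norm_mul_of_mem hx)
  have hsa : IsSelfAdjoint T := hT.isSelfAdjoint
  have hE : ∀ f : Set.Icc (0 : ℝ) c → ℝ, Continuous f → Continuous (Set.IccExtend hc0 f) :=
    fun f hf => hf.Icc_extend'
  let L : C_c(Set.Icc (0 : ℝ) c, ℝ) →ₗ[ℝ] ℝ :=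
    { toFun := fun f => trV v (cfc (Set.IccExtend hc0 f) T)
      map_add' := by
        intro f g
        rw [← trV_add, ← cfc_add _ _ _ (hE f f.continuous).continuousOn
          (hE g g.continuous).continuousOn]
        rfl
      map_smul' := by
        intro r f
        rw [RingHom.id_apply, smul_eq_mul, ← trV_smul, ← cfc_const_mul _ _ _
          (hE f f.continuous).continuousOn]
        rfl }
  let Λ : C_c(Set.Icc (0 : ℝ) c, ℝ) →ₚ[ℝ] ℝ := PositiveLinearMap.mk₀ L (by
    intro f hf
    refine trV_nonneg _ _ (cfc_nonneg fun x _ => ?_)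
    exact hf (Set.projIcc 0 c hc0 x))
  have hfin : IsFiniteMeasure (RealRMK.rieszMeasure Λ) := inferInstance
  refine ⟨(RealRMK.rieszMeasure Λ).map Subtype.val, inferInstance, ⟨c, ?_⟩, fun k => ?_⟩
  · rw [Measure.map_apply measurable_subtype_coe measurableSet_Icc.compl]
    have : (Subtype.val ⁻¹' (Set.Icc (0 : ℝ) c)ᶜ : Set (Set.Icc (0 : ℝ) c)) = ∅ := by
      ext x
      simp only [Set.mem_preimage, Set.mem_compl_iff, Set.mem_empty_iff_false, iff_false,
        not_not]
      exact x.2
    rw [this, measure_empty]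
  · rw [integral_map measurable_subtype_coe.aemeasurable
      (by fun_prop : Continuous fun s : ℝ => s ^ k).aestronglyMeasurable]
    let f : C_c(Set.Icc (0 : ℝ) c, ℝ) :=
      { toFun := fun x => (x : ℝ) ^ k
        continuous_toFun := by fun_prop
        hasCompactSupport' := HasCompactSupport.of_compactSpace _ }
    have h1 := RealRMK.integral_rieszMeasure Λ f
    have h2 : Λ f = trV v (T ^ k) := by
      show trV v (cfc (Set.IccExtend hc0 f) T) = trV v (T ^ k)
      rw [← cfc_pow_id (R := ℝ) T k hsa]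
      congr 1
      refine cfc_congr fun x hx => ?_
      show f (Set.projIcc 0 c hc0 x) = x ^ k
      rw [Set.projIcc_of_mem hc0 (hspec hx)]
      rfl
    rw [← h2, ← h1]
    rfl

end General

variable {G : Type} [Group G] {n : ℕ}

theorem exists_spec (T : Hil G n →L[ℂ] Hil G n) (hT : T.IsPositive) :
    ∃ μ : Measure ℝ, IsSpec T μ :=
  exists_spec_gen (fun j : Fin n => (bv ((1 : G), j) : Hil G n)) T hT

end Pool.Agent.LT
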