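import Mathlib
import Pool.Agent.LT.Defs
import Pool.Agent.LT.Base
import Pool.Agent.LT.Amen
import Pool.Agent.LT.QBase
import Pool.Agent.LT.QStep
import Pool.Agent.LT.Net
import Pool.Agent.LT.AsmC
import Pool.Agent.LT.OpEx
import Pool.Agent.LT.OpSpec
import Pool.Agent.LT.OpInj
import Pool.Agent.LT.Bridge

set_option autoImplicit false

/-!
# Project LT: final assembly
-/

open scoped BigOperators Topology InnerProductSpace
open MeasureTheory

namespace Pool.Agent.LT

variable {G : Type} [Group G]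

theorem qs_all (C : Cpl G) (N : Subgroup G) [N.Normal] (hN : FN N)
    (hinf : (N : Set G).Infinite) : ∀ q, QS C N q
  | 0 => qs_zero C N hN hinf
  | q + 1 => qs_succ C N hN q (qs_all C N hN hinf q)

lemma hasMom_of_spec {n : ℕ} (a : Fin n → (G × Fin n →₀ ℤ)) (T : Hil G n →L[ℂ] Hil G n)
    (h : IsRopF a T) (μ : Measure ℝ) (hμ : IsSpec T μ) : HasMom a μ := by
  obtain ⟨h1, h2, h3⟩ := hμ
  refine ⟨h1, h2, fun k => ?_⟩
  rw [h3 k]
  exact trG_ropF _ _ (ropF_pow a T h k)

lemma comp_eq_zero_of_nn_zero (C : FinRes G)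
    (c : Hil G ((toCpl C).nn (0 + 1)) →L[ℂ] Hil G ((toCpl C).nn 0)) :
    (ContinuousLinearMap.adjoint c) ∘L c = 0 := by
  have h0 : c = 0 := by
    ext x y
    exact Fin.elim0 y.2
  rw [h0]
  simp

theorem lt_main (hG : IsSofic G) (N : Subgroup G) [N.Normal] [Infinite N]
    (hN : IsAmenable N) (C : FinRes G) : LTStatement G C := by
  set K : Cpl G := toCpl C with hK
  have hFN : FN N := fn_of_isAmenable N hN
  have hinf : (N : Set G).Infinite := Set.infinite_coe_iff.1 inferInstance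
  have hQ : ∀ q, QS K N q := qs_all K N hFN hinf
  obtain ⟨X⟩ := exists_net hG
  choose c' hc' using fun q => exists_ropF (G := G) (K.D q)
  let P : ∀ q, Hil G (K.nn (q + 1)) →L[ℂ] Hil G (K.nn (q + 1)) := fun q =>
    (ContinuousLinearMap.adjoint (c' q)) ∘L c' q
  let Q : ∀ q, Hil G (K.nn (q + 1)) →L[ℂ] Hil G (K.nn (q + 1)) := fun q =>
    c' (q + 1) ∘L (ContinuousLinearMap.adjoint (c' (q + 1)))
  have hPpos : ∀ q, (P q).IsPositive := fun q =>
    ContinuousLinearMap.isPositive_adjoint_comp_self (c' q)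
  have hQpos : ∀ q, (Q q).IsPositive := fun q =>
    ContinuousLinearMap.isPositive_self_comp_adjoint (c' (q + 1))
  have hPr : ∀ q, IsRopF (aP K q) (P q) := fun q =>
    ropF_comp _ _ _ _ (hc' q) (ropF_adjoint _ _ (hc' q))
  have hQr : ∀ q, IsRopF (mulG (starG (K.D (q + 1))) (K.D (q + 1))) (Q q) := fun q =>
    ropF_comp _ _ _ _ (ropF_adjoint _ _ (hc' (q + 1))) (hc' (q + 1))
  have hLr : ∀ q, IsRopF (aL K q) (P q + Q q) := fun q =>
    ropF_add _ _ _ _ (hPr q) (hQr q)
  have hLpos : ∀ q, (P q + Q q).IsPositive := fun q => (hPpos q).add (hQpos q)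
  choose μ hμ using fun q => exists_spec (P q) (hPpos q)
  choose μL hμL using fun q => exists_spec (P q + Q q) (hLpos q)
  have hm : ∀ q, HasMom (aP K q) (μ q) := fun q => hasMom_of_spec _ _ (hPr q) _ (hμ q)
  have hmL : ∀ q, HasMom (aL K q) (μL q) := fun q => hasMom_of_spec _ _ (hLr q) _ (hμL q)
  have hL := fun q => spec_L K N hQ X q (μ q) (μ (q + 1)) (μL q) (hm q) (hm (q + 1)) (hmL q)
  let c : ∀ p, Hil G (C.n (p + 1)) →L[ℂ] Hil G (C.n p) := fun p => c' (p + 1)
  have hlap : ∀ p, lap c p = P p + Q p := by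
    intro p
    cases p with
    | zero =>
      have h0 : P 0 = 0 := comp_eq_zero_of_nn_zero C (c' 0)
      rw [h0, zero_add]
      rfl
    | succ p => exact add_comm (Q (p + 1)) (P (p + 1))
  refine ⟨c, ?_, ?_, ?_, ?_⟩
  · intro p
    exact (isRop_iff (C.D p) (c p)).2 (hc' (p + 1))
  · intro p
    rw [hlap p]
    exact injective_of_spec (aL K p) _ (hLpos p) (hLr p) (μL p) (hμL p) (hL p).1
  · intro p
    refine ⟨∫ s in Set.Ioi 0, Real.log s ∂(μ (p + 1)), μ (p + 1), hμ (p + 1), ?_, rfl⟩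
    exact (spec_P K N hQ X (p + 1) (μ (p + 1)) (hm (p + 1))).1
  · refine ⟨fun p => ∫ s in Set.Ioi 0, Real.log s ∂(μL p), fun p => ?_, ?_⟩
    · refine ⟨μL p, ?_, (hL p).2.1, rfl⟩
      rw [hlap p]
      exact hμL p
    · have halt := alternating K.d (fun q => 1 / 2 * ∫ s in Set.Ioi 0, Real.log s ∂(μ q))
        (by simp only [asm_zero K (μ 0) (hm 0), mul_zero])
        (fun q hq => by simp only [asm_top K q hq.le (μ q) (hm q), mul_zero])
        (fun par hpar => asm_ineq K N hQ X μ hm par hpar)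
      have hKd : K.d = C.d + 1 := rfl
      rw [hKd, Finset.sum_range_succ] at halt
      have h1 : ∫ s in Set.Ioi 0, Real.log s ∂(μ (C.d + 1)) = 0 :=
        asm_top K (C.d + 1) (le_of_eq hKd) _ (hm _)
      have h2 : ∫ s in Set.Ioi 0, Real.log s ∂(μ (C.d + 1 + 1)) = 0 :=
        asm_top K (C.d + 1 + 1) (by rw [hKd]; omega) _ (hm _)
      simp only [h1, h2, mul_zero, add_zero] at halt
      refine Eq.trans ?_ halt
      refine Finset.sum_congr rfl fun p _ => ?_
      simp only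
      rw [(hL p).2.2]
      ring

end Pool.Agent.LT
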